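import Pool.Agent.Lib.HS.F.Spec

/-!
# Project H*, torus lemma (T): points near rational geodesics, Hecke eigenfunctions with small eigenvalues

(helper83; for note 4687, see the reports 4697 - 4699.) In the bad case the set of `x ∈ Om R` such that some `n ∈ ℤ³`, `n ≠ 0`, `|n_i| ≤ H` has
off-diagonal entries of `x⁻¹ X₀(n) x` at most `δ`, where `H δ ≤ w^(1/200)`, has mass at most `w^(1/1400)` (`StmtFTT`). Method: LEMMA U with good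
directions depending on `x` (no amplifier). Conventions as in `HS/F/Spec.lean` (file `Pool/Agent/Lib/HS/F/<Name>.lean`, import `HS.F.SpecT`).
-/

set_option autoImplicit false

namespace Pool.Agent.A54.HSF

open MeasureTheory Filter Topology Set
open scoped UpperHalfPlane MatrixGroups ENNReal
open Pool.Agent.A54.Dyn (G fl base ze io mk4 dom)
open Pool.Agent.A54.Av (Mat)
open Pool.Agent.A54.Hp (nu nm Mn Om Nb bt xi uu pr nz Tb ms FF HE Pm GdC GdK StmtNuL StmtUnf StmtNm)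

noncomputable section

/-- the matrix `(n₀, n₁; n₂, 0)`; `uu (X0 n) = n` -/
def X0 (n : Fin 3 → ℤ) : Mat := !![n 0, n 1; n 2, 0]

/-- conjugation: the traceless part of `adj(m) X₀(n) m` -/
def cjv (m : Mat) (n : Fin 3 → ℤ) : Fin 3 → ℤ := uu (m.adjugate * X0 n * m)

/-- the discriminant -/
def dn (n : Fin 3 → ℤ) : ℤ := n 0 ^ 2 + 4 * n 1 * n 2

/-- the `(0,1)` entry of `x⁻¹ X₀(n) x` -/
def oa (x : G) (n : Fin 3 → ℤ) : ℝ := n 1 * x 1 1 ^ 2 + n 0 * (x 0 1 * x 1 1) - n 2 * x 0 1 ^ 2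

/-- the `(1,0)` entry of `x⁻¹ X₀(n) x` -/
def ob (x : G) (n : Fin 3 → ℤ) : ℝ := n 2 * x 0 0 ^ 2 - n 0 * (x 0 0 * x 1 0) - n 1 * x 1 0 ^ 2

/-- the difference of the diagonal entries of `x⁻¹ X₀(n) x` -/
def od (x : G) (n : Fin 3 → ℤ) : ℝ :=
  n 0 * (x 0 0 * x 1 1 + x 0 1 * x 1 0) + 2 * n 1 * (x 1 0 * x 1 1) - 2 * n 2 * (x 0 0 * x 0 1)

/-- the points near the geodesic of `n` -/
def TV (R δ : ℝ) (n : Fin 3 → ℤ) : Set G := {x | x ∈ Om R ∧ |oa x n| ≤ δ ∧ |ob x n| ≤ δ}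

/-- the torus points of height `H` and precision `δ` -/
def TT (R H δ : ℝ) : Set G := {x | ∃ n : Fin 3 → ℤ, n ≠ 0 ∧ (∀ i, |(n i : ℝ)| ≤ H) ∧ x ∈ TV R δ n}

/-- returns for a family -/
def RtF (S : Finset (Fin 3 → ℤ)) (P : Finset ℕ) (k : ℕ) (V : (Fin 3 → ℤ) → Set G) (z : G) :
    Set ((Fin 3 → ℤ) × ℕ × ℕ × SL(2, ℤ)) :=
  {y | y.1 ∈ S ∧ y.2.1 ∈ P ∧ y.2.2.1 ∈ Gr y.1 y.2.1 k ∧ nm (AT (y.2.1 ^ k) y.2.2.1 * (y.2.2.2 : Mat)) * z ∈ V y.1}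

/-- **Cj** algebra of `cjv` (uses `Nm`). Proof. `adj(m) X₀(n) m = X₀(cjv m n) + σ`, `σ` scalar (`uu (X0 n) = n`, and a matrix is `X₀(uu) + m₁₁`), and `uu` does not see scalars; `adj (m m') = adj m' adj m`. (3) `dn n = tr² - 4 det` of `X₀(n)` and of `X₀(n) + σ`; `det (adj(m) X m) = det(m)² det X`,
`tr (adj(m) X m) = det(m) tr X`; or expand and `ring`. (4) `(nm m x)⁻¹ X₀(n) (nm m x) = x⁻¹ (adj(m) X₀(n) m) x / det m` (`Nm` (3), entries of `nm`): expand in the entries of `x` (`NmM.nm_of`, `NmM.mul_ij`), `field_simp`, `ring`. (5) identity with `x₀₀ x₁₁ - x₀₁ x₁₀ = 1`. -/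
def StmtCj : Prop :=
  (∀ (m m' : Mat) (n : Fin 3 → ℤ), cjv (m * m') n = cjv m' (cjv m n)) ∧
  (∀ (q : ℤ) (m : Mat) (n : Fin 3 → ℤ) (i : Fin 3), cjv (q • m) n i = q ^ 2 * cjv m n i) ∧
  (∀ (m : Mat) (n : Fin 3 → ℤ), dn (cjv m n) = m.det ^ 2 * dn n) ∧
  (∀ (m : Mat) (x : G) (n : Fin 3 → ℤ), 0 < m.det → oa (nm m * x) n * ((m.det : ℤ) : ℝ) = oa x (cjv m n) ∧
    ob (nm m * x) n * ((m.det : ℤ) : ℝ) = ob x (cjv m n) ∧ od (nm m * x) n * ((m.det : ℤ) : ℝ) = od x (cjv m n)) ∧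
  (∀ (x : G) (n : Fin 3 → ℤ), ((dn n : ℤ) : ℝ) = od x n ^ 2 + 4 * (oa x n * ob x n)) ∧
  (∀ (m : Mat) (a b : ℤ) (n n' : Fin 3 → ℤ) (i : Fin 3),
    cjv m (fun j => a * n j + b * n' j) i = a * cjv m n i + b * cjv m n' i)

/-- **Pp** primitive vectors (uses `Cj`). Proof. (1) for `γ ∈ SL(2, ℤ)`, `m = γ`: `cjv γ⁻¹ (cjv γ n) = n` (`Cj` (1)) and every coordinate of `cjv γ⁻¹ v` is an integral combination of the coordinates of `v`, so Bezout for `n` gives Bezout for `cjv γ n`. (2) `q = p^k`: with `A = AT q c`: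
`cjv A n = (q (n₀ + 2 c n₂), - Fq n c, q² n₂)`. If `v = cjv A n` is not primitive there is a prime `r` dividing its three coordinates (e.g. `r ∣ gcd`); `r ≠ p` (`p ∤ Fq n c`), so `r ∤ q`, `r ∣ n₂`, `r ∣ n₀ + 2 c n₂`, so `r ∣ n₀`, and `r ∣ Fq n c` gives `r ∣ n₁`: contradiction with `Prim n`. Together with
`Cj` (1) (`cjv (A γ) n = cjv γ (cjv A n)`). (3) if `v, v'` are primitive and `v_i v'_j = v_j v'_i` for all `i, j` then `v' = (∑ a_i v'_i) v` with `a` the Bezout vector of `v`, and symmetrically, so the factor is a unit. -/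
def StmtPp : Prop :=
  (∀ (n : Fin 3 → ℤ) (p k c : ℕ) (γ : SL(2, ℤ)), Prim n → p.Prime → c ∈ Gr n p k →
    Prim (cjv (AT (p ^ k) c * (γ : Mat)) n)) ∧
  ∀ v v' : Fin 3 → ℤ, Prim v → Prim v' → (∀ i j, v i * v' j = v j * v' i) → v' = v ∨ v' = -v

/-- **Pl** parallel vectors (uses nothing). Proof. With `a, b, c, d` the entries of `x` (`ad - bc = 1`): `n₀ = od (ad + bc) + 2bd ob - 2ac oa`, `n₁ = a² oa - b² ob - ab od`, `n₂ = d² ob - c² oa + cd od` (`ring` after `ad - bc = 1`), coefficients at most `2R²`. So `n_i n'_j - n_j n'_i` is a combination, with coefficients at most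
`8R⁴`, of the three `2 × 2` minors of `(od, oa, ob)`, `(od', oa', ob')`, at most `A δ' + A' δ` or `2 δ δ'`. An integer of absolute value `< 1` is `0`. (2) `|od x n| ≤ 6R² H`. (3) if `dn n = 0` then `od² = -4 oa ob ≤ 4δ²`, so `|n_i| ≤ C δ < 1`. -/
def StmtPl : Prop := ∀ R : ℝ, 1 ≤ R → ∃ C : ℝ, 1 ≤ C ∧ ∀ x ∈ Om R,
  (∀ (n n' : Fin 3 → ℤ) (A A' δ δ' : ℝ), |od x n| ≤ A → |oa x n| ≤ δ → |ob x n| ≤ δ → |od x n'| ≤ A' → |oa x n'| ≤ δ' → |ob x n'| ≤ δ' →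
    C * (A * δ' + A' * δ + δ * δ') < 1 → ∀ i j, n i * n' j = n j * n' i) ∧
  (∀ (n : Fin 3 → ℤ) (H : ℝ), (∀ i, |(n i : ℝ)| ≤ H) → |od x n| ≤ C * H) ∧
  ∀ (n : Fin 3 → ℤ) (δ : ℝ), n ≠ 0 → |oa x n| ≤ δ → |ob x n| ≤ δ → C * δ < 1 → dn n ≠ 0

/-- **Sz** the common vector of a star (uses `Nm`, `Cj`, `Pp`, `Pl`). Proof. `h, h'` the two matrices, `x = nm h z ∈ TV R δ n`, `x' = nm h' z ∈ TV R δ n'`, `m = h' adj(h)`, `det m = p'^k p^k ≤ M⁴`, `nm m x = nm (m h) z = nm (p^k • h') z = x'`. `n'' = cjv m n'`: by `Cj` (4) `|oa x n''|, |ob x n''| ≤ M⁴ δ`, `|od x n''| ≤ M⁴ C H`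
(`Pl` (2) at `x'`), `|od x n| ≤ C H`. By `Pl` (1) `n` and `n''` are parallel. Apply the linear map `cjv h` (`Cj` (6)): `cjv h n` and `cjv h n'' = cjv (m h) n' = cjv (p^k • h') n' = p^(2k) cjv h' n'` are parallel, so `cjv h n` and `cjv h' n'` are parallel; both are primitive (`Pp` (1)), `Pp` (2). -/
def StmtSz : Prop := ∀ R : ℝ, 1 ≤ R → ∃ C : ℝ, 1 ≤ C ∧ ∀ M H δ : ℝ, 1 ≤ M → 1 ≤ H → 0 ≤ δ → C * (M ^ 4 * (H * δ)) < 1 →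
  ∀ k : ℕ, 1 ≤ k → k ≤ 2 → ∀ p p' : ℕ, p.Prime → p'.Prime → (p : ℝ) ≤ M → (p' : ℝ) ≤ M → ∀ (n n' : Fin 3 → ℤ), Prim n → Prim n' →
    (∀ i, |(n i : ℝ)| ≤ H) → (∀ i, |(n' i : ℝ)| ≤ H) → ∀ c ∈ Gr n p k, ∀ c' ∈ Gr n' p' k, ∀ (γ γ' : SL(2, ℤ)) (z : G),
      nm (AT (p ^ k) c * (γ : Mat)) * z ∈ TV R δ n → nm (AT (p' ^ k) c' * (γ' : Mat)) * z ∈ TV R δ n' →
        cjv (AT (p' ^ k) c' * (γ' : Mat)) n' = cjv (AT (p ^ k) c * (γ : Mat)) n ∨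
        cjv (AT (p' ^ k) c' * (γ' : Mat)) n' = -cjv (AT (p ^ k) c * (γ : Mat)) n

/-- **Sp** the same prime (uses nothing, or `Cj`). Proof. `q = p^k`, `h, h'` the two matrices, `det = q`. `Y(n) = 2 X₀(n) - n₀ = (n₀, 2n₁; 2n₂, -n₀)` is traceless, and `uu (adj(h) Y(n) h) = 2 cjv h n`, `adj(h) Y(n) h` is traceless; so `cjv h' n' = ± cjv h n` gives `adj(h') Y(n') h' = ± adj(h) Y(n) h`. Multiply by `h'` on the left and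
`adj(h)` on the right, `m = h' adj(h)`: `q Y(n') m = ± q m Y(n)`, so `Y(n') m = ± m Y(n)`. `v = (-c, 1)`: `m AT q c = q h' γ⁻¹`, so `m v ≡ 0 mod q` (second column), and `m Y(n) v = ± Y(n') m v ≡ 0 mod q`. The matrix with the columns `v, Y(n) v` has determinant `± 2 Fq n c`, so `q ∣ 2 Fq n c m_ij` for all `i, j`
(multiply by the adjugate), and `2 Fq n c` is prime to `p` (`p` odd, `c ∈ Gr n p k`): `q ∣ m_ij`. `m = q δ`, `det m = q²`, `det δ = 1`, `q h' = m h = q δ h`. -/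
def StmtSp : Prop := ∀ (n n' : Fin 3 → ℤ) (p k c c' : ℕ) (γ γ' : SL(2, ℤ)), p.Prime → 3 ≤ p → c ∈ Gr n p k → c' ∈ Gr n' p k →
  (cjv (AT (p ^ k) c' * (γ' : Mat)) n' = cjv (AT (p ^ k) c * (γ : Mat)) n ∨
    cjv (AT (p ^ k) c' * (γ' : Mat)) n' = -cjv (AT (p ^ k) c * (γ : Mat)) n) →
      ∃ δ : SL(2, ℤ), AT (p ^ k) c' * (γ' : Mat) = (δ : Mat) * (AT (p ^ k) c * (γ : Mat))

/-- **CtT** the number of returns (uses `Nm`, `Cj`, `Pl`, `Sz`, `Sp`). `S` = a finite set of primitive `n`, `|n_i| ≤ H`; `P` primes in `(M₀, M]`. Proof. If `RtF` is empty there is nothing to prove; fix `y₀ = (n₀, p₀, c₀, γ₀)` and `N = dn (cjv h₀ n₀) = p₀^(2k) dn n₀ ≠ 0` (`Cj` (3), `Pl` (3)), `|N| ≤ M⁴ 5 H²`. By `Sz` every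
`y = (n, p, c, γ) ∈ RtF` has `cjv h n = ± cjv h₀ n₀` (`dn (-v) = dn v`), so `p^(2k) dn n = N` and `p^(2k) ∣ N`. If `J + 1` different primes occurred, their product to the power `2k` would divide `N`: `M₀^(2(J+1)) ≤ |N|`, impossible. So at most `J` primes occur. For a fixed prime `p` that occurs fix one `y₁ = (n₁, p, c₁, γ₁)`: every
`y` with this `p` has `h = δ h₁` (`Sz`, `Sp`), `io δ = (nm h z) (nm h₁ z)⁻¹`, so `|δ_ij| ≤ 2R²`: at most `(2 ⌊2R²⌋ + 1)⁴` values of `δ`; `δ` determines `h` and `(c, γ)` (see `Ct.lean`), and `n` up to sign: `cjv h` is injective (`det ≠ 0`: `cjv (adj h) (cjv h n) = cjv (det h • 1) n = det(h)² n`). -/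
def StmtCtT : Prop := ∀ R : ℝ, 1 ≤ R → ∃ C : ℝ, 1 ≤ C ∧ ∀ M₀ M H δ : ℝ, 3 ≤ M₀ → M₀ ≤ M → 1 ≤ H → 0 ≤ δ → C * (M ^ 4 * (H * δ)) < 1 →
  ∀ J : ℕ, 5 * M ^ 4 * H ^ 2 < M₀ ^ (2 * (J + 1)) → ∀ P : Finset ℕ, (∀ p ∈ P, p.Prime ∧ M₀ < p ∧ (p : ℝ) ≤ M) →
    ∀ S : Finset (Fin 3 → ℤ), (∀ n ∈ S, Prim n ∧ ∀ i, |(n i : ℝ)| ≤ H) → ∀ k : ℕ, 1 ≤ k → k ≤ 2 → ∀ z : G,
      (RtF S P k (TV R δ) z).encard ≤ ((J * (2 * (2 * ⌊2 * R ^ 2⌋₊ + 1) ^ 4) : ℕ) : ℕ∞)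

/-- **UfF** unfolding for families (uses `NuL`, `Unf`, `Nm`, `Id`). Proof. As `Uf` (`HS/F/Uf.lean`, by helper92: copy and adapt): `Id` on `V n` with the good set `Gr n p k`, sum over `n ∈ S` and `p ∈ P`; the lemma `UfM.one` for each `(n, p, c)`; the number of `(n, p, c, γ)` is `(RtF S P k V z).encard`. -/
def StmtUfF : Prop := ∀ (l : ℕ → ℝ) (Φ : G → ℂ), HE l Φ → ∀ (S : Finset (Fin 3 → ℤ)) (V : (Fin 3 → ℤ) → Set G), (∀ n ∈ S, Prim n) →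
  (∀ n ∈ S, MeasurableSet (V n)) → ∀ P : Finset ℕ, Sml l P → ∀ N : ℕ,
    (∀ k : ℕ, 1 ≤ k → k ≤ 2 → ∀ z : G, (RtF S P k V z).encard ≤ N) → (P.card : ℝ≥0∞) * ∑ n ∈ S, ms Φ (V n) ≤ 8 * N

/-- **TTm** torus points (uses `UfF`, `CtT`). Proof. `S` = all primitive `n` with `|n_i| ≤ H` (finite). If `n ≠ 0`, `n = g n'` with `n'` primitive, `g ≥ 1`, then `|n'_i| ≤ H` and `TV R δ n ⊆ TV R δ n'`; so `TT R H δ ⊆ ⋃_{n ∈ S} TV R δ n`, `ms` is subadditive, `TV` is closed. -/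
def StmtTTm : Prop := ∀ R : ℝ, 1 ≤ R → ∃ C : ℝ, 1 ≤ C ∧ ∀ (l : ℕ → ℝ) (Φ : G → ℂ), HE l Φ → ∀ M₀ M H δ : ℝ, 5 ≤ M₀ → M₀ ≤ M → 1 ≤ H → 0 ≤ δ →
  C * (M ^ 4 * (H * δ)) < 1 → ∀ J : ℕ, 5 * M ^ 4 * H ^ 2 < M₀ ^ (2 * (J + 1)) → ∀ P : Finset ℕ, Sml l P → (∀ p ∈ P, M₀ < p ∧ (p : ℝ) ≤ M) →
    (P.card : ℝ≥0∞) * ms Φ (TT R H δ) ≤ ENNReal.ofReal (C * J)

/-- **FTT** torus points in the bad case (uses `TTm`, `Bp`). Proof. `a = 9/10000`, `P` from `Bp`, without the primes `≤ M₀ = w^(-a/2)`: at least `w^(-9a/10) - w^(-a/2) ≥ w^(-9a/10)/2` primes in `(M₀, M]`, `M = 4 w^(-a)`. `C M⁴ H δ ≤ 256 C w^(-4a) w^(1/200) < 1` (`4a = 0.0036`). `5 M⁴ H² ≤ 1280 w^(-4a-4) < w^(-5) = w^(-a · 50000/9) ≤ M₀^(2(J+1))`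
for `J + 1 ≥ 5556`. So `ms ≤ 2 C J w^(9a/10) ≤ w^(1/1400)` (`0.00081 > 1/1400`). -/
def StmtFTT : Prop := ∀ K R : ℝ, 2 ≤ K → 1 ≤ R → ∃ w₁ : ℝ, 0 < w₁ ∧ w₁ ≤ 1 ∧ ∀ (l : ℕ → ℝ) (Φ : G → ℂ), HE l Φ → ∀ w : ℝ, 0 < w → w ≤ w₁ →
  ¬ GdK K l w → ∀ H δ : ℝ, 1 ≤ H → H ≤ w ^ (-2 : ℝ) → 0 ≤ δ → H * δ ≤ w ^ (1 / 200 : ℝ) →
    ms Φ (TT R H δ) ≤ ENNReal.ofReal (w ^ (1 / 1400 : ℝ))

end

end Pool.Agent.A54.HSF
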