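import Pool.Agent.Lib.HS.F.SpecT
import Pool.Agent.Lib.MP_a54f13_nt.Hp.Nm

/-!
Project H*, torus lemma, module `Cj` (helper96): algebra of the conjugation of vectors.
-/

set_option autoImplicit false

namespace Pool.Agent.A54.HSF

open MeasureTheory Filter Topology Set
open scoped UpperHalfPlane MatrixGroups ENNReal
open Pool.Agent.A54.Dyn (G fl base ze io mk4 dom)
open Pool.Agent.A54.Av (Mat)
open Pool.Agent.A54.Hp (nu nm Mn Om Nb bt xi uu pr nz Tb ms FF HE Pm GdC GdK StmtNuL StmtUnf StmtNm)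

noncomputable section

namespace CjM

private lemma e00 (m : Mat) (n : Fin 3 → ℤ) : (m.adjugate * X0 n * m) 0 0 =
    m 1 1 * (n 0 * m 0 0 + n 1 * m 1 0) - m 0 1 * (n 2 * m 0 0) := by
  rw [Matrix.adjugate_fin_two]
  simp [X0, Matrix.mul_apply, Fin.sum_univ_two]
  ring

private lemma e01 (m : Mat) (n : Fin 3 → ℤ) : (m.adjugate * X0 n * m) 0 1 =
    m 1 1 * (n 0 * m 0 1 + n 1 * m 1 1) - m 0 1 * (n 2 * m 0 1) := by
  rw [Matrix.adjugate_fin_two]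
  simp [X0, Matrix.mul_apply, Fin.sum_univ_two]
  ring

private lemma e10 (m : Mat) (n : Fin 3 → ℤ) : (m.adjugate * X0 n * m) 1 0 =
    -(m 1 0 * (n 0 * m 0 0 + n 1 * m 1 0)) + m 0 0 * (n 2 * m 0 0) := by
  rw [Matrix.adjugate_fin_two]
  simp [X0, Matrix.mul_apply, Fin.sum_univ_two]
  ring

private lemma e11 (m : Mat) (n : Fin 3 → ℤ) : (m.adjugate * X0 n * m) 1 1 =
    -(m 1 0 * (n 0 * m 0 1 + n 1 * m 1 1)) + m 0 0 * (n 2 * m 0 1) := by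
  rw [Matrix.adjugate_fin_two]
  simp [X0, Matrix.mul_apply, Fin.sum_univ_two]
  ring

lemma c0 (m : Mat) (n : Fin 3 → ℤ) : cjv m n 0 =
    n 0 * (m 0 0 * m 1 1 + m 0 1 * m 1 0) + 2 * n 1 * (m 1 0 * m 1 1)
      - 2 * n 2 * (m 0 0 * m 0 1) := by
  show (m.adjugate * X0 n * m) 0 0 - (m.adjugate * X0 n * m) 1 1 = _
  rw [e00, e11]
  ring

lemma c1 (m : Mat) (n : Fin 3 → ℤ) : cjv m n 1 =
    n 1 * m 1 1 ^ 2 + n 0 * (m 0 1 * m 1 1) - n 2 * m 0 1 ^ 2 := by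
  show (m.adjugate * X0 n * m) 0 1 = _
  rw [e01]
  ring

lemma c2 (m : Mat) (n : Fin 3 → ℤ) : cjv m n 2 =
    n 2 * m 0 0 ^ 2 - n 0 * (m 0 0 * m 1 0) - n 1 * m 1 0 ^ 2 := by
  show (m.adjugate * X0 n * m) 1 0 = _
  rw [e10]
  ring

private lemma mm (m m' : Mat) (i j : Fin 2) : (m * m') i j = m i 0 * m' 0 j + m i 1 * m' 1 j := by
  rw [Matrix.mul_apply, Fin.sum_univ_two]

/-- coordinates of a function on `Fin 3` -/
private lemma all3 {p : Fin 3 → Prop} (h0 : p 0) (h1 : p 1) (h2 : p 2) (i : Fin 3) : p i := by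
  fin_cases i
  · exact h0
  · exact h1
  · exact h2

lemma p1 (m m' : Mat) (n : Fin 3 → ℤ) : cjv (m * m') n = cjv m' (cjv m n) := by
  funext i
  revert i
  refine all3 ?_ ?_ ?_
  · rw [c0, c0, c0, c1, c2, mm, mm, mm, mm]
    ring
  · rw [c1, c1, c0, c1, c2, mm, mm]
    ring
  · rw [c2, c2, c0, c1, c2, mm, mm]
    ring

lemma p2 (q : ℤ) (m : Mat) (n : Fin 3 → ℤ) (i : Fin 3) : cjv (q • m) n i = q ^ 2 * cjv m n i := by
  have h : ∀ i j, (q • m) i j = q * m i j := fun i j => rfl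
  revert i
  refine all3 ?_ ?_ ?_
  · rw [c0, c0, h, h, h, h]
    ring
  · rw [c1, c1, h, h]
    ring
  · rw [c2, c2, h, h]
    ring

lemma p3 (m : Mat) (n : Fin 3 → ℤ) : dn (cjv m n) = m.det ^ 2 * dn n := by
  unfold dn
  rw [c0, c1, c2, Matrix.det_fin_two]
  ring

lemma p6 (m : Mat) (a b : ℤ) (n n' : Fin 3 → ℤ) (i : Fin 3) :
    cjv m (fun j => a * n j + b * n' j) i = a * cjv m n i + b * cjv m n' i := by
  revert i
  refine all3 ?_ ?_ ?_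
  · rw [c0, c0, c0]
    ring
  · rw [c1, c1, c1]
    ring
  · rw [c2, c2, c2]
    ring

lemma p5 (x : G) (n : Fin 3 → ℤ) : ((dn n : ℤ) : ℝ) = od x n ^ 2 + 4 * (oa x n * ob x n) := by
  have hd : x 0 0 * x 1 1 - x 0 1 * x 1 0 = 1 := by
    have h := x.det_coe
    rw [Matrix.det_fin_two] at h
    exact h
  have h2 : od x n ^ 2 + 4 * (oa x n * ob x n) =
      (x 0 0 * x 1 1 - x 0 1 * x 1 0) ^ 2 * ((n 0 : ℝ) ^ 2 + 4 * n 1 * n 2) := by
    unfold od oa ob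
    ring
  rw [h2, hd]
  unfold dn
  push_cast
  ring

section conj

variable {m : Mat} (hm : 0 < m.det) (x : G) (n : Fin 3 → ℤ)

private lemma sq_pos' (hm : 0 < m.det) :
    √((m.det : ℤ) : ℝ) ≠ 0 ∧ √((m.det : ℤ) : ℝ) ^ 2 = ((m.det : ℤ) : ℝ) := by
  have h1 : (0 : ℝ) < ((m.det : ℤ) : ℝ) := by exact_mod_cast hm
  exact ⟨(Real.sqrt_pos.mpr h1).ne', Real.sq_sqrt h1.le⟩

private lemma en (hm : 0 < m.det) (i j : Fin 2) : (nm m * x) i j * √((m.det : ℤ) : ℝ) =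
    (m i 0 : ℝ) * x 0 j + (m i 1 : ℝ) * x 1 j := by
  have h := (sq_pos' hm).1
  rw [Hp.NmM.mul_ij, Hp.NmM.nm_of hm, Hp.NmM.nm_of hm]
  field_simp

lemma p4a (hm : 0 < m.det) : oa (nm m * x) n * ((m.det : ℤ) : ℝ) = oa x (cjv m n) := by
  have h1 : ∀ s D : ℝ, s ^ 2 = D → oa (nm m * x) n * D =
      n 1 * ((nm m * x) 1 1 * s) ^ 2 +
      n 0 * (((nm m * x) 0 1 * s) * ((nm m * x) 1 1 * s)) -
      n 2 * ((nm m * x) 0 1 * s) ^ 2 := by
    intro s D h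
    rw [← h]
    unfold oa
    ring
  rw [h1 _ _ (sq_pos' hm).2, en x hm, en x hm]
  unfold oa
  rw [c0, c1, c2]
  push_cast
  ring

lemma p4b (hm : 0 < m.det) : ob (nm m * x) n * ((m.det : ℤ) : ℝ) = ob x (cjv m n) := by
  have h1 : ∀ s D : ℝ, s ^ 2 = D → ob (nm m * x) n * D =
      n 2 * ((nm m * x) 0 0 * s) ^ 2 -
      n 0 * (((nm m * x) 0 0 * s) * ((nm m * x) 1 0 * s)) -
      n 1 * ((nm m * x) 1 0 * s) ^ 2 := by
    intro s D h
    rw [← h]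
    unfold ob
    ring
  rw [h1 _ _ (sq_pos' hm).2, en x hm, en x hm]
  unfold ob
  rw [c0, c1, c2]
  push_cast
  ring

lemma p4d (hm : 0 < m.det) : od (nm m * x) n * ((m.det : ℤ) : ℝ) = od x (cjv m n) := by
  have h1 : ∀ s D : ℝ, s ^ 2 = D → od (nm m * x) n * D =
      n 0 * (((nm m * x) 0 0 * s) * ((nm m * x) 1 1 * s) +
        ((nm m * x) 0 1 * s) * ((nm m * x) 1 0 * s)) +
      2 * n 1 * (((nm m * x) 1 0 * s) * ((nm m * x) 1 1 * s)) -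
      2 * n 2 * (((nm m * x) 0 0 * s) * ((nm m * x) 0 1 * s)) := by
    intro s D h
    rw [← h]
    unfold od
    ring
  rw [h1 _ _ (sq_pos' hm).2, en x hm, en x hm, en x hm, en x hm]
  unfold od
  rw [c0, c1, c2]
  push_cast
  ring

end conj

end CjM

theorem stmtCj (h1 : StmtNm) : StmtCj :=
  ⟨CjM.p1, CjM.p2, CjM.p3,
    fun _ x n hm => ⟨CjM.p4a x n hm, CjM.p4b x n hm, CjM.p4d x n hm⟩,
    CjM.p5, CjM.p6⟩

end

end Pool.Agent.A54.HSF
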