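import Pool.Agent.Lib.HS.F.Spec

/-!
# Project H*, part (F), module Ct: the number of returns
-/

set_option autoImplicit false

namespace Pool.Agent.A54.HSF

open MeasureTheory Filter Topology Set
open scoped UpperHalfPlane MatrixGroups ENNReal
open Pool.Agent.A54.Dyn (G fl base ze io mk4 dom)
open Pool.Agent.A54.Av (Mat)
open Pool.Agent.A54.Hp (nu nm Mn Om Nb bt xi uu pr nz Tb ms FF HE Pm GdC GdK StmtNuL StmtUnf StmtNm)

noncomputable section

namespace CtM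

theorem inv_mem {R : ℝ} {y : G} (hy : y ∈ Om R) : y⁻¹ ∈ Om R := by
  intro i j
  fin_cases i <;> fin_cases j
  · change |y⁻¹ 0 0| ≤ R
    rw [Dyn.inv_00]
    exact hy 1 1
  · change |y⁻¹ 0 1| ≤ R
    rw [Dyn.inv_01, abs_neg]
    exact hy 0 1
  · change |y⁻¹ 1 0| ≤ R
    rw [Dyn.inv_10, abs_neg]
    exact hy 1 0
  · change |y⁻¹ 1 1| ≤ R
    rw [Dyn.inv_11]
    exact hy 0 0

theorem mul_le {R : ℝ} {x z : G} (hx : x ∈ Om R) (hz : z ∈ Om R) (i j : Fin 2) :
    |(x * z) i j| ≤ 2 * R ^ 2 := by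
  have h : (x * z) i j = x i 0 * z 0 j + x i 1 * z 1 j := by
    change (x.1 * z.1) i j = _
    rw [Matrix.mul_apply, Fin.sum_univ_two]
  rw [h]
  have hR : 0 ≤ R := (abs_nonneg _).trans (hx 0 0)
  calc |x i 0 * z 0 j + x i 1 * z 1 j| ≤ |x i 0 * z 0 j| + |x i 1 * z 1 j| := abs_add_le _ _
    _ = |x i 0| * |z 0 j| + |x i 1| * |z 1 j| := by rw [abs_mul, abs_mul]
    _ ≤ R * R + R * R := by
      gcongr
      · exact hx i 0
      · exact hz 0 j
      · exact hx i 1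
      · exact hz 1 j
    _ = 2 * R ^ 2 := by ring

theorem det_AT (n c : ℕ) : (AT n c).det = n := by
  simp [AT, Matrix.det_fin_two_of]

theorem det_h (n c : ℕ) (γ : SL(2, ℤ)) : (AT n c * (γ : Mat)).det = n := by
  rw [Matrix.det_mul, det_AT, Matrix.SpecialLinearGroup.det_coe, mul_one]

/-- pure arithmetic -/
theorem arith {q c c' a b d e a' b' : ℤ} (hq : 0 < q) (hc0 : 0 ≤ c) (hc : c < q) (hc0' : 0 ≤ c')
    (hc' : c' < q) (hdet : a * e - b * d = 1) (h0 : q * a - c * d = q * a' - c' * d)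
    (h1 : q * b - c * e = q * b' - c' * e) : c = c' ∧ a = a' ∧ b = b' := by
  have h2 : c - c' = q * (b * a' - a * b') := by
    linear_combination (-(c - c')) * hdet + (-a) * h1 + b * h0
  have h3 : c - c' = 0 := by
    refine Int.eq_zero_of_abs_lt_dvd (m := q) ⟨_, h2⟩ ?_
    rw [abs_lt]
    constructor <;> linarith
  have h4 : c = c' := by linarith
  subst h4
  refine ⟨rfl, ?_, ?_⟩
  · exact mul_left_cancel₀ hq.ne' (by linarith)
  · exact mul_left_cancel₀ hq.ne' (by linarith)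

theorem inj {q c c' : ℕ} {γ γ' : SL(2, ℤ)} (hc : c < q) (hc' : c' < q)
    (h : AT q c * (γ : Mat) = AT q c' * (γ' : Mat)) : c = c' ∧ γ = γ' := by
  have e00 := congrFun (congrFun h 0) 0
  have e01 := congrFun (congrFun h 0) 1
  have e10 := congrFun (congrFun h 1) 0
  have e11 := congrFun (congrFun h 1) 1
  simp only [AT, Matrix.mul_apply, Fin.sum_univ_two, Matrix.of_apply, Matrix.cons_val',
    Matrix.cons_val_zero, Matrix.cons_val_one, Matrix.cons_val_fin_one, zero_mul, one_mul,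
    zero_add] at e00 e01 e10 e11
  have d : (γ : Mat) 0 0 * (γ : Mat) 1 1 - (γ : Mat) 0 1 * (γ : Mat) 1 0 = 1 := by
    have h1 := γ.det_coe
    rwa [Matrix.det_fin_two] at h1
  have hq : (0 : ℤ) < q := by
    have : 0 < q := lt_of_le_of_lt (Nat.zero_le _) hc
    exact_mod_cast this
  obtain ⟨h1, h2, h3⟩ := arith (q := q) (c := c) (c' := c') (a := (γ : Mat) 0 0)
    (b := (γ : Mat) 0 1) (d := (γ : Mat) 1 0) (e := (γ : Mat) 1 1) (a' := (γ' : Mat) 0 0)
    (b' := (γ' : Mat) 0 1) hq (by positivity) (by exact_mod_cast hc) (by positivity)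
    (by exact_mod_cast hc') d
    (by rw [← e10] at e00; linarith) (by rw [← e11] at e01; linarith)
  refine ⟨by exact_mod_cast h1, ?_⟩
  apply Subtype.ext
  ext i j
  fin_cases i <;> fin_cases j
  · exact h2
  · exact h3
  · exact e10
  · exact e11

/-- one return compared with another one -/
theorem step (h1 : StmtNm) (h2 : StmtAl) {V : Set G} {P : Finset ℕ} (hP : ∀ p ∈ P, p.Prime)
    {n : Fin 3 → ℤ} (hn : Prim n) (hC : Colp n P V) {k : ℕ} (hk : 1 ≤ k) (hk2 : k ≤ 2) {z : G}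
    {y y' : ℕ × ℕ × SL(2, ℤ)} (hy : y ∈ Rt P n k V z) (hy' : y' ∈ Rt P n k V z) :
    y.1 = y'.1 ∧ ∃ δ : SL(2, ℤ), AT (y'.1 ^ k) y'.2.1 * (y'.2.2 : Mat) =
      (δ : Mat) * (AT (y.1 ^ k) y.2.1 * (y.2.2 : Mat)) := by
  obtain ⟨p, c, γ⟩ := y
  obtain ⟨p', c', γ'⟩ := y'
  obtain ⟨a1, a2, a3⟩ := hy
  obtain ⟨b1, b2, b3⟩ := hy'
  simp only at a1 a2 a3 b1 b2 b3 ⊢
  have hp := hP p a1
  have hp' := hP p' b1
  obtain ⟨n1, -, n3, n4, -⟩ := h1
  set h : Mat := AT (p ^ k) c * (γ : Mat) with hh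
  set h' : Mat := AT (p' ^ k) c' * (γ' : Mat) with hh'
  have dh : h.det = ((p ^ k : ℕ) : ℤ) := det_h _ _ _
  have dh' : h'.det = ((p' ^ k : ℕ) : ℤ) := det_h _ _ _
  have pk : (0 : ℤ) < ((p ^ k : ℕ) : ℤ) := by
    have : 0 < p ^ k := pow_pos hp.pos k
    exact_mod_cast this
  have pk' : (0 : ℤ) < ((p' ^ k : ℕ) : ℤ) := by
    have : 0 < p' ^ k := pow_pos hp'.pos k
    exact_mod_cast this
  have dadj : h.adjugate.det = h.det := by
    rw [Matrix.det_adjugate]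
    simp
  have dm : (h' * h.adjugate).det = (((p * p') ^ k : ℕ) : ℤ) := by
    rw [Matrix.det_mul, dadj, dh, dh', mul_pow, mul_comm (p ^ k)]
    push_cast
    ring
  have dmp : 0 < (h' * h.adjugate).det := by
    rw [Matrix.det_mul, dadj, dh, dh']
    exact mul_pos pk' pk
  have e1 : nm (h' * h.adjugate) * (nm h * z) = nm h' * z := by
    rw [← mul_assoc, ← n1 _ _ dmp (dh ▸ pk), mul_assoc h', Matrix.adjugate_mul, dh,
      Matrix.mul_smul, mul_one, n4 _ _ pk]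
  obtain ⟨j, hj⟩ := hC k hk hk2 p a1 p' b1 (h' * h.adjugate) dm (nm h * z) a3 (by rw [e1]; exact b3)
  exact h2 n hn k hk p p' hp hp' c c' a2 b2 γ γ' ⟨j, hj⟩

end CtM

open CtM in
theorem stmtCt (h1 : StmtNm) (h2 : StmtAl) : StmtCt := by
  intro R hR V hV P hP n hn hC k hk hk2 z
  rcases (Rt P n k V z).eq_empty_or_nonempty with he | ⟨y₀, hy₀⟩
  · rw [he, encard_empty]
    exact bot_le
  have key : ∀ y ∈ Rt P n k V z, ∃ δ : SL(2, ℤ), y₀.1 = y.1 ∧
      AT (y.1 ^ k) y.2.1 * (y.2.2 : Mat) =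
        (δ : Mat) * (AT (y₀.1 ^ k) y₀.2.1 * (y₀.2.2 : Mat)) := by
    intro y hy
    obtain ⟨a1, δ, hδ⟩ := step h1 h2 hP hn hC hk hk2 hy₀ hy
    exact ⟨δ, a1, hδ⟩
  choose! δ hδ using key
  set L : ℕ := ⌊2 * R ^ 2⌋₊ with hL
  set I : Finset ℤ := Finset.Icc (-(L : ℤ)) L with hI
  have hIc : I.card = 2 * L + 1 := by
    rw [hI, Int.card_Icc]
    omega
  have hmap : MapsTo (fun y => ((δ y : Mat) 0 0, (δ y : Mat) 0 1, (δ y : Mat) 1 0,
      (δ y : Mat) 1 1)) (Rt P n k V z) ((I ×ˢ (I ×ˢ (I ×ˢ I)) : Finset (ℤ × ℤ × ℤ × ℤ)) :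
        Set (ℤ × ℤ × ℤ × ℤ)) := by
    intro y hy
    obtain ⟨a1, a2⟩ := hδ y hy
    have hb : ∀ i j, (δ y : Mat) i j ∈ I := by
      intro i j
      obtain ⟨n1, n2, n3, n4, -⟩ := h1
      have p0 : (0 : ℤ) < (AT (y₀.1 ^ k) y₀.2.1 * (y₀.2.2 : Mat)).det := by
        rw [det_h]
        have : 0 < y₀.1 ^ k := pow_pos (hP _ hy₀.1).pos k
        exact_mod_cast this
      have pd : (0 : ℤ) < (δ y : Mat).det := by
        rw [Matrix.SpecialLinearGroup.det_coe]
        norm_num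
      have e1 : io (δ y) = (nm (AT (y.1 ^ k) y.2.1 * (y.2.2 : Mat)) * z) *
          (nm (AT (y₀.1 ^ k) y₀.2.1 * (y₀.2.2 : Mat)) * z)⁻¹ := by
        rw [a2, n1 _ _ pd p0, n2]
        group
      have e2 := mul_le (hV hy.2.2) (inv_mem (hV hy₀.2.2)) i j
      rw [← e1] at e2
      have e3 : (io (δ y)) i j = (((δ y : Mat) i j : ℤ) : ℝ) := by
        simp [io]
      rw [e3, ← Int.cast_abs] at e2
      have e4 : |(δ y : Mat) i j| ≤ (L : ℤ) := by
        have e5 : ((δ y : Mat) i j).natAbs ≤ L := by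
          refine Nat.le_floor ?_
          rw [Nat.cast_natAbs]
          exact e2
        rw [Int.abs_eq_natAbs]
        exact_mod_cast e5
      rw [hI, Finset.mem_Icc]
      exact abs_le.1 e4
    simp only [Finset.coe_product, mem_prod, Finset.mem_coe]
    exact ⟨hb 0 0, hb 0 1, hb 1 0, hb 1 1⟩
  have hinj : InjOn (fun y => ((δ y : Mat) 0 0, (δ y : Mat) 0 1, (δ y : Mat) 1 0,
      (δ y : Mat) 1 1)) (Rt P n k V z) := by
    intro y hy y' hy' he
    simp only [Prod.mk.injEq] at he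
    obtain ⟨h00, h01, h10, h11⟩ := he
    obtain ⟨a1, a2⟩ := hδ y hy
    obtain ⟨b1, b2⟩ := hδ y' hy'
    have e1 : (δ y : Mat) = (δ y' : Mat) := by
      ext i j
      fin_cases i <;> fin_cases j
      · exact h00
      · exact h01
      · exact h10
      · exact h11
    rw [e1, ← b2] at a2
    obtain ⟨p, c, γ⟩ := y
    obtain ⟨p', c', γ'⟩ := y'
    simp only at a1 b1 a2
    have hp : p = p' := a1.symm.trans b1
    subst hp
    obtain ⟨-, c1, -⟩ := hy
    obtain ⟨-, c2, -⟩ := hy'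
    simp only [Gr, Finset.mem_filter, Finset.mem_range] at c1 c2
    obtain ⟨r1, r2⟩ := inj c1.1 c2.1 a2
    rw [r1, r2]
  refine (encard_le_encard_of_injOn hmap hinj).trans (le_of_eq ?_)
  rw [encard_coe_eq_coe_finsetCard, Finset.card_product, Finset.card_product, Finset.card_product,
    hIc]
  congr 1
  ring

end

end Pool.Agent.A54.HSF
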