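import Pool.Agent.Lib.HS.F.SpecT
import Pool.Agent.Lib.HS.F.Ct

/-!
# Project H*, torus lemma, module CtT: the number of returns to torus points
-/

set_option autoImplicit false

namespace Pool.Agent.A54.HSF

open MeasureTheory Filter Topology Set
open scoped UpperHalfPlane MatrixGroups ENNReal
open Pool.Agent.A54.Dyn (G fl base ze io mk4 dom)
open Pool.Agent.A54.Av (Mat)
open Pool.Agent.A54.Hp (nu nm Mn Om Nb bt xi uu pr nz Tb ms FF HE Pm GdC GdK StmtNuL StmtUnf StmtNm)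

noncomputable section

namespace CtTM

open CtM

/-- the matrix of a return -/
def hm (k : ℕ) (y : (Fin 3 → ℤ) × ℕ × ℕ × SL(2, ℤ)) : Mat :=
  AT (y.2.1 ^ k) y.2.2.1 * (y.2.2.2 : Mat)

theorem cjv_one (n : Fin 3 → ℤ) : cjv 1 n = n := by
  funext i
  fin_cases i <;> simp [cjv, uu, X0]

theorem cjv_inj (h1 : StmtCj) {h : Mat} (hd : h.det ≠ 0) {n n' : Fin 3 → ℤ}
    (e : cjv h n = cjv h n') : n = n' := by
  have key : ∀ (n : Fin 3 → ℤ) (i : Fin 3), cjv h.adjugate (cjv h n) i = h.det ^ 2 * n i := by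
    intro n i
    rw [← h1.1 h h.adjugate n, Matrix.mul_adjugate, h1.2.1 h.det 1 n i, cjv_one]
  funext i
  have k1 := key n i
  rw [e, key n' i] at k1
  exact (mul_left_cancel₀ (pow_ne_zero 2 hd) k1).symm

theorem dn_neg (v : Fin 3 → ℤ) : dn (-v) = dn v := by
  simp only [dn, Pi.neg_apply]
  ring

theorem prim_ne {n : Fin 3 → ℤ} (h : Prim n) : n ≠ 0 := by
  rintro rfl
  obtain ⟨a, ha⟩ := h
  simp at ha

theorem dn_le {H : ℝ} (n : Fin 3 → ℤ) (h : ∀ i, |(n i : ℝ)| ≤ H) :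
    |((dn n : ℤ) : ℝ)| ≤ 5 * H ^ 2 := by
  have hH : 0 ≤ H := (abs_nonneg _).trans (h 0)
  unfold dn
  push_cast
  calc |(n 0 : ℝ) ^ 2 + 4 * n 1 * n 2| ≤ |(n 0 : ℝ) ^ 2| + |4 * (n 1 : ℝ) * n 2| := abs_add_le _ _
    _ = |(n 0 : ℝ)| ^ 2 + 4 * (|(n 1 : ℝ)| * |(n 2 : ℝ)|) := by
      rw [abs_pow, abs_mul, abs_mul]
      norm_num
      ring
    _ ≤ H ^ 2 + 4 * (H * H) := by
      gcongr
      · exact h 0
      · exact h 1
      · exact h 2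
    _ = 5 * H ^ 2 := by ring

/-- number of the primes `p` with `p ^ (2 k) ∣ N` -/
theorem primes {M₀ T : ℝ} (hM₀ : 1 ≤ M₀) {k J : ℕ} (hk : 1 ≤ k) {N : ℤ} (hN : N ≠ 0)
    (hNT : |(N : ℝ)| ≤ T) (hT : T < M₀ ^ (2 * (J + 1))) (Q : Finset ℕ)
    (hQ : ∀ p ∈ Q, p.Prime ∧ M₀ < p ∧ ((p : ℤ) ^ (2 * k)) ∣ N) : Q.card ≤ J := by
  by_contra hc
  push Not at hc
  have h1 : ∏ p ∈ Q, ((p : ℤ) ^ (2 * k)) ∣ N := by
    apply Finset.prod_dvd_of_coprime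
    · intro p hp q hq hpq
      exact IsCoprime.pow (Nat.isCoprime_iff_coprime.2
        ((Nat.coprime_primes (hQ p hp).1 (hQ q hq).1).2 hpq))
    · exact fun p hp => (hQ p hp).2.2
  have h2 : (∏ p ∈ Q, ((p : ℤ) ^ (2 * k))) ≤ |N| :=
    Int.le_of_dvd (abs_pos.2 hN) ((dvd_abs _ _).2 h1)
  have h3 : ∏ p ∈ Q, ((p : ℝ) ^ (2 * k)) ≤ |(N : ℝ)| := by
    have : ((∏ p ∈ Q, ((p : ℤ) ^ (2 * k)) : ℤ) : ℝ) ≤ ((|N| : ℤ) : ℝ) := by exact_mod_cast h2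
    push_cast at this
    exact this
  have h4 : (M₀ ^ (2 * k)) ^ Q.card ≤ ∏ p ∈ Q, ((p : ℝ) ^ (2 * k)) := by
    rw [← Finset.prod_const]
    exact Finset.prod_le_prod (fun p _ => by positivity)
      (fun p hp => pow_le_pow_left₀ (by linarith) (hQ p hp).2.1.le _)
  have h5 : M₀ ^ (2 * (J + 1)) ≤ (M₀ ^ (2 * k)) ^ Q.card := by
    rw [← pow_mul]
    apply pow_le_pow_right₀ hM₀
    calc 2 * (J + 1) ≤ 2 * Q.card := by omega
      _ = 2 * 1 * Q.card := by ring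
      _ ≤ 2 * k * Q.card := by gcongr
  linarith

theorem bound {R : ℝ} (h1 : StmtNm) {h h' : Mat} (p0 : 0 < h.det) {δ : SL(2, ℤ)} {z : G}
    (a2 : h' = (δ : Mat) * h) (hz : nm h * z ∈ Om R) (hz' : nm h' * z ∈ Om R) (i j : Fin 2) :
    (δ : Mat) i j ∈ Finset.Icc (-((⌊2 * R ^ 2⌋₊ : ℕ) : ℤ)) ((⌊2 * R ^ 2⌋₊ : ℕ) : ℤ) := by
  obtain ⟨n1, n2, n3, n4, -⟩ := h1
  have pd : (0 : ℤ) < (δ : Mat).det := by
    rw [Matrix.SpecialLinearGroup.det_coe]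
    norm_num
  have e1 : io δ = (nm h' * z) * (nm h * z)⁻¹ := by
    rw [a2, n1 _ _ pd p0, n2]
    group
  have e2 := mul_le hz' (inv_mem hz) i j
  rw [← e1] at e2
  have e3 : (io δ) i j = (((δ : Mat) i j : ℤ) : ℝ) := by
    simp [io]
  rw [e3, ← Int.cast_abs] at e2
  have e4 : |(δ : Mat) i j| ≤ ((⌊2 * R ^ 2⌋₊ : ℕ) : ℤ) := by
    have e5 : ((δ : Mat) i j).natAbs ≤ ⌊2 * R ^ 2⌋₊ := by
      refine Nat.le_floor ?_
      rw [Nat.cast_natAbs]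
      exact e2
    rw [Int.abs_eq_natAbs]
    exact_mod_cast e5
  rw [Finset.mem_Icc]
  exact abs_le.1 e4

/-- the final count -/
theorem count (h1 : StmtNm) (h2 : StmtCj) (h5 : StmtSp) {R : ℝ} {δ : ℝ} {S : Finset (Fin 3 → ℤ)}
    {P : Finset ℕ} {k J : ℕ} {z : G} (hP : ∀ p ∈ P, p.Prime ∧ 3 ≤ p)
    (hs : ∀ y ∈ RtF S P k (TV R δ) z, ∀ y' ∈ RtF S P k (TV R δ) z,
      cjv (hm k y') y'.1 = cjv (hm k y) y.1 ∨ cjv (hm k y') y'.1 = -cjv (hm k y) y.1)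
    (Q : Finset ℕ) (hQ : ∀ p, p ∈ Q ↔ ∃ y ∈ RtF S P k (TV R δ) z, y.2.1 = p) (hJ : Q.card ≤ J) :
    (RtF S P k (TV R δ) z).encard ≤ ((J * (2 * (2 * ⌊2 * R ^ 2⌋₊ + 1) ^ 4) : ℕ) : ℕ∞) := by
  classical
  have hc := fun p (hp : p ∈ Q) => (hQ p).1 hp
  choose! g hg hgp using hc
  have hgy : ∀ y ∈ RtF S P k (TV R δ) z, y.2.1 ∈ Q := fun y hy => (hQ _).2 ⟨y, hy, rfl⟩
  have pos : ∀ y ∈ RtF S P k (TV R δ) z, 0 < (hm k y).det := by
    intro y hy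
    unfold hm
    rw [det_h]
    have : 0 < y.2.1 ^ k := pow_pos (hP _ hy.2.1).1.pos k
    exact_mod_cast this
  have key : ∀ y ∈ RtF S P k (TV R δ) z, ∃ d : SL(2, ℤ), hm k y = (d : Mat) * hm k (g y.2.1) := by
    intro y hy
    have m1 := hg _ (hgy y hy)
    have m2 := hgp _ (hgy y hy)
    have m3 := hs _ m1 _ hy
    obtain ⟨p1, p2⟩ := hP _ hy.2.1
    have m4 := m1.2.2.1
    unfold hm at m3 ⊢
    rw [m2] at m3 m4 ⊢
    exact h5 _ _ _ _ _ _ _ _ p1 p2 m4 hy.2.2.1 m3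
  choose! d hd using key
  set I : Finset ℤ := Finset.Icc (-((⌊2 * R ^ 2⌋₊ : ℕ) : ℤ)) ((⌊2 * R ^ 2⌋₊ : ℕ) : ℤ) with hI
  have hIc : I.card = 2 * ⌊2 * R ^ 2⌋₊ + 1 := by
    rw [hI, Int.card_Icc]
    omega
  set f : (Fin 3 → ℤ) × ℕ × ℕ × SL(2, ℤ) → ℕ × Bool × ℤ × ℤ × ℤ × ℤ := fun y =>
    (y.2.1, decide (cjv (hm k y) y.1 = cjv (hm k (g y.2.1)) (g y.2.1).1), (d y : Mat) 0 0,
      (d y : Mat) 0 1, (d y : Mat) 1 0, (d y : Mat) 1 1) with hf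
  have hmap : MapsTo f (RtF S P k (TV R δ) z)
      ((Q ×ˢ ((Finset.univ : Finset Bool) ×ˢ (I ×ˢ (I ×ˢ (I ×ˢ I)))) :
        Finset (ℕ × Bool × ℤ × ℤ × ℤ × ℤ)) : Set (ℕ × Bool × ℤ × ℤ × ℤ × ℤ)) := by
    intro y hy
    have m1 := hg _ (hgy y hy)
    have hb : ∀ i j, (d y : Mat) i j ∈ I := fun i j =>
      bound h1 (pos _ m1) (hd y hy) m1.2.2.2.1 hy.2.2.2.1 i j
    simp only [Finset.coe_product, mem_prod, Finset.mem_coe, hf]
    exact ⟨hgy y hy, Finset.mem_univ _, hb 0 0, hb 0 1, hb 1 0, hb 1 1⟩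
  have hinj : InjOn f (RtF S P k (TV R δ) z) := by
    intro y hy y' hy' he
    simp only [hf, Prod.mk.injEq] at he
    obtain ⟨hp, hb, h00, h01, h10, h11⟩ := he
    have e1 : (d y : Mat) = (d y' : Mat) := by
      ext i j
      fin_cases i <;> fin_cases j
      · exact h00
      · exact h01
      · exact h10
      · exact h11
    have e2 : hm k y = hm k y' := by
      rw [hd y hy, hd y' hy', e1, hp]
    have m1 := hg _ (hgy y hy)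
    have e3 : cjv (hm k y) y.1 = cjv (hm k y) y'.1 := by
      have s1 := hs _ m1 _ hy
      have s2 := hs _ m1 _ hy'
      rw [← hp] at hb
      rw [← e2] at s2 hb
      by_cases hq : cjv (hm k y) y.1 = cjv (hm k (g y.2.1)) (g y.2.1).1
      · have hq' : cjv (hm k y) y'.1 = cjv (hm k (g y.2.1)) (g y.2.1).1 := by
          rw [decide_eq_true hq] at hb
          exact of_decide_eq_true hb.symm
        rw [hq, hq']
      · have hq' : ¬ cjv (hm k y) y'.1 = cjv (hm k (g y.2.1)) (g y.2.1).1 := by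
          rw [decide_eq_false hq] at hb
          exact of_decide_eq_false hb.symm
        rw [s1.resolve_left hq, s2.resolve_left hq']
    have e4 : y.1 = y'.1 := cjv_inj h2 (pos y hy).ne' e3
    obtain ⟨n, p, c, γ⟩ := y
    obtain ⟨n', p', c', γ'⟩ := y'
    simp only at hp e4
    subst hp e4
    obtain ⟨-, -, c1, -⟩ := hy
    obtain ⟨-, -, c2, -⟩ := hy'
    simp only [Gr, Finset.mem_filter, Finset.mem_range] at c1 c2
    obtain ⟨r1, r2⟩ : c = c' ∧ γ = γ' := inj c1.1 c2.1 e2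
    rw [r1, r2]
  refine (encard_le_encard_of_injOn hmap hinj).trans ?_
  rw [encard_coe_eq_coe_finsetCard]
  have hcard : (Q ×ˢ ((Finset.univ : Finset Bool) ×ˢ (I ×ˢ (I ×ˢ (I ×ˢ I))))).card ≤
      J * (2 * (2 * ⌊2 * R ^ 2⌋₊ + 1) ^ 4) := by
    rw [Finset.card_product, Finset.card_product, Finset.card_product, Finset.card_product,
      Finset.card_product, hIc, Finset.card_univ, Fintype.card_bool]
    refine Nat.mul_le_mul hJ (le_of_eq ?_)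
    ring
  exact_mod_cast hcard

end CtTM

open CtTM CtM in
theorem stmtCtT (h1 : StmtNm) (h2 : StmtCj) (h3 : StmtPl) (h4 : StmtSz) (h5 : StmtSp) : StmtCtT := by
  classical
  intro R hR
  obtain ⟨C₁, hC₁, hPl⟩ := h3 R hR
  obtain ⟨C₂, hC₂, hSz⟩ := h4 R hR
  refine ⟨max C₁ C₂, hC₁.trans (le_max_left _ _), ?_⟩
  intro M₀ M H δ hM₀ hMM hH hδ hsm J hJ P hP S hS k hk hk2 z
  have hM : 1 ≤ M := by linarith
  have hX : 0 ≤ M ^ 4 * (H * δ) := by positivity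
  have hsm₂ : C₂ * (M ^ 4 * (H * δ)) < 1 :=
    lt_of_le_of_lt (mul_le_mul_of_nonneg_right (le_max_right _ _) hX) hsm
  have hsm₁ : C₁ * δ < 1 := by
    have e1 : δ ≤ M ^ 4 * (H * δ) := by
      have e2 : 1 ≤ M ^ 4 := one_le_pow₀ hM
      have e3 : δ ≤ H * δ := le_mul_of_one_le_left hδ hH
      exact e3.trans (le_mul_of_one_le_left (by positivity) e2)
    exact lt_of_le_of_lt (mul_le_mul (le_max_left _ _) e1 hδ (by positivity)) hsm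
  have hs : ∀ y ∈ RtF S P k (TV R δ) z, ∀ y' ∈ RtF S P k (TV R δ) z,
      cjv (hm k y') y'.1 = cjv (hm k y) y.1 ∨ cjv (hm k y') y'.1 = -cjv (hm k y) y.1 := by
    intro y hy y' hy'
    obtain ⟨a1, a2, a3, a4⟩ := hy
    obtain ⟨b1, b2, b3, b4⟩ := hy'
    exact hSz M H δ hM hH hδ hsm₂ k hk hk2 _ _ (hP _ a2).1 (hP _ b2).1 (hP _ a2).2.2 (hP _ b2).2.2
      _ _ (hS _ a1).1 (hS _ b1).1 (hS _ a1).2 (hS _ b1).2 _ a3 _ b3 _ _ z a4 b4
  rcases (RtF S P k (TV R δ) z).eq_empty_or_nonempty with he | ⟨y₀, hy₀⟩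
  · rw [he, encard_empty]
    exact bot_le
  have hdn : ∀ y ∈ RtF S P k (TV R δ) z, dn (cjv (hm k y) y.1) = dn (cjv (hm k y₀) y₀.1) := by
    intro y hy
    rcases hs _ hy₀ _ hy with h | h
    · rw [h]
    · rw [h, dn_neg]
  have hdet : ∀ y, dn (cjv (hm k y) y.1) = (y.2.1 : ℤ) ^ (2 * k) * dn y.1 := by
    intro y
    rw [h2.2.2.1]
    unfold hm
    rw [det_h]
    push_cast
    ring
  have hP3 : ∀ p ∈ P, p.Prime ∧ 3 ≤ p := by
    intro p hp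
    refine ⟨(hP p hp).1, ?_⟩
    have : (3 : ℝ) ≤ p := hM₀.trans (hP p hp).2.1.le
    exact_mod_cast this
  have hN0 : dn (cjv (hm k y₀) y₀.1) ≠ 0 := by
    rw [hdet]
    have e1 : (y₀.2.1 : ℤ) ≠ 0 := by exact_mod_cast (hP _ hy₀.2.1).1.ne_zero
    refine mul_ne_zero (pow_ne_zero _ e1) ?_
    have e2 := hy₀.2.2.2
    exact (hPl _ e2.1).2.2 y₀.1 δ (prim_ne (hS _ hy₀.1).1) e2.2.1 e2.2.2 hsm₁
  have hNT : |((dn (cjv (hm k y₀) y₀.1) : ℤ) : ℝ)| ≤ 5 * M ^ 4 * H ^ 2 := by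
    rw [hdet]
    push_cast
    rw [abs_mul]
    have e1 : |(y₀.2.1 : ℝ) ^ (2 * k)| ≤ M ^ 4 := by
      rw [abs_of_nonneg (by positivity)]
      calc (y₀.2.1 : ℝ) ^ (2 * k) ≤ M ^ (2 * k) :=
            pow_le_pow_left₀ (by positivity) (hP _ hy₀.2.1).2.2 _
        _ ≤ M ^ 4 := pow_le_pow_right₀ hM (by omega)
    have e2 := dn_le y₀.1 (hS _ hy₀.1).2
    calc |(y₀.2.1 : ℝ) ^ (2 * k)| * |((dn y₀.1 : ℤ) : ℝ)| ≤ M ^ 4 * (5 * H ^ 2) :=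
          mul_le_mul e1 e2 (abs_nonneg _) (by positivity)
      _ = 5 * M ^ 4 * H ^ 2 := by ring
  set Q : Finset ℕ := P.filter (fun p => ∃ y ∈ RtF S P k (TV R δ) z, y.2.1 = p) with hQ
  have hQm : ∀ p, p ∈ Q ↔ ∃ y ∈ RtF S P k (TV R δ) z, y.2.1 = p := by
    intro p
    rw [hQ, Finset.mem_filter]
    refine ⟨fun h => h.2, fun h => ⟨?_, h⟩⟩
    obtain ⟨y, hy, rfl⟩ := h
    exact hy.2.1
  have hQJ : Q.card ≤ J := by
    apply primes (M₀ := M₀) (by linarith) hk hN0 hNT hJ Q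
    intro p hp
    obtain ⟨y, hy, rfl⟩ := (hQm p).1 hp
    refine ⟨(hP _ hy.2.1).1, (hP _ hy.2.1).2.1, ?_⟩
    rw [← hdn y hy, hdet]
    exact Dvd.intro _ rfl
  exact count h1 h2 h5 hP3 hs Q hQm hQJ

end

end Pool.Agent.A54.HSF
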