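import Pool.Agent.Lib.HS.F.SpecT

/-!
# HS/F, module FTT: torus points in the bad case

`M = 4 w^(-9/10000)`, `M₀ = w^(-9/20000)`, `J = 5555` in `TTm` with the primes of `Bp` above `M₀`.
-/

set_option autoImplicit false

namespace Pool.Agent.A54.HSF

open MeasureTheory Filter Topology Set
open scoped UpperHalfPlane MatrixGroups ENNReal
open Pool.Agent.A54.Dyn (G fl base ze io mk4 dom)
open Pool.Agent.A54.Av (Mat)
open Pool.Agent.A54.Hp (nu nm Mn Om Nb bt xi uu pr nz Tb ms FF HE Pm GdC GdK StmtNuL StmtUnf StmtNm)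

noncomputable section

namespace FTTM

/-- the constants are below small negative powers of `w` -/
theorem big_pow {A w : ℝ} (hA : 1 ≤ A) (hw : 0 < w) (hw' : w ≤ A ^ (-(700000 / 67) : ℝ)) :
    A ≤ w ^ (-(67 / 700000) : ℝ) := by
  have hA0 : 0 < A := lt_of_lt_of_le one_pos hA
  have h1 : (A ^ (-(700000 / 67) : ℝ)) ^ (-(67 / 700000) : ℝ) ≤ w ^ (-(67 / 700000) : ℝ) :=
    Real.rpow_le_rpow_of_nonpos hw hw' (by norm_num)
  rw [← Real.rpow_mul hA0.le] at h1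
  have h2 : (-(700000 / 67) : ℝ) * (-(67 / 700000)) = 1 := by norm_num
  rw [h2, Real.rpow_one] at h1
  exact h1

/-- cancelling the number of primes -/
theorem cancel_card {n : ℕ} (hn : 0 < n) {a : ℝ≥0∞} {c t : ℝ} (h : (n : ℝ≥0∞) * a ≤ ENNReal.ofReal c)
    (hc : c ≤ (n : ℝ) * t) : a ≤ ENNReal.ofReal t := by
  have h1 : (n : ℝ≥0∞) * a ≤ (n : ℝ≥0∞) * ENNReal.ofReal t := by
    refine h.trans ?_
    have h2 : ENNReal.ofReal ((n : ℝ) * t) = (n : ℝ≥0∞) * ENNReal.ofReal t := by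
      rw [ENNReal.ofReal_mul (Nat.cast_nonneg n), ENNReal.ofReal_natCast]
    rw [← h2]
    exact ENNReal.ofReal_le_ofReal hc
  have h0 : (n : ℝ≥0∞) ≠ 0 := by
    simpa using hn.ne'
  exact (ENNReal.mul_le_mul_iff_right h0 (ENNReal.natCast_ne_top n)).1 h1

/-- removing the small elements -/
theorem card_filter_big (P : Finset ℕ) (hP : ∀ p ∈ P, 1 ≤ p) {M₀ : ℝ} (hM : 0 ≤ M₀) :
    (P.card : ℝ) - M₀ ≤ ((P.filter (fun p : ℕ => M₀ < (p : ℝ))).card : ℝ) := by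
  have h1 : (P.filter (fun p : ℕ => M₀ < (p : ℝ))).card + (P.filter (fun p : ℕ => ¬ M₀ < (p : ℝ))).card = P.card :=
    Finset.card_filter_add_card_filter_not _
  have h2 : (P.filter (fun p : ℕ => ¬ M₀ < (p : ℝ))).card ≤ ⌊M₀⌋₊ := by
    have h3 : P.filter (fun p : ℕ => ¬ M₀ < (p : ℝ)) ⊆ Finset.Icc 1 ⌊M₀⌋₊ := by
      intro p hp
      rw [Finset.mem_filter] at hp
      rw [Finset.mem_Icc]
      exact ⟨hP p hp.1, Nat.le_floor (not_lt.1 hp.2)⟩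
    have h4 := Finset.card_le_card h3
    rwa [Nat.card_Icc, Nat.add_sub_cancel] at h4
  have h5 : ((P.filter (fun p : ℕ => ¬ M₀ < (p : ℝ))).card : ℝ) ≤ M₀ :=
    le_trans (by exact_mod_cast h2) (Nat.floor_le hM)
  have h6 : ((P.filter (fun p : ℕ => M₀ < (p : ℝ))).card : ℝ) + ((P.filter (fun p : ℕ => ¬ M₀ < (p : ℝ))).card : ℝ)
      = (P.card : ℝ) := by exact_mod_cast h1
  linarith

/-- the condition on the radius -/
theorem cond_rad {C w t : ℝ} (hC : 1 ≤ C) (hw : 0 < w) (hw1 : w ≤ 1) (hB : 11110 * C ≤ w ^ (-(67 / 700000) : ℝ))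
    (ht : t ≤ w ^ (1 / 200 : ℝ)) : C * ((4 * w ^ (-(9 / 10000) : ℝ)) ^ 4 * t) < 1 := by
  have hC0 : 0 < C := by linarith
  have hpos : 0 < (4 * w ^ (-(9 / 10000) : ℝ)) ^ 4 := by
    have := Real.rpow_pos_of_pos hw (-(9 / 10000) : ℝ)
    positivity
  have h1 : (4 * w ^ (-(9 / 10000) : ℝ)) ^ 4 * w ^ (1 / 200 : ℝ) = 256 * w ^ (7 / 5000 : ℝ) := by
    rw [mul_pow, ← Real.rpow_natCast (w ^ (-(9 / 10000) : ℝ)) 4, ← Real.rpow_mul hw.le, mul_assoc, ← Real.rpow_add hw]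
    norm_num
  have h2 : w ^ (7 / 5000 : ℝ) ≤ w ^ (67 / 700000 : ℝ) := Real.rpow_le_rpow_of_exponent_ge hw hw1 (by norm_num)
  have h3 : 11110 * C * w ^ (67 / 700000 : ℝ) ≤ 1 := by
    rw [Real.rpow_neg hw.le] at hB
    have hq : 0 < w ^ (67 / 700000 : ℝ) := Real.rpow_pos_of_pos hw _
    calc 11110 * C * w ^ (67 / 700000 : ℝ) ≤ (w ^ (67 / 700000 : ℝ))⁻¹ * w ^ (67 / 700000 : ℝ) :=
          mul_le_mul_of_nonneg_right hB hq.le
      _ = 1 := inv_mul_cancel₀ hq.ne'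
  have h4 : C * ((4 * w ^ (-(9 / 10000) : ℝ)) ^ 4 * t) ≤ C * (256 * w ^ (67 / 700000 : ℝ)) := by
    refine mul_le_mul_of_nonneg_left ?_ hC0.le
    refine (mul_le_mul_of_nonneg_left ht hpos.le).trans ?_
    rw [h1]
    linarith
  have hq : 0 < C * w ^ (67 / 700000 : ℝ) := mul_pos hC0 (Real.rpow_pos_of_pos hw _)
  nlinarith

/-- the condition on the number of primes -/
theorem cond_J {w H : ℝ} (hw : 0 < w) (hw1 : w ≤ 1) (hB : 11110 ≤ w ^ (-(67 / 700000) : ℝ)) (hH : 1 ≤ H)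
    (hH2 : H ≤ w ^ (-2 : ℝ)) :
    5 * (4 * w ^ (-(9 / 10000) : ℝ)) ^ 4 * H ^ 2 < (w ^ (-(9 / 20000) : ℝ)) ^ (2 * (5555 + 1)) := by
  have h1 : H ^ 2 ≤ w ^ (-4 : ℝ) := by
    have h2 : H ^ 2 ≤ (w ^ (-2 : ℝ)) ^ 2 := pow_le_pow_left₀ (by linarith) hH2 2
    rw [← Real.rpow_natCast (w ^ (-2 : ℝ)) 2, ← Real.rpow_mul hw.le] at h2
    refine h2.trans (le_of_eq ?_)
    norm_num
  have h3 : (4 * w ^ (-(9 / 10000) : ℝ)) ^ 4 = 256 * w ^ (-(9 / 2500) : ℝ) := by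
    rw [mul_pow, ← Real.rpow_natCast (w ^ (-(9 / 10000) : ℝ)) 4, ← Real.rpow_mul hw.le]
    norm_num
  have h4 : (w ^ (-(9 / 20000) : ℝ)) ^ (2 * (5555 + 1)) = w ^ (-(12501 / 2500) : ℝ) := by
    rw [← Real.rpow_natCast (w ^ (-(9 / 20000) : ℝ)) (2 * (5555 + 1)), ← Real.rpow_mul hw.le]
    norm_num
  have h5 : (1280 : ℝ) < w ^ (-(249 / 250) + -(1 / 1250) : ℝ) := by
    have h6 : w ^ (-(67 / 700000) : ℝ) ≤ w ^ (-(249 / 250) + -(1 / 1250) : ℝ) :=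
      Real.rpow_le_rpow_of_exponent_ge hw hw1 (by norm_num)
    linarith
  have hp : 0 < w ^ (-(9 / 2500) : ℝ) * w ^ (-4 : ℝ) := mul_pos (Real.rpow_pos_of_pos hw _) (Real.rpow_pos_of_pos hw _)
  rw [h3, h4]
  calc 5 * (256 * w ^ (-(9 / 2500) : ℝ)) * H ^ 2 ≤ 5 * (256 * w ^ (-(9 / 2500) : ℝ)) * w ^ (-4 : ℝ) := by
        refine mul_le_mul_of_nonneg_left h1 ?_
        have := Real.rpow_pos_of_pos hw (-(9 / 2500) : ℝ)
        positivity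
    _ = 1280 * (w ^ (-(9 / 2500) : ℝ) * w ^ (-4 : ℝ)) := by ring
    _ < w ^ (-(249 / 250) + -(1 / 1250) : ℝ) * (w ^ (-(9 / 2500) : ℝ) * w ^ (-4 : ℝ)) :=
        mul_lt_mul_of_pos_right h5 hp
    _ = w ^ (-(12501 / 2500) : ℝ) := by
        rw [← Real.rpow_add hw, ← Real.rpow_add hw]
        norm_num

end FTTM

/-- **FTT** torus points in the bad case. -/
theorem stmtFTT (h1 : StmtTTm) (h2 : StmtBp) : StmtFTT := by
  intro K R hK hR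
  obtain ⟨C, hC1, hC⟩ := h1 R hR
  obtain ⟨w₁, hw₁0, hw₁1, hBp⟩ := h2 K (by linarith)
  have hA : (1 : ℝ) ≤ 11110 * C := by linarith
  have hA0 : (0 : ℝ) < 11110 * C := by linarith
  refine ⟨min w₁ ((11110 * C) ^ (-(700000 / 67) : ℝ)), lt_min hw₁0 (Real.rpow_pos_of_pos hA0 _),
    (min_le_left _ _).trans hw₁1, ?_⟩
  intro l Φ hΦ w hw hww hbad H δ hH hH2 hδ hHδ
  have hww1 : w ≤ w₁ := hww.trans (min_le_left _ _)
  have hww2 : w ≤ (11110 * C) ^ (-(700000 / 67) : ℝ) := hww.trans (min_le_right _ _)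
  have hw1 : w ≤ 1 := hww1.trans hw₁1
  have hB := FTTM.big_pow hA hw hww2
  have hB1 : (11110 : ℝ) ≤ w ^ (-(67 / 700000) : ℝ) := by linarith
  have hK0 : (0 : ℝ) < 1000 * K := by linarith
  have hKa : 1 / (1000 * K) ≤ (9 / 10000 : ℝ) := by
    rw [div_le_iff₀ hK0]
    linarith
  obtain ⟨P, hP, -, hPM, hPc⟩ := hBp l w hw hww1 hbad (9 / 10000) hKa le_rfl
  have hM₀ : (5 : ℝ) ≤ w ^ (-(9 / 20000) : ℝ) := by
    have h3 : w ^ (-(67 / 700000) : ℝ) ≤ w ^ (-(9 / 20000) : ℝ) := Real.rpow_le_rpow_of_exponent_ge hw hw1 (by norm_num)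
    linarith
  have hM₀M : w ^ (-(9 / 20000) : ℝ) ≤ 4 * w ^ (-(9 / 10000) : ℝ) := by
    have h3 : w ^ (-(9 / 20000) : ℝ) ≤ w ^ (-(9 / 10000) : ℝ) := Real.rpow_le_rpow_of_exponent_ge hw hw1 (by norm_num)
    linarith
  have hrad := FTTM.cond_rad hC1 hw hw1 hB hHδ
  have hJ := FTTM.cond_J hw hw1 hB1 hH hH2
  have hcard := FTTM.card_filter_big P (fun p hp => by have := (hP p hp).2.1; omega) (by linarith : (0 : ℝ) ≤ w ^ (-(9 / 20000) : ℝ))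
  have hS : Sml l (P.filter (fun p : ℕ => w ^ (-(9 / 20000) : ℝ) < (p : ℝ))) := fun p hp => hP p (Finset.mem_filter.1 hp).1
  have hT := hC l Φ hΦ _ _ H δ hM₀ hM₀M hH hδ hrad 5555 hJ _ hS
    (fun p hp => ⟨(Finset.mem_filter.1 hp).2, hPM p (Finset.mem_filter.1 hp).1⟩)
  have e0 : w ^ (-(9 / 10 * (9 / 10000)) : ℝ) = w ^ (-(81 / 100000) : ℝ) := by norm_num
  rw [e0] at hPc
  have hhalf : w ^ (-(9 / 20000) : ℝ) ≤ w ^ (-(81 / 100000) : ℝ) / 2 := by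
    have h3 : w ^ (-(67 / 700000) : ℝ) ≤ w ^ (-(9 / 25000) : ℝ) := Real.rpow_le_rpow_of_exponent_ge hw hw1 (by norm_num)
    have h4 : w ^ (-(81 / 100000) : ℝ) = w ^ (-(9 / 20000) : ℝ) * w ^ (-(9 / 25000) : ℝ) := by
      rw [← Real.rpow_add hw]
      norm_num
    rw [h4]
    nlinarith
  have hhalf' : w ^ (-(81 / 100000) : ℝ) / 2
      ≤ ((P.filter (fun p : ℕ => w ^ (-(9 / 20000) : ℝ) < (p : ℝ))).card : ℝ) := by linarith
  have hpos : 0 < (P.filter (fun p : ℕ => w ^ (-(9 / 20000) : ℝ) < (p : ℝ))).card := by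
    have h3 : (0 : ℝ) < ((P.filter (fun p : ℕ => w ^ (-(9 / 20000) : ℝ) < (p : ℝ))).card : ℝ) := by linarith
    exact_mod_cast h3
  refine FTTM.cancel_card hpos hT ?_
  have e1 : w ^ (-(81 / 100000) : ℝ) * w ^ (1 / 1400 : ℝ) = w ^ (-(67 / 700000) : ℝ) := by
    rw [← Real.rpow_add hw]
    norm_num
  calc C * ((5555 : ℕ) : ℝ) = 11110 * C / 2 := by push_cast; ring
    _ ≤ w ^ (-(67 / 700000) : ℝ) / 2 := by linarith
    _ = w ^ (-(81 / 100000) : ℝ) / 2 * w ^ (1 / 1400 : ℝ) := by rw [← e1]; ring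
    _ ≤ _ := mul_le_mul_of_nonneg_right hhalf' (Real.rpow_pos_of_pos hw _).le

end

end Pool.Agent.A54.HSF
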