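import Pool.Agent.Lib.HS.F.FTT

/-!
# HS/F, module FTT2: torus points in the bad case, exponent `1/220`

The proof of `stmtFTT` (helper13) with `H δ ≤ w^(1/220)` in place of `H δ ≤ w^(1/200)` (`4a = 0.0036 < 1/220`).
-/

set_option autoImplicit false

namespace Pool.Agent.A54.HSF

open MeasureTheory Filter Topology Set
open scoped UpperHalfPlane MatrixGroups ENNReal
open Pool.Agent.A54.Dyn (G fl base ze io mk4 dom)
open Pool.Agent.A54.Av (Mat)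
open Pool.Agent.A54.Hp (nu nm Mn Om Nb bt xi uu pr nz Tb ms FF HE Pm GdC GdK StmtNuL StmtUnf StmtNm)

noncomputable section

/-- **FTT2** torus points in the bad case: `StmtFTT` with exponent `1/220`. -/
def StmtFTT2 : Prop := ∀ K R : ℝ, 2 ≤ K → 1 ≤ R → ∃ w₁ : ℝ, 0 < w₁ ∧ w₁ ≤ 1 ∧ ∀ (l : ℕ → ℝ) (Φ : G → ℂ), HE l Φ → ∀ w : ℝ, 0 < w → w ≤ w₁ →
  ¬ GdK K l w → ∀ H δ : ℝ, 1 ≤ H → H ≤ w ^ (-2 : ℝ) → 0 ≤ δ → H * δ ≤ w ^ (1 / 220 : ℝ) →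
    ms Φ (TT R H δ) ≤ ENNReal.ofReal (w ^ (1 / 1400 : ℝ))

namespace FTTM

/-- the condition on the radius, exponent `1/220` -/
theorem cond_rad2 {C w t : ℝ} (hC : 1 ≤ C) (hw : 0 < w) (hw1 : w ≤ 1) (hB : 11110 * C ≤ w ^ (-(67 / 700000) : ℝ))
    (ht : t ≤ w ^ (1 / 220 : ℝ)) : C * ((4 * w ^ (-(9 / 10000) : ℝ)) ^ 4 * t) < 1 := by
  have hC0 : 0 < C := by linarith
  have hpos : 0 < (4 * w ^ (-(9 / 10000) : ℝ)) ^ 4 := by
    have := Real.rpow_pos_of_pos hw (-(9 / 10000) : ℝ)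
    positivity
  have h1 : (4 * w ^ (-(9 / 10000) : ℝ)) ^ 4 * w ^ (1 / 220 : ℝ) = 256 * w ^ (13 / 13750 : ℝ) := by
    rw [mul_pow, ← Real.rpow_natCast (w ^ (-(9 / 10000) : ℝ)) 4, ← Real.rpow_mul hw.le, mul_assoc, ← Real.rpow_add hw]
    norm_num
  have h2 : w ^ (13 / 13750 : ℝ) ≤ w ^ (67 / 700000 : ℝ) := Real.rpow_le_rpow_of_exponent_ge hw hw1 (by norm_num)
  have h3 : 11110 * C * w ^ (67 / 700000 : ℝ) ≤ 1 := by
    rw [Real.rpow_neg hw.le] at hB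
    have hq : 0 < w ^ (67 / 700000 : ℝ) := Real.rpow_pos_of_pos hw _
    calc 11110 * C * w ^ (67 / 700000 : ℝ) ≤ (w ^ (67 / 700000 : ℝ))⁻¹ * w ^ (67 / 700000 : ℝ) :=
          mul_le_mul_of_nonneg_right hB hq.le
      _ = 1 := inv_mul_cancel₀ hq.ne'
  have h4 : C * ((4 * w ^ (-(9 / 10000) : ℝ)) ^ 4 * t) ≤ C * (256 * w ^ (67 / 700000 : ℝ)) := by
    refine mul_le_mul_of_nonneg_left ?_ hC0.le
    refine (mul_le_mul_of_nonneg_left ht hpos.le).trans ?_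
    rw [h1]
    linarith
  have hq : 0 < C * w ^ (67 / 700000 : ℝ) := mul_pos hC0 (Real.rpow_pos_of_pos hw _)
  nlinarith

end FTTM

/-- **FTT2** torus points in the bad case, exponent `1/220`. -/
theorem stmtFTT2 (h1 : StmtTTm) (h2 : StmtBp) : StmtFTT2 := by
  intro K R hK hR
  obtain ⟨C, hC1, hC⟩ := h1 R hR
  obtain ⟨w₁, hw₁0, hw₁1, hBp⟩ := h2 K (by linarith)
  have hA : (1 : ℝ) ≤ 11110 * C := by linarith
  have hA0 : (0 : ℝ) < 11110 * C := by linarith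
  refine ⟨min w₁ ((11110 * C) ^ (-(700000 / 67) : ℝ)), lt_min hw₁0 (Real.rpow_pos_of_pos hA0 _),
    (min_le_left _ _).trans hw₁1, ?_⟩
  intro l Φ hΦ w hw hww hbad H δ hH hH2 hδ hHδ
  have hww1 : w ≤ w₁ := hww.trans (min_le_left _ _)
  have hww2 : w ≤ (11110 * C) ^ (-(700000 / 67) : ℝ) := hww.trans (min_le_right _ _)
  have hw1 : w ≤ 1 := hww1.trans hw₁1
  have hB := FTTM.big_pow hA hw hww2
  have hB1 : (11110 : ℝ) ≤ w ^ (-(67 / 700000) : ℝ) := by linarith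
  have hK0 : (0 : ℝ) < 1000 * K := by linarith
  have hKa : 1 / (1000 * K) ≤ (9 / 10000 : ℝ) := by
    rw [div_le_iff₀ hK0]
    linarith
  obtain ⟨P, hP, -, hPM, hPc⟩ := hBp l w hw hww1 hbad (9 / 10000) hKa le_rfl
  have hM₀ : (5 : ℝ) ≤ w ^ (-(9 / 20000) : ℝ) := by
    have h3 : w ^ (-(67 / 700000) : ℝ) ≤ w ^ (-(9 / 20000) : ℝ) := Real.rpow_le_rpow_of_exponent_ge hw hw1 (by norm_num)
    linarith
  have hM₀M : w ^ (-(9 / 20000) : ℝ) ≤ 4 * w ^ (-(9 / 10000) : ℝ) := by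
    have h3 : w ^ (-(9 / 20000) : ℝ) ≤ w ^ (-(9 / 10000) : ℝ) := Real.rpow_le_rpow_of_exponent_ge hw hw1 (by norm_num)
    linarith
  have hrad := FTTM.cond_rad2 hC1 hw hw1 hB hHδ
  have hJ := FTTM.cond_J hw hw1 hB1 hH hH2
  have hcard := FTTM.card_filter_big P (fun p hp => by have := (hP p hp).2.1; omega) (by linarith : (0 : ℝ) ≤ w ^ (-(9 / 20000) : ℝ))
  have hS : Sml l (P.filter (fun p : ℕ => w ^ (-(9 / 20000) : ℝ) < (p : ℝ))) := fun p hp => hP p (Finset.mem_filter.1 hp).1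
  have hT := hC l Φ hΦ _ _ H δ hM₀ hM₀M hH hδ hrad 5555 hJ _ hS
    (fun p hp => ⟨(Finset.mem_filter.1 hp).2, hPM p (Finset.mem_filter.1 hp).1⟩)
  have e0 : w ^ (-(9 / 10 * (9 / 10000)) : ℝ) = w ^ (-(81 / 100000) : ℝ) := by norm_num
  rw [e0] at hPc
  have hhalf : w ^ (-(9 / 20000) : ℝ) ≤ w ^ (-(81 / 100000) : ℝ) / 2 := by
    have h3 : w ^ (-(67 / 700000) : ℝ) ≤ w ^ (-(9 / 25000) : ℝ) := Real.rpow_le_rpow_of_exponent_ge hw hw1 (by norm_num)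
    have h4 : w ^ (-(81 / 100000) : ℝ) = w ^ (-(9 / 20000) : ℝ) * w ^ (-(9 / 25000) : ℝ) := by
      rw [← Real.rpow_add hw]
      norm_num
    rw [h4]
    nlinarith
  have hhalf' : w ^ (-(81 / 100000) : ℝ) / 2
      ≤ ((P.filter (fun p : ℕ => w ^ (-(9 / 20000) : ℝ) < (p : ℝ))).card : ℝ) := by linarith
  have hpos : 0 < (P.filter (fun p : ℕ => w ^ (-(9 / 20000) : ℝ) < (p : ℝ))).card := by
    have h3 : (0 : ℝ) < ((P.filter (fun p : ℕ => w ^ (-(9 / 20000) : ℝ) < (p : ℝ))).card : ℝ) := by linarith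
    exact_mod_cast h3
  refine FTTM.cancel_card hpos hT ?_
  have e1 : w ^ (-(81 / 100000) : ℝ) * w ^ (1 / 1400 : ℝ) = w ^ (-(67 / 700000) : ℝ) := by
    rw [← Real.rpow_add hw]
    norm_num
  calc C * ((5555 : ℕ) : ℝ) = 11110 * C / 2 := by push_cast; ring
    _ ≤ w ^ (-(67 / 700000) : ℝ) / 2 := by linarith
    _ = w ^ (-(81 / 100000) : ℝ) / 2 * w ^ (1 / 1400 : ℝ) := by rw [← e1]; ring
    _ ≤ _ := mul_le_mul_of_nonneg_right hhalf' (Real.rpow_pos_of_pos hw _).le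

end

end Pool.Agent.A54.HSF
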