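import Pool.Agent.Lib.HS.F.SpecT

/-!
# Project H*, part (F), module Pl: parallel vectors near a geodesic (helper95)
-/

set_option autoImplicit false

namespace Pool.Agent.A54.HSF

open MeasureTheory Filter Topology Set
open scoped UpperHalfPlane MatrixGroups ENNReal
open Pool.Agent.A54.Dyn (G fl base ze io mk4 dom)
open Pool.Agent.A54.Av (Mat)
open Pool.Agent.A54.Hp (nu nm Mn Om Nb bt xi uu pr nz Tb ms FF HE Pm GdC GdK StmtNuL StmtUnf StmtNm)

noncomputable section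

namespace PlM

/-- the coefficients of `od` -/
def vP (x : G) : Fin 3 → ℝ := ![x 0 0 * x 1 1 + x 0 1 * x 1 0, -(x 0 0 * x 0 1), x 1 0 * x 1 1]

/-- the coefficients of `oa` -/
def vQ (x : G) : Fin 3 → ℝ := ![-(2 * (x 0 0 * x 1 0)), x 0 0 * x 0 0, -(x 1 0 * x 1 0)]

/-- the coefficients of `ob` -/
def vS (x : G) : Fin 3 → ℝ := ![2 * (x 0 1 * x 1 1), -(x 0 1 * x 0 1), x 1 1 * x 1 1]

lemma rep (x : G) (n : Fin 3 → ℤ) (i : Fin 3) :
    (n i : ℝ) = od x n * vP x i + oa x n * vQ x i + ob x n * vS x i := by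
  have hx := Dyn.det_eq x
  have h2 : (x 0 0 * x 1 1 - x 0 1 * x 1 0) ^ 2 = 1 := by rw [hx, one_pow]
  fin_cases i
  · show (n 0 : ℝ) = od x n * (x 0 0 * x 1 1 + x 0 1 * x 1 0) +
      oa x n * (-(2 * (x 0 0 * x 1 0))) + ob x n * (2 * (x 0 1 * x 1 1))
    unfold od oa ob
    linear_combination (-(n 0 : ℝ)) * h2
  · show (n 1 : ℝ) = od x n * (-(x 0 0 * x 0 1)) + oa x n * (x 0 0 * x 0 0) +
      ob x n * (-(x 0 1 * x 0 1))
    unfold od oa ob
    linear_combination (-(n 1 : ℝ)) * h2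
  · show (n 2 : ℝ) = od x n * (x 1 0 * x 1 1) + oa x n * (-(x 1 0 * x 1 0)) +
      ob x n * (x 1 1 * x 1 1)
    unfold od oa ob
    linear_combination (-(n 2 : ℝ)) * h2

lemma disc (x : G) (n : Fin 3 → ℤ) :
    (n 0 : ℝ) ^ 2 + 4 * n 1 * n 2 = od x n ^ 2 + 4 * (oa x n * ob x n) := by
  have hx := Dyn.det_eq x
  have h2 : (x 0 0 * x 1 1 - x 0 1 * x 1 0) ^ 2 = 1 := by rw [hx, one_pow]
  unfold od oa ob
  linear_combination (-((n 0 : ℝ) ^ 2 + 4 * n 1 * n 2)) * h2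

lemma mul_bd {a b R : ℝ} (ha : |a| ≤ R) (hb : |b| ≤ R) : |a * b| ≤ R ^ 2 := by
  rw [abs_mul, sq]
  exact mul_le_mul ha hb (abs_nonneg b) ((abs_nonneg a).trans ha)

lemma two_bd {a b R : ℝ} (ha : |a| ≤ R) (hb : |b| ≤ R) : |2 * (a * b)| ≤ 2 * R ^ 2 := by
  rw [abs_mul, abs_of_pos (by norm_num : (0 : ℝ) < 2)]
  exact mul_le_mul_of_nonneg_left (mul_bd ha hb) (by norm_num)

lemma bd {R : ℝ} {x : G} (hx : x ∈ Om R) (i : Fin 3) :
    |vP x i| ≤ 2 * R ^ 2 ∧ |vQ x i| ≤ 2 * R ^ 2 ∧ |vS x i| ≤ 2 * R ^ 2 := by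
  have hR : 0 ≤ R ^ 2 := sq_nonneg R
  have hm : ∀ i j k l : Fin 2, |x i j * x k l| ≤ R ^ 2 := fun i j k l => mul_bd (hx i j) (hx k l)
  fin_cases i
  · refine ⟨?_, ?_, ?_⟩
    · show |x 0 0 * x 1 1 + x 0 1 * x 1 0| ≤ 2 * R ^ 2
      refine (abs_add_le _ _).trans ?_
      linarith [hm 0 0 1 1, hm 0 1 1 0]
    · show |-(2 * (x 0 0 * x 1 0))| ≤ 2 * R ^ 2
      rw [abs_neg]
      exact two_bd (hx 0 0) (hx 1 0)
    · show |2 * (x 0 1 * x 1 1)| ≤ 2 * R ^ 2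
      exact two_bd (hx 0 1) (hx 1 1)
  · refine ⟨?_, ?_, ?_⟩
    · show |-(x 0 0 * x 0 1)| ≤ 2 * R ^ 2
      rw [abs_neg]
      linarith [hm 0 0 0 1]
    · show |x 0 0 * x 0 0| ≤ 2 * R ^ 2
      linarith [hm 0 0 0 0]
    · show |-(x 0 1 * x 0 1)| ≤ 2 * R ^ 2
      rw [abs_neg]
      linarith [hm 0 1 0 1]
  · refine ⟨?_, ?_, ?_⟩
    · show |x 1 0 * x 1 1| ≤ 2 * R ^ 2
      linarith [hm 1 0 1 1]
    · show |-(x 1 0 * x 1 0)| ≤ 2 * R ^ 2
      rw [abs_neg]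
      linarith [hm 1 0 1 0]
    · show |x 1 1 * x 1 1| ≤ 2 * R ^ 2
      linarith [hm 1 1 1 1]

lemma cross {u v u' v' A D A' D' : ℝ} (hu : |u| ≤ A) (hv : |v| ≤ D) (hu' : |u'| ≤ A')
    (hv' : |v'| ≤ D') : |u * v' - v * u'| ≤ A * D' + D * A' := by
  have h1 : |u * v'| ≤ A * D' := by
    rw [abs_mul]
    exact mul_le_mul hu hv' (abs_nonneg _) ((abs_nonneg _).trans hu)
  have h2 : |v * u'| ≤ D * A' := by
    rw [abs_mul]
    exact mul_le_mul hv hu' (abs_nonneg _) ((abs_nonneg _).trans hv)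
  exact (abs_sub _ _).trans (add_le_add h1 h2)

lemma int_zero {z : ℤ} (h : |(z : ℝ)| < 1) : z = 0 := by
  have h1 : |z| < 1 := by exact_mod_cast h
  exact Int.abs_lt_one_iff.mp h1

end PlM

open PlM in
theorem stmtPl : StmtPl := by
  intro R hR
  have hR2 : 1 ≤ R ^ 2 := one_le_pow₀ hR
  have hR4 : R ^ 2 ≤ R ^ 4 := pow_le_pow_right₀ hR (by norm_num)
  refine ⟨16 * R ^ 4, by linarith, fun x hx => ⟨?_, ?_, ?_⟩⟩
  · intro n n' A A' δ δ' hA ha hb hA' ha' hb' hlt i j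
    have hδ : 0 ≤ δ := (abs_nonneg _).trans ha
    have hδ' : 0 ≤ δ' := (abs_nonneg _).trans ha'
    have hA0 : 0 ≤ A := (abs_nonneg _).trans hA
    have hA0' : 0 ≤ A' := (abs_nonneg _).trans hA'
    have hPQ : |vP x i * vQ x j - vQ x i * vP x j| ≤
        2 * R ^ 2 * (2 * R ^ 2) + 2 * R ^ 2 * (2 * R ^ 2) :=
      cross (bd hx i).1 (bd hx i).2.1 (bd hx j).1 (bd hx j).2.1
    have hPS : |vP x i * vS x j - vS x i * vP x j| ≤
        2 * R ^ 2 * (2 * R ^ 2) + 2 * R ^ 2 * (2 * R ^ 2) :=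
      cross (bd hx i).1 (bd hx i).2.2 (bd hx j).1 (bd hx j).2.2
    have hQS : |vQ x i * vS x j - vS x i * vQ x j| ≤
        2 * R ^ 2 * (2 * R ^ 2) + 2 * R ^ 2 * (2 * R ^ 2) :=
      cross (bd hx i).2.1 (bd hx i).2.2 (bd hx j).2.1 (bd hx j).2.2
    have h8 : 2 * R ^ 2 * (2 * R ^ 2) + 2 * R ^ 2 * (2 * R ^ 2) = 8 * R ^ 4 := by ring
    rw [h8] at hPQ hPS hQS
    have h1 : |od x n * oa x n' - oa x n * od x n'| ≤ A * δ' + δ * A' := cross hA ha hA' ha'
    have h2 : |od x n * ob x n' - ob x n * od x n'| ≤ A * δ' + δ * A' := cross hA hb hA' hb'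
    have h3 : |oa x n * ob x n' - ob x n * oa x n'| ≤ δ * δ' + δ * δ' := cross ha hb ha' hb'
    have hb8 : (0 : ℝ) ≤ 8 * R ^ 4 := by positivity
    have hm1 : |(vP x i * vQ x j - vQ x i * vP x j) *
        (od x n * oa x n' - oa x n * od x n')| ≤ 8 * R ^ 4 * (A * δ' + δ * A') := by
      rw [abs_mul]
      exact mul_le_mul hPQ h1 (abs_nonneg _) hb8
    have hm2 : |(vP x i * vS x j - vS x i * vP x j) *
        (od x n * ob x n' - ob x n * od x n')| ≤ 8 * R ^ 4 * (A * δ' + δ * A') := by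
      rw [abs_mul]
      exact mul_le_mul hPS h2 (abs_nonneg _) hb8
    have hm3 : |(vQ x i * vS x j - vS x i * vQ x j) *
        (oa x n * ob x n' - ob x n * oa x n')| ≤ 8 * R ^ 4 * (δ * δ' + δ * δ') := by
      rw [abs_mul]
      exact mul_le_mul hQS h3 (abs_nonneg _) hb8
    have hz : n i * n' j - n j * n' i = 0 := by
      apply int_zero
      have he : ((n i * n' j - n j * n' i : ℤ) : ℝ) =
          (vP x i * vQ x j - vQ x i * vP x j) * (od x n * oa x n' - oa x n * od x n') +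
          (vP x i * vS x j - vS x i * vP x j) * (od x n * ob x n' - ob x n * od x n') +
          (vQ x i * vS x j - vS x i * vQ x j) * (oa x n * ob x n' - ob x n * oa x n') := by
        push_cast
        rw [rep x n i, rep x n j, rep x n' i, rep x n' j]
        ring
      rw [he]
      refine lt_of_le_of_lt ((abs_add_le _ _).trans
        (add_le_add ((abs_add_le _ _).trans (add_le_add hm1 hm2)) hm3)) ?_
      refine lt_of_eq_of_lt ?_ hlt
      ring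
    exact sub_eq_zero.mp hz
  · intro n H hn
    have hH : 0 ≤ H := (abs_nonneg _).trans (hn 0)
    have hm : ∀ i j k l : Fin 2, |x i j * x k l| ≤ R ^ 2 := fun i j k l =>
      mul_bd (hx i j) (hx k l)
    have hR0 : 0 ≤ R ^ 2 := by linarith
    have h1 : |(n 0 : ℝ) * (x 0 0 * x 1 1 + x 0 1 * x 1 0)| ≤ H * (2 * R ^ 2) := by
      rw [abs_mul]
      refine mul_le_mul (hn 0) ((abs_add_le _ _).trans ?_) (abs_nonneg _) hH
      linarith [hm 0 0 1 1, hm 0 1 1 0]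
    have h2 : |2 * (n 1 : ℝ) * (x 1 0 * x 1 1)| ≤ 2 * H * R ^ 2 := by
      rw [abs_mul, abs_mul, abs_of_pos (by norm_num : (0 : ℝ) < 2)]
      exact mul_le_mul (mul_le_mul_of_nonneg_left (hn 1) (by norm_num)) (hm 1 0 1 1)
        (abs_nonneg _) (by linarith)
    have h3 : |2 * (n 2 : ℝ) * (x 0 0 * x 0 1)| ≤ 2 * H * R ^ 2 := by
      rw [abs_mul, abs_mul, abs_of_pos (by norm_num : (0 : ℝ) < 2)]
      exact mul_le_mul (mul_le_mul_of_nonneg_left (hn 2) (by norm_num)) (hm 0 0 0 1)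
        (abs_nonneg _) (by linarith)
    unfold od
    refine (abs_sub _ _).trans ((add_le_add ((abs_add_le _ _).trans (add_le_add h1 h2)) h3).trans ?_)
    have h4 : H * (2 * R ^ 2) + 2 * H * R ^ 2 + 2 * H * R ^ 2 = 6 * R ^ 2 * H := by ring
    rw [h4]
    exact mul_le_mul_of_nonneg_right (by linarith) hH
  · intro n δ hn ha hb hlt hd
    have hδ : 0 ≤ δ := (abs_nonneg _).trans ha
    have hdr : (n 0 : ℝ) ^ 2 + 4 * n 1 * n 2 = 0 := by
      unfold dn at hd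
      exact_mod_cast hd
    have hod : |od x n| ≤ 2 * δ := by
      apply abs_le_of_sq_le_sq _ (by linarith)
      have h1 := disc x n
      rw [hdr] at h1
      have h2 : |oa x n * ob x n| ≤ δ * δ := by
        rw [abs_mul]
        exact mul_le_mul ha hb (abs_nonneg _) hδ
      have h3 := neg_abs_le (oa x n * ob x n)
      nlinarith
    apply hn
    funext i
    apply int_zero
    have hR0 : 0 ≤ 2 * R ^ 2 := by linarith
    have h1 : |od x n * vP x i| ≤ 2 * δ * (2 * R ^ 2) := by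
      rw [abs_mul]
      exact mul_le_mul hod (bd hx i).1 (abs_nonneg _) (by linarith)
    have h2 : |oa x n * vQ x i| ≤ δ * (2 * R ^ 2) := by
      rw [abs_mul]
      exact mul_le_mul ha (bd hx i).2.1 (abs_nonneg _) hδ
    have h3 : |ob x n * vS x i| ≤ δ * (2 * R ^ 2) := by
      rw [abs_mul]
      exact mul_le_mul hb (bd hx i).2.2 (abs_nonneg _) hδ
    rw [rep x n i]
    refine lt_of_le_of_lt ((abs_add_le _ _).trans
      (add_le_add ((abs_add_le _ _).trans (add_le_add h1 h2)) h3)) (lt_of_le_of_lt ?_ hlt)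
    have h4 : 2 * δ * (2 * R ^ 2) + δ * (2 * R ^ 2) + δ * (2 * R ^ 2) = 8 * R ^ 2 * δ := by ring
    rw [h4]
    exact mul_le_mul_of_nonneg_right (by linarith) hδ

end

end Pool.Agent.A54.HSF
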