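import Pool.Agent.Lib.HS.F.SpecT

/-!
# Project H*, torus lemma, module Pp: primitive vectors under good matrices (helper2)
-/

set_option autoImplicit false

namespace Pool.Agent.A54.HSF

open MeasureTheory Filter Topology Set
open scoped UpperHalfPlane MatrixGroups ENNReal
open Pool.Agent.A54.Av (Mat)
open Pool.Agent.A54.Hp (uu)

noncomputable section

namespace PpM

lemma cjv_0 (m : Mat) (n : Fin 3 → ℤ) : cjv m n 0 =
    (m 0 0 * m 1 1 + m 0 1 * m 1 0) * n 0 + 2 * (m 1 0 * m 1 1) * n 1 -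
      2 * (m 0 0 * m 0 1) * n 2 := by
  simp [cjv, uu, X0, Matrix.mul_apply, Fin.sum_univ_two, Matrix.adjugate_fin_two]
  ring

lemma cjv_1 (m : Mat) (n : Fin 3 → ℤ) : cjv m n 1 =
    (m 0 1 * m 1 1) * n 0 + m 1 1 ^ 2 * n 1 - m 0 1 ^ 2 * n 2 := by
  simp [cjv, uu, X0, Matrix.mul_apply, Fin.sum_univ_two, Matrix.adjugate_fin_two]
  ring

lemma cjv_2 (m : Mat) (n : Fin 3 → ℤ) : cjv m n 2 =
    -(m 0 0 * m 1 0) * n 0 - m 1 0 ^ 2 * n 1 + m 0 0 ^ 2 * n 2 := by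
  simp [cjv, uu, X0, Matrix.mul_apply, Fin.sum_univ_two, Matrix.adjugate_fin_two]
  ring

lemma prim_of (n : Fin 3 → ℤ) (a b c : ℤ) (h : a * n 0 + b * n 1 + c * n 2 = 1) : Prim n :=
  ⟨![a, b, c], by simpa using h⟩

/-- a vector whose image is primitive is primitive -/
lemma prim_back (m : Mat) (n : Fin 3 → ℤ) (h : Prim (cjv m n)) : Prim n := by
  obtain ⟨a, ha⟩ := h
  rw [cjv_0, cjv_1, cjv_2] at ha
  refine prim_of n
    (a 0 * (m 0 0 * m 1 1 + m 0 1 * m 1 0) + a 1 * (m 0 1 * m 1 1) - a 2 * (m 0 0 * m 1 0))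
    (a 0 * (2 * (m 1 0 * m 1 1)) + a 1 * m 1 1 ^ 2 - a 2 * m 1 0 ^ 2)
    (-(a 0 * (2 * (m 0 0 * m 0 1))) - a 1 * m 0 1 ^ 2 + a 2 * m 0 0 ^ 2) ?_
  linear_combination ha

lemma cjv_one (n : Fin 3 → ℤ) : cjv 1 n = n := by
  funext i
  fin_cases i
  · change cjv 1 n 0 = n 0
    rw [cjv_0]
    simp
  · change cjv 1 n 1 = n 1
    rw [cjv_1]
    simp
  · change cjv 1 n 2 = n 2
    rw [cjv_2]
    simp

lemma prim_sl (h1 : StmtCj) (γ : SL(2, ℤ)) (n : Fin 3 → ℤ) (h : Prim n) :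
    Prim (cjv (γ : Mat) n) := by
  refine prim_back (γ : Mat).adjugate _ ?_
  rw [← h1.1, Matrix.mul_adjugate, γ.2, one_smul, cjv_one]
  exact h

lemma prim_AT (n : Fin 3 → ℤ) (p k c : ℕ) (hn : Prim n) (hp : p.Prime) (hc : c ∈ Gr n p k) :
    Prim (cjv (AT (p ^ k) c) n) := by
  obtain ⟨a, ha⟩ := hn
  have h2 : ¬ (p : ℤ) ∣ Fq n c := (Finset.mem_filter.1 hc).2
  have h3 : IsCoprime ((p : ℤ) ^ k) (Fq n c) :=
    (((Nat.prime_iff_prime_int.1 hp).coprime_iff_not_dvd).2 h2).pow_left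
  obtain ⟨u, w, huw⟩ := h3
  set q : ℤ := (p : ℤ) ^ k with hq
  have hF : Fq n c = n 2 * (c : ℤ) ^ 2 + n 0 * (c : ℤ) - n 1 := rfl
  have e00 : AT (p ^ k) c 0 0 = q := by simp [AT, hq]
  have e01 : AT (p ^ k) c 0 1 = -(c : ℤ) := by simp [AT]
  have e10 : AT (p ^ k) c 1 0 = 0 := by simp [AT]
  have e11 : AT (p ^ k) c 1 1 = 1 := by simp [AT]
  refine prim_of _ ((a 0 + c * a 1) * u)
    (-((a 0 + c * a 1) * w * (n 0 + 2 * c * n 2) +
      (a 2 - 2 * c * a 0 - (c : ℤ) ^ 2 * a 1) * (2 * u * w * q * n 2 + w ^ 2 * Fq n c * n 2) - a 1))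
    ((a 2 - 2 * c * a 0 - (c : ℤ) ^ 2 * a 1) * u ^ 2) ?_
  rw [cjv_0, cjv_1, cjv_2, e00, e01, e10, e11]
  rw [hF] at huw ⊢
  linear_combination ((a 0 + c * a 1) * (n 0 + 2 * c * n 2) +
    (a 2 - 2 * c * a 0 - (c : ℤ) ^ 2 * a 1) * n 2 *
      (u * q + w * (n 2 * (c : ℤ) ^ 2 + n 0 * (c : ℤ) - n 1) + 1)) * huw + ha

end PpM

open PpM in
theorem stmtPp (h1 : StmtCj) : StmtPp := by
  refine ⟨fun n p k c γ hn hp hc => ?_, ?_⟩
  · rw [h1.1]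
    exact prim_sl h1 γ _ (prim_AT n p k c hn hp hc)
  · intro v v' hv hv' h
    obtain ⟨a, ha⟩ := hv
    obtain ⟨b, hb⟩ := hv'
    set s := a 0 * v' 0 + a 1 * v' 1 + a 2 * v' 2 with hs
    have h2 : ∀ j, v' j = s * v j := by
      intro j
      rw [hs]
      linear_combination -(v' j) * ha + a 0 * h 0 j + a 1 * h 1 j + a 2 * h 2 j
    have h3 : s * (b 0 * v 0 + b 1 * v 1 + b 2 * v 2) = 1 := by
      rw [h2 0, h2 1, h2 2] at hb
      linear_combination hb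
    rcases Int.isUnit_iff.1 (IsUnit.of_mul_eq_one _ h3) with h4 | h4
    · left
      funext j
      rw [h2 j, h4, one_mul]
    · right
      funext j
      rw [h2 j, h4, Pi.neg_apply, neg_one_mul]

end

end Pool.Agent.A54.HSF
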