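import Pool.Agent.Lib.HS.F.SpecT

set_option autoImplicit false

/-!
# Project H*, torus lemma (T): module Sp (stars: the same prime)

With `ρ = γ' γ⁻¹ = (r, s; t, u)` the hypothesis is `cjv (AT q c' ρ) n' = ± cjv (AT q c) n`. The second
coordinate mod `p` gives `p ∤ u`, the first one mod `q` gives `q ∣ t`, so
`δ = AT q c' ρ (AT q c)⁻¹` is integral.
-/

namespace Pool.Agent.A54.HSF

open scoped MatrixGroups
open Pool.Agent.A54.Av (Mat)
open Pool.Agent.A54.Hp (uu)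

namespace SpM

theorem cjv_gen (m : Mat) (v : Fin 3 → ℤ) :
    cjv m v = ![v 0 * (m 0 0 * m 1 1 + m 1 0 * m 0 1) + 2 * v 1 * (m 1 0 * m 1 1)
        - 2 * v 2 * (m 0 0 * m 0 1),
      v 0 * (m 0 1 * m 1 1) + v 1 * m 1 1 ^ 2 - v 2 * m 0 1 ^ 2,
      -(v 0 * (m 0 0 * m 1 0)) - v 1 * m 1 0 ^ 2 + v 2 * m 0 0 ^ 2] := by
  unfold cjv uu X0
  rw [Matrix.adjugate_fin_two]
  ext i
  fin_cases i <;> simp [Matrix.mul_apply, Fin.sum_univ_two] <;> ring

theorem cjv_mul (m m' : Mat) (n : Fin 3 → ℤ) : cjv (m * m') n = cjv m' (cjv m n) := by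
  rw [cjv_gen, cjv_gen m', cjv_gen m]
  ext i
  fin_cases i <;> simp [Matrix.mul_apply, Fin.sum_univ_two] <;> ring

theorem cjv_neg (m : Mat) (n : Fin 3 → ℤ) : cjv m (-n) = -cjv m n := by
  rw [cjv_gen, cjv_gen]
  ext i
  fin_cases i <;> simp <;> ring

theorem cjv_one (n : Fin 3 → ℤ) : cjv 1 n = n := by
  rw [cjv_gen]
  ext i
  fin_cases i <;> simp

theorem cjv_inv (γ : SL(2, ℤ)) (v : Fin 3 → ℤ) : cjv ((γ⁻¹ : SL(2, ℤ)) : Mat) (cjv (γ : Mat) v) = v := by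
  rw [← cjv_mul]
  have h : (γ : Mat) * ((γ⁻¹ : SL(2, ℤ)) : Mat) = 1 := by
    rw [← Matrix.SpecialLinearGroup.coe_mul, mul_inv_cancel, Matrix.SpecialLinearGroup.coe_one]
  rw [h, cjv_one]

/-- the divisibility -/
theorem dvd_t {p k : ℕ} {a a' F F' r s t u b' e : ℤ} (hp : p.Prime) (h3 : 3 ≤ p)
    (hF : ¬ (p : ℤ) ∣ F) (hF' : ¬ (p : ℤ) ∣ F') (he : e = 1 ∨ e = -1)
    (h0 : ((p ^ k : ℕ) : ℤ) * a' * (r * u + t * s) + 2 * (-F') * (t * u)
      - 2 * (((p ^ k : ℕ) : ℤ) ^ 2 * b') * (r * s) = e * (((p ^ k : ℕ) : ℤ) * a))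
    (h1 : ((p ^ k : ℕ) : ℤ) * a' * (s * u) + (-F') * u ^ 2
      - (((p ^ k : ℕ) : ℤ) ^ 2 * b') * s ^ 2 = e * (-F)) :
    ((p ^ k : ℕ) : ℤ) ∣ t := by
  rcases Nat.eq_zero_or_pos k with hk | hk
  · subst hk
    simp
  · have hpP : Prime (p : ℤ) := Nat.prime_iff_prime_int.mp hp
    have hpq : (p : ℤ) ∣ ((p ^ k : ℕ) : ℤ) := by
      rw [Int.natCast_dvd_natCast]
      exact dvd_pow_self p (by omega)
    have hu : ¬ (p : ℤ) ∣ u := by
      intro hu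
      apply hF
      have h4 : (p : ℤ) ∣ e * (-F) := by
        rw [← h1]
        apply dvd_sub
        · apply dvd_add
          · exact Dvd.dvd.mul_left (Dvd.dvd.mul_left hu _) _
          · exact Dvd.dvd.mul_left (dvd_pow hu (by norm_num)) _
        · exact Dvd.dvd.mul_right (Dvd.dvd.mul_right (dvd_pow hpq (by norm_num)) _) _
      rcases he with he | he
      · rw [he, one_mul, dvd_neg] at h4
        exact h4
      · rw [he, neg_one_mul, neg_neg] at h4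
        exact h4
    have h2 : ¬ (p : ℤ) ∣ 2 := by
      intro h5
      have h6 : p ∣ 2 := by exact_mod_cast h5
      have := Nat.le_of_dvd (by norm_num) h6
      omega
    have hcop : IsCoprime (((p ^ k : ℕ) : ℤ)) (2 * F' * u) := by
      push_cast
      apply IsCoprime.pow_left
      rw [Prime.coprime_iff_not_dvd hpP]
      intro h5
      rcases hpP.dvd_or_dvd h5 with h6 | h6
      · rcases hpP.dvd_or_dvd h6 with h7 | h7
        · exact h2 h7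
        · exact hF' h7
      · exact hu h6
    apply hcop.dvd_of_dvd_mul_left
    refine ⟨a' * (r * u + t * s) - 2 * (((p ^ k : ℕ) : ℤ) * b') * (r * s) - e * a, ?_⟩
    linear_combination -h0

end SpM

open SpM in
theorem stmtSp : StmtSp := by
  intro n n' p k c c' γ γ' hp h3 hc hc' hor
  obtain ⟨ρ, hρ⟩ : ∃ ρ : SL(2, ℤ), ρ = γ' * γ⁻¹ := ⟨_, rfl⟩
  have hγ' : (γ' : Mat) = (ρ : Mat) * (γ : Mat) := by
    rw [← Matrix.SpecialLinearGroup.coe_mul, hρ, inv_mul_cancel_right]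
  have hF : ¬ (p : ℤ) ∣ Fq n c := (Finset.mem_filter.mp hc).2
  have hF' : ¬ (p : ℤ) ∣ Fq n' c' := (Finset.mem_filter.mp hc').2
  have hdet : (ρ : Mat) 0 0 * (ρ : Mat) 1 1 - (ρ : Mat) 0 1 * (ρ : Mat) 1 0 = 1 := by
    have := ρ.det_coe
    rwa [Matrix.det_fin_two] at this
  obtain ⟨e, he, heq⟩ : ∃ e : ℤ, (e = 1 ∨ e = -1) ∧
      ∀ i, cjv (AT (p ^ k) c' * (ρ : Mat)) n' i = e * cjv (AT (p ^ k) c) n i := by
    have key : ∀ x y : Fin 3 → ℤ, cjv (γ : Mat) x = cjv (γ : Mat) y → x = y := by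
      intro x y h
      rw [← cjv_inv γ x, h, cjv_inv]
    rcases hor with h | h
    · refine ⟨1, Or.inl rfl, fun i => ?_⟩
      rw [hγ', ← mul_assoc, cjv_mul, cjv_mul (AT (p ^ k) c)] at h
      rw [key _ _ h, one_mul]
    · refine ⟨-1, Or.inr rfl, fun i => ?_⟩
      rw [hγ', ← mul_assoc, cjv_mul, cjv_mul (AT (p ^ k) c), ← cjv_neg] at h
      rw [key _ _ h, Pi.neg_apply, neg_one_mul]
  have hA : ∀ (x : Fin 3 → ℤ) (d : ℕ), cjv (AT (p ^ k) d) x =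
      ![((p ^ k : ℕ) : ℤ) * (x 0 + 2 * d * x 2), -Fq x d, ((p ^ k : ℕ) : ℤ) ^ 2 * x 2] := by
    intro x d
    rw [cjv_gen]
    unfold AT Fq
    ext i
    fin_cases i <;> simp <;> ring
  have ht : ((p ^ k : ℕ) : ℤ) ∣ (ρ : Mat) 1 0 := by
    have h0 := heq 0
    have h1 := heq 1
    rw [cjv_mul, hA, hA, cjv_gen] at h0 h1
    apply dvd_t (r := (ρ : Mat) 0 0) (s := (ρ : Mat) 0 1) (u := (ρ : Mat) 1 1) hp h3 hF hF' he
      (a := n 0 + 2 * c * n 2) (a' := n' 0 + 2 * c' * n' 2) (b' := n' 2)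
    · simpa using h0
    · simpa using h1
  obtain ⟨t₁, ht₁⟩ := ht
  refine ⟨⟨!![(ρ : Mat) 0 0 - c' * t₁, c * ((ρ : Mat) 0 0 - c' * t₁) + ((p ^ k : ℕ) : ℤ) * (ρ : Mat) 0 1
    - c' * (ρ : Mat) 1 1; t₁, c * t₁ + (ρ : Mat) 1 1], ?_⟩, ?_⟩
  · rw [Matrix.det_fin_two_of]
    linear_combination hdet + (ρ : Mat) 0 1 * ht₁
  · rw [hγ', ← mul_assoc, ← mul_assoc]
    congr 1
    unfold AT
    ext i j
    fin_cases i <;> fin_cases j <;> simp [Matrix.mul_apply, Fin.sum_univ_two] <;>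
      (try push_cast at ht₁) <;> (try linear_combination (-(c' : ℤ)) * ht₁) <;> (try linear_combination ht₁) <;> (try ring)

end Pool.Agent.A54.HSF
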