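import Pool.Agent.Lib.HS.F.SpecT

/-!
# Project H*, torus lemma (T): the common vector of a star (`StmtSz`)
-/

set_option autoImplicit false

namespace Pool.Agent.A54.HSF

open MeasureTheory Filter Topology Set
open scoped UpperHalfPlane MatrixGroups ENNReal
open Pool.Agent.A54.Dyn (G fl base ze io mk4 dom)
open Pool.Agent.A54.Av (Mat)
open Pool.Agent.A54.Hp (nu nm Mn Om Nb bt xi uu pr nz Tb ms FF HE Pm GdC GdK StmtNuL StmtUnf StmtNm)

namespace SzM

lemma det_AT (q c : ℕ) (γ : SL(2, ℤ)) : (AT q c * (γ : Mat)).det = (q : ℤ) := by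
  rw [Matrix.det_mul, γ.det_coe, mul_one]
  unfold AT
  rw [Matrix.det_fin_two]
  simp

lemma adj_mul_self (h h' : Mat) : (h' * h.adjugate) * h = h.det • h' := by
  rw [Matrix.mul_assoc, Matrix.adjugate_mul, Matrix.mul_smul, Matrix.mul_one]

lemma prim_ne {n : Fin 3 → ℤ} (h : Prim n) : ∃ j, n j ≠ 0 := by
  obtain ⟨a, ha⟩ := h
  by_contra hc
  push Not at hc
  rw [hc 0, hc 1, hc 2] at ha
  simp at ha

end SzM

open SzM

/-- **Sz** the common vector of a star. -/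
theorem stmtSz (h1 : StmtNm) (h2 : StmtCj) (h3 : StmtPp) (h4 : StmtPl) : StmtSz := by
  intro R hR
  obtain ⟨C, hC1, hC⟩ := h4 R hR
  have hC0 : 0 ≤ C := by linarith
  refine ⟨C * (2 * C + 1), by nlinarith, ?_⟩
  intro M H δ hM hH hδ hsmall k hk1 hk2 p p' hp hp' hpM hpM' n n' hn hn' hnH hnH' c hc c' hc' γ γ' z hx hx'
  set h : Mat := AT (p ^ k) c * (γ : Mat) with hh
  set h' : Mat := AT (p' ^ k) c' * (γ' : Mat) with hh'
  have dh : h.det = ((p ^ k : ℕ) : ℤ) := det_AT _ _ _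
  have dh' : h'.det = ((p' ^ k : ℕ) : ℤ) := det_AT _ _ _
  have ph : 0 < h.det := by
    rw [dh]; exact_mod_cast pow_pos hp.pos k
  have ph' : 0 < h'.det := by
    rw [dh']; exact_mod_cast pow_pos hp'.pos k
  set m : Mat := h' * h.adjugate with hm
  have dm : m.det = h'.det * h.det := by
    rw [hm, Matrix.det_mul, Matrix.det_adjugate]
    simp
  have pm : 0 < m.det := by rw [dm]; exact mul_pos ph' ph
  have hmh : m * h = h.det • h' := adj_mul_self h h'
  -- the point `x' = nm m * x`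
  have hxx : nm m * (nm h * z) = nm h' * z := by
    rw [← mul_assoc, ← h1.1 m h pm ph, hmh, h1.2.2.2.1 h.det h' ph]
  have dmM : ((m.det : ℤ) : ℝ) ≤ M ^ 4 := by
    rw [dm, dh, dh']
    push_cast
    have e1 : (p : ℝ) ^ k ≤ M ^ 2 := by
      calc (p : ℝ) ^ k ≤ M ^ k := by gcongr
        _ ≤ M ^ 2 := pow_le_pow_right₀ hM hk2
    have e2 : (p' : ℝ) ^ k ≤ M ^ 2 := by
      calc (p' : ℝ) ^ k ≤ M ^ k := by gcongr
        _ ≤ M ^ 2 := pow_le_pow_right₀ hM hk2
    calc (p' : ℝ) ^ k * (p : ℝ) ^ k ≤ M ^ 2 * M ^ 2 := by gcongr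
      _ = M ^ 4 := by ring
  have dm0 : (0 : ℝ) < ((m.det : ℤ) : ℝ) := by exact_mod_cast pm
  obtain ⟨hxO, hxa, hxb⟩ := hx
  obtain ⟨hxO', hxa', hxb'⟩ := hx'
  have hcj := h2.2.2.2.1 m (nm h * z) n' pm
  rw [hxx] at hcj
  have hCx := hC (nm h * z) hxO
  have hCx' := hC (nm h' * z) hxO'
  have b1 : |oa (nm h * z) (cjv m n')| ≤ M ^ 4 * δ := by
    rw [← hcj.1, abs_mul, abs_of_pos dm0, mul_comm]
    exact mul_le_mul dmM hxa' (abs_nonneg _) (by positivity)
  have b2 : |ob (nm h * z) (cjv m n')| ≤ M ^ 4 * δ := by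
    rw [← hcj.2.1, abs_mul, abs_of_pos dm0, mul_comm]
    exact mul_le_mul dmM hxb' (abs_nonneg _) (by positivity)
  have b3 : |od (nm h * z) (cjv m n')| ≤ M ^ 4 * (C * H) := by
    rw [← hcj.2.2, abs_mul, abs_of_pos dm0, mul_comm]
    exact mul_le_mul dmM (hCx'.2.1 n' H hnH') (abs_nonneg _) (by positivity)
  have hMpos : 1 ≤ M ^ 4 := one_le_pow₀ hM
  have hMH : 1 ≤ M ^ 4 * H := by nlinarith
  have hδ1 : δ ≤ 1 := by
    have e1 : δ ≤ M ^ 4 * (H * δ) := by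
      calc δ = 1 * δ := (one_mul δ).symm
        _ ≤ (M ^ 4 * H) * δ := by gcongr
        _ = M ^ 4 * (H * δ) := by ring
    have e2 : M ^ 4 * (H * δ) ≤ C * (2 * C + 1) * (M ^ 4 * (H * δ)) := by
      have : 1 ≤ C * (2 * C + 1) := by nlinarith
      have e3 : 0 ≤ M ^ 4 * (H * δ) := by positivity
      nlinarith
    linarith
  have hpar := hCx.1 n (cjv m n') (C * H) (M ^ 4 * (C * H)) δ (M ^ 4 * δ) (hCx.2.1 n H hnH) hxa hxb b3 b1 b2 (by
    refine lt_of_le_of_lt ?_ hsmall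
    have e1 : δ * (M ^ 4 * δ) ≤ M ^ 4 * (H * δ) := by
      calc δ * (M ^ 4 * δ) = M ^ 4 * (δ * δ) := by ring
        _ ≤ M ^ 4 * (H * δ) := by
          have : δ ≤ H := hδ1.trans hH
          gcongr
    calc C * (C * H * (M ^ 4 * δ) + M ^ 4 * (C * H) * δ + δ * (M ^ 4 * δ))
        ≤ C * (C * H * (M ^ 4 * δ) + M ^ 4 * (C * H) * δ + M ^ 4 * (H * δ)) := by gcongr
      _ = C * (2 * C + 1) * (M ^ 4 * (H * δ)) := by ring)
  -- apply `cjv h`
  have hlin : ∀ i j, cjv m n' j * cjv h n i = n j * cjv h (cjv m n') i := by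
    intro i j
    have e1 := h2.2.2.2.2.2 h (cjv m n' j) 0 n n' i
    have e2 := h2.2.2.2.2.2 h (n j) 0 (cjv m n') n' i
    have e3 : (fun l => cjv m n' j * n l + 0 * n' l) = (fun l => n j * cjv m n' l + 0 * n' l) := by
      funext l
      have := hpar l j
      linear_combination this
    rw [e3] at e1
    rw [e1] at e2
    linear_combination e2
  have hcomp : ∀ i, cjv h (cjv m n') i = h.det ^ 2 * cjv h' n' i := by
    intro i
    rw [← h2.1 m h n', hmh]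
    exact h2.2.1 h.det h' n' i
  obtain ⟨j, hj⟩ := prim_ne hn
  refine h3.2 (cjv h n) (cjv h' n') (h3.1 n p k c γ hn hp hc) (h3.1 n' p' k c' γ' hn' hp' hc') ?_
  intro a b
  have hd2 : n j * h.det ^ 2 ≠ 0 := mul_ne_zero hj (pow_ne_zero 2 ph.ne')
  have ea := hlin a j
  have eb := hlin b j
  rw [hcomp a] at ea
  rw [hcomp b] at eb
  apply mul_left_cancel₀ hd2
  linear_combination (cjv h n b) * ea - (cjv h n a) * eb

end Pool.Agent.A54.HSF
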