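import Pool.Agent.Lib.HS.F.SpecT

/-!
# Project H*, torus lemma (T): mass of the torus points (helper56)
-/

set_option autoImplicit false

namespace Pool.Agent.A54.HSF

open MeasureTheory Filter Topology Set
open scoped UpperHalfPlane MatrixGroups ENNReal
open Pool.Agent.A54.Dyn (G fl base ze io mk4 dom)
open Pool.Agent.A54.Av (Mat)
open Pool.Agent.A54.Hp (nu nm Mn Om Nb bt xi uu pr nz Tb ms FF HE Pm GdC GdK StmtNuL StmtUnf StmtNm)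

noncomputable section

namespace TTmM

/-- Bezout in rank three -/
lemma bez (u : Fin 3 → ℤ) (hu : u ≠ 0) : ∃ (g : ℤ) (n : Fin 3 → ℤ), g ≠ 0 ∧
    (∀ i, u i = g * n i) ∧ Prim n := by
  obtain ⟨g1, hg1⟩ : ∃ g1 : ℤ, g1 = (Int.gcd (u 0) (u 1) : ℤ) := ⟨_, rfl⟩
  have h1 : g1 = u 0 * Int.gcdA (u 0) (u 1) + u 1 * Int.gcdB (u 0) (u 1) := by
    rw [hg1]; exact Int.gcd_eq_gcd_ab _ _
  obtain ⟨g, hg⟩ : ∃ g : ℤ, g = (Int.gcd g1 (u 2) : ℤ) := ⟨_, rfl⟩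
  have h2 : g = g1 * Int.gcdA g1 (u 2) + u 2 * Int.gcdB g1 (u 2) := by
    rw [hg]; exact Int.gcd_eq_gcd_ab _ _
  have e0 : g1 ∣ u 0 := by rw [hg1]; exact Int.gcd_dvd_left _ _
  have e1 : g1 ∣ u 1 := by rw [hg1]; exact Int.gcd_dvd_right _ _
  have e2 : g ∣ g1 := by rw [hg]; exact Int.gcd_dvd_left _ _
  have e3 : g ∣ u 2 := by rw [hg]; exact Int.gcd_dvd_right _ _
  obtain ⟨n0, hn0⟩ := e2.trans e0
  obtain ⟨n1, hn1⟩ := e2.trans e1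
  obtain ⟨n2, hn2⟩ := e3
  have hall : ∀ i, u i = g * (![n0, n1, n2] : Fin 3 → ℤ) i := by
    intro i
    fin_cases i
    · simpa using hn0
    · simpa using hn1
    · simpa using hn2
  have hg0 : g ≠ 0 := by
    intro h
    apply hu
    funext i
    rw [hall i, h, zero_mul]
    rfl
  refine ⟨g, ![n0, n1, n2], hg0, hall, ![Int.gcdA (u 0) (u 1) * Int.gcdA g1 (u 2),
    Int.gcdB (u 0) (u 1) * Int.gcdA g1 (u 2), Int.gcdB g1 (u 2)], ?_⟩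
  simp only [Matrix.cons_val_zero, Matrix.cons_val_one, Matrix.cons_val]
  apply mul_left_cancel₀ hg0
  generalize Int.gcdA (u 0) (u 1) = A at h1 ⊢
  generalize Int.gcdB (u 0) (u 1) = B at h1 ⊢
  generalize Int.gcdA g1 (u 2) = A' at h2 ⊢
  generalize Int.gcdB g1 (u 2) = B' at h2 ⊢
  rw [hn2] at h2
  rw [hn0, hn1] at h1
  calc g * (A * A' * n0 + B * A' * n1 + B' * n2)
      = (g * n0 * A + g * n1 * B) * A' + g * n2 * B' := by ring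
    _ = g * 1 := by rw [← h1, ← h2, mul_one]

lemma isClosed_Om (R : ℝ) : IsClosed (Om R) := by
  have h : Om R = ⋂ i, ⋂ j, {g : G | |g i j| ≤ R} := by
    ext g
    simp only [Om, mem_iInter]
    exact Iff.rfl
  rw [h]
  exact isClosed_iInter fun i => isClosed_iInter fun j =>
    isClosed_le (Dyn.continuous_entry i j).abs continuous_const

lemma isClosed_TV (R δ : ℝ) (n : Fin 3 → ℤ) : IsClosed (TV R δ n) := by
  have h : TV R δ n = Om R ∩ ({g : G | |oa g n| ≤ δ} ∩ {g : G | |ob g n| ≤ δ}) := by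
    ext g
    simp only [TV, mem_ofPred_eq, mem_inter_iff]
  rw [h]
  have h1 := fun i j => Dyn.continuous_entry i j
  refine (isClosed_Om R).inter ((isClosed_le ?_ continuous_const).inter
    (isClosed_le ?_ continuous_const))
  · refine Continuous.abs ?_
    unfold oa
    exact ((continuous_const.mul ((h1 1 1).pow 2)).add
      (continuous_const.mul ((h1 0 1).mul (h1 1 1)))).sub
        (continuous_const.mul ((h1 0 1).pow 2))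
  · refine Continuous.abs ?_
    unfold ob
    exact ((continuous_const.mul ((h1 0 0).pow 2)).sub
      (continuous_const.mul ((h1 0 0).mul (h1 1 0)))).sub
        (continuous_const.mul ((h1 1 0).pow 2))

/-- `oa`, `ob` are linear in `n` -/
lemma oa_mul (x : G) (u n : Fin 3 → ℤ) (g : ℤ) (h : ∀ i, u i = g * n i) :
    oa x u = g * oa x n := by
  unfold oa
  rw [h, h, h]
  push_cast
  ring

lemma ob_mul (x : G) (u n : Fin 3 → ℤ) (g : ℤ) (h : ∀ i, u i = g * n i) :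
    ob x u = g * ob x n := by
  unfold ob
  rw [h, h, h]
  push_cast
  ring

/-- division by a non-zero integer -/
lemma div_int {g : ℤ} (hg : g ≠ 0) {a b δ : ℝ} (h : a = g * b) (ha : |a| ≤ δ) : |b| ≤ δ := by
  have h1 : (1 : ℝ) ≤ |(g : ℝ)| := by
    have h2 : (1 : ℤ) ≤ |g| := Int.one_le_abs hg
    have h3 : ((1 : ℤ) : ℝ) ≤ ((|g| : ℤ) : ℝ) := by exact_mod_cast h2
    rw [Int.cast_abs] at h3
    simpa using h3
  rw [h, abs_mul] at ha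
  calc |b| = 1 * |b| := (one_mul _).symm
    _ ≤ |(g : ℝ)| * |b| := mul_le_mul_of_nonneg_right h1 (abs_nonneg _)
    _ ≤ δ := ha

/-- the vectors of height `H` -/
def Bx (H : ℝ) : Finset (Fin 3 → ℤ) :=
  Fintype.piFinset fun _ => Finset.Icc (-(⌊H⌋₊ : ℤ)) ⌊H⌋₊

lemma mem_Bx {H : ℝ} (hH : 0 ≤ H) (n : Fin 3 → ℤ) : n ∈ Bx H ↔ ∀ i, |(n i : ℝ)| ≤ H := by
  unfold Bx
  rw [Fintype.mem_piFinset]
  refine forall_congr' fun i => ?_
  rw [Finset.mem_Icc, ← abs_le]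
  have h1 : |n i| ≤ (⌊H⌋₊ : ℤ) ↔ (n i).natAbs ≤ ⌊H⌋₊ := by
    rw [Int.abs_eq_natAbs]
    exact_mod_cast Iff.rfl
  rw [h1, Nat.le_floor_iff hH, Nat.cast_natAbs, Int.cast_abs]

/-- the number of returns -/
theorem num (R : ℝ) (_hR : 1 ≤ R) (J : ℕ) :
    (8 : ℝ≥0∞) * (((J * (2 * (2 * ⌊2 * R ^ 2⌋₊ + 1) ^ 4) : ℕ)) : ℝ≥0∞) ≤
      ENNReal.ofReal (16 * (4 * R ^ 2 + 1) ^ 4 * J) := by
  have h0 : (0 : ℝ) ≤ 2 * R ^ 2 := by positivity
  have h1 : (⌊2 * R ^ 2⌋₊ : ℝ) ≤ 2 * R ^ 2 := Nat.floor_le h0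
  have h2 : ((8 * (J * (2 * (2 * ⌊2 * R ^ 2⌋₊ + 1) ^ 4)) : ℕ) : ℝ) ≤
      16 * (4 * R ^ 2 + 1) ^ 4 * J := by
    push_cast
    have h3 : 2 * (⌊2 * R ^ 2⌋₊ : ℝ) + 1 ≤ 4 * R ^ 2 + 1 := by linarith
    have h4 : (0 : ℝ) ≤ 2 * (⌊2 * R ^ 2⌋₊ : ℝ) + 1 := by positivity
    have h5 := pow_le_pow_left₀ h4 h3 4
    have h6 : (0 : ℝ) ≤ J := Nat.cast_nonneg J
    nlinarith
  have h6 : (8 : ℝ≥0∞) * ((J * (2 * (2 * ⌊2 * R ^ 2⌋₊ + 1) ^ 4) : ℕ) : ℝ≥0∞) =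
      ((8 * (J * (2 * (2 * ⌊2 * R ^ 2⌋₊ + 1) ^ 4)) : ℕ) : ℝ≥0∞) := by
    push_cast
    rfl
  rw [h6, ← ENNReal.ofReal_natCast]
  exact ENNReal.ofReal_le_ofReal h2

lemma ms_union (S : Finset (Fin 3 → ℤ)) (A : (Fin 3 → ℤ) → Set G) (Φ : G → ℂ) (T : Set G)
    (hT : T ⊆ ⋃ i : S, A i) : ms Φ T ≤ ∑ n ∈ S, ms Φ (A n) := by
  calc ms Φ T ≤ ms Φ (⋃ i : S, A i) := lintegral_mono_set hT
    _ ≤ ∑' i : S, ms Φ (A i) := lintegral_iUnion_le _ _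
    _ = ∑ i : S, ms Φ (A i) := tsum_fintype _
    _ = ∑ n ∈ S, ms Φ (A n) := Finset.sum_coe_sort S fun n => ms Φ (A n)

end TTmM

open TTmM in
theorem stmtTTm (h1 : StmtUfF) (h2 : StmtCtT) : StmtTTm := by
  classical
  intro R hR
  obtain ⟨C1, hC1, hct⟩ := h2 R hR
  refine ⟨max C1 (16 * (4 * R ^ 2 + 1) ^ 4), le_max_of_le_left hC1, ?_⟩
  intro l Φ hE M₀ M H δ hM₀ hM hH hδ hC J hJ P hP hPM
  have hq : 0 ≤ M ^ 4 * (H * δ) := by positivity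
  have hC' : C1 * (M ^ 4 * (H * δ)) < 1 :=
    lt_of_le_of_lt (mul_le_mul_of_nonneg_right (le_max_left _ _) hq) hC
  set S : Finset (Fin 3 → ℤ) := (Bx H).filter Prim with hS
  have hmS : ∀ n, n ∈ S ↔ (∀ i, |(n i : ℝ)| ≤ H) ∧ Prim n := by
    intro n
    rw [hS, Finset.mem_filter, mem_Bx (by linarith)]
  have hret := hct M₀ M H δ (by linarith) hM hH hδ hC' J hJ P
    (fun p hp => ⟨(hP p hp).1, hPM p hp⟩) S (fun n hn => ⟨((hmS n).1 hn).2, ((hmS n).1 hn).1⟩)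
  have huf := h1 l Φ hE S (TV R δ) (fun n hn => ((hmS n).1 hn).2)
    (fun n _ => (isClosed_TV R δ n).measurableSet) P hP _ hret
  have hsub : TT R H δ ⊆ ⋃ i : S, TV R δ i := by
    rintro x ⟨u, hu, huH, hx⟩
    obtain ⟨g, n, hg, hun, hn⟩ := bez u hu
    have hnH : ∀ i, |(n i : ℝ)| ≤ H := by
      intro i
      refine div_int hg ?_ (huH i)
      rw [hun i]
      push_cast
      ring
    refine mem_iUnion.2 ⟨⟨n, (hmS n).2 ⟨hnH, hn⟩⟩, hx.1, ?_, ?_⟩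
    · exact div_int hg (oa_mul x u n g hun) hx.2.1
    · exact div_int hg (ob_mul x u n g hun) hx.2.2
  calc (P.card : ℝ≥0∞) * ms Φ (TT R H δ)
      ≤ (P.card : ℝ≥0∞) * ∑ n ∈ S, ms Φ (TV R δ n) := by
        gcongr
        exact ms_union S (TV R δ) Φ _ hsub
    _ ≤ 8 * ((J * (2 * (2 * ⌊2 * R ^ 2⌋₊ + 1) ^ 4) : ℕ) : ℝ≥0∞) := huf
    _ ≤ ENNReal.ofReal (16 * (4 * R ^ 2 + 1) ^ 4 * J) := num R hR J
    _ ≤ ENNReal.ofReal (max C1 (16 * (4 * R ^ 2 + 1) ^ 4) * J) :=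
        ENNReal.ofReal_le_ofReal
          (mul_le_mul_of_nonneg_right (le_max_right _ _) (Nat.cast_nonneg J))

end

end Pool.Agent.A54.HSF
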