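import Pool.Agent.Lib.HS.F.Spec

/-!
# Project H*, part (F), module Uf: unfolding (helper92)
-/

set_option autoImplicit false

namespace Pool.Agent.A54.HSF

open MeasureTheory Filter Topology Set
open scoped UpperHalfPlane MatrixGroups ENNReal
open Pool.Agent.A54.Dyn (G fl base ze io mk4 dom)
open Pool.Agent.A54.Av (Mat)
open Pool.Agent.A54.Hp (nu nm Mn Om Nb bt xi uu pr nz Tb ms FF HE Pm GdC GdK StmtNuL StmtUnf StmtNm)

noncomputable section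

namespace UfM

theorem countable_sl : Countable SL(2, ℤ) := by
  have : Countable (Matrix (Fin 2) (Fin 2) ℤ) :=
    inferInstanceAs (Countable (Fin 2 → Fin 2 → ℤ))
  exact Subtype.countable

lemma adj_UT (q c : ℕ) : (UT q c).adjugate = AT q c := by
  unfold UT AT
  rw [Matrix.adjugate_fin_two_of, neg_zero]

lemma det_UT (q c : ℕ) : (UT q c).det = (q : ℤ) := by
  unfold UT
  rw [Matrix.det_fin_two_of]
  ring

lemma det_AT (q c : ℕ) : (AT q c).det = (q : ℤ) := by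
  unfold AT
  rw [Matrix.det_fin_two_of]
  ring

lemma meas_sq {l : ℕ → ℝ} {Φ : G → ℂ} (hE : HE l Φ) : Measurable fun g : G => ‖Φ g‖ₑ ^ 2 :=
  (hE.cont.measurable.enorm).pow_const 2

lemma meas_left (g : G) : Measurable fun x : G => g * x :=
  (continuous_const.mul continuous_id).measurable

/-- unfolding for one matrix -/
lemma one (h1 : StmtNuL) (h2 : StmtUnf) (h3 : StmtNm) {l : ℕ → ℝ} {Φ : G → ℂ} (hE : HE l Φ)
    {V : Set G} (hV : MeasurableSet V) {q : ℕ} (c : ℕ) (hq : 0 < q) :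
    2 * ∫⁻ x in V, ‖Φ (nm (UT q c) * x)‖ₑ ^ 2 ∂nu =
      ∫⁻ z in FF, (∑' γ : SL(2, ℤ),
        V.indicator (fun _ => (1 : ℝ≥0∞)) (nm (AT q c * (γ : Mat)) * z)) * ‖Φ z‖ₑ ^ 2 ∂nu := by
  have hinv := h1.1
  have hcount := countable_sl
  have hd : 0 < (UT q c).det := by
    rw [det_UT]
    exact_mod_cast hq
  have hd' : 0 < (AT q c).det := by
    rw [det_AT]
    exact_mod_cast hq
  have hm := meas_sq hE
  obtain ⟨F, hF⟩ : ∃ F : G → ℝ≥0∞, F = fun z =>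
      V.indicator (fun _ => (1 : ℝ≥0∞)) ((nm (UT q c))⁻¹ * z) * ‖Φ z‖ₑ ^ 2 := ⟨_, rfl⟩
  have hFm : Measurable F := by
    rw [hF]
    exact ((measurable_const.indicator hV).comp (meas_left _)).mul hm
  have e1 : ∫⁻ x in V, ‖Φ (nm (UT q c) * x)‖ₑ ^ 2 ∂nu = ∫⁻ z, F z ∂nu := by
    rw [← lintegral_mul_left_eq_self F (nm (UT q c)), ← lintegral_indicator hV]
    refine lintegral_congr fun x => ?_
    rw [hF]
    simp only [inv_mul_cancel_left]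
    by_cases hx : x ∈ V
    · rw [indicator_of_mem hx, indicator_of_mem hx, one_mul]
    · rw [indicator_of_notMem hx, indicator_of_notMem hx, zero_mul]
  rw [e1, ← h2.1 F hFm, ← lintegral_tsum]
  · refine lintegral_congr fun z => ?_
    rw [← ENNReal.tsum_mul_right]
    refine tsum_congr fun γ => ?_
    have e2 : (nm (UT q c))⁻¹ * (io γ * z) = nm (AT q c * (γ : Mat)) * z := by
      rw [h3.1 (AT q c) (γ : Mat) hd' (by rw [γ.det_coe]; norm_num), h3.2.1, ← adj_UT,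
        h3.2.2.1 (UT q c) hd, mul_assoc]
    rw [hF]
    simp only [e2, hE.inv]
  · intro γ
    exact (hFm.comp (meas_left _)).aemeasurable

/-- the number of returns -/
lemma cnt (P : Finset ℕ) (n : Fin 3 → ℤ) (k : ℕ) (V : Set G) (z : G) :
    ∑ p ∈ P, ∑ c ∈ Gr n p k, ∑' γ : SL(2, ℤ),
      V.indicator (fun _ => (1 : ℝ≥0∞)) (nm (AT (p ^ k) c * (γ : Mat)) * z) ≤
        ((Rt P n k V z).encard : ℝ≥0∞) := by
  obtain ⟨f, hf⟩ : ∃ f : ℕ × ℕ × SL(2, ℤ) → ℝ≥0∞,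
      f = (Rt P n k V z).indicator (fun _ => (1 : ℝ≥0∞)) := ⟨_, rfl⟩
  have h1 : ((Rt P n k V z).encard : ℝ≥0∞) = ∑' y, f y := by
    rw [hf, ← tsum_subtype, ENNReal.tsum_set_one]
  have h2 : ∀ p ∈ P, ∀ c ∈ Gr n p k, ∀ γ : SL(2, ℤ),
      V.indicator (fun _ => (1 : ℝ≥0∞)) (nm (AT (p ^ k) c * (γ : Mat)) * z) = f (p, c, γ) := by
    intro p hp c hc γ
    rw [hf]
    by_cases hx : nm (AT (p ^ k) c * (γ : Mat)) * z ∈ V
    · rw [indicator_of_mem hx, indicator_of_mem]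
      exact ⟨hp, hc, hx⟩
    · rw [indicator_of_notMem hx, indicator_of_notMem]
      exact fun h => hx h.2.2
  rw [h1, ENNReal.tsum_prod' (f := f)]
  calc ∑ p ∈ P, ∑ c ∈ Gr n p k, ∑' γ : SL(2, ℤ),
        V.indicator (fun _ => (1 : ℝ≥0∞)) (nm (AT (p ^ k) c * (γ : Mat)) * z)
      = ∑ p ∈ P, ∑ c ∈ Gr n p k, ∑' γ : SL(2, ℤ), f (p, c, γ) := by
        refine Finset.sum_congr rfl fun p hp => Finset.sum_congr rfl fun c hc =>
          tsum_congr fun γ => h2 p hp c hc γ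
    _ ≤ ∑ p ∈ P, ∑' y : ℕ × SL(2, ℤ), f (p, y) := by
        refine Finset.sum_le_sum fun p _ => ?_
        rw [ENNReal.tsum_prod' (f := fun y : ℕ × SL(2, ℤ) => f (p, y))]
        exact ENNReal.sum_le_tsum (f := fun c : ℕ => ∑' γ : SL(2, ℤ), f (p, c, γ)) (Gr n p k)
    _ ≤ ∑' p : ℕ, ∑' y : ℕ × SL(2, ℤ), f (p, y) :=
        ENNReal.sum_le_tsum (f := fun p : ℕ => ∑' y : ℕ × SL(2, ℤ), f (p, y)) P

/-- one level -/
lemma level (h1 : StmtNuL) (h2 : StmtUnf) (h3 : StmtNm) {l : ℕ → ℝ} {Φ : G → ℂ} (hE : HE l Φ)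
    {V : Set G} (hV : MeasurableSet V) {P : Finset ℕ} (hP : ∀ p ∈ P, p.Prime) (n : Fin 3 → ℤ)
    (k N : ℕ) (hN : ∀ z : G, (Rt P n k V z).encard ≤ N) :
    ∑ p ∈ P, ∑ c ∈ Gr n p k, ∫⁻ x in V, ‖Φ (nm (UT (p ^ k) c) * x)‖ₑ ^ 2 ∂nu ≤ N := by
  have hcount := countable_sl
  have hm := meas_sq hE
  have hmi : ∀ (p c : ℕ), Measurable fun z : G => (∑' γ : SL(2, ℤ),
      V.indicator (fun _ => (1 : ℝ≥0∞)) (nm (AT (p ^ k) c * (γ : Mat)) * z)) := by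
    intro p c
    exact Measurable.tsum fun γ =>
      (measurable_const.indicator hV).comp (meas_left _)
  have hmi2 : ∀ (p c : ℕ), Measurable fun z : G => (∑' γ : SL(2, ℤ),
      V.indicator (fun _ => (1 : ℝ≥0∞)) (nm (AT (p ^ k) c * (γ : Mat)) * z)) * ‖Φ z‖ₑ ^ 2 :=
    fun p c => (hmi p c).mul hm
  have hmi3 : ∀ p : ℕ, Measurable fun z : G => ∑ c ∈ Gr n p k, (∑' γ : SL(2, ℤ),
      V.indicator (fun _ => (1 : ℝ≥0∞)) (nm (AT (p ^ k) c * (γ : Mat)) * z)) * ‖Φ z‖ₑ ^ 2 :=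
    fun p => Finset.measurable_fun_sum _ fun c _ => hmi2 p c
  have e1 : 2 * ∑ p ∈ P, ∑ c ∈ Gr n p k, ∫⁻ x in V, ‖Φ (nm (UT (p ^ k) c) * x)‖ₑ ^ 2 ∂nu ≤
      2 * (N : ℝ≥0∞) := by
    calc 2 * ∑ p ∈ P, ∑ c ∈ Gr n p k, ∫⁻ x in V, ‖Φ (nm (UT (p ^ k) c) * x)‖ₑ ^ 2 ∂nu
        = ∑ p ∈ P, ∑ c ∈ Gr n p k, ∫⁻ z in FF, (∑' γ : SL(2, ℤ),
            V.indicator (fun _ => (1 : ℝ≥0∞)) (nm (AT (p ^ k) c * (γ : Mat)) * z)) *
              ‖Φ z‖ₑ ^ 2 ∂nu := by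
          rw [Finset.mul_sum]
          refine Finset.sum_congr rfl fun p hp => ?_
          rw [Finset.mul_sum]
          exact Finset.sum_congr rfl fun c _ => one h1 h2 h3 hE hV c (pow_pos (hP p hp).pos k)
      _ = ∫⁻ z in FF, (∑ p ∈ P, ∑ c ∈ Gr n p k, ∑' γ : SL(2, ℤ),
            V.indicator (fun _ => (1 : ℝ≥0∞)) (nm (AT (p ^ k) c * (γ : Mat)) * z)) *
              ‖Φ z‖ₑ ^ 2 ∂nu := by
          refine (Finset.sum_congr rfl fun p _ => (lintegral_finsetSum (Gr n p k)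
            fun c _ => hmi2 p c).symm).trans ?_
          refine (lintegral_finsetSum P fun p _ => hmi3 p).symm.trans ?_
          refine lintegral_congr fun z => ?_
          rw [Finset.sum_mul]
          exact Finset.sum_congr rfl fun p _ => (Finset.sum_mul _ _ _).symm
      _ ≤ ∫⁻ z in FF, (N : ℝ≥0∞) * ‖Φ z‖ₑ ^ 2 ∂nu := by
          refine lintegral_mono fun z => ?_
          refine mul_le_mul_left (((cnt P n k V z).trans ?_)) _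
          have := hN z
          exact_mod_cast this
      _ = (N : ℝ≥0∞) * ∫⁻ z in FF, ‖Φ z‖ₑ ^ 2 ∂nu := lintegral_const_mul _ hm
      _ ≤ (N : ℝ≥0∞) * 2 := mul_le_mul_right hE.norm _
      _ = 2 * (N : ℝ≥0∞) := mul_comm _ _
  exact (ENNReal.mul_le_mul_iff_right (by norm_num) (by norm_num)).1 e1

end UfM

open UfM

theorem stmtUf (h1 : StmtNuL) (h2 : StmtUnf) (h3 : StmtNm) (h4 : StmtId) : StmtUf := by
  intro l Φ hE V hV P hP n hn N hN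
  have hm := meas_sq hE
  have hmu : ∀ s : Mat, Measurable fun x : G => ‖Φ (nm s * x)‖ₑ ^ 2 := fun s =>
    hm.comp (meas_left _)
  have e1 : ∀ p ∈ P, ms Φ V ≤ 4 * (∑ c ∈ Gr n p 1, ∫⁻ x in V, ‖Φ (nm (UT (p ^ 1) c) * x)‖ₑ ^ 2 ∂nu +
      ∑ c ∈ Gr n p 2, ∫⁻ x in V, ‖Φ (nm (UT (p ^ 2) c) * x)‖ₑ ^ 2 ∂nu) := by
    intro p hp
    obtain ⟨hp1, hp2, hp3⟩ := hP p hp
    calc ms Φ V = ∫⁻ x in V, ‖Φ x‖ₑ ^ 2 ∂nu := rfl
      _ ≤ ∫⁻ x in V, 4 * (∑ c ∈ Gr n p 1, ‖Φ (nm (UT (p ^ 1) c) * x)‖ₑ ^ 2 +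
            ∑ c ∈ Gr n p 2, ‖Φ (nm (UT (p ^ 2) c) * x)‖ₑ ^ 2) ∂nu :=
          lintegral_mono fun x => h4 l Φ hE p hp1 hp2 hp3 n hn x
      _ = _ := by
          have m1 : Measurable fun x : G => ∑ c ∈ Gr n p 1, ‖Φ (nm (UT (p ^ 1) c) * x)‖ₑ ^ 2 :=
            Finset.measurable_fun_sum _ fun c _ => hmu _
          have m2 : Measurable fun x : G => ∑ c ∈ Gr n p 2, ‖Φ (nm (UT (p ^ 2) c) * x)‖ₑ ^ 2 :=
            Finset.measurable_fun_sum _ fun c _ => hmu _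
          have m3 : Measurable fun x : G => ∑ c ∈ Gr n p 1, ‖Φ (nm (UT (p ^ 1) c) * x)‖ₑ ^ 2 +
              ∑ c ∈ Gr n p 2, ‖Φ (nm (UT (p ^ 2) c) * x)‖ₑ ^ 2 := m1.add m2
          rw [lintegral_const_mul _ m3, lintegral_add_left m1,
            lintegral_finsetSum _ fun c _ => hmu _, lintegral_finsetSum _ fun c _ => hmu _]
  have hPp : ∀ p ∈ P, p.Prime := fun p hp => (hP p hp).1
  calc (P.card : ℝ≥0∞) * ms Φ V = ∑ p ∈ P, ms Φ V := by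
        rw [Finset.sum_const, nsmul_eq_mul]
    _ ≤ ∑ p ∈ P, 4 * (∑ c ∈ Gr n p 1, ∫⁻ x in V, ‖Φ (nm (UT (p ^ 1) c) * x)‖ₑ ^ 2 ∂nu +
          ∑ c ∈ Gr n p 2, ∫⁻ x in V, ‖Φ (nm (UT (p ^ 2) c) * x)‖ₑ ^ 2 ∂nu) :=
        Finset.sum_le_sum e1
    _ = 4 * (∑ p ∈ P, ∑ c ∈ Gr n p 1, ∫⁻ x in V, ‖Φ (nm (UT (p ^ 1) c) * x)‖ₑ ^ 2 ∂nu +
          ∑ p ∈ P, ∑ c ∈ Gr n p 2, ∫⁻ x in V, ‖Φ (nm (UT (p ^ 2) c) * x)‖ₑ ^ 2 ∂nu) := by
        rw [← Finset.mul_sum, Finset.sum_add_distrib]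
    _ ≤ 4 * ((N : ℝ≥0∞) + N) := by
        refine mul_le_mul_right (add_le_add ?_ ?_) _
        · exact level h1 h2 h3 hE hV hPp n 1 N (hN 1 le_rfl (by norm_num))
        · exact level h1 h2 h3 hE hV hPp n 2 N (hN 2 (by norm_num) le_rfl)
    _ = 8 * N := by ring

end

end Pool.Agent.A54.HSF
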