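import Pool.Agent.Lib.HS.F.SpecT
import Pool.Agent.Lib.HS.F.Uf

/-!
# Project H*, part (F), module UfF: unfolding for families (after `HS/F/Uf.lean`; helper61)
-/

set_option autoImplicit false

namespace Pool.Agent.A54.HSF

open MeasureTheory Filter Topology Set
open scoped UpperHalfPlane MatrixGroups ENNReal
open Pool.Agent.A54.Dyn (G fl base ze io mk4 dom)
open Pool.Agent.A54.Av (Mat)
open Pool.Agent.A54.Hp (nu nm Mn Om Nb bt xi uu pr nz Tb ms FF HE Pm GdC GdK StmtNuL StmtUnf StmtNm)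

noncomputable section

namespace UfFM

open UfM

/-- the number of returns -/
lemma cnt (S : Finset (Fin 3 → ℤ)) (P : Finset ℕ) (k : ℕ) (V : (Fin 3 → ℤ) → Set G) (z : G) :
    ∑ n ∈ S, ∑ p ∈ P, ∑ c ∈ Gr n p k, ∑' γ : SL(2, ℤ),
      (V n).indicator (fun _ => (1 : ℝ≥0∞)) (nm (AT (p ^ k) c * (γ : Mat)) * z) ≤
        ((RtF S P k V z).encard : ℝ≥0∞) := by
  obtain ⟨f, hf⟩ : ∃ f : (Fin 3 → ℤ) × ℕ × ℕ × SL(2, ℤ) → ℝ≥0∞,
      f = (RtF S P k V z).indicator (fun _ => (1 : ℝ≥0∞)) := ⟨_, rfl⟩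
  have h1 : ((RtF S P k V z).encard : ℝ≥0∞) = ∑' y, f y := by
    rw [hf, ← tsum_subtype, ENNReal.tsum_set_one]
  have h2 : ∀ n ∈ S, ∀ p ∈ P, ∀ c ∈ Gr n p k, ∀ γ : SL(2, ℤ),
      (V n).indicator (fun _ => (1 : ℝ≥0∞)) (nm (AT (p ^ k) c * (γ : Mat)) * z) =
        f (n, p, c, γ) := by
    intro n hn p hp c hc γ
    rw [hf]
    by_cases hx : nm (AT (p ^ k) c * (γ : Mat)) * z ∈ V n
    · rw [indicator_of_mem hx, indicator_of_mem]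
      exact ⟨hn, hp, hc, hx⟩
    · rw [indicator_of_notMem hx, indicator_of_notMem]
      exact fun h => hx h.2.2.2
  rw [h1, ENNReal.tsum_prod' (f := f)]
  calc ∑ n ∈ S, ∑ p ∈ P, ∑ c ∈ Gr n p k, ∑' γ : SL(2, ℤ),
        (V n).indicator (fun _ => (1 : ℝ≥0∞)) (nm (AT (p ^ k) c * (γ : Mat)) * z)
      = ∑ n ∈ S, ∑ p ∈ P, ∑ c ∈ Gr n p k, ∑' γ : SL(2, ℤ), f (n, p, c, γ) := by
        refine Finset.sum_congr rfl fun n hn => Finset.sum_congr rfl fun p hp =>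
          Finset.sum_congr rfl fun c hc => tsum_congr fun γ => h2 n hn p hp c hc γ
    _ ≤ ∑ n ∈ S, ∑ p ∈ P, ∑' y : ℕ × SL(2, ℤ), f (n, p, y) := by
        refine Finset.sum_le_sum fun n _ => Finset.sum_le_sum fun p _ => ?_
        rw [ENNReal.tsum_prod' (f := fun y : ℕ × SL(2, ℤ) => f (n, p, y))]
        exact ENNReal.sum_le_tsum (f := fun c : ℕ => ∑' γ : SL(2, ℤ), f (n, p, c, γ)) (Gr n p k)
    _ ≤ ∑ n ∈ S, ∑' y : ℕ × ℕ × SL(2, ℤ), f (n, y) := by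
        refine Finset.sum_le_sum fun n _ => ?_
        rw [ENNReal.tsum_prod' (f := fun y : ℕ × ℕ × SL(2, ℤ) => f (n, y))]
        exact ENNReal.sum_le_tsum (f := fun p : ℕ => ∑' y : ℕ × SL(2, ℤ), f (n, p, y)) P
    _ ≤ ∑' n : Fin 3 → ℤ, ∑' y : ℕ × ℕ × SL(2, ℤ), f (n, y) :=
        ENNReal.sum_le_tsum (f := fun n : Fin 3 → ℤ => ∑' y : ℕ × ℕ × SL(2, ℤ), f (n, y)) S

/-- one level -/
lemma level (h1 : StmtNuL) (h2 : StmtUnf) (h3 : StmtNm) {l : ℕ → ℝ} {Φ : G → ℂ} (hE : HE l Φ)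
    {S : Finset (Fin 3 → ℤ)} {V : (Fin 3 → ℤ) → Set G} (hV : ∀ n ∈ S, MeasurableSet (V n))
    {P : Finset ℕ} (hP : ∀ p ∈ P, p.Prime) (k N : ℕ)
    (hN : ∀ z : G, (RtF S P k V z).encard ≤ N) :
    ∑ n ∈ S, ∑ p ∈ P, ∑ c ∈ Gr n p k, ∫⁻ x in V n, ‖Φ (nm (UT (p ^ k) c) * x)‖ₑ ^ 2 ∂nu ≤ N := by
  have hcount := countable_sl
  have hm := meas_sq hE
  have hmi : ∀ n ∈ S, ∀ (p c : ℕ), Measurable fun z : G => (∑' γ : SL(2, ℤ),
      (V n).indicator (fun _ => (1 : ℝ≥0∞)) (nm (AT (p ^ k) c * (γ : Mat)) * z)) := by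
    intro n hn p c
    exact Measurable.tsum fun γ =>
      (measurable_const.indicator (hV n hn)).comp (meas_left _)
  have hmi2 : ∀ n ∈ S, ∀ (p c : ℕ), Measurable fun z : G => (∑' γ : SL(2, ℤ),
      (V n).indicator (fun _ => (1 : ℝ≥0∞)) (nm (AT (p ^ k) c * (γ : Mat)) * z)) * ‖Φ z‖ₑ ^ 2 :=
    fun n hn p c => (hmi n hn p c).mul hm
  have hmi3 : ∀ n ∈ S, ∀ p : ℕ, Measurable fun z : G => ∑ c ∈ Gr n p k, (∑' γ : SL(2, ℤ),
      (V n).indicator (fun _ => (1 : ℝ≥0∞)) (nm (AT (p ^ k) c * (γ : Mat)) * z)) * ‖Φ z‖ₑ ^ 2 :=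
    fun n hn p => Finset.measurable_fun_sum _ fun c _ => hmi2 n hn p c
  have hmi4 : ∀ n ∈ S, Measurable fun z : G => ∑ p ∈ P, ∑ c ∈ Gr n p k, (∑' γ : SL(2, ℤ),
      (V n).indicator (fun _ => (1 : ℝ≥0∞)) (nm (AT (p ^ k) c * (γ : Mat)) * z)) * ‖Φ z‖ₑ ^ 2 :=
    fun n hn => Finset.measurable_fun_sum _ fun p _ => hmi3 n hn p
  have e1 : 2 * ∑ n ∈ S, ∑ p ∈ P, ∑ c ∈ Gr n p k,
      ∫⁻ x in V n, ‖Φ (nm (UT (p ^ k) c) * x)‖ₑ ^ 2 ∂nu ≤ 2 * (N : ℝ≥0∞) := by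
    calc 2 * ∑ n ∈ S, ∑ p ∈ P, ∑ c ∈ Gr n p k,
          ∫⁻ x in V n, ‖Φ (nm (UT (p ^ k) c) * x)‖ₑ ^ 2 ∂nu
        = ∑ n ∈ S, ∑ p ∈ P, ∑ c ∈ Gr n p k, ∫⁻ z in FF, (∑' γ : SL(2, ℤ),
            (V n).indicator (fun _ => (1 : ℝ≥0∞)) (nm (AT (p ^ k) c * (γ : Mat)) * z)) *
              ‖Φ z‖ₑ ^ 2 ∂nu := by
          rw [Finset.mul_sum]
          refine Finset.sum_congr rfl fun n hn => ?_
          rw [Finset.mul_sum]
          refine Finset.sum_congr rfl fun p hp => ?_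
          rw [Finset.mul_sum]
          exact Finset.sum_congr rfl fun c _ =>
            one h1 h2 h3 hE (hV n hn) c (pow_pos (hP p hp).pos k)
      _ = ∫⁻ z in FF, (∑ n ∈ S, ∑ p ∈ P, ∑ c ∈ Gr n p k, ∑' γ : SL(2, ℤ),
            (V n).indicator (fun _ => (1 : ℝ≥0∞)) (nm (AT (p ^ k) c * (γ : Mat)) * z)) *
              ‖Φ z‖ₑ ^ 2 ∂nu := by
          refine (Finset.sum_congr rfl fun n hn => Finset.sum_congr rfl fun p _ =>
            (lintegral_finsetSum (Gr n p k) fun c _ => hmi2 n hn p c).symm).trans ?_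
          refine (Finset.sum_congr rfl fun n hn =>
            (lintegral_finsetSum P fun p _ => hmi3 n hn p).symm).trans ?_
          refine (lintegral_finsetSum S fun n hn => hmi4 n hn).symm.trans ?_
          refine lintegral_congr fun z => ?_
          rw [Finset.sum_mul]
          refine Finset.sum_congr rfl fun n _ => ?_
          rw [Finset.sum_mul]
          exact Finset.sum_congr rfl fun p _ => (Finset.sum_mul _ _ _).symm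
      _ ≤ ∫⁻ z in FF, (N : ℝ≥0∞) * ‖Φ z‖ₑ ^ 2 ∂nu := by
          refine lintegral_mono fun z => ?_
          refine mul_le_mul_left (((cnt S P k V z).trans ?_)) _
          have := hN z
          exact_mod_cast this
      _ = (N : ℝ≥0∞) * ∫⁻ z in FF, ‖Φ z‖ₑ ^ 2 ∂nu := lintegral_const_mul _ hm
      _ ≤ (N : ℝ≥0∞) * 2 := mul_le_mul_right hE.norm _
      _ = 2 * (N : ℝ≥0∞) := mul_comm _ _
  exact (ENNReal.mul_le_mul_iff_right (by norm_num) (by norm_num)).1 e1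

end UfFM

open UfM

theorem stmtUfF (h1 : StmtNuL) (h2 : StmtUnf) (h3 : StmtNm) (h4 : StmtId) : StmtUfF := by
  intro l Φ hE S V hS hV P hP N hN
  have hm := meas_sq hE
  have hmu : ∀ s : Mat, Measurable fun x : G => ‖Φ (nm s * x)‖ₑ ^ 2 := fun s =>
    hm.comp (meas_left _)
  have e1 : ∀ n ∈ S, ∀ p ∈ P, ms Φ (V n) ≤
      4 * (∑ c ∈ Gr n p 1, ∫⁻ x in V n, ‖Φ (nm (UT (p ^ 1) c) * x)‖ₑ ^ 2 ∂nu +
        ∑ c ∈ Gr n p 2, ∫⁻ x in V n, ‖Φ (nm (UT (p ^ 2) c) * x)‖ₑ ^ 2 ∂nu) := by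
    intro n hn p hp
    obtain ⟨hp1, hp2, hp3⟩ := hP p hp
    calc ms Φ (V n) = ∫⁻ x in V n, ‖Φ x‖ₑ ^ 2 ∂nu := rfl
      _ ≤ ∫⁻ x in V n, 4 * (∑ c ∈ Gr n p 1, ‖Φ (nm (UT (p ^ 1) c) * x)‖ₑ ^ 2 +
            ∑ c ∈ Gr n p 2, ‖Φ (nm (UT (p ^ 2) c) * x)‖ₑ ^ 2) ∂nu :=
          lintegral_mono fun x => h4 l Φ hE p hp1 hp2 hp3 n (hS n hn) x
      _ = _ := by
          have m1 : Measurable fun x : G => ∑ c ∈ Gr n p 1, ‖Φ (nm (UT (p ^ 1) c) * x)‖ₑ ^ 2 :=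
            Finset.measurable_fun_sum _ fun c _ => hmu _
          have m2 : Measurable fun x : G => ∑ c ∈ Gr n p 2, ‖Φ (nm (UT (p ^ 2) c) * x)‖ₑ ^ 2 :=
            Finset.measurable_fun_sum _ fun c _ => hmu _
          have m3 : Measurable fun x : G => ∑ c ∈ Gr n p 1, ‖Φ (nm (UT (p ^ 1) c) * x)‖ₑ ^ 2 +
              ∑ c ∈ Gr n p 2, ‖Φ (nm (UT (p ^ 2) c) * x)‖ₑ ^ 2 := m1.add m2
          rw [lintegral_const_mul _ m3, lintegral_add_left m1,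
            lintegral_finsetSum _ fun c _ => hmu _, lintegral_finsetSum _ fun c _ => hmu _]
  have hPp : ∀ p ∈ P, p.Prime := fun p hp => (hP p hp).1
  calc (P.card : ℝ≥0∞) * ∑ n ∈ S, ms Φ (V n) = ∑ n ∈ S, ∑ p ∈ P, ms Φ (V n) := by
        rw [Finset.mul_sum]
        refine Finset.sum_congr rfl fun n _ => ?_
        rw [Finset.sum_const, nsmul_eq_mul]
    _ ≤ ∑ n ∈ S, ∑ p ∈ P,
          4 * (∑ c ∈ Gr n p 1, ∫⁻ x in V n, ‖Φ (nm (UT (p ^ 1) c) * x)‖ₑ ^ 2 ∂nu +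
          ∑ c ∈ Gr n p 2, ∫⁻ x in V n, ‖Φ (nm (UT (p ^ 2) c) * x)‖ₑ ^ 2 ∂nu) :=
        Finset.sum_le_sum fun n hn => Finset.sum_le_sum (e1 n hn)
    _ = 4 * (∑ n ∈ S, ∑ p ∈ P, ∑ c ∈ Gr n p 1,
            ∫⁻ x in V n, ‖Φ (nm (UT (p ^ 1) c) * x)‖ₑ ^ 2 ∂nu +
          ∑ n ∈ S, ∑ p ∈ P, ∑ c ∈ Gr n p 2,
            ∫⁻ x in V n, ‖Φ (nm (UT (p ^ 2) c) * x)‖ₑ ^ 2 ∂nu) := by
        rw [← Finset.sum_add_distrib, Finset.mul_sum]
        refine Finset.sum_congr rfl fun n _ => ?_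
        rw [← Finset.mul_sum, Finset.sum_add_distrib]
    _ ≤ 4 * ((N : ℝ≥0∞) + N) := by
        refine mul_le_mul_right (add_le_add ?_ ?_) _
        · exact UfFM.level h1 h2 h3 hE hV hPp 1 N (hN 1 le_rfl (by norm_num))
        · exact UfFM.level h1 h2 h3 hE hV hPp 2 N (hN 2 (by norm_num) le_rfl)
    _ = 8 * N := by ring

end

end Pool.Agent.A54.HSF
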