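import Pool.Agent.Lib.HS.F.Top
import Pool.Agent.Lib.HS.F.Cj
import Pool.Agent.Lib.HS.F.Pp
import Pool.Agent.Lib.HS.F.Pl
import Pool.Agent.Lib.HS.F.Sz
import Pool.Agent.Lib.HS.F.Sp
import Pool.Agent.Lib.HS.F.CtT
import Pool.Agent.Lib.HS.F.UfF
import Pool.Agent.Lib.HS.F.TTm
import Pool.Agent.Lib.HS.F.FTT
import Pool.Agent.Lib.HS.F.FTT2

/-!
# Project H*, torus lemma (T): the results without hypotheses
-/

set_option autoImplicit false

namespace Pool.Agent.A54.HSF

theorem cj : StmtCj := stmtCj Hp.stmtNm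

theorem pp : StmtPp := stmtPp cj

/-- torus points, general form -/
theorem ttm : StmtTTm :=
  stmtTTm (stmtUfF Hp.stmtNuL unf Hp.stmtNm (stmtId Hp.stmtNm stmtGd))
    (stmtCtT Hp.stmtNm cj stmtPl (stmtSz Hp.stmtNm cj pp stmtPl) stmtSp)

/-- torus points in the bad case -/
theorem ftt : StmtFTT := stmtFTT ttm bp

/-- torus points in the bad case, exponent `1/220` -/
theorem ftt2 : StmtFTT2 := stmtFTT2 ttm bp

end Pool.Agent.A54.HSF
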