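import Pool.Agent.Lib.HS.F.Spec

/-!
# Project H*, part (F), module Al: the algebra
-/

set_option autoImplicit false

namespace Pool.Agent.A54.HSF

open MeasureTheory Filter Topology Set
open scoped UpperHalfPlane MatrixGroups ENNReal
open Pool.Agent.A54.Dyn (G fl base ze io mk4 dom)
open Pool.Agent.A54.Av (Mat)
open Pool.Agent.A54.Hp (nu nm Mn Om Nb bt xi uu pr nz Tb ms FF HE Pm GdC GdK StmtNuL StmtUnf StmtNm)

namespace AlM

theorem AT_det (q c : ℕ) : (AT q c).det = q := by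
  simp [AT, Matrix.det_fin_two_of]

theorem cop {n : Fin 3 → ℤ} {p k c : ℕ} (hp : p.Prime) (hc : c ∈ Gr n p k) :
    IsCoprime ((p ^ k : ℕ) : ℤ) (Fq n c) := by
  have h1 : ¬ (p : ℤ) ∣ Fq n c := (Finset.mem_filter.1 hc).2
  have h2 : Prime (p : ℤ) := Nat.prime_iff_prime_int.1 hp
  have h3 : IsCoprime (p : ℤ) (Fq n c) := h2.irreducible.coprime_iff_not_dvd.2 h1
  rw [Nat.cast_pow]
  exact h3.pow_left

/-- the main divisibility -/
theorem key (n : Fin 3 → ℤ) (q c : ℕ) (γ h' : Mat) (j : ℤ)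
    (hc : IsCoprime (q : ℤ) (Fq n c))
    (hj : ∀ i, uu (h' * (AT q c * γ).adjugate) i = j * n i) (a b : Fin 2) :
    (q : ℤ) ∣ (h' * (AT q c * γ).adjugate) a b := by
  have hm : (h' * (AT q c * γ).adjugate) * AT q c = (q : ℤ) • (h' * γ.adjugate) := by
    rw [Matrix.adjugate_mul_distrib, ← mul_assoc, mul_assoc (h' * γ.adjugate),
      Matrix.adjugate_mul, AT_det, mul_smul_comm, mul_one]
  generalize h' * (AT q c * γ).adjugate = m at hj hm ⊢
  have e0 := hj 0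
  have e1 := hj 1
  have e2 := hj 2
  simp only [uu, Matrix.cons_val_zero, Matrix.cons_val_one, Matrix.cons_val] at e0 e1 e2
  have f0 := congrFun (congrFun hm 0) 1
  have f1 := congrFun (congrFun hm 1) 1
  simp only [AT, Matrix.mul_apply, Fin.sum_univ_two, Matrix.of_apply, Matrix.cons_val',
    Matrix.cons_val_zero, Matrix.cons_val_one, Matrix.cons_val_fin_one, Matrix.smul_apply,
    smul_eq_mul, mul_one] at f0 f1
  generalize h' 0 0 * γ.adjugate 0 1 + h' 0 1 * γ.adjugate 1 1 = A at f0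
  generalize h' 1 0 * γ.adjugate 0 1 + h' 1 1 * γ.adjugate 1 1 = B at f1
  have hjF : (q : ℤ) ∣ Fq n c * j := by
    refine ⟨-A - c * B, ?_⟩
    unfold Fq
    linear_combination (-1 : ℤ) * f0 - (c : ℤ) * f1 - (c : ℤ) * e0 + e1 - (c : ℤ) ^ 2 * e2
  have hqj : (q : ℤ) ∣ j := hc.dvd_of_dvd_mul_left hjF
  obtain ⟨t, ht⟩ := hqj
  have k10 : (q : ℤ) ∣ m 1 0 := by
    rw [e2, ht, mul_assoc]; exact dvd_mul_right _ _
  have k01 : (q : ℤ) ∣ m 0 1 := by
    rw [e1, ht, mul_assoc]; exact dvd_mul_right _ _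
  have k11 : (q : ℤ) ∣ m 1 1 := by
    obtain ⟨s, hs⟩ := k10
    exact ⟨B + c * s, by linear_combination f1 + (c : ℤ) * hs⟩
  have k00 : (q : ℤ) ∣ m 0 0 := by
    obtain ⟨s, hs⟩ := k11
    exact ⟨s + t * n 0, by linear_combination e0 + hs + n 0 * ht⟩
  fin_cases a <;> fin_cases b
  · exact k00
  · exact k01
  · exact k10
  · exact k11

end AlM

open AlM

theorem stmtAl : StmtAl := by
  intro n _ k hk p p' hp hp' c c' hc hc' γ γ' ⟨j, hj⟩
  have hp1 : (1 : ℤ) < ((p ^ k : ℕ) : ℤ) := by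
    exact_mod_cast Nat.one_lt_pow (by omega) hp.one_lt
  have hp1' : (1 : ℤ) < ((p' ^ k : ℕ) : ℤ) := by
    exact_mod_cast Nat.one_lt_pow (by omega) hp'.one_lt
  have cop1 := cop hp hc
  have cop2 := cop hp' hc'
  have d1 : (AT (p ^ k) c * (γ : Mat)).det = ((p ^ k : ℕ) : ℤ) := by
    rw [Matrix.det_mul, AT_det, γ.det_coe, mul_one]
  have d2 : (AT (p' ^ k) c' * (γ' : Mat)).det = ((p' ^ k : ℕ) : ℤ) := by
    rw [Matrix.det_mul, AT_det, γ'.det_coe, mul_one]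
  have K1 := key n (p ^ k) c γ (AT (p' ^ k) c' * (γ' : Mat)) j cop1 hj
  have had : ((AT (p' ^ k) c' * (γ' : Mat)) * (AT (p ^ k) c * (γ : Mat)).adjugate).adjugate =
      (AT (p ^ k) c * (γ : Mat)) * (AT (p' ^ k) c' * (γ' : Mat)).adjugate := by
    rw [Matrix.adjugate_mul_distrib, Matrix.adjugate_adjugate' _]
    simp
  have K2 := key n (p' ^ k) c' γ' (AT (p ^ k) c * (γ : Mat)) (-j) cop2 (by
    intro i
    have e0 := hj 0
    have e1 := hj 1
    have e2 := hj 2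
    rw [← had]
    generalize (AT (p' ^ k) c' * (γ' : Mat)) * (AT (p ^ k) c * (γ : Mat)).adjugate = m at e0 e1 e2
    simp only [uu, Matrix.cons_val_zero, Matrix.cons_val_one, Matrix.cons_val] at e0 e1 e2
    rw [Matrix.adjugate_fin_two]
    fin_cases i
    · simp [uu]
      linarith
    · simp [uu]
      linarith
    · simp [uu]
      linarith)
  rw [← had] at K2
  have hmh : ((AT (p' ^ k) c' * (γ' : Mat)) * (AT (p ^ k) c * (γ : Mat)).adjugate) *
      (AT (p ^ k) c * (γ : Mat)) = ((p ^ k : ℕ) : ℤ) • (AT (p' ^ k) c' * (γ' : Mat)) := by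
    rw [mul_assoc, Matrix.adjugate_mul, d1, mul_smul_comm, mul_one]
  have hdm : ((AT (p' ^ k) c' * (γ' : Mat)) * (AT (p ^ k) c * (γ : Mat)).adjugate).det =
      ((p' ^ k : ℕ) : ℤ) * ((p ^ k : ℕ) : ℤ) := by
    rw [Matrix.det_mul, d2, Matrix.det_adjugate, d1]
    simp
  clear had hj
  generalize AT (p ^ k) c * (γ : Mat) = h at K1 K2 hmh hdm d1 ⊢
  generalize AT (p' ^ k) c' * (γ' : Mat) = h' at K1 K2 hmh hdm d2 ⊢
  generalize h' * h.adjugate = m at K1 K2 hmh hdm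
  have L2 : ∀ a b : Fin 2, ((p' ^ k : ℕ) : ℤ) ∣ m a b := by
    have k00 := K2 0 0
    have k01 := K2 0 1
    have k10 := K2 1 0
    have k11 := K2 1 1
    rw [Matrix.adjugate_fin_two] at k00 k01 k10 k11
    simp only [Matrix.of_apply, Matrix.cons_val', Matrix.cons_val_zero, Matrix.cons_val_one,
      Matrix.cons_val_fin_one, dvd_neg] at k00 k01 k10 k11
    intro a b
    fin_cases a <;> fin_cases b
    · exact k11
    · exact k01
    · exact k10
    · exact k00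
  have hpp : p = p' := by
    by_contra hne
    have hcp : IsCoprime ((p ^ k : ℕ) : ℤ) ((p' ^ k : ℕ) : ℤ) := by
      rw [Nat.isCoprime_iff_coprime]
      exact Nat.Coprime.pow _ _ ((Nat.coprime_primes hp hp').2 hne)
    have h1 : ∀ a b : Fin 2, ((p ^ k : ℕ) : ℤ) * ((p' ^ k : ℕ) : ℤ) ∣ m a b := fun a b =>
      hcp.mul_dvd (K1 a b) (L2 a b)
    have h2 : (((p ^ k : ℕ) : ℤ) * ((p' ^ k : ℕ) : ℤ)) * (((p ^ k : ℕ) : ℤ) * ((p' ^ k : ℕ) : ℤ)) ∣
        m.det := by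
      rw [Matrix.det_fin_two]
      exact dvd_sub (mul_dvd_mul (h1 0 0) (h1 1 1)) (mul_dvd_mul (h1 0 1) (h1 1 0))
    rw [hdm] at h2
    have h3 : (0 : ℤ) < ((p ^ k : ℕ) : ℤ) * ((p' ^ k : ℕ) : ℤ) := by positivity
    have h4 := Int.le_of_dvd (by positivity) h2
    have h5 : (1 : ℤ) < ((p ^ k : ℕ) : ℤ) * ((p' ^ k : ℕ) : ℤ) := by nlinarith
    nlinarith
  refine ⟨hpp, ?_⟩
  subst hpp
  choose D hD using K1
  have hm : m = ((p ^ k : ℕ) : ℤ) • Matrix.of D := by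
    ext a b
    rw [Matrix.smul_apply, smul_eq_mul, Matrix.of_apply]
    exact hD a b
  have hdet : (Matrix.of D : Mat).det = 1 := by
    rw [hm, Matrix.det_smul, Fintype.card_fin] at hdm
    have h1 : ((p ^ k : ℕ) : ℤ) ^ 2 * (Matrix.of D : Mat).det = ((p ^ k : ℕ) : ℤ) ^ 2 * 1 := by
      rw [hdm]; ring
    exact mul_left_cancel₀ (by positivity) h1
  refine ⟨⟨Matrix.of D, hdet⟩, ?_⟩
  rw [hm, Matrix.smul_mul] at hmh
  have h0 : ((p ^ k : ℕ) : ℤ) ≠ 0 := by linarith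
  exact (smul_right_injective Mat h0 hmh).symm

end Pool.Agent.A54.HSF
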