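import Pool.Agent.Lib.HS.F.Spec
import Pool.Agent.Lib.MP_a54f13_nt.Th.Spec

/-!
# Project H*, part (F): primes with small eigenvalue in the bad case (helper17)
-/

set_option autoImplicit false

namespace Pool.Agent.A54.HSF

open MeasureTheory Filter Topology Set
open Pool.Agent.A54.Hp (Pm GdC GdK)

noncomputable section

namespace BpM

theorem thr {Z θ w : ℝ} (hZ : 1 ≤ Z) (hθ : 0 < θ) (hw : 0 < w) (h : w ≤ Z ^ (-(1 / θ))) :
    Z ≤ w ^ (-θ) := by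
  have h1 : (Z ^ (-(1 / θ))) ^ (-θ) ≤ w ^ (-θ) :=
    Real.rpow_le_rpow_of_nonpos hw h (by linarith)
  rw [← Real.rpow_mul (by linarith)] at h1
  have h2 : -(1 / θ) * -θ = 1 := by
    field_simp
  rwa [h2, Real.rpow_one] at h1

theorem ex5 : ∃ Z : ℝ, 5 ≤ Z ∧ 5 ≤ Z ^ (1 / 20000 : ℝ) := by
  refine ⟨(5 : ℝ) ^ (20000 : ℝ), ?_, ?_⟩
  · calc (5 : ℝ) = 5 ^ (1 : ℝ) := (Real.rpow_one 5).symm
      _ ≤ 5 ^ (20000 : ℝ) := Real.rpow_le_rpow_of_exponent_le (by norm_num) (by norm_num)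
  · rw [← Real.rpow_mul (by norm_num), show (20000 : ℝ) * (1 / 20000) = 1 by norm_num,
      Real.rpow_one]

/-- the primes with large eigenvalue are counted at the two scales `z` and `2 z` -/
theorem sub_union (z : ℝ) (hz : 1 ≤ z) (l : ℕ → ℝ) :
    (Th.Pz z).filter (fun p => ¬ |l p| ≤ 1) ⊆
      (Pm z).filter (fun p => z ^ (-(1 / 10000) : ℝ) ≤ |l p|) ∪
        (Pm (2 * z)).filter (fun p => (2 * z) ^ (-(1 / 10000) : ℝ) ≤ |l p|) := by
  intro p hp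
  rw [Finset.mem_filter] at hp
  obtain ⟨hp1, hp2⟩ := hp
  rw [Th.Pz, Finset.mem_filter, Finset.mem_Icc] at hp1
  obtain ⟨⟨-, hp3⟩, hp4, hp5⟩ := hp1
  have hp6 : (p : ℝ) ≤ 4 * z := (Nat.le_floor_iff (by linarith)).1 hp3
  have hlp : 1 ≤ |l p| := (not_le.1 hp2).le
  rw [Finset.mem_union, Finset.mem_filter, Finset.mem_filter, Pm, Pm, Finset.mem_filter,
    Finset.mem_filter, Finset.mem_Ioc, Finset.mem_Ioc]
  rcases le_or_gt (p : ℝ) (2 * z) with h | h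
  · left
    refine ⟨⟨⟨(Nat.floor_lt (by linarith)).2 hp5, Nat.le_floor h⟩, hp4⟩, ?_⟩
    exact (Real.rpow_le_one_of_one_le_of_nonpos hz (by norm_num)).trans hlp
  · right
    refine ⟨⟨⟨(Nat.floor_lt (by linarith)).2 h, Nat.le_floor (by linarith)⟩, hp4⟩, ?_⟩
    exact (Real.rpow_le_one_of_one_le_of_nonpos (by linarith) (by norm_num)).trans hlp

theorem count (z : ℝ) (hz : 5 ≤ z) (hz5 : 5 ≤ z ^ (1 / 20000 : ℝ)) (l : ℕ → ℝ)
    (hch : z ^ (1 - (1 / 20000 : ℝ)) ≤ ((Th.Pz z).card : ℝ))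
    (hb1 : ¬ GdC (1 / 10000) l z) (hb2 : ¬ GdC (1 / 10000) l (2 * z)) :
    z ^ (9 / 10 : ℝ) ≤ (((Th.Pz z).filter (fun p => |l p| ≤ 1)).card : ℝ) := by
  have hz0 : 0 < z := by linarith
  rw [GdC, not_le] at hb1 hb2
  have hsplit : (((Th.Pz z).filter (fun p => |l p| ≤ 1)).card : ℝ) +
      (((Th.Pz z).filter (fun p => ¬ |l p| ≤ 1)).card : ℝ) = ((Th.Pz z).card : ℝ) := by
    exact_mod_cast Finset.card_filter_add_card_filter_not (s := Th.Pz z) (fun p => |l p| ≤ 1)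
  have hun : (((Th.Pz z).filter (fun p => ¬ |l p| ≤ 1)).card : ℝ) ≤
      (((Pm z).filter (fun p => z ^ (-(1 / 10000) : ℝ) ≤ |l p|)).card : ℝ) +
        (((Pm (2 * z)).filter (fun p => (2 * z) ^ (-(1 / 10000) : ℝ) ≤ |l p|)).card : ℝ) := by
    exact_mod_cast (Finset.card_le_card (sub_union z (by linarith) l)).trans
      (Finset.card_union_le _ _)
  have h2z : (2 * z) ^ (1 - (1 / 10000 : ℝ)) ≤ 2 * z ^ (1 - (1 / 10000 : ℝ)) := by
    rw [Real.mul_rpow (by norm_num) hz0.le]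
    refine mul_le_mul_of_nonneg_right ?_ (Real.rpow_nonneg hz0.le _)
    calc (2 : ℝ) ^ (1 - (1 / 10000 : ℝ)) ≤ 2 ^ (1 : ℝ) :=
          Real.rpow_le_rpow_of_exponent_le (by norm_num) (by norm_num)
      _ = 2 := Real.rpow_one 2
  have h9 : z ^ (9 / 10 : ℝ) ≤ z ^ (1 - (1 / 10000 : ℝ)) :=
    Real.rpow_le_rpow_of_exponent_le (by linarith) (by norm_num)
  have h10 : z ^ (1 - (1 / 20000 : ℝ)) = z ^ (1 / 20000 : ℝ) * z ^ (1 - (1 / 10000 : ℝ)) := by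
    rw [← Real.rpow_add hz0]
    norm_num
  have h11 : 5 * z ^ (1 - (1 / 10000 : ℝ)) ≤ z ^ (1 - (1 / 20000 : ℝ)) := by
    rw [h10]
    exact mul_le_mul_of_nonneg_right hz5 (Real.rpow_nonneg hz0.le _)
  linarith

end BpM

open BpM in
/-- **Bp** small eigenvalues in the bad case. -/
theorem stmtBp (h1 : Th.StmtChP) : StmtBp := by
  intro K hK
  obtain ⟨z0, hz01, hz0⟩ := h1 (1 / 20000) (by norm_num)
  obtain ⟨Z5, h55, h55'⟩ := ex5
  set Z : ℝ := max z0 Z5 with hZ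
  have hZ5 : Z5 ≤ Z := le_max_right _ _
  have hZ1 : 1 ≤ Z := by linarith
  have hK0 : (0 : ℝ) < 1 / (1000 * K) := by positivity
  have hp1 : 0 < Z ^ (-(1 / (1 / (1000 * K)))) := Real.rpow_pos_of_pos (by linarith) _
  have hp2 : (0 : ℝ) < (2 : ℝ) ^ (-(1 / (1 / 10000)) : ℝ) := Real.rpow_pos_of_pos (by norm_num) _
  refine ⟨min 1 (min (Z ^ (-(1 / (1 / (1000 * K))))) ((2 : ℝ) ^ (-(1 / (1 / 10000)) : ℝ))),
    lt_min one_pos (lt_min hp1 hp2), min_le_left _ _, ?_⟩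
  intro l w hw0 hw hbad a ha1 ha2
  have hw1 : w ≤ 1 := hw.trans (min_le_left _ _)
  have hwZ : Z ≤ w ^ (-(1 / (1000 * K))) :=
    thr hZ1 hK0 hw0 (hw.trans ((min_le_right _ _).trans (min_le_left _ _)))
  have hw2 : 2 ≤ w ^ (-(1 / 10000) : ℝ) :=
    thr (by norm_num) (by norm_num) hw0 (hw.trans ((min_le_right _ _).trans (min_le_right _ _)))
  set z : ℝ := w ^ (-a) with hz
  have hlow : w ^ (-(1 / (1000 * K))) ≤ z :=
    Real.rpow_le_rpow_of_exponent_ge hw0 hw1 (by linarith)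
  have hzZ : Z ≤ z := hwZ.trans hlow
  have hz5 : 5 ≤ z := h55.trans (hZ5.trans hzZ)
  have hup : 2 * z ≤ w ^ (-(1 / 1000) : ℝ) := by
    have e1 : w ^ (-(1 / 1000) : ℝ) = w ^ (a - 1 / 1000) * z := by
      rw [hz, ← Real.rpow_add hw0]
      ring_nf
    have e2 : w ^ (-(1 / 10000) : ℝ) ≤ w ^ (a - 1 / 1000) :=
      Real.rpow_le_rpow_of_exponent_ge hw0 hw1 (by linarith)
    rw [e1]
    exact mul_le_mul_of_nonneg_right (hw2.trans e2) (by linarith)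
  have hb1 : ¬ GdC (1 / 10000) l z := fun h => hbad ⟨z, hlow, by linarith, h⟩
  have hb2 : ¬ GdC (1 / 10000) l (2 * z) := fun h => hbad ⟨2 * z, by linarith, hup, h⟩
  have hroot : 5 ≤ z ^ (1 / 20000 : ℝ) := by
    exact h55'.trans (Real.rpow_le_rpow (by linarith) (hZ5.trans hzZ) (by norm_num))
  have hcnt := count z hz5 hroot l (hz0 z ((le_max_left _ _).trans hzZ)) hb1 hb2
  have hfin : w ^ (-(9 / 10 * a)) = z ^ (9 / 10 : ℝ) := by
    rw [hz, ← Real.rpow_mul hw0.le]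
    ring_nf
  refine ⟨(Th.Pz z).filter (fun p => |l p| ≤ 1), fun p hp => ?_, ?_, fun p hp => ?_, ?_⟩
  · rw [Finset.mem_filter, Th.Pz, Finset.mem_filter, Finset.mem_Icc] at hp
    obtain ⟨⟨⟨-, -⟩, hp2, hp3⟩, hp4⟩ := hp
    refine ⟨hp2, ?_, hp4⟩
    have : (5 : ℝ) ≤ (p : ℝ) := by linarith
    exact_mod_cast this
  · rw [← Finset.card_pos]
    have h3 : 0 < z ^ (9 / 10 : ℝ) := Real.rpow_pos_of_pos (by linarith) _
    exact_mod_cast h3.trans_le hcnt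
  · rw [Finset.mem_filter, Th.Pz, Finset.mem_filter, Finset.mem_Icc] at hp
    exact (Nat.le_floor_iff (by linarith)).1 hp.1.1.2
  · rw [hfin]
    exact hcnt

end

end Pool.Agent.A54.HSF
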