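import Pool.Agent.Lib.HS.F.Spec

/-!
# Project H*, part (F): LEMMA U
-/

set_option autoImplicit false

namespace Pool.Agent.A54.HSF

open MeasureTheory Filter Topology Set
open scoped UpperHalfPlane MatrixGroups ENNReal
open Pool.Agent.A54.Hp (Om ms HE)

namespace ColM

theorem num (R : ℝ) (hR : 1 ≤ R) :
    (8 : ℝ≥0∞) * (((2 * ⌊2 * R ^ 2⌋₊ + 1) ^ 4 : ℕ) : ℝ≥0∞) ≤
      ENNReal.ofReal (8 * (4 * R ^ 2 + 1) ^ 4) := by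
  have h0 : (0 : ℝ) ≤ 2 * R ^ 2 := by positivity
  have h1 : (⌊2 * R ^ 2⌋₊ : ℝ) ≤ 2 * R ^ 2 := Nat.floor_le h0
  have h2 : ((8 * (2 * ⌊2 * R ^ 2⌋₊ + 1) ^ 4 : ℕ) : ℝ) ≤ 8 * (4 * R ^ 2 + 1) ^ 4 := by
    push_cast
    have h3 : 2 * (⌊2 * R ^ 2⌋₊ : ℝ) + 1 ≤ 4 * R ^ 2 + 1 := by linarith
    have h4 : (0 : ℝ) ≤ 2 * (⌊2 * R ^ 2⌋₊ : ℝ) + 1 := by positivity
    have h5 := pow_le_pow_left₀ h4 h3 4
    linarith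
  have h6 : (8 : ℝ≥0∞) * (((2 * ⌊2 * R ^ 2⌋₊ + 1) ^ 4 : ℕ) : ℝ≥0∞) =
      ((8 * (2 * ⌊2 * R ^ 2⌋₊ + 1) ^ 4 : ℕ) : ℝ≥0∞) := by
    push_cast
    rfl
  rw [h6, ← ENNReal.ofReal_natCast]
  exact ENNReal.ofReal_le_ofReal h2

end ColM

theorem stmtCol (h1 : StmtUf) (h2 : StmtCt) : StmtCol := by
  intro l Φ hE R hR V hV hVR P hP n hn hC
  refine le_trans (h1 l Φ hE V hV P hP n hn ((2 * ⌊2 * R ^ 2⌋₊ + 1) ^ 4) ?_) (ColM.num R hR)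
  intro k hk1 hk2 z
  exact h2 R hR V hVR P (fun p hp => (hP p hp).1) n hn hC k hk1 hk2 z

end Pool.Agent.A54.HSF
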