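import Pool.Agent.Lib.HS.F.Spec

/-!
# Project H*, part (F), module Cov: the exceptional tubes of a conic (helper53)
-/

set_option autoImplicit false

namespace Pool.Agent.A54.HSF

open MeasureTheory Filter Topology Set
open scoped UpperHalfPlane MatrixGroups ENNReal
open Pool.Agent.A54.Dyn (G fl base ze io mk4 dom)
open Pool.Agent.A54.Av (Mat)
open Pool.Agent.A54.Hp (nu nm Mn Om Nb bt xi uu pr nz Tb ms FF HE Pm GdC GdK StmtNuL StmtUnf StmtNm)

noncomputable section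

namespace CovM

theorem pw {M H : ℝ} (hM : 1 ≤ M) (hH : 1 ≤ H) {a b c : ℕ} (ha : a ≤ c) (hb : b ≤ c) :
    M ^ a * H ^ b ≤ (M * H) ^ c := by
  rw [mul_pow]
  exact mul_le_mul (pow_le_pow_right₀ hM ha) (pow_le_pow_right₀ hH hb) (by positivity)
    (by positivity)

theorem qx_bd {R H : ℝ} (hR : 1 ≤ R) (hH : 1 ≤ H) {x : G} (hx : x ∈ Om R) {a b : ℝ}
    (ha : |a| ≤ H) (hb : |b| ≤ H) : |qx x a b| ≤ 4 * R ^ 2 * H ^ 2 := by
  have h : ∀ i, |a * x 0 i + b * x 1 i| ≤ 2 * (R * H) := by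
    intro i
    have h1 : |a * x 0 i| ≤ H * R := by
      rw [abs_mul]
      exact mul_le_mul ha (hx 0 i) (abs_nonneg _) (by linarith)
    have h2 : |b * x 1 i| ≤ H * R := by
      rw [abs_mul]
      exact mul_le_mul hb (hx 1 i) (abs_nonneg _) (by linarith)
    have h3 := abs_add_le (a * x 0 i) (b * x 1 i)
    linarith
  unfold qx
  rw [abs_mul]
  have h0 : 0 ≤ 2 * (R * H) := by positivity
  calc |a * x 0 0 + b * x 1 0| * |a * x 0 1 + b * x 1 1|
      ≤ 2 * (R * H) * (2 * (R * H)) := mul_le_mul (h 0) (h 1) (abs_nonneg _) h0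
    _ = 4 * R ^ 2 * H ^ 2 := by ring

theorem prim_n {u : Fin 2 → ℤ} (hu : IsCoprime (u 0) (u 1)) :
    Prim (![-2 * u 0 * u 1, -(u 1) ^ 2, (u 0) ^ 2] : Fin 3 → ℤ) := by
  obtain ⟨a, b, h⟩ := hu.pow (m := 2) (n := 2)
  refine ⟨![0, -b, a], ?_⟩
  simp
  linarith

theorem card_I (K N : ℕ) :
    ((Finset.Icc (-(K : ℤ)) K) ×ˢ ((Finset.Icc (-(K : ℤ)) K) ×ˢ
      ((Finset.Icc 1 N) ×ˢ (Finset.univ : Finset Bool)))).card = (2 * K + 1) * ((2 * K + 1) * (N * 2)) := by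
  have h : (Finset.Icc (-(K : ℤ)) K).card = 2 * K + 1 := by
    rw [Int.card_Icc]
    omega
  rw [Finset.card_product, Finset.card_product, Finset.card_product, h, Nat.card_Icc,
    Finset.card_univ, Fintype.card_bool]
  simp

end CovM

open CovM

theorem stmtCov (h1 : StmtNt) (h2 : StmtDq) : StmtCov := by
  intro R hR
  have hR0 : 0 < R := by linarith
  have hR6 : 1 ≤ R ^ 6 := one_le_pow₀ hR
  have hR46 : R ^ 4 ≤ R ^ 6 := pow_le_pow_right₀ hR (by norm_num)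
  refine ⟨4160 * R ^ 6, by linarith, ?_⟩
  intro M H c₀ e u hM hH he hu hub hC1 hC2 P hP
  have hM0 : 0 < M := by linarith
  have hH0 : 0 < H := by linarith
  have hM4 : 1 ≤ M ^ 4 := one_le_pow₀ hM
  have hRH : 1 ≤ R ^ 2 * H ^ 2 := by
    have ha : 1 ≤ R ^ 2 := one_le_pow₀ hR
    have hb : 1 ≤ H ^ 2 := one_le_pow₀ hH
    nlinarith
  rcases (Cn R u c₀ e).eq_empty_or_nonempty with hemp | ⟨x₀, hx₀⟩
  · refine ⟨0, fun _ _ => 0, _, ?_, prim_n hu, ?_⟩
    · push_cast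
      positivity
    · intro k _ _ p _ p' _ m _ x hx
      rw [hemp] at hx
      exact absurd hx.1 (Set.notMem_empty x)
  -- parameters
  set ε : ℝ := M ^ 4 * e with hε
  set L : ℝ := 4 * R ^ 2 * H * M ^ 2 with hL
  set T : ℝ := M ^ 4 * (4 * R ^ 2 * H ^ 2 + 1) with hT
  set rr : ℝ := 4160 * R ^ 6 * ((M * H) ^ 12 * e) with hrr
  have hε0 : 0 ≤ ε := by positivity
  have hε1 : ε ≤ 1 := by
    refine le_trans ?_ hC1
    have ha : M ^ 4 * H ^ 0 ≤ (M * H) ^ 12 := pw hM hH (by norm_num) (by norm_num)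
    have hb : M ^ 4 * e ≤ (M * H) ^ 12 * e := mul_le_mul_of_nonneg_right (by linarith) he.le
    have hc : 0 ≤ (M * H) ^ 12 * e := by positivity
    nlinarith
  have heε : e ≤ ε := by
    rw [hε]
    nlinarith
  have hT1 : 1 ≤ T := by
    rw [hT]
    nlinarith
  have hLH : H ≤ L := by
    have ha : 1 ≤ R ^ 2 := one_le_pow₀ hR
    have hb : 1 ≤ M ^ 2 := one_le_pow₀ hM
    have hc : 1 ≤ R ^ 2 * M ^ 2 := by nlinarith
    rw [hL]
    nlinarith
  have hL0 : 0 ≤ L := by positivity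
  have hc0 : |c₀| ≤ 4 * R ^ 2 * H ^ 2 + 1 := by
    have ha := qx_bd hR hH hx₀.1 (hub 0) (hub 1)
    have hb := hx₀.2
    have hc : |c₀| ≤ |qx x₀ (u 0) (u 1)| + |qx x₀ (u 0) (u 1) - c₀| := by
      have := abs_sub_abs_le_abs_sub c₀ (qx x₀ (u 0) (u 1))
      rw [abs_sub_comm c₀] at this
      linarith
    linarith
  have hrad : 52 * T * L ^ 2 * ε ≤ rr := by
    have ha : M ^ 12 * H ^ 4 ≤ (M * H) ^ 12 := pw hM hH (by norm_num) (by norm_num)
    have hb : 52 * T * L ^ 2 * ε = 832 * R ^ 4 * H ^ 2 * M ^ 12 * e * (4 * R ^ 2 * H ^ 2 + 1) := by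
      rw [hT, hL, hε]
      ring
    have hc : 832 * R ^ 4 * H ^ 2 * M ^ 12 * e * (4 * R ^ 2 * H ^ 2 + 1) ≤
        832 * R ^ 4 * H ^ 2 * M ^ 12 * e * (5 * (R ^ 2 * H ^ 2)) :=
      mul_le_mul_of_nonneg_left (by linarith) (by positivity)
    have hd : 832 * R ^ 4 * H ^ 2 * M ^ 12 * e * (5 * (R ^ 2 * H ^ 2)) =
        4160 * R ^ 6 * e * (M ^ 12 * H ^ 4) := by ring
    have hf : 4160 * R ^ 6 * e * (M ^ 12 * H ^ 4) ≤ 4160 * R ^ 6 * e * (M * H) ^ 12 :=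
      mul_le_mul_of_nonneg_left ha (by positivity)
    have hg : 4160 * R ^ 6 * e * (M * H) ^ 12 = rr := by
      rw [hrr]
      ring
    linarith
  -- the centres
  have hZ : ∀ (v0 v1 : ℤ) (D : ℕ), ∃ ζ : Bool → Fin 3 → ℝ, u 0 * v1 - u 1 * v0 ≠ 0 →
      |(v0 : ℝ)| ≤ L → |(v1 : ℝ)| ≤ L → (D : ℝ) ≤ M ^ 4 → ∀ x : G,
      |qx x (u 0) (u 1) - c₀| ≤ ε → |qx x v0 v1 - D * c₀| ≤ ε →
      ∃ s : Bool, ∀ i, |xi x i - ζ s i| ≤ rr := by
    intro v0 v1 D
    by_cases hcase : u 0 * v1 - u 1 * v0 ≠ 0 ∧ |(v0 : ℝ)| ≤ L ∧ |(v1 : ℝ)| ≤ L ∧ (D : ℝ) ≤ M ^ 4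
    · obtain ⟨hne, hv0, hv1, hD⟩ := hcase
      obtain ⟨ζ, hζ⟩ := h2 u ![v0, v1] c₀ (D * c₀) T L ε (by simpa using hne)
        (by
          have : c₀ * (D * c₀) = D * c₀ ^ 2 := by ring
          rw [this]
          positivity)
        (by
          rw [hT]
          have ha : 0 ≤ 4 * R ^ 2 * H ^ 2 + 1 := by positivity
          nlinarith)
        (by
          rw [hT, abs_mul, abs_of_nonneg (Nat.cast_nonneg D)]
          exact mul_le_mul hD hc0 (abs_nonneg _) (by positivity))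
        hε0 hε1 hT1 (fun i => (hub i).trans hLH)
        (by
          intro i
          fin_cases i
          · simpa using hv0
          · simpa using hv1)
      refine ⟨ζ, fun _ _ _ _ x hx1 hx2 => ?_⟩
      obtain ⟨s, hs⟩ := hζ x hx1 (by simpa using hx2)
      exact ⟨s, fun i => (hs i).trans hrad⟩
    · refine ⟨fun _ _ => 0, fun ha hb hc hd => absurd ⟨ha, hb, hc, hd⟩ hcase⟩
  choose Z hZ using hZ
  set K : ℕ := ⌊L⌋₊ with hK
  set I : Finset (ℤ × ℤ × ℕ × Bool) := (Finset.Icc (-(K : ℤ)) K) ×ˢ ((Finset.Icc (-(K : ℤ)) K) ×ˢ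
      ((Finset.Icc 1 ⌊M ^ 4⌋₊) ×ˢ (Finset.univ : Finset Bool))) with hI
  refine ⟨I.card, fun j => Z (I.equivFin.symm j).1.1 (I.equivFin.symm j).1.2.1
    (I.equivFin.symm j).1.2.2.1 (I.equivFin.symm j).1.2.2.2, _, ?_, prim_n hu, ?_⟩
  · -- the number
    rw [hI, card_I]
    push_cast
    have hK1 : (K : ℝ) ≤ L := Nat.floor_le hL0
    have hN1 : ((⌊M ^ 4⌋₊ : ℕ) : ℝ) ≤ M ^ 4 := Nat.floor_le (by positivity)
    have h9 : 2 * L + 1 ≤ 9 * (R ^ 2 * H * M ^ 2) := by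
      have ha : 1 ≤ R ^ 2 := one_le_pow₀ hR
      have hb : 1 ≤ M ^ 2 := one_le_pow₀ hM
      have hc : 1 ≤ R ^ 2 * H := by nlinarith
      have hd : 1 ≤ R ^ 2 * H * M ^ 2 := by nlinarith
      rw [hL]
      linarith
    have h10 : (2 * (K : ℝ) + 1) ≤ 9 * (R ^ 2 * H * M ^ 2) := by linarith
    have h11 : (2 * (K : ℝ) + 1) * ((2 * (K : ℝ) + 1) * ((⌊M ^ 4⌋₊ : ℝ) * 2)) ≤
        9 * (R ^ 2 * H * M ^ 2) * (9 * (R ^ 2 * H * M ^ 2) * (M ^ 4 * 2)) := by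
      refine mul_le_mul h10 (mul_le_mul h10 (by linarith) (by positivity) (by positivity))
        (by positivity) (by positivity)
    have h12 : 9 * (R ^ 2 * H * M ^ 2) * (9 * (R ^ 2 * H * M ^ 2) * (M ^ 4 * 2)) =
        162 * R ^ 4 * (M ^ 8 * H ^ 2) := by ring
    have h13 : M ^ 8 * H ^ 2 ≤ (M * H) ^ 8 := pw hM hH (by norm_num) (by norm_num)
    have h14 : 162 * R ^ 4 * (M ^ 8 * H ^ 2) ≤ 162 * R ^ 4 * (M * H) ^ 8 :=
      mul_le_mul_of_nonneg_left h13 (by positivity)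
    have h15 : 162 * R ^ 4 * (M * H) ^ 8 ≤ 4160 * R ^ 6 * (M * H) ^ 8 :=
      mul_le_mul_of_nonneg_right (by nlinarith) (by positivity)
    linarith
  · -- the returns
    intro k hk1 hk2 p hp p' hp' m hm x hx hmx
    obtain ⟨hxC, hxT⟩ := hx
    set D : ℕ := (p * p') ^ k with hD
    have hD1 : 1 ≤ D := Nat.one_le_pow _ _ (Nat.mul_pos (hP p hp).1.pos (hP p' hp').1.pos)
    have hDM : (D : ℝ) ≤ M ^ 4 := by
      rw [hD]
      push_cast
      have ha : (p : ℝ) * p' ≤ M ^ 2 := by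
        rw [sq]
        exact mul_le_mul (hP p hp).2 (hP p' hp').2 (Nat.cast_nonneg _) hM0.le
      calc ((p : ℝ) * p') ^ k ≤ (M ^ 2) ^ k := pow_le_pow_left₀ (by positivity) ha k
        _ ≤ (M ^ 2) ^ 2 := pow_le_pow_right₀ (one_le_pow₀ hM) hk2
        _ = M ^ 4 := by ring
    have hmD : ((m.det : ℤ) : ℝ) = D := by
      rw [hm]
      simp
    have hsq : √((m.det : ℤ) : ℝ) ≤ M ^ 2 := by
      rw [hmD]
      apply Real.sqrt_le_iff.mpr
      refine ⟨by positivity, hDM.trans (le_of_eq (by ring))⟩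
    have hsm : (16 * R ^ 4 * H ^ 2 + 1) * ((m.det : ℤ) : ℝ) * e < |c₀| := by
      refine lt_of_le_of_lt ?_ hC2
      rw [hmD]
      have ha : 1 ≤ R ^ 4 * H ^ 2 := by
        have hb : 1 ≤ R ^ 4 := one_le_pow₀ hR
        have hc : 1 ≤ H ^ 2 := one_le_pow₀ hH
        nlinarith
      have hb : (16 * R ^ 4 * H ^ 2 + 1) * (D : ℝ) ≤ 17 * (R ^ 4 * H ^ 2) * M ^ 4 :=
        mul_le_mul (by linarith) hDM (Nat.cast_nonneg _) (by positivity)
      have hc : M ^ 4 * H ^ 2 ≤ (M * H) ^ 4 := pw hM hH (by norm_num) (by norm_num)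
      have hd : 17 * (R ^ 4 * H ^ 2) * M ^ 4 = 17 * R ^ 4 * (M ^ 4 * H ^ 2) := by ring
      have hf : 17 * R ^ 4 * (M ^ 4 * H ^ 2) ≤ 17 * R ^ 4 * (M * H) ^ 4 :=
        mul_le_mul_of_nonneg_left hc (by positivity)
      have hg : 17 * R ^ 4 * (M * H) ^ 4 ≤ 4160 * R ^ 6 * (M * H) ^ 4 :=
        mul_le_mul_of_nonneg_right (by nlinarith) (by positivity)
      have hh : (16 * R ^ 4 * H ^ 2 + 1) * (D : ℝ) ≤ 4160 * R ^ 6 * (M * H) ^ 4 := by linarith
      calc (16 * R ^ 4 * H ^ 2 + 1) * (D : ℝ) * e ≤ 4160 * R ^ 6 * (M * H) ^ 4 * e :=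
            mul_le_mul_of_nonneg_right hh he.le
        _ = 4160 * R ^ 6 * ((M * H) ^ 4 * e) := by ring
    have hmpos : 0 < m.det := by
      rw [hm]
      exact_mod_cast hD1
    rcases h1 R H c₀ e u hR hH he.le hu hub m hmpos hsm x hxC hmx.1 with hj | ⟨v, hv1, hv2, hv3⟩
    · exact hj
    · exfalso
      have hvL : ∀ i, |(v i : ℝ)| ≤ L := by
        intro i
        refine (hv2 i).trans ?_
        rw [hL]
        exact mul_le_mul_of_nonneg_left hsq (by positivity)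
      obtain ⟨s, hs⟩ := hZ (v 0) (v 1) D hv1 (hvL 0) (hvL 1) hDM x (hxC.2.trans heε)
        (by
          rw [hmD] at hv3
          refine hv3.trans ?_
          rw [hε]
          exact mul_le_mul_of_nonneg_right hDM he.le)
      have hvK : ∀ i, v i ∈ Finset.Icc (-(K : ℤ)) K := by
        intro i
        rw [Finset.mem_Icc, ← abs_le]
        have ha : ((v i).natAbs : ℝ) ≤ L := by
          rw [Nat.cast_natAbs, Int.cast_abs]
          exact hvL i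
        have hb : (v i).natAbs ≤ K := Nat.le_floor ha
        rw [Int.abs_eq_natAbs]
        exact_mod_cast hb
      have hw : (v 0, v 1, D, s) ∈ I := by
        rw [hI]
        refine Finset.mem_product.mpr ⟨hvK 0, Finset.mem_product.mpr ⟨hvK 1,
          Finset.mem_product.mpr ⟨Finset.mem_Icc.mpr ⟨hD1, Nat.le_floor hDM⟩,
            Finset.mem_univ _⟩⟩⟩
      apply hxT
      rw [Set.mem_iUnion]
      refine ⟨I.equivFin ⟨_, hw⟩, hxC.1, ?_⟩
      simp only [Equiv.symm_apply_apply]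
      exact hs

end

end Pool.Agent.A54.HSF
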