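import Pool.Agent.Lib.HS.F.Spec

/-!
# Project H*, part (F), module Cr: near-stabilisers of a tube are parallel to it (helper87)
-/

set_option autoImplicit false

namespace Pool.Agent.A54.HSF

open MeasureTheory Filter Topology Set
open scoped UpperHalfPlane MatrixGroups ENNReal
open Pool.Agent.A54.Dyn (G fl base ze io mk4 dom)
open Pool.Agent.A54.Av (Mat)
open Pool.Agent.A54.Hp (nu nm Mn Om Nb bt xi uu pr nz Tb ms FF HE Pm GdC GdK StmtNuL StmtUnf StmtNm)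

namespace CrM

/-- `s g X(ξ) = X(ξ') s g` for `g ∈ G` -/
lemma rel (s : ℝ) (g x : G) :
    (s * g 0 0) * xi x 0 + 2 * (s * g 0 1) * xi x 2 =
      xi (g * x) 0 * (s * g 0 0) + 2 * xi (g * x) 1 * (s * g 1 0) ∧
    2 * (s * g 0 0) * xi x 1 - (s * g 0 1) * xi x 0 =
      xi (g * x) 0 * (s * g 0 1) + 2 * xi (g * x) 1 * (s * g 1 1) ∧
    (s * g 1 0) * xi x 0 + 2 * (s * g 1 1) * xi x 2 =
      2 * xi (g * x) 2 * (s * g 0 0) - xi (g * x) 0 * (s * g 1 0) := by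
  have hg := Dyn.det_eq g
  have e0 : xi x 0 = x 0 0 * x 1 1 + x 0 1 * x 1 0 := rfl
  have e1 : xi x 1 = -(x 0 0 * x 0 1) := rfl
  have e2 : xi x 2 = x 1 0 * x 1 1 := rfl
  have f0 : xi (g * x) 0 = (g * x) 0 0 * (g * x) 1 1 + (g * x) 0 1 * (g * x) 1 0 := rfl
  have f1 : xi (g * x) 1 = -((g * x) 0 0 * (g * x) 0 1) := rfl
  have f2 : xi (g * x) 2 = (g * x) 1 0 * (g * x) 1 1 := rfl
  rw [e0, e1, e2, f0, f1, f2, Dyn.mul_00, Dyn.mul_01, Dyn.mul_10, Dyn.mul_11]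
  refine ⟨?_, ?_, ?_⟩
  · linear_combination (-(s * (g 0 0 * (x 0 0 * x 1 1 + x 0 1 * x 1 0) +
      2 * g 0 1 * (x 1 0 * x 1 1)))) * hg
  · linear_combination (-(s * (-2 * g 0 0 * (x 0 0 * x 0 1) -
      g 0 1 * (x 0 0 * x 1 1 + x 0 1 * x 1 0)))) * hg
  · linear_combination (-(s * (g 1 0 * (x 0 0 * x 1 1 + x 0 1 * x 1 0) +
      2 * g 1 1 * (x 1 0 * x 1 1)))) * hg

lemma tri {a b c d A : ℝ} (ha : |a| ≤ A) (hb : |b| ≤ A) (hc : |c| ≤ A) (hd : |d| ≤ A) :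
    |a + 2 * b - c - 2 * d| ≤ 6 * A := by
  rw [abs_le] at *
  constructor <;> linarith [ha.1, ha.2, hb.1, hb.2, hc.1, hc.2, hd.1, hd.2]

end CrM

theorem stmtCr (h1 : StmtNm) : StmtCr := by
  intro R η ζ hR hη m hm x hx hy
  set s : ℝ := √((m.det : ℤ) : ℝ) with hs
  have hd : (0 : ℝ) < ((m.det : ℤ) : ℝ) := by exact_mod_cast hm
  have hs0 : 0 < s := Real.sqrt_pos.mpr hd
  have hB := h1.2.2.2.2 R R x m hm hx.1 hy.1
  set B : ℝ := 2 * R * R * s with hBdef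
  have hB0 : 0 ≤ B := by positivity
  have he : ∀ i j, ((m i j : ℤ) : ℝ) = s * nm m i j := by
    intro i j
    have h' : (0 : ℝ) < ((m.det : ℤ) : ℝ) := hd
    have h2 : nm m i j = ((m i j : ℤ) : ℝ) / √((m.det : ℤ) : ℝ) := by
      unfold nm
      rw [dif_pos h']
      fin_cases i <;> fin_cases j
      · exact Dyn.mk4_00
      · exact Dyn.mk4_01
      · exact Dyn.mk4_10
      · exact Dyn.mk4_11
    rw [h2, ← hs]
    field_simp
  obtain ⟨r1, r2, r3⟩ := CrM.rel s (nm m) x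
  rw [← he, ← he, ← he] at r1
  rw [← he, ← he, ← he] at r2
  rw [← he, ← he, ← he] at r3
  have hξ := hx.2
  have hξ' := hy.2
  set ξ := xi x
  set ξ' := xi (nm m * x)
  have k1 : ∀ i j (l : Fin 3), |((m i j : ℤ) : ℝ) * (ζ l - ξ l)| ≤ B * η := by
    intro i j l
    rw [abs_mul]
    refine mul_le_mul (hB i j) ?_ (abs_nonneg _) hB0
    rw [abs_sub_comm]
    exact hξ l
  have k2 : ∀ i j (l : Fin 3), |((m i j : ℤ) : ℝ) * (ζ l - ξ' l)| ≤ B * η := by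
    intro i j l
    rw [abs_mul]
    refine mul_le_mul (hB i j) ?_ (abs_nonneg _) hB0
    rw [abs_sub_comm]
    exact hξ' l
  have u0 : ((uu m 0 : ℤ) : ℝ) = ((m 0 0 : ℤ) : ℝ) - ((m 1 1 : ℤ) : ℝ) := by
    have : uu m 0 = m 0 0 - m 1 1 := rfl
    rw [this]; push_cast; ring
  have u1 : ((uu m 1 : ℤ) : ℝ) = ((m 0 1 : ℤ) : ℝ) := rfl
  have u2 : ((uu m 2 : ℤ) : ℝ) = ((m 1 0 : ℤ) : ℝ) := rfl
  have c1 : |(uu m 1 : ℝ) * ζ 2 - (uu m 2 : ℝ) * ζ 1| ≤ 3 * (B * η) := by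
    rw [u1, u2]
    have h := CrM.tri (k1 0 0 0) (k1 0 1 2) (k2 0 0 0) (k2 1 0 1)
    rw [abs_le] at h ⊢
    constructor <;> nlinarith [h.1, h.2]
  have c2 : |(uu m 0 : ℝ) * ζ 1 - (uu m 1 : ℝ) * ζ 0| ≤ 3 * (B * η) := by
    rw [u0, u1]
    have a1 := k1 0 0 1
    have a2 := k1 0 1 0
    have a3 := k2 0 1 0
    have a4 := k2 1 1 1
    rw [abs_le] at *
    constructor <;> nlinarith [a1.1, a1.2, a2.1, a2.2, a3.1, a3.2, a4.1, a4.2]
  have c3 : |(uu m 2 : ℝ) * ζ 0 - (uu m 0 : ℝ) * ζ 2| ≤ 3 * (B * η) := by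
    rw [u0, u2]
    have a1 := k1 1 0 0
    have a2 := k1 1 1 2
    have a3 := k2 0 0 2
    have a4 := k2 1 0 0
    rw [abs_le] at *
    constructor <;> nlinarith [a1.1, a1.2, a2.1, a2.2, a3.1, a3.2, a4.1, a4.2]
  have hfin : 3 * (B * η) ≤ 8 * R ^ 2 * s * η := by
    rw [hBdef]
    have : 0 ≤ R ^ 2 * s * η := by positivity
    nlinarith
  have h0 : 0 ≤ 8 * R ^ 2 * s * η := by positivity
  intro i j
  fin_cases i <;> fin_cases j
  · simpa using h0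
  · exact c2.trans hfin
  · refine le_trans ?_ (c3.trans hfin)
    rw [abs_sub_comm]
    exact le_rfl
  · refine le_trans ?_ (c2.trans hfin)
    rw [abs_sub_comm]
    exact le_rfl
  · simpa using h0
  · exact c1.trans hfin
  · exact c3.trans hfin
  · refine le_trans ?_ (c1.trans hfin)
    rw [abs_sub_comm]
    exact le_rfl
  · simpa using h0

end Pool.Agent.A54.HSF
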