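import Pool.Agent.Lib.HS.F.Spec

/-!
# Project H*, part (F), module Dq: a quadratic form of discriminant 1 is determined by two values (up to sign).
-/

set_option autoImplicit false

namespace Pool.Agent.A54.HSF

open Pool.Agent.A54.Dyn (G)
open Pool.Agent.A54.Hp (xi)

namespace DqM

lemma det_x (x : G) : x 0 0 * x 1 1 - x 0 1 * x 1 0 = 1 := by
  have h := x.2
  rw [Matrix.det_fin_two] at h
  exact h

/-- the point with the values `a`, `a'` and the polar value `b` -/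
noncomputable def zt (u0 u1 v0 v1 a a' b : ℝ) : Fin 3 → ℝ :=
  ![(-2 * a * v0 * v1 + b * (u0 * v1 + u1 * v0) - 2 * a' * u0 * u1) / (u0 * v1 - u1 * v0) ^ 2,
    -(a * v1 ^ 2 - b * u1 * v1 + a' * u1 ^ 2) / (u0 * v1 - u1 * v0) ^ 2,
    (a * v0 ^ 2 - b * u0 * v0 + a' * u0 ^ 2) / (u0 * v1 - u1 * v0) ^ 2]

/-- the polar form -/
noncomputable def pol (x : G) (u0 u1 v0 v1 : ℝ) : ℝ :=
  (u0 * x 0 0 + u1 * x 1 0) * (v0 * x 0 1 + v1 * x 1 1) + (v0 * x 0 0 + v1 * x 1 0) * (u0 * x 0 1 + u1 * x 1 1)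

lemma pol_sq (x : G) (u0 u1 v0 v1 : ℝ) :
    pol x u0 u1 v0 v1 ^ 2 = (u0 * v1 - u1 * v0) ^ 2 + 4 * (qx x u0 u1 * qx x v0 v1) := by
  have h := det_x x
  have h2 : (u0 * v1 - u1 * v0) ^ 2 = ((u0 * v1 - u1 * v0) * (x 0 0 * x 1 1 - x 0 1 * x 1 0)) ^ 2 := by
    rw [h, mul_one]
  rw [h2]
  unfold pol qx
  ring

lemma xi_eq (x : G) {u0 u1 v0 v1 : ℝ} (hδ : u0 * v1 - u1 * v0 ≠ 0) (i : Fin 3) :
    xi x i = zt u0 u1 v0 v1 (qx x u0 u1) (qx x v0 v1) (pol x u0 u1 v0 v1) i := by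
  have hd : (u0 * v1 - u1 * v0) ^ 2 ≠ 0 := pow_ne_zero _ hδ
  unfold xi zt pol qx
  fin_cases i
  · show x 0 0 * x 1 1 + x 0 1 * x 1 0 = _ / _
    rw [eq_div_iff hd]
    ring
  · show -(x 0 0 * x 0 1) = _ / _
    rw [eq_div_iff hd]
    ring
  · show x 1 0 * x 1 1 = _ / _
    rw [eq_div_iff hd]
    ring

/-- a bound for a combination of three small numbers -/
lemma comb {α β γ c1 c2 c3 e1 e2 D K : ℝ} (h1 : |α| ≤ e1) (h3 : |γ| ≤ e1) (h2 : |β| ≤ e2)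
    (k1 : |c1| ≤ K) (k2 : |c2| ≤ K) (k3 : |c3| ≤ K) (hD : 1 ≤ D) (_he1 : 0 ≤ e1) (_he2 : 0 ≤ e2) :
    |(c1 * α + c2 * β + c3 * γ) / D| ≤ K * (2 * e1 + e2) := by
  have hK : 0 ≤ K := (abs_nonneg _).trans k1
  have a1 : |c1 * α| ≤ K * e1 := by
    rw [abs_mul]; exact mul_le_mul k1 h1 (abs_nonneg _) hK
  have a2 : |c2 * β| ≤ K * e2 := by
    rw [abs_mul]; exact mul_le_mul k2 h2 (abs_nonneg _) hK
  have a3 : |c3 * γ| ≤ K * e1 := by
    rw [abs_mul]; exact mul_le_mul k3 h3 (abs_nonneg _) hK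
  have a4 : |c1 * α + c2 * β + c3 * γ| ≤ K * (2 * e1 + e2) := by
    refine (abs_add_three _ _ _).trans ?_
    linarith
  rw [abs_div, abs_of_pos (by linarith : (0 : ℝ) < D)]
  refine (div_le_self (abs_nonneg _) hD).trans a4

lemma zt_sub {u0 u1 v0 v1 a a' b A A' B T L ε : ℝ} (hD : 1 ≤ (u0 * v1 - u1 * v0) ^ 2)
    (hu0 : |u0| ≤ L) (hu1 : |u1| ≤ L) (hv0 : |v0| ≤ L) (hv1 : |v1| ≤ L) (hT : 1 ≤ T) (hε : 0 ≤ ε)
    (hA : |A - a| ≤ ε) (hA' : |A' - a'| ≤ ε) (hB : |B - b| ≤ 12 * T * ε) (i : Fin 3) :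
    |zt u0 u1 v0 v1 A A' B i - zt u0 u1 v0 v1 a a' b i| ≤ 52 * T * L ^ 2 * ε := by
  have hL : 0 ≤ L := (abs_nonneg _).trans hu0
  have hm : ∀ {p q : ℝ}, |p| ≤ L → |q| ≤ L → |p * q| ≤ L ^ 2 := by
    intro p q hp hq
    rw [abs_mul, sq]
    exact mul_le_mul hp hq (abs_nonneg _) hL
  have hL2 : 0 ≤ L ^ 2 := sq_nonneg L
  have hTε : ε ≤ T * ε := le_mul_of_one_le_left hε hT
  have hTε0 : 0 ≤ 12 * T * ε := by positivity
  have hfin : 2 * L ^ 2 * (2 * ε + 12 * T * ε) ≤ 52 * T * L ^ 2 * ε := by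
    nlinarith [mul_le_mul_of_nonneg_left hTε hL2, mul_nonneg hL2 (le_trans hε hTε)]
  refine le_trans ?_ hfin
  unfold zt
  fin_cases i
  · have e : (-2 * A * v0 * v1 + B * (u0 * v1 + u1 * v0) - 2 * A' * u0 * u1) / (u0 * v1 - u1 * v0) ^ 2 -
        (-2 * a * v0 * v1 + b * (u0 * v1 + u1 * v0) - 2 * a' * u0 * u1) / (u0 * v1 - u1 * v0) ^ 2 =
        ((-2 * (v0 * v1)) * (A - a) + (u0 * v1 + u1 * v0) * (B - b) + (-2 * (u0 * u1)) * (A' - a')) /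
          (u0 * v1 - u1 * v0) ^ 2 := by ring
    show |_ / _ - _ / _| ≤ _
    rw [e]
    refine comb hA hA' hB ?_ ?_ ?_ hD hε hTε0
    · rw [abs_mul, abs_neg, abs_two]; linarith [hm hv0 hv1]
    · exact (abs_add_le _ _).trans (by linarith [hm hu0 hv1, hm hu1 hv0])
    · rw [abs_mul, abs_neg, abs_two]; linarith [hm hu0 hu1]
  · have e : -(A * v1 ^ 2 - B * u1 * v1 + A' * u1 ^ 2) / (u0 * v1 - u1 * v0) ^ 2 -
        -(a * v1 ^ 2 - b * u1 * v1 + a' * u1 ^ 2) / (u0 * v1 - u1 * v0) ^ 2 =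
        ((-(v1 * v1)) * (A - a) + (u1 * v1) * (B - b) + (-(u1 * u1)) * (A' - a')) /
          (u0 * v1 - u1 * v0) ^ 2 := by ring
    show |_ / _ - _ / _| ≤ _
    rw [e]
    refine comb hA hA' hB ?_ ?_ ?_ hD hε hTε0
    · rw [abs_neg]; linarith [hm hv1 hv1]
    · linarith [hm hu1 hv1]
    · rw [abs_neg]; linarith [hm hu1 hu1]
  · have e : (A * v0 ^ 2 - B * u0 * v0 + A' * u0 ^ 2) / (u0 * v1 - u1 * v0) ^ 2 -
        (a * v0 ^ 2 - b * u0 * v0 + a' * u0 ^ 2) / (u0 * v1 - u1 * v0) ^ 2 =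
        ((v0 * v0) * (A - a) + (-(u0 * v0)) * (B - b) + (u0 * u0) * (A' - a')) /
          (u0 * v1 - u1 * v0) ^ 2 := by ring
    show |_ / _ - _ / _| ≤ _
    rw [e]
    refine comb hA hA' hB ?_ ?_ ?_ hD hε hTε0
    · linarith [hm hv0 hv0]
    · rw [abs_neg]; linarith [hm hu0 hv0]
    · linarith [hm hu0 hu0]

/-- the polar value up to sign -/
lemma pol_close {a a' A A' B T ε D : ℝ} (hD : 1 ≤ D) (haa : 0 ≤ a * a') (ha : |a| ≤ T) (ha' : |a'| ≤ T)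
    (hε1 : ε ≤ 1) (hT : 1 ≤ T) (hA : |A - a| ≤ ε) (hA' : |A' - a'| ≤ ε) (hB : B ^ 2 = D + 4 * (A * A')) :
    |(|B| - √(D + 4 * (a * a')))| ≤ 12 * T * ε := by
  have hε : 0 ≤ ε := (abs_nonneg _).trans hA
  set B0 : ℝ := √(D + 4 * (a * a')) with hB0
  have h0 : 0 ≤ D + 4 * (a * a') := by linarith
  have h1 : 1 ≤ B0 := by
    rw [hB0]; exact Real.one_le_sqrt.mpr (by linarith)
  have h2 : B0 ^ 2 = D + 4 * (a * a') := Real.sq_sqrt h0
  have h3 : |A| ≤ 2 * T := by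
    have e : A = (A - a) + a := by ring
    rw [e]
    refine (abs_add_le _ _).trans ?_
    linarith
  have h4 : |A * A' - a * a'| ≤ 3 * T * ε := by
    have e : A * A' - a * a' = A * (A' - a') + a' * (A - a) := by ring
    rw [e]
    refine (abs_add_le _ _).trans ?_
    rw [abs_mul, abs_mul]
    have k1 : |A| * |A' - a'| ≤ 2 * T * ε := mul_le_mul h3 hA' (abs_nonneg _) (by linarith)
    have k2 : |a'| * |A - a| ≤ T * ε := mul_le_mul ha' hA (abs_nonneg _) (by linarith)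
    linarith
  have h5 : (|B| - B0) * (|B| + B0) = 4 * (A * A' - a * a') := by
    have : |B| ^ 2 = B ^ 2 := sq_abs B
    nlinarith
  have h6 : |(|B| - B0)| * (|B| + B0) ≤ 12 * T * ε := by
    have h7 : |(|B| - B0)| * (|B| + B0) = |(|B| - B0) * (|B| + B0)| := by
      rw [abs_mul, abs_of_nonneg (by positivity : 0 ≤ |B| + B0)]
    rw [h7, h5, abs_mul, abs_of_pos (by norm_num : (0 : ℝ) < 4)]
    linarith
  refine le_trans ?_ h6
  exact le_mul_of_one_le_right (abs_nonneg _) (by linarith [abs_nonneg B])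

end DqM

open DqM in
theorem stmtDq : StmtDq := by
  intro u v a a' T L ε hδ haa ha ha' hε0 hε1 hT hu hv
  have hδr : ((u 0 : ℤ) : ℝ) * (v 1 : ℤ) - (u 1 : ℤ) * (v 0 : ℤ) ≠ 0 := by
    have : (((u 0 * v 1 - u 1 * v 0 : ℤ)) : ℝ) ≠ 0 := Int.cast_ne_zero.mpr hδ
    push_cast at this
    exact this
  have hD : 1 ≤ (((u 0 : ℤ) : ℝ) * (v 1 : ℤ) - (u 1 : ℤ) * (v 0 : ℤ)) ^ 2 := by
    have h1 : 1 ≤ (u 0 * v 1 - u 1 * v 0) ^ 2 := by
      have := sq_nonneg (u 0 * v 1 - u 1 * v 0)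
      have h2 : (u 0 * v 1 - u 1 * v 0) ^ 2 ≠ 0 := pow_ne_zero _ hδ
      omega
    exact_mod_cast h1
  set D : ℝ := (((u 0 : ℤ) : ℝ) * (v 1 : ℤ) - (u 1 : ℤ) * (v 0 : ℤ)) ^ 2 with hDd
  refine ⟨fun s => zt (u 0) (u 1) (v 0) (v 1) a a' (if s then √(D + 4 * (a * a')) else -√(D + 4 * (a * a'))), ?_⟩
  intro x hA hA'
  have hB := pol_sq x (u 0) (u 1) (v 0) (v 1)
  have hc := pol_close hD haa ha ha' hε1 hT hA hA' hB
  rcases le_total 0 (pol x (u 0) (u 1) (v 0) (v 1)) with hp | hp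
  · refine ⟨true, fun i => ?_⟩
    rw [xi_eq x hδr i]
    refine zt_sub hD (hu 0) (hu 1) (hv 0) (hv 1) hT hε0 hA hA' ?_ i
    rw [abs_of_nonneg hp] at hc
    simpa using hc
  · refine ⟨false, fun i => ?_⟩
    rw [xi_eq x hδr i]
    refine zt_sub hD (hu 0) (hu 1) (hv 0) (hv 1) hT hε0 hA hA' ?_ i
    rw [abs_of_nonpos hp] at hc
    have e : pol x (u 0) (u 1) (v 0) (v 1) - -√(D + 4 * (a * a')) =
        -(-pol x (u 0) (u 1) (v 0) (v 1) - √(D + 4 * (a * a'))) := by ring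
    simp only [Bool.false_eq_true, if_false]
    rw [e, abs_neg]
    exact hc

end Pool.Agent.A54.HSF
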