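import Pool.Agent.Lib.HS.F.Spec

/-!
# `HS/F/FC`: N-type conics in the bad case
-/

set_option autoImplicit false

namespace Pool.Agent.A54.HSF

open MeasureTheory Filter Topology Set
open scoped UpperHalfPlane MatrixGroups ENNReal
open Pool.Agent.A54.Dyn (G fl base ze io mk4 dom)
open Pool.Agent.A54.Hp (nu nm Mn Om Nb bt xi uu pr nz Tb ms FF HE Pm GdC GdK StmtNuL StmtUnf StmtNm)

noncomputable section

namespace FCM

/-- a constant is absorbed by a power of a small number -/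
lemma small (C α β : ℝ) (hC : 0 ≤ C) (h : α < β) :
    ∃ w₁ : ℝ, 0 < w₁ ∧ w₁ ≤ 1 ∧ ∀ w : ℝ, 0 < w → w ≤ w₁ → C * w ^ β ≤ w ^ α := by
  have hd : 0 < β - α := sub_pos.2 h
  have hC1 : 0 < C + 1 := by linarith
  refine ⟨(1 / (C + 1)) ^ (1 / (β - α)), by positivity, ?_, ?_⟩
  · refine Real.rpow_le_one (by positivity) ?_ (by positivity)
    rw [div_le_one hC1]; linarith
  · intro w hw hww
    have h1 : w ^ (β - α) ≤ 1 / (C + 1) := by
      calc w ^ (β - α) ≤ ((1 / (C + 1)) ^ (1 / (β - α))) ^ (β - α) :=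
            Real.rpow_le_rpow hw.le hww hd.le
        _ = 1 / (C + 1) := by
            rw [← Real.rpow_mul (by positivity), one_div_mul_cancel hd.ne', Real.rpow_one]
    have h2 : w ^ β = w ^ (β - α) * w ^ α := by
      rw [← Real.rpow_add hw]; ring_nf
    have h3 : 0 < w ^ α := Real.rpow_pos_of_pos hw _
    have h4 : C * w ^ (β - α) ≤ 1 := by
      calc C * w ^ (β - α) ≤ C * (1 / (C + 1)) := mul_le_mul_of_nonneg_left h1 hC
        _ ≤ 1 := by rw [mul_one_div, div_le_one hC1]; linarith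
    calc C * w ^ β = (C * w ^ (β - α)) * w ^ α := by rw [h2]; ring
      _ ≤ 1 * w ^ α := mul_le_mul_of_nonneg_right h4 h3.le
      _ = w ^ α := one_mul _

/-- natural powers of real powers -/
lemma pw (w : ℝ) (hw : 0 < w) (s : ℝ) (n : ℕ) : (w ^ s) ^ n = w ^ (s * n) := by
  rw [Real.rpow_mul hw.le, Real.rpow_natCast]

end FCM

open FCM

theorem stmtFC (h1 : StmtNC) (h2 : StmtBp) : StmtFC := by
  intro K R hK hR
  obtain ⟨C, hC, h1⟩ := h1 R hR
  obtain ⟨w2, hw2, hw21, h2⟩ := h2 K (by linarith)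
  have hC0 : 0 ≤ C := by linarith
  obtain ⟨wa, hwa, hwa1, ha⟩ := small (C * 4 ^ 16) 0 (1 / 2) (by positivity) (by norm_num)
  obtain ⟨wb, hwb, hwb1, hb⟩ := small (C * 4 ^ 4 * 2) (1 / 4) (1 / 2) (by positivity) (by norm_num)
  obtain ⟨wc, hwc, hwc1, hc⟩ := small (2 * C) (1 / 40000) (3 / 100000) (by positivity) (by norm_num)
  obtain ⟨wd, hwd, hwd1, hd⟩ := small (2 * (C * 4 ^ 8)) (1 / 40000) (27 / 100000) (by positivity)
    (by norm_num)
  refine ⟨min w2 (min wa (min wb (min wc wd))), by positivity, le_trans (min_le_left _ _) hw21, ?_⟩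
  intro l Φ hE w hw hww hGd u hu hH c₀ e hc0 he hew
  have l1 : w ≤ w2 := le_trans hww (min_le_left _ _)
  have l2 : w ≤ wa := le_trans hww (le_trans (min_le_right _ _) (min_le_left _ _))
  have l3 : w ≤ wb := le_trans hww (le_trans (min_le_right _ _) (le_trans (min_le_right _ _)
    (min_le_left _ _)))
  have l4 : w ≤ wc := le_trans hww (le_trans (min_le_right _ _) (le_trans (min_le_right _ _)
    (le_trans (min_le_right _ _) (min_le_left _ _))))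
  have l5 : w ≤ wd := le_trans hww (le_trans (min_le_right _ _) (le_trans (min_le_right _ _)
    (le_trans (min_le_right _ _) (min_le_right _ _))))
  have hw1 : w ≤ 1 := le_trans l1 hw21
  have hKa : 1 / (1000 * K) ≤ 1 / 30000 := by
    apply one_div_le_one_div_of_le (by norm_num); linarith
  obtain ⟨P, hP, hPn, hPM, hPc⟩ := h2 l w hw l1 hGd (1 / 30000) hKa (by norm_num)
  obtain ⟨P', hP', hPn', hPM', hPc'⟩ := h2 l w hw l1 hGd (9 / 10000) (le_trans hKa (by norm_num))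
    le_rfl
  set M : ℝ := 4 * w ^ (-(1 / 30000) : ℝ) with hM
  set M' : ℝ := 4 * w ^ (-(9 / 10000) : ℝ) with hM'
  set H : ℝ := w ^ (-(1 / 30000) : ℝ) with hHd
  have hH1 : 1 ≤ H := Real.one_le_rpow_of_pos_of_le_one_of_nonpos hw hw1 (by norm_num)
  have hW1 : 1 ≤ w ^ (-(9 / 10000) : ℝ) :=
    Real.one_le_rpow_of_pos_of_le_one_of_nonpos hw hw1 (by norm_num)
  have hM1 : 1 ≤ M := by rw [hM]; linarith
  have hM1' : 1 ≤ M' := by rw [hM']; linarith
  have mono : ∀ s t : ℝ, t ≤ s → w ^ s ≤ w ^ t := fun s t hst =>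
    Real.rpow_le_rpow_of_exponent_ge hw hw1 hst
  have hMH : M * H = 4 * w ^ (-(1 / 15000) : ℝ) := by
    rw [hM, mul_assoc, ← Real.rpow_add hw]; norm_num
  have e12 : (M * H) ^ 12 = 4 ^ 12 * w ^ (-(12 / 15000) : ℝ) := by
    rw [hMH, mul_pow, pw w hw]; norm_num
  have e8 : (M * H) ^ 8 = 4 ^ 8 * w ^ (-(8 / 15000) : ℝ) := by
    rw [hMH, mul_pow, pw w hw]; norm_num
  have e4 : (M * H) ^ 4 = 4 ^ 4 * w ^ (-(4 / 15000) : ℝ) := by
    rw [hMH, mul_pow, pw w hw]; norm_num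
  have e4' : M' ^ 4 = 4 ^ 4 * w ^ (-(36 / 10000) : ℝ) := by
    rw [hM', mul_pow, pw w hw]; norm_num
  have c1 : C * (M' ^ 4 * (M * H) ^ 12 * e) ≤ 1 := by
    have h3 : M' ^ 4 * (M * H) ^ 12 * e ≤ 4 ^ 16 * w ^ (1 / 2 : ℝ) := by
      calc M' ^ 4 * (M * H) ^ 12 * e ≤ M' ^ 4 * (M * H) ^ 12 * w ^ (9 / 10 : ℝ) :=
            mul_le_mul_of_nonneg_left hew (by positivity)
        _ = 4 ^ 16 * (w ^ (-(36 / 10000) : ℝ) * w ^ (-(12 / 15000) : ℝ) * w ^ (9 / 10 : ℝ)) := by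
            rw [e12, e4']; ring
        _ = 4 ^ 16 * w ^ (-(36 / 10000) + -(12 / 15000) + 9 / 10 : ℝ) := by
            rw [← Real.rpow_add hw, ← Real.rpow_add hw]
        _ ≤ 4 ^ 16 * w ^ (1 / 2 : ℝ) :=
            mul_le_mul_of_nonneg_left (mono _ _ (by norm_num)) (by positivity)
    calc C * (M' ^ 4 * (M * H) ^ 12 * e) ≤ C * (4 ^ 16 * w ^ (1 / 2 : ℝ)) :=
          mul_le_mul_of_nonneg_left h3 hC0
      _ = C * 4 ^ 16 * w ^ (1 / 2 : ℝ) := by ring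
      _ ≤ w ^ (0 : ℝ) := ha w hw l2
      _ = 1 := Real.rpow_zero w
  have c2 : C * ((M * H) ^ 4 * e) < |c₀| := by
    have h3 : (M * H) ^ 4 * e ≤ 4 ^ 4 * w ^ (1 / 2 : ℝ) := by
      calc (M * H) ^ 4 * e ≤ (M * H) ^ 4 * w ^ (9 / 10 : ℝ) :=
            mul_le_mul_of_nonneg_left hew (by positivity)
        _ = 4 ^ 4 * (w ^ (-(4 / 15000) : ℝ) * w ^ (9 / 10 : ℝ)) := by rw [e4]; ring
        _ = 4 ^ 4 * w ^ (-(4 / 15000) + 9 / 10 : ℝ) := by rw [← Real.rpow_add hw]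
        _ ≤ 4 ^ 4 * w ^ (1 / 2 : ℝ) :=
            mul_le_mul_of_nonneg_left (mono _ _ (by norm_num)) (by positivity)
    have h4 : 0 < w ^ (1 / 2 : ℝ) := Real.rpow_pos_of_pos hw _
    have h5 := hb w hw l3
    have h6 : C * ((M * H) ^ 4 * e) ≤ C * (4 ^ 4 * w ^ (1 / 2 : ℝ)) :=
      mul_le_mul_of_nonneg_left h3 hC0
    have h7 : 0 < C * (4 ^ 4 * w ^ (1 / 2 : ℝ)) := by
      have : 0 < C := by linarith
      positivity
    linarith
  have key := h1 l Φ hE M M' H c₀ e u hM1 hM1' hH1 he hu hH c1 c2 P P' hP hP' hPn hPn' hPM hPM'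
  refine key.trans (ENNReal.ofReal_le_ofReal ?_)
  have hP0 : 0 < (P.card : ℝ) := by exact_mod_cast hPn.card_pos
  have hP0' : 0 < (P'.card : ℝ) := by exact_mod_cast hPn'.card_pos
  have q1 : 1 / (P.card : ℝ) ≤ w ^ (3 / 100000 : ℝ) := by
    rw [div_le_iff₀ hP0]
    calc (1 : ℝ) = w ^ (3 / 100000 : ℝ) * w ^ (-(9 / 10 * (1 / 30000)) : ℝ) := by
          rw [← Real.rpow_add hw]; norm_num
      _ ≤ w ^ (3 / 100000 : ℝ) * P.card :=
          mul_le_mul_of_nonneg_left hPc (Real.rpow_nonneg hw.le _)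
  have q2 : (M * H) ^ 8 / (P'.card : ℝ) ≤ 4 ^ 8 * w ^ (27 / 100000 : ℝ) := by
    rw [div_le_iff₀ hP0', e8, mul_assoc]
    refine mul_le_mul_of_nonneg_left ?_ (by positivity)
    calc w ^ (-(8 / 15000) : ℝ) ≤ w ^ (27 / 100000 + -(9 / 10 * (9 / 10000)) : ℝ) :=
          mono _ _ (by norm_num)
      _ = w ^ (27 / 100000 : ℝ) * w ^ (-(9 / 10 * (9 / 10000)) : ℝ) := Real.rpow_add hw _ _
      _ ≤ w ^ (27 / 100000 : ℝ) * P'.card :=
          mul_le_mul_of_nonneg_left hPc' (Real.rpow_nonneg hw.le _)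
  have q3 := hc w hw l4
  have q4 := hd w hw l5
  calc C * (1 / (P.card : ℝ) + (M * H) ^ 8 / (P'.card : ℝ))
      ≤ C * (w ^ (3 / 100000 : ℝ) + 4 ^ 8 * w ^ (27 / 100000 : ℝ)) :=
        mul_le_mul_of_nonneg_left (add_le_add q1 q2) hC0
    _ ≤ w ^ (1 / 40000 : ℝ) := by linarith

end

end Pool.Agent.A54.HSF
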