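import Pool.Agent.Lib.HS.F.SpecI

/-!
# Project H*, part (F): the N-type partners in the bad case (helper17)
-/

set_option autoImplicit false

namespace Pool.Agent.A54.HSF

open MeasureTheory Filter Topology Set
open scoped UpperHalfPlane MatrixGroups ENNReal
open Pool.Agent.A54.Dyn (G)
open Pool.Agent.A54.Av (Mat)
open Pool.Agent.A54.Hp (nu Om ms HE GdK Zc Csp StmtIsU)

noncomputable section

namespace FNM

/-- a constant is absorbed by a power of a small number -/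
lemma small (C α β : ℝ) (hC : 0 ≤ C) (h : α < β) :
    ∃ w₁ : ℝ, 0 < w₁ ∧ w₁ ≤ 1 ∧ ∀ w : ℝ, 0 < w → w ≤ w₁ → C * w ^ β ≤ w ^ α := by
  have hd : 0 < β - α := sub_pos.2 h
  have hC1 : 0 < C + 1 := by linarith
  refine ⟨(1 / (C + 1)) ^ (1 / (β - α)), by positivity, ?_, ?_⟩
  · refine Real.rpow_le_one (by positivity) ?_ (by positivity)
    rw [div_le_one hC1]; linarith
  · intro w hw hww
    have h1 : w ^ (β - α) ≤ 1 / (C + 1) := by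
      calc w ^ (β - α) ≤ ((1 / (C + 1)) ^ (1 / (β - α))) ^ (β - α) :=
            Real.rpow_le_rpow hw.le hww hd.le
        _ = 1 / (C + 1) := by
            rw [← Real.rpow_mul (by positivity), one_div_mul_cancel hd.ne', Real.rpow_one]
    have h2 : w ^ β = w ^ (β - α) * w ^ α := by
      rw [← Real.rpow_add hw]; ring_nf
    have h3 : 0 < w ^ α := Real.rpow_pos_of_pos hw _
    have h4 : C * w ^ (β - α) ≤ 1 := by
      calc C * w ^ (β - α) ≤ C * (1 / (C + 1)) := mul_le_mul_of_nonneg_left h1 hC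
        _ ≤ 1 := by rw [mul_one_div, div_le_one hC1]; linarith
    calc C * w ^ β = (C * w ^ (β - α)) * w ^ α := by rw [h2]; ring
      _ ≤ 1 * w ^ α := mul_le_mul_of_nonneg_right h4 h3.le
      _ = w ^ α := one_mul _

/-- the mass of a finite union -/
lemma ms_union {ι : Type} (S : Finset ι) (A : ι → Set G) (Φ : G → ℂ) (B : ℝ≥0∞)
    (h : ∀ i ∈ S, ms Φ (A i) ≤ B) (T : Set G) (hT : T ⊆ ⋃ i : S, A i) :
    ms Φ T ≤ S.card * B := by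
  calc ms Φ T ≤ ms Φ (⋃ i : S, A i) := lintegral_mono_set hT
    _ ≤ ∑' i : S, ms Φ (A i) := lintegral_iUnion_le _ _
    _ = ∑ i : S, ms Φ (A i) := tsum_fintype _
    _ ≤ ∑ _i : S, B := Finset.sum_le_sum fun i _ => h i i.2
    _ = S.card * B := by
      rw [Finset.sum_const, Finset.card_univ, Fintype.card_coe, nsmul_eq_mul]

/-- the indices -/
abbrev Ix : Type := (ℤ × ℤ) × (ℤ × ℤ) × (ℕ × ℕ)

/-- the set of one index `(u, v, a, b)` -/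
def Ai (R e : ℝ) (x : G) (i : Ix) : Set G :=
  {y | y ∈ Om R ∧ |(i.2.2.1 : ℝ) ^ 2 * qx y i.1.1 i.1.2 -
    (i.2.2.2 : ℝ) ^ 2 * qx x i.2.1.1 i.2.1.2| ≤ e}

/-- all indices of height `M` -/
def Bx (M : ℕ) : Finset Ix :=
  (Finset.Icc (-(M : ℤ)) M ×ˢ Finset.Icc (-(M : ℤ)) M) ×ˢ
    ((Finset.Icc (-(M : ℤ)) M ×ˢ Finset.Icc (-(M : ℤ)) M) ×ˢ
      (Finset.Icc 1 M ×ˢ Finset.Icc 1 M))

lemma card_Bx (M : ℕ) : (Bx M).card = (2 * M + 1) ^ 4 * M ^ 2 := by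
  have h : (Finset.Icc (-(M : ℤ)) M).card = 2 * M + 1 := by
    rw [Int.card_Icc]; omega
  simp only [Bx, Finset.card_product, h, Nat.card_Icc]
  rw [Nat.add_sub_cancel]
  ring

lemma natAbs_le {L : ℝ} {n : ℤ} (h : |(n : ℝ)| ≤ L) : n.natAbs ≤ ⌊L⌋₊ := by
  refine Nat.le_floor ?_
  rw [Nat.cast_natAbs, Int.cast_abs]
  exact h

lemma mem_Icc_floor {L : ℝ} {n : ℤ} (h : |(n : ℝ)| ≤ L) :
    n ∈ Finset.Icc (-(⌊L⌋₊ : ℤ)) ⌊L⌋₊ := by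
  have h1 := natAbs_le h
  rw [Finset.mem_Icc]
  omega

lemma abs_le_of_mem {L : ℝ} (hL : 0 ≤ L) {n : ℤ} (h : n ∈ Finset.Icc (-(⌊L⌋₊ : ℤ)) ⌊L⌋₊) :
    |(n : ℝ)| ≤ L := by
  rw [Finset.mem_Icc] at h
  have h1 : |n| ≤ (⌊L⌋₊ : ℤ) := abs_le.2 h
  have h2 : |(n : ℝ)| ≤ ((⌊L⌋₊ : ℕ) : ℝ) := by
    have h3 : ((|n| : ℤ) : ℝ) ≤ (((⌊L⌋₊ : ℕ) : ℤ) : ℝ) := by exact_mod_cast h1
    rw [Int.cast_abs, Int.cast_natCast] at h3
    exact h3
  exact h2.trans (Nat.floor_le hL)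

/-- the partners are in the union -/
lemma cover (R L e : ℝ) (x : G) : NTs R L e x ⊆
    ⋃ i : {i // i ∈ (Bx ⌊L⌋₊).filter (fun i : Ix => IsCoprime i.1.1 i.1.2)},
      Ai R e x (i : Ix) := by
  rintro y ⟨hy, u, v, a, b, hu, -, hu1, hv1, ha, hb, ha1, hb1, hq⟩
  rw [Set.mem_iUnion]
  refine ⟨⟨((u 0, u 1), (v 0, v 1), (a, b)), ?_⟩, hy, hq⟩
  rw [Finset.mem_filter]
  refine ⟨?_, hu⟩
  simp only [Bx, Finset.mem_product]
  exact ⟨⟨mem_Icc_floor (hu1 0), mem_Icc_floor (hu1 1)⟩,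
    ⟨mem_Icc_floor (hv1 0), mem_Icc_floor (hv1 1)⟩,
    Finset.mem_Icc.2 ⟨ha, Nat.le_floor ha1⟩, Finset.mem_Icc.2 ⟨hb, Nat.le_floor hb1⟩⟩

/-- one index is in a conic -/
lemma Ai_sub (R e : ℝ) (he : 0 ≤ e) (x : G) (i : Ix) (ha : 1 ≤ i.2.2.1) :
    Ai R e x i ⊆ Cn R ![i.1.1, i.1.2]
      (((i.2.2.2 : ℝ) / (i.2.2.1 : ℝ)) ^ 2 * qx x i.2.1.1 i.2.1.2) e := by
  rintro y ⟨hy, hq⟩
  refine ⟨hy, ?_⟩
  have ha' : (1 : ℝ) ≤ (i.2.2.1 : ℝ) := by exact_mod_cast ha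
  have ha0 : (0 : ℝ) < (i.2.2.1 : ℝ) ^ 2 := by positivity
  have ha1 : (1 : ℝ) ≤ (i.2.2.1 : ℝ) ^ 2 := one_le_pow₀ ha'
  have h1 : qx y ((![i.1.1, i.1.2] : Fin 2 → ℤ) 0) ((![i.1.1, i.1.2] : Fin 2 → ℤ) 1) -
      ((i.2.2.2 : ℝ) / (i.2.2.1 : ℝ)) ^ 2 * qx x i.2.1.1 i.2.1.2 =
      ((i.2.2.1 : ℝ) ^ 2 * qx y i.1.1 i.1.2 - (i.2.2.2 : ℝ) ^ 2 * qx x i.2.1.1 i.2.1.2) /
        (i.2.2.1 : ℝ) ^ 2 := by
    simp only [Matrix.cons_val_zero, Matrix.cons_val_one]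
    field_simp
  rw [h1, abs_div, abs_of_pos ha0, div_le_iff₀ ha0]
  calc _ ≤ e := hq
    _ = e * 1 := (mul_one e).symm
    _ ≤ e * (i.2.2.1 : ℝ) ^ 2 := mul_le_mul_of_nonneg_left ha1 he

/-- the number of indices -/
lemma count {L : ℝ} (hL : 1 ≤ L) :
    (((Bx ⌊L⌋₊).filter (fun i : Ix => IsCoprime i.1.1 i.1.2)).card : ℝ) ≤ 81 * L ^ 6 := by
  have h1 : (((Bx ⌊L⌋₊).filter (fun i : Ix => IsCoprime i.1.1 i.1.2)).card : ℝ) ≤
      (((2 * ⌊L⌋₊ + 1) ^ 4 * ⌊L⌋₊ ^ 2 : ℕ) : ℝ) := by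
    exact_mod_cast (Finset.card_filter_le _ _).trans (card_Bx _).le
  have h2 : ((⌊L⌋₊ : ℕ) : ℝ) ≤ L := Nat.floor_le (by linarith)
  have h0 : (0 : ℝ) ≤ ((⌊L⌋₊ : ℕ) : ℝ) := Nat.cast_nonneg _
  refine h1.trans ?_
  push_cast
  have h3 : (2 * ((⌊L⌋₊ : ℕ) : ℝ) + 1) ^ 4 ≤ (3 * L) ^ 4 :=
    pow_le_pow_left₀ (by positivity) (by linarith) 4
  have h4 : ((⌊L⌋₊ : ℕ) : ℝ) ^ 2 ≤ L ^ 2 := pow_le_pow_left₀ h0 h2 2
  calc (2 * ((⌊L⌋₊ : ℕ) : ℝ) + 1) ^ 4 * ((⌊L⌋₊ : ℕ) : ℝ) ^ 2 ≤ (3 * L) ^ 4 * L ^ 2 :=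
        mul_le_mul h3 h4 (by positivity) (by positivity)
    _ = 81 * L ^ 6 := by ring

/-- arithmetic of the cusp case -/
lemma cusp_arith {R w : ℝ} (hR : 1 ≤ R) (hw : 0 < w) (hw1 : w ≤ 1) :
    √(2 * w ^ (1 / 4 : ℝ)) * (2 * R * w ^ (-(1 / 1000000) : ℝ)) ≤ 4 * R * w ^ (1 / 10 : ℝ) := by
  have h1 : √(2 * w ^ (1 / 4 : ℝ)) ≤ 2 * w ^ (1 / 8 : ℝ) := by
    refine Real.sqrt_le_iff.2 ⟨by positivity, ?_⟩
    have h2 : (w ^ (1 / 8 : ℝ)) ^ 2 = w ^ (1 / 4 : ℝ) := by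
      rw [← Real.rpow_natCast, ← Real.rpow_mul hw.le]; norm_num
    rw [mul_pow, h2]
    have h3 : 0 < w ^ (1 / 4 : ℝ) := Real.rpow_pos_of_pos hw _
    linarith
  calc √(2 * w ^ (1 / 4 : ℝ)) * (2 * R * w ^ (-(1 / 1000000) : ℝ)) ≤
        2 * w ^ (1 / 8 : ℝ) * (2 * R * w ^ (-(1 / 1000000) : ℝ)) :=
        mul_le_mul_of_nonneg_right h1 (by positivity)
    _ = 4 * R * (w ^ (1 / 8 : ℝ) * w ^ (-(1 / 1000000) : ℝ)) := by ring
    _ = 4 * R * w ^ (1 / 8 + -(1 / 1000000) : ℝ) := by rw [← Real.rpow_add hw]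
    _ ≤ 4 * R * w ^ (1 / 10 : ℝ) :=
        mul_le_mul_of_nonneg_left
          (Real.rpow_le_rpow_of_exponent_ge hw hw1 (by norm_num)) (by positivity)

lemma cusp_pow {R w t : ℝ} (hR : 1 ≤ R) (hw : 0 < w) (ht0 : 0 ≤ t)
    (ht : t ≤ 4 * R * w ^ (1 / 10 : ℝ)) : t ^ (1 / 4 : ℝ) ≤ 4 * R * w ^ (1 / 40 : ℝ) := by
  calc t ^ (1 / 4 : ℝ) ≤ (4 * R * w ^ (1 / 10 : ℝ)) ^ (1 / 4 : ℝ) :=
        Real.rpow_le_rpow ht0 ht (by norm_num)
    _ = (4 * R) ^ (1 / 4 : ℝ) * w ^ (1 / 40 : ℝ) := by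
        rw [Real.mul_rpow (by positivity) (Real.rpow_nonneg hw.le _), ← Real.rpow_mul hw.le]
        norm_num
    _ ≤ (4 * R) ^ (1 : ℝ) * w ^ (1 / 40 : ℝ) :=
        mul_le_mul_of_nonneg_right
          (Real.rpow_le_rpow_of_exponent_le (by linarith) (by norm_num))
          (Real.rpow_nonneg hw.le _)
    _ = 4 * R * w ^ (1 / 40 : ℝ) := by rw [Real.rpow_one]

end FNM

open FNM in
/-- **FN** the N-type partners in the bad case -/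
theorem stmtFN (h1 : StmtFC) (h2 : StmtZq) (h3 : Hp.StmtIsU) : StmtFN := by
  intro K R hK hR
  obtain ⟨wf, hwf, hwf1, hFC⟩ := h1 K R hK hR
  obtain ⟨C, hC, hIs⟩ := h3 R hR
  obtain ⟨wa, hwa, hwa1, ha⟩ := small (16 * R) 0 (1 / 10) (by positivity) (by norm_num)
  obtain ⟨wb, hwb, hwb1, hb⟩ := small (C * (4 * R)) (1 / 40000) (1 / 40) (by positivity)
    (by norm_num)
  obtain ⟨wc, hwc, hwc1, hc⟩ := small 81 (1 / 60000) (19 / 1000000) (by norm_num) (by norm_num)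
  refine ⟨min wf (min wa (min wb wc)), by positivity, (min_le_left _ _).trans hwf1, ?_⟩
  intro l Φ hE hCsp w hw hww hGd x
  have l1 : w ≤ wf := hww.trans (min_le_left _ _)
  have l2 : w ≤ wa := hww.trans ((min_le_right _ _).trans (min_le_left _ _))
  have l3 : w ≤ wb := hww.trans ((min_le_right _ _).trans ((min_le_right _ _).trans
    (min_le_left _ _)))
  have l4 : w ≤ wc := hww.trans ((min_le_right _ _).trans ((min_le_right _ _).trans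
    (min_le_right _ _)))
  have hw1 : w ≤ 1 := l1.trans hwf1
  have mono : ∀ s t : ℝ, t ≤ s → w ^ s ≤ w ^ t := fun s t hst =>
    Real.rpow_le_rpow_of_exponent_ge hw hw1 hst
  set L : ℝ := w ^ (-(1 / 1000000) : ℝ) with hL
  have hL1 : 1 ≤ L := Real.one_le_rpow_of_pos_of_le_one_of_nonpos hw hw1 (by norm_num)
  have he0 : 0 < w ^ (19 / 20 : ℝ) := Real.rpow_pos_of_pos hw _
  have h40 : 0 < w ^ (1 / 4 : ℝ) := Real.rpow_pos_of_pos hw _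
  have hone : ∀ i ∈ (Bx ⌊L⌋₊).filter (fun i : Ix => IsCoprime i.1.1 i.1.2),
      ms Φ (Ai R (w ^ (19 / 20 : ℝ)) x i) ≤ ENNReal.ofReal (w ^ (1 / 40000 : ℝ)) := by
    intro i hi
    rw [Finset.mem_filter] at hi
    obtain ⟨hi1, hcop⟩ := hi
    simp only [Bx, Finset.mem_product] at hi1
    obtain ⟨⟨hu0, hu1⟩, -, ha1, -⟩ := hi1
    have hu0' := abs_le_of_mem (by linarith) hu0
    have hu1' := abs_le_of_mem (by linarith) hu1
    have ha1' : 1 ≤ i.2.2.1 := (Finset.mem_Icc.1 ha1).1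
    have hsub := Ai_sub R (w ^ (19 / 20 : ℝ)) he0.le x i ha1'
    set c₀ : ℝ := ((i.2.2.2 : ℝ) / (i.2.2.1 : ℝ)) ^ 2 * qx x i.2.1.1 i.2.1.2 with hc0
    have hcop' : IsCoprime ((![i.1.1, i.1.2] : Fin 2 → ℤ) 0) ((![i.1.1, i.1.2] : Fin 2 → ℤ) 1) :=
      hcop
    have huL : ∀ j, |(((![i.1.1, i.1.2] : Fin 2 → ℤ) j : ℤ) : ℝ)| ≤ L := by
      intro j
      fin_cases j
      · exact hu0'
      · exact hu1'
    rcases le_or_gt (w ^ (1 / 4 : ℝ)) |c₀| with hcase | hcase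
    · refine (lintegral_mono_set hsub).trans ?_
      exact hFC l Φ hE w hw l1 hGd ![i.1.1, i.1.2] hcop'
        (fun j => (huL j).trans (mono _ _ (by norm_num))) c₀ _ hcase he0 (mono _ _ (by norm_num))
    · have hsub2 : Ai R (w ^ (19 / 20 : ℝ)) x i ⊆ Zc R (√(2 * w ^ (1 / 4 : ℝ))) (2 * R * L) := by
        intro y hy
        obtain ⟨hyO, hyq⟩ := hsub hy
        refine h2 R L (2 * w ^ (1 / 4 : ℝ)) ![i.1.1, i.1.2] (by positivity) hcop' huL y hyO ?_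
        have h5 : w ^ (19 / 20 : ℝ) ≤ w ^ (1 / 4 : ℝ) := mono _ _ (by norm_num)
        have h6 := abs_sub_abs_le_abs_sub
          (qx y ((![i.1.1, i.1.2] : Fin 2 → ℤ) 0) ((![i.1.1, i.1.2] : Fin 2 → ℤ) 1)) c₀
        linarith
      have hη : 0 < √(2 * w ^ (1 / 4 : ℝ)) := Real.sqrt_pos.2 (by positivity)
      have hηK : √(2 * w ^ (1 / 4 : ℝ)) ≤ 2 * R * L := by
        have h7 : w ^ (1 / 4 : ℝ) ≤ 1 := Real.rpow_le_one hw.le hw1 (by norm_num)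
        have h8 : √(2 * w ^ (1 / 4 : ℝ)) ≤ 2 :=
          Real.sqrt_le_iff.2 ⟨by norm_num, by linarith⟩
        have h9 : 1 ≤ R * L := one_le_mul_of_one_le_of_one_le hR hL1
        calc √(2 * w ^ (1 / 4 : ℝ)) ≤ 2 * 1 := by linarith
          _ ≤ 2 * (R * L) := by linarith
          _ = 2 * R * L := by ring
      have hprod := cusp_arith hR hw hw1
      rw [← hL] at hprod
      have h10 : 4 * R * w ^ (1 / 10 : ℝ) ≤ 1 / 4 := by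
        have h11 := ha w hw l2
        rw [Real.rpow_zero] at h11
        linarith
      have hfin := (hIs l Φ hE hCsp _ _ hη hηK (hprod.trans h10)).2
      refine (lintegral_mono_set hsub2).trans (hfin.trans (ENNReal.ofReal_le_ofReal ?_))
      calc C * (√(2 * w ^ (1 / 4 : ℝ)) * (2 * R * L)) ^ (1 / 4 : ℝ) ≤
            C * (4 * R * w ^ (1 / 40 : ℝ)) :=
            mul_le_mul_of_nonneg_left
              (cusp_pow hR hw (mul_nonneg hη.le (hη.le.trans hηK)) hprod) hC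
        _ = C * (4 * R) * w ^ (1 / 40 : ℝ) := by ring
        _ ≤ w ^ (1 / 40000 : ℝ) := hb w hw l3
  refine (ms_union _ _ Φ _ hone _ (cover R L (w ^ (19 / 20 : ℝ)) x)).trans ?_
  rw [← ENNReal.ofReal_natCast, ← ENNReal.ofReal_mul (Nat.cast_nonneg _)]
  refine ENNReal.ofReal_le_ofReal ?_
  calc (((Bx ⌊L⌋₊).filter (fun i : Ix => IsCoprime i.1.1 i.1.2)).card : ℝ) *
        w ^ (1 / 40000 : ℝ) ≤ 81 * L ^ 6 * w ^ (1 / 40000 : ℝ) :=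
        mul_le_mul_of_nonneg_right (count hL1) (Real.rpow_nonneg hw.le _)
    _ = 81 * w ^ (19 / 1000000 : ℝ) := by
        rw [hL, ← Real.rpow_natCast, ← Real.rpow_mul hw.le, mul_assoc, ← Real.rpow_add hw]
        norm_num
    _ ≤ w ^ (1 / 60000 : ℝ) := hc w hw l4

end

end Pool.Agent.A54.HSF
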