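import Pool.Agent.Lib.HS.F.Spec

/-!
# HS/F, module FT: tubes in the bad case

`M = 4 w^(-9/10000)` in `TS` with the primes of `Bp`.
-/

set_option autoImplicit false

namespace Pool.Agent.A54.HSF

open MeasureTheory Filter Topology Set
open scoped UpperHalfPlane MatrixGroups ENNReal
open Pool.Agent.A54.Dyn (G fl base ze io mk4 dom)
open Pool.Agent.A54.Av (Mat)
open Pool.Agent.A54.Hp (nu nm Mn Om Nb bt xi uu pr nz Tb ms FF HE Pm GdC GdK StmtNuL StmtUnf StmtNm)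

noncomputable section

namespace FTM

/-- small powers -/
theorem small_pow {A w : ℝ} (hA : 1 ≤ A) (hw : 0 < w) (hw' : w ≤ A ^ (-(1300000 / 53) : ℝ)) :
    A * w ^ (53 / 1300000 : ℝ) ≤ 1 := by
  have hA0 : 0 < A := lt_of_lt_of_le one_pos hA
  have h1 : w ^ (53 / 1300000 : ℝ) ≤ (A ^ (-(1300000 / 53) : ℝ)) ^ (53 / 1300000 : ℝ) :=
    Real.rpow_le_rpow hw.le hw' (by norm_num)
  rw [← Real.rpow_mul hA0.le] at h1
  have h2 : (-(1300000 / 53) : ℝ) * (53 / 1300000) = -1 := by norm_num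
  rw [h2, Real.rpow_neg_one] at h1
  calc A * w ^ (53 / 1300000 : ℝ) ≤ A * A⁻¹ := mul_le_mul_of_nonneg_left h1 hA0.le
    _ = 1 := mul_inv_cancel₀ hA0.ne'

/-- cancelling the number of primes -/
theorem cancel_card {n : ℕ} (hn : 0 < n) {a : ℝ≥0∞} {c t : ℝ} (h : (n : ℝ≥0∞) * a ≤ ENNReal.ofReal c)
    (hc : c ≤ (n : ℝ) * t) : a ≤ ENNReal.ofReal t := by
  have h1 : (n : ℝ≥0∞) * a ≤ (n : ℝ≥0∞) * ENNReal.ofReal t := by
    refine h.trans ?_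
    have h2 : ENNReal.ofReal ((n : ℝ) * t) = (n : ℝ≥0∞) * ENNReal.ofReal t := by
      rw [ENNReal.ofReal_mul (Nat.cast_nonneg n), ENNReal.ofReal_natCast]
    rw [← h2]
    exact ENNReal.ofReal_le_ofReal hc
  have h0 : (n : ℝ≥0∞) ≠ 0 := by
    simpa using hn.ne'
  exact (ENNReal.mul_le_mul_iff_right h0 (ENNReal.natCast_ne_top n)).1 h1

end FTM

/-- **FT** tubes in the bad case. -/
theorem stmtFT (h1 : StmtTS) (h2 : StmtBp) : StmtFT := by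
  intro K R hK hR
  obtain ⟨C, hC1, hC⟩ := h1 R hR
  obtain ⟨w₁, hw₁0, hw₁1, hB⟩ := h2 K (by linarith)
  have hA : (1 : ℝ) ≤ 256 * C := by linarith
  have hA0 : (0 : ℝ) < 256 * C := by linarith
  refine ⟨min w₁ ((256 * C) ^ (-(1300000 / 53) : ℝ)), lt_min hw₁0 (Real.rpow_pos_of_pos hA0 _),
    (min_le_left _ _).trans hw₁1, ?_⟩
  intro l Φ hΦ w hw hww hbad ζ
  have hww1 : w ≤ w₁ := hww.trans (min_le_left _ _)
  have hww2 : w ≤ (256 * C) ^ (-(1300000 / 53) : ℝ) := hww.trans (min_le_right _ _)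
  have hw1 : w ≤ 1 := hww1.trans hw₁1
  have hK0 : (0 : ℝ) < 1000 * K := by linarith
  have hKa : 1 / (1000 * K) ≤ (9 / 10000 : ℝ) := by
    rw [div_le_iff₀ hK0]
    linarith
  obtain ⟨P, hP, hPn, hPM, hPc⟩ := hB l w hw hww1 hbad (9 / 10000) hKa le_rfl
  have hs := FTM.small_pow hA hw hww2
  have hwa : 1 ≤ w ^ (-(9 / 10000) : ℝ) := Real.one_le_rpow_of_pos_of_le_one_of_nonpos hw hw1 (by norm_num)
  have hη : (0 : ℝ) ≤ w ^ (9 / 10 : ℝ) := (Real.rpow_pos_of_pos hw _).le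
  have hM4 : (4 * w ^ (-(9 / 10000) : ℝ)) ^ 4 * w ^ (9 / 10 : ℝ) = 256 * w ^ (2241 / 2500 : ℝ) := by
    rw [mul_pow, ← Real.rpow_natCast (w ^ (-(9 / 10000) : ℝ)) 4, ← Real.rpow_mul hw.le, mul_assoc, ← Real.rpow_add hw]
    norm_num
  have hle : w ^ (2241 / 2500 : ℝ) ≤ w ^ (53 / 1300000 : ℝ) :=
    Real.rpow_le_rpow_of_exponent_ge hw hw1 (by norm_num)
  have hC0 : 0 < C := by linarith
  have hcond : C * ((4 * w ^ (-(9 / 10000) : ℝ)) ^ 4 * w ^ (9 / 10 : ℝ)) ≤ 1 := by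
    rw [hM4]
    have : C * (256 * w ^ (2241 / 2500 : ℝ)) ≤ C * (256 * w ^ (53 / 1300000 : ℝ)) := by
      gcongr
    refine this.trans ?_
    linarith
  have hTS := hC l Φ hΦ (4 * w ^ (-(9 / 10000) : ℝ)) (w ^ (9 / 10 : ℝ)) ζ (by linarith) hη hcond P hP hPM
  refine FTM.cancel_card hPn.card_pos hTS ?_
  have e1 : w ^ (-(9 / 10 * (9 / 10000)) : ℝ) * w ^ (1 / 1300 : ℝ) = (w ^ (53 / 1300000 : ℝ))⁻¹ := by
    rw [← Real.rpow_add hw, ← Real.rpow_neg hw.le]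
    norm_num
  have hpos : 0 < w ^ (53 / 1300000 : ℝ) := Real.rpow_pos_of_pos hw _
  have e2 : C ≤ (w ^ (53 / 1300000 : ℝ))⁻¹ := by
    rw [le_inv_comm₀ hC0 hpos, ← one_div, le_div_iff₀ hC0]
    nlinarith
  calc C ≤ w ^ (-(9 / 10 * (9 / 10000)) : ℝ) * w ^ (1 / 1300 : ℝ) := by rw [e1]; exact e2
    _ ≤ (P.card : ℝ) * w ^ (1 / 1300 : ℝ) := mul_le_mul_of_nonneg_right hPc (Real.rpow_pos_of_pos hw _).le

end

end Pool.Agent.A54.HSF
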