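import Pool.Agent.Lib.HS.F.Spec

/-!
Project H*, part (F), module Gd: the number of good residues.
-/

set_option autoImplicit false

namespace Pool.Agent.A54.HSF

open MeasureTheory Filter Topology Set
open scoped UpperHalfPlane MatrixGroups ENNReal

noncomputable section

namespace GdM

/-- two different residues below `p` -/
lemma not_dvd_sub {p c d : ℕ} (hc : c < p) (hd : d < p) (h : c ≠ d) : ¬ (p : ℤ) ∣ ((c : ℤ) - d) := by
  intro hdvd
  apply h
  have h1 : |(c : ℤ) - d| < p := by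
    rw [abs_lt]
    constructor <;> omega
  have h2 : (c : ℤ) - d = 0 := Int.eq_zero_of_abs_lt_dvd hdvd h1
  omega

/-- at most two roots -/
lemma roots_le (n : Fin 3 → ℤ) (p : ℕ) (hn : Prim n) (hp : p.Prime) :
    ((Finset.range p).filter (fun c => (p : ℤ) ∣ Fq n c)).card ≤ 2 := by
  by_contra hcon
  push Not at hcon
  obtain ⟨a, ha, b, hb, c, hc, hab, hac, hbc⟩ := Finset.two_lt_card.1 hcon
  rw [Finset.mem_filter, Finset.mem_range] at ha hb hc
  have hpZ : Prime (p : ℤ) := Nat.prime_iff_prime_int.1 hp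
  unfold Fq at ha hb hc
  have h1 : (p : ℤ) ∣ ((a : ℤ) - b) * (n 2 * ((a : ℤ) + b) + n 0) := by
    have := dvd_sub ha.2 hb.2
    have e : n 2 * (a : ℤ) ^ 2 + n 0 * (a : ℤ) - n 1 - (n 2 * (b : ℤ) ^ 2 + n 0 * (b : ℤ) - n 1) =
        ((a : ℤ) - b) * (n 2 * ((a : ℤ) + b) + n 0) := by ring
    rwa [e] at this
  have h2 : (p : ℤ) ∣ ((a : ℤ) - c) * (n 2 * ((a : ℤ) + c) + n 0) := by
    have := dvd_sub ha.2 hc.2
    have e : n 2 * (a : ℤ) ^ 2 + n 0 * (a : ℤ) - n 1 - (n 2 * (c : ℤ) ^ 2 + n 0 * (c : ℤ) - n 1) =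
        ((a : ℤ) - c) * (n 2 * ((a : ℤ) + c) + n 0) := by ring
    rwa [e] at this
  have h3 := (hpZ.dvd_or_dvd h1).resolve_left (not_dvd_sub ha.1 hb.1 hab)
  have h4 := (hpZ.dvd_or_dvd h2).resolve_left (not_dvd_sub ha.1 hc.1 hac)
  have h5 : (p : ℤ) ∣ ((b : ℤ) - c) * n 2 := by
    have := dvd_sub h3 h4
    have e : n 2 * ((a : ℤ) + b) + n 0 - (n 2 * ((a : ℤ) + c) + n 0) = ((b : ℤ) - c) * n 2 := by ring
    rwa [e] at this
  have k2 := (hpZ.dvd_or_dvd h5).resolve_left (not_dvd_sub hb.1 hc.1 hbc)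
  have k0 : (p : ℤ) ∣ n 0 := by
    have := dvd_sub h3 (Dvd.dvd.mul_right k2 ((a : ℤ) + b))
    have e : n 2 * ((a : ℤ) + b) + n 0 - n 2 * ((a : ℤ) + b) = n 0 := by ring
    rwa [e] at this
  have k1 : (p : ℤ) ∣ n 1 := by
    have := dvd_sub (dvd_add (Dvd.dvd.mul_right k2 ((a : ℤ) ^ 2)) (Dvd.dvd.mul_right k0 (a : ℤ))) ha.2
    have e : n 2 * (a : ℤ) ^ 2 + n 0 * (a : ℤ) - (n 2 * (a : ℤ) ^ 2 + n 0 * (a : ℤ) - n 1) = n 1 := by ring
    rwa [e] at this
  obtain ⟨w, hw⟩ := hn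
  have h6 : (p : ℤ) ∣ 1 := by
    rw [← hw]
    exact dvd_add (dvd_add (Dvd.dvd.mul_left k0 _) (Dvd.dvd.mul_left k1 _)) (Dvd.dvd.mul_left k2 _)
  exact hpZ.not_isUnit (isUnit_of_dvd_one h6)

/-- the form modulo `p` -/
lemma Fq_mod (n : Fin 3 → ℤ) (p b b' : ℕ) : (p : ℤ) ∣ Fq n (b + p * b') ↔ (p : ℤ) ∣ Fq n b := by
  have e : Fq n (b + p * b') = Fq n b +
      (p : ℤ) * (n 2 * (2 * (b : ℤ) * b' + (p : ℤ) * (b' : ℤ) ^ 2) + n 0 * b') := by
    unfold Fq
    push_cast
    ring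
  rw [e]
  exact (Int.dvd_add_left (Dvd.intro _ rfl))

end GdM

open GdM in
theorem stmtGd : StmtGd := by
  intro n p hn hp hp5
  constructor
  · have h1 := roots_le n p hn hp
    have h2 : ((Finset.range p).filter (fun c => (p : ℤ) ∣ Fq n c)).card +
        ((Finset.range p).filter (fun c => ¬ (p : ℤ) ∣ Fq n c)).card = p := by
      rw [Finset.card_filter_add_card_filter_not, Finset.card_range]
    have h3 : Gr n p 1 = (Finset.range p).filter (fun c => ¬ (p : ℤ) ∣ Fq n c) := by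
      unfold Gr
      rw [pow_one]
    rw [h3]
    omega
  · intro f
    have hp0 : 0 < p := hp.pos
    rw [← Finset.sum_product']
    refine Finset.sum_nbij' (fun c => (c % p, c / p)) (fun x => x.1 + p * x.2) ?_ ?_ ?_ ?_ ?_
    · intro c hc
      unfold Gr at hc ⊢
      rw [Finset.mem_filter, Finset.mem_range] at hc
      rw [Finset.mem_product, Finset.mem_filter, Finset.mem_range, Finset.mem_range, pow_one]
      have h1 : (p : ℤ) ∣ Fq n (c % p + p * (c / p)) ↔ (p : ℤ) ∣ Fq n (c % p) := Fq_mod n p (c % p) (c / p)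
      rw [Nat.mod_add_div] at h1
      refine ⟨⟨Nat.mod_lt _ hp0, fun h => hc.2 (h1.2 h)⟩, ?_⟩
      rw [Nat.div_lt_iff_lt_mul hp0]
      calc c < p ^ 2 := hc.1
        _ = p * p := sq p
    · intro x hx
      unfold Gr at hx ⊢
      rw [Finset.mem_product, Finset.mem_filter, Finset.mem_range, Finset.mem_range, pow_one] at hx
      rw [Finset.mem_filter, Finset.mem_range]
      refine ⟨?_, fun h => hx.1.2 ((Fq_mod n p x.1 x.2).1 h)⟩
      have h1 : x.2 + 1 ≤ p := hx.2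
      calc x.1 + p * x.2 < p + p * x.2 := by
            have := hx.1.1
            omega
        _ = p * (x.2 + 1) := by ring
        _ ≤ p * p := Nat.mul_le_mul_left p h1
        _ = p ^ 2 := (sq p).symm
    · intro c _
      exact Nat.mod_add_div c p
    · intro x hx
      unfold Gr at hx
      rw [Finset.mem_product, Finset.mem_filter, Finset.mem_range, Finset.mem_range, pow_one] at hx
      have h1 : x.1 % p = x.1 := Nat.mod_eq_of_lt hx.1.1
      apply Prod.ext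
      · show (x.1 + p * x.2) % p = x.1
        rw [Nat.add_mul_mod_self_left, h1]
      · show (x.1 + p * x.2) / p = x.2
        rw [Nat.add_mul_div_left _ _ hp0, Nat.div_eq_of_lt hx.1.1, zero_add]
    · intro c _
      show f c = f (c % p + p * (c / p))
      rw [Nat.mod_add_div]

end

end Pool.Agent.A54.HSF
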