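import Pool.Agent.Lib.HS.F.Spec

/-!
# Project H*, part (F), module Id: the exact Hecke identity and its mean square
-/

set_option autoImplicit false

namespace Pool.Agent.A54.HSF

open MeasureTheory Filter Topology Set
open scoped UpperHalfPlane MatrixGroups ENNReal
open Pool.Agent.A54.Dyn (G fl base ze io mk4 dom)
open Pool.Agent.A54.Av (Mat)
open Pool.Agent.A54.Hp (nu nm Mn Om Nb bt xi uu pr nz Tb ms FF HE Pm GdC GdK StmtNuL StmtUnf StmtNm)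

noncomputable section

namespace IdM

lemma det_UT (n c : ℕ) : (UT n c).det = n := by
  rw [UT, Matrix.det_fin_two]
  simp

/-- the translation -/
def tr (b : ℕ) : SL(2, ℤ) := ⟨!![1, (b : ℤ); 0, 1], by rw [Matrix.det_fin_two]; simp⟩

lemma mul1 (p b : ℕ) : !![(p : ℤ), 0; 0, 1] * UT p b = (p : ℤ) • ((tr b : SL(2, ℤ)) : Mat) := by
  ext i j
  fin_cases i <;> fin_cases j <;> simp [UT, tr, Matrix.mul_apply, Fin.sum_univ_two]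

lemma mul2 (p b b' : ℕ) : !![1, (b' : ℤ); 0, (p : ℤ)] * UT p b = UT (p ^ 2) (b + p * b') := by
  ext i j
  fin_cases i <;> fin_cases j <;> simp [UT, Matrix.mul_apply, Fin.sum_univ_two] <;> ring

/-- the identity -/
lemma ident (h1 : StmtNm) {l : ℕ → ℝ} {Φ : G → ℂ} (hE : HE l Φ) {p : ℕ} (hp : p.Prime) (b : ℕ)
    (x : G) :
    Φ x + ∑ b' ∈ Finset.range p, Φ (nm (UT (p ^ 2) (b + p * b')) * x) =
      ((√p * l p : ℝ) : ℂ) * Φ (nm (UT p b) * x) := by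
  obtain ⟨n1, n2, -, n4, -⟩ := h1
  have hp0 : (0 : ℤ) < p := by exact_mod_cast hp.pos
  have hd : 0 < (UT p b).det := by rw [det_UT]; exact hp0
  have h := hE.hecke p hp (nm (UT p b) * x)
  have e1 : nm !![(p : ℤ), 0; 0, 1] * (nm (UT p b) * x) = io (tr b) * x := by
    rw [← mul_assoc, ← n1 _ _ (by rw [Matrix.det_fin_two]; simpa using hp0) hd, mul1,
      n4 _ _ hp0, n2]
  have e2 : ∀ b' : ℕ, nm !![1, (b' : ℤ); 0, (p : ℤ)] * (nm (UT p b) * x) =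
      nm (UT (p ^ 2) (b + p * b')) * x := by
    intro b'
    rw [← mul_assoc, ← n1 _ _ (by rw [Matrix.det_fin_two]; simpa using hp0) hd, mul2]
  rw [e1, hE.inv] at h
  rw [← h]
  congr 1
  exact Finset.sum_congr rfl fun b' _ => by rw [e2]

lemma sq_real {p : ℕ} {c : ℝ} (hc : |c| ≤ 1) (u a : ℂ) (w : ℕ → ℂ)
    (h : u + ∑ b' ∈ Finset.range p, w b' = ((√p * c : ℝ) : ℂ) * a) :
    ‖u‖ ^ 2 ≤ 2 * p * (‖a‖ ^ 2 + ∑ b' ∈ Finset.range p, ‖w b'‖ ^ 2) := by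
  have h1 : u = ((√p * c : ℝ) : ℂ) * a - ∑ b' ∈ Finset.range p, w b' := eq_sub_of_add_eq h
  have h2 : ‖u‖ ≤ √p * ‖a‖ + ∑ b' ∈ Finset.range p, ‖w b'‖ := by
    rw [h1]
    refine (norm_sub_le _ _).trans (add_le_add ?_ (norm_sum_le _ _))
    rw [norm_mul, Complex.norm_real, Real.norm_eq_abs, abs_mul, abs_of_nonneg (Real.sqrt_nonneg _)]
    refine mul_le_mul_of_nonneg_right ?_ (norm_nonneg _)
    exact mul_le_of_le_one_right (Real.sqrt_nonneg _) hc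
  have h3 : (∑ b' ∈ Finset.range p, ‖w b'‖) ^ 2 ≤ p * ∑ b' ∈ Finset.range p, ‖w b'‖ ^ 2 := by
    have := sq_sum_le_card_mul_sum_sq (s := Finset.range p) (f := fun b' => ‖w b'‖)
    rwa [Finset.card_range] at this
  have h4 : (√p * ‖a‖) ^ 2 = p * ‖a‖ ^ 2 := by
    rw [mul_pow, Real.sq_sqrt (Nat.cast_nonneg p)]
  have h5 : ‖u‖ ^ 2 ≤ (√p * ‖a‖ + ∑ b' ∈ Finset.range p, ‖w b'‖) ^ 2 :=
    pow_le_pow_left₀ (norm_nonneg _) h2 2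
  nlinarith [sq_nonneg (√p * ‖a‖ - ∑ b' ∈ Finset.range p, ‖w b'‖)]

lemma enn (z : ℂ) : ‖z‖ₑ ^ 2 = ENNReal.ofReal (‖z‖ ^ 2) := by
  rw [ENNReal.ofReal_pow (norm_nonneg _), ofReal_norm]

lemma sq_enn {p : ℕ} {c : ℝ} (hc : |c| ≤ 1) (u a : ℂ) (w : ℕ → ℂ)
    (h : u + ∑ b' ∈ Finset.range p, w b' = ((√p * c : ℝ) : ℂ) * a) :
    ‖u‖ₑ ^ 2 ≤ 2 * p * (‖a‖ₑ ^ 2 + ∑ b' ∈ Finset.range p, ‖w b'‖ₑ ^ 2) := by
  have h1 := ENNReal.ofReal_le_ofReal (sq_real hc u a w h)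
  rw [ENNReal.ofReal_mul (by positivity), ENNReal.ofReal_add (by positivity)
    (Finset.sum_nonneg fun _ _ => by positivity), ENNReal.ofReal_sum_of_nonneg
    (fun _ _ => by positivity), ENNReal.ofReal_mul (by norm_num), ENNReal.ofReal_natCast,
    ENNReal.ofReal_ofNat] at h1
  simp only [enn]
  exact h1

end IdM

theorem stmtId (h1 : StmtNm) (h2 : StmtGd) : StmtId := by
  intro l Φ hE p hp hp5 hl n hn x
  obtain ⟨g1, g2⟩ := h2 n p hn hp hp5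
  have hk : ∀ b ∈ Gr n p 1, ‖Φ x‖ₑ ^ 2 ≤ 2 * p * (‖Φ (nm (UT p b) * x)‖ₑ ^ 2 +
      ∑ b' ∈ Finset.range p, ‖Φ (nm (UT (p ^ 2) (b + p * b')) * x)‖ₑ ^ 2) := fun b _ =>
    IdM.sq_enn hl _ _ _ (IdM.ident h1 hE hp b x)
  have h3 := Finset.sum_le_sum hk
  rw [Finset.sum_const, nsmul_eq_mul, ← Finset.mul_sum, Finset.sum_add_distrib,
    ← g2 fun c => ‖Φ (nm (UT (p ^ 2) c) * x)‖ₑ ^ 2] at h3
  rw [pow_one]
  set S : ℝ≥0∞ := ∑ c ∈ Gr n p 1, ‖Φ (nm (UT p c) * x)‖ₑ ^ 2 +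
    ∑ c ∈ Gr n p 2, ‖Φ (nm (UT (p ^ 2) c) * x)‖ₑ ^ 2
  have h4 : (p : ℝ≥0∞) ≤ 2 * (Gr n p 1).card := by exact_mod_cast g1
  have h5 : (p : ℝ≥0∞) * ‖Φ x‖ₑ ^ 2 ≤ (p : ℝ≥0∞) * (4 * S) := by
    calc (p : ℝ≥0∞) * ‖Φ x‖ₑ ^ 2 ≤ 2 * (Gr n p 1).card * ‖Φ x‖ₑ ^ 2 := by gcongr
      _ = 2 * ((Gr n p 1).card * ‖Φ x‖ₑ ^ 2) := by rw [mul_assoc]
      _ ≤ 2 * (2 * p * S) := by gcongr
      _ = (p : ℝ≥0∞) * (4 * S) := by ring
  refine (ENNReal.mul_le_mul_iff_right ?_ (ENNReal.natCast_ne_top p)).1 h5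
  exact_mod_cast hp.ne_zero

end

end Pool.Agent.A54.HSF
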