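import Pool.Agent.Lib.HS.F.SpecI

/-!
# Project H*, part (F), module Kr: height of the kernel vector of a plane with square determinant form (helper56)
-/

set_option autoImplicit false

namespace Pool.Agent.A54.HSF

open MeasureTheory Filter Topology Set
open scoped UpperHalfPlane MatrixGroups ENNReal
open Pool.Agent.A54.Dyn (G fl base ze io mk4 dom)
open Pool.Agent.A54.Av (Mat)
open Pool.Agent.A54.Hp (nu nm Mn Om Nb bt xi uu pr nz Tb ms FF HE Pm GdC GdK StmtNuL StmtUnf StmtNm cj Bxx Zc Csp StmtIsU)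

noncomputable section

namespace KrM

/-- the real matrix -/
def rl (s : Mat) : Matrix (Fin 2) (Fin 2) ℝ := s.map (fun a : ℤ => (a : ℝ))

theorem rl_det (s : Mat) : (rl s).det = ((s.det : ℤ) : ℝ) := by
  rw [Matrix.det_fin_two, Matrix.det_fin_two]
  push_cast
  rfl

theorem cj_det (y x : G) (s : Mat) : (cj y x s).det = ((s.det : ℤ) : ℝ) := by
  have h1 : (cj y x s).det = (y⁻¹ : G).1.det * (rl s).det * x.1.det := by
    unfold cj
    rw [Matrix.det_mul, Matrix.det_mul]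
    rfl
  rw [h1, rl_det, (y⁻¹ : G).2, x.2, one_mul, mul_one]

theorem cj_lin (y x : G) (a b : ℤ) (s t : Mat) (i j : Fin 2) :
    cj y x (a • s + b • t) i j = (a : ℝ) * cj y x s i j + (b : ℝ) * cj y x t i j := by
  unfold cj
  simp only [Matrix.mul_apply, Fin.sum_univ_two, Matrix.map_apply, Matrix.add_apply,
    Matrix.smul_apply, smul_eq_mul, Int.cast_add, Int.cast_mul]
  ring

theorem cj_back (y x : G) (s : Mat) : y.1 * cj y x s * (x⁻¹ : G).1 = rl s := by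
  have h1 : y.1 * (y⁻¹ : G).1 = 1 := by
    have := congrArg (fun g : G => g.1) (mul_inv_cancel y)
    exact this
  have h2 : x.1 * (x⁻¹ : G).1 = 1 := by
    have := congrArg (fun g : G => g.1) (mul_inv_cancel x)
    exact this
  unfold cj
  change y.1 * ((y⁻¹ : G).1 * rl s * x.1) * (x⁻¹ : G).1 = rl s
  rw [mul_assoc (y⁻¹ : G).1, ← mul_assoc y.1, h1, one_mul, mul_assoc, h2, mul_one]

theorem four {a b c d A B C D u v : ℝ} (ha : |a| ≤ u) (hb : |b| ≤ u) (hc : |c| ≤ u) (hd : |d| ≤ u)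
    (hA : |A| ≤ v) (hB : |B| ≤ v) (hC : |C| ≤ v) (hD : |D| ≤ v) (hu : 0 ≤ u) :
    |a * A + b * B + (c * C + d * D)| ≤ 4 * (u * v) := by
  have h1 : |a * A| ≤ u * v := by rw [abs_mul]; exact mul_le_mul ha hA (abs_nonneg _) hu
  have h2 : |b * B| ≤ u * v := by rw [abs_mul]; exact mul_le_mul hb hB (abs_nonneg _) hu
  have h3 : |c * C| ≤ u * v := by rw [abs_mul]; exact mul_le_mul hc hC (abs_nonneg _) hu
  have h4 : |d * D| ≤ u * v := by rw [abs_mul]; exact mul_le_mul hd hD (abs_nonneg _) hu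
  have h5 := abs_add_le (a * A + b * B) (c * C + d * D)
  have h6 := abs_add_le (a * A) (b * B)
  have h7 := abs_add_le (c * C) (d * D)
  linarith

theorem inv_le {x : G} {R : ℝ} (hx : x ∈ Om R) (i j : Fin 2) : |(x⁻¹ : G).1 i j| ≤ R := by
  have h1 : (x⁻¹ : G).1 = x.1.adjugate := rfl
  rw [h1, Matrix.adjugate_fin_two]
  fin_cases i <;> fin_cases j
  · exact hx 1 1
  · change |-(x.1 0 1)| ≤ R
    rw [abs_neg]
    exact hx 0 1
  · change |-(x.1 1 0)| ≤ R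
    rw [abs_neg]
    exact hx 1 0
  · exact hx 0 0

/-- entries of the matrix from the entries of `cj` -/
theorem ent {x y : G} {R v : ℝ} (hR : 0 ≤ R) (hx : x ∈ Om R) (hy : y ∈ Om R) (s : Mat)
    (hv : ∀ i j, |cj y x s i j| ≤ v) (i j : Fin 2) : |((s i j : ℤ) : ℝ)| ≤ 4 * R ^ 2 * v := by
  have h1 : ((s i j : ℤ) : ℝ) = (y.1 * cj y x s * (x⁻¹ : G).1) i j := by
    rw [cj_back]
    rfl
  have hv0 : 0 ≤ v := (abs_nonneg _).trans (hv 0 0)
  have h2 : (y.1 * cj y x s * (x⁻¹ : G).1) i j =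
      (y.1 i 0 * (x⁻¹ : G).1 0 j) * cj y x s 0 0 + (y.1 i 1 * (x⁻¹ : G).1 0 j) * cj y x s 1 0 +
      ((y.1 i 0 * (x⁻¹ : G).1 1 j) * cj y x s 0 1 + (y.1 i 1 * (x⁻¹ : G).1 1 j) * cj y x s 1 1) := by
    simp only [Matrix.mul_apply, Fin.sum_univ_two]
    ring
  have h3 : ∀ a b c : Fin 2, |y.1 a b * (x⁻¹ : G).1 c j| ≤ R ^ 2 := by
    intro a b c
    rw [abs_mul, sq]
    exact mul_le_mul (hy a b) (inv_le hx c j) (abs_nonneg _) hR
  rw [h1, h2]
  have h4 := four (h3 i 0 0) (h3 i 1 0) (h3 i 0 1) (h3 i 1 1) (hv 0 0) (hv 1 0) (hv 0 1) (hv 1 1)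
    (sq_nonneg R)
  calc _ ≤ 4 * (R ^ 2 * v) := h4
    _ = 4 * R ^ 2 * v := by ring

/-- one diagonal entry -/
theorem diag {K N X Y d₁ d₂ : ℝ} (hN : 1 ≤ N) (hK : 2 * N ≤ K) (hXY : |X * Y| ≤ 9 * N ^ 4)
    (hs : |d₁ * Y + d₂ * X| * K ≤ 6 * N ^ 3) (h1 : |d₁| ≤ K * N) (h2 : K ≤ |d₂| * (2 * N ^ 3)) :
    |X| ≤ 17 * N ^ 6 := by
  by_contra hc
  rw [not_le] at hc
  have hN0 : 0 < N := by linarith
  have hK0 : 0 < K := by linarith
  have hX0 : 0 < |X| := lt_trans (by positivity) hc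
  have e1 : d₂ * X ^ 2 = X * (d₁ * Y + d₂ * X) - d₁ * (X * Y) := by ring
  have e2 : |d₂| * |X| ^ 2 ≤ |X| * |d₁ * Y + d₂ * X| + |d₁| * |X * Y| := by
    have h3 : |d₂| * |X| ^ 2 = |X * (d₁ * Y + d₂ * X) - d₁ * (X * Y)| := by
      rw [← e1, abs_mul, abs_pow]
    rw [h3, ← abs_mul X, ← abs_mul d₁]
    exact abs_sub _ _
  -- multiply by `2 N^3 K`
  have e3 : K ^ 2 * |X| ^ 2 ≤ 12 * N ^ 6 * |X| + 18 * N ^ 8 * K ^ 2 := by
    have f1 : K * (K * |X| ^ 2) ≤ K * ((|d₂| * (2 * N ^ 3)) * |X| ^ 2) :=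
      mul_le_mul_of_nonneg_left (mul_le_mul_of_nonneg_right h2 (by positivity)) hK0.le
    have f2 : (2 * N ^ 3 * K) * (|d₂| * |X| ^ 2) ≤
        (2 * N ^ 3 * K) * (|X| * |d₁ * Y + d₂ * X| + |d₁| * |X * Y|) :=
      mul_le_mul_of_nonneg_left e2 (by positivity)
    have f3 : (2 * N ^ 3 * |X|) * (|d₁ * Y + d₂ * X| * K) ≤ (2 * N ^ 3 * |X|) * (6 * N ^ 3) :=
      mul_le_mul_of_nonneg_left hs (by positivity)
    have f4 : |d₁| * |X * Y| ≤ K * N * (9 * N ^ 4) :=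
      mul_le_mul h1 hXY (abs_nonneg _) (by positivity)
    have f5 : (2 * N ^ 3 * K) * (|d₁| * |X * Y|) ≤ (2 * N ^ 3 * K) * (K * N * (9 * N ^ 4)) :=
      mul_le_mul_of_nonneg_left f4 (by positivity)
    nlinarith [f1, f2, f3, f5]
  have g1 : K ^ 2 * |X| ^ 2 ≤ (12 * N ^ 6 * |X| + 18 * N ^ 8) * K ^ 2 := by
    have hK1 : 1 ≤ K ^ 2 := one_le_pow₀ (by linarith)
    have g2 : 12 * N ^ 6 * |X| ≤ 12 * N ^ 6 * |X| * K ^ 2 :=
      le_mul_of_one_le_right (by positivity) hK1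
    nlinarith
  have g3 : |X| ^ 2 ≤ 12 * N ^ 6 * |X| + 18 * N ^ 8 := by
    have hK2 : 0 < K ^ 2 := by positivity
    rw [mul_comm] at g1
    exact le_of_mul_le_mul_right g1 hK2
  have g4 : 17 * N ^ 6 * |X| ≤ |X| ^ 2 := by
    rw [sq]
    exact mul_le_mul_of_nonneg_right hc.le hX0.le
  have g5 : 5 * N ^ 6 * |X| ≤ 18 * N ^ 8 := by linarith
  have g6 : 5 * N ^ 6 * (17 * N ^ 6) ≤ 5 * N ^ 6 * |X| :=
    mul_le_mul_of_nonneg_left hc.le (by positivity)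
  have g7 : N ^ 8 ≤ N ^ 12 := pow_le_pow_right₀ hN (by norm_num)
  have g8 : 0 < N ^ 8 := by positivity
  have g9 : 5 * N ^ 6 * (17 * N ^ 6) = 85 * N ^ 12 := by ring
  linarith

end KrM

open KrM in
theorem stmtKr : StmtKr := by
  intro R hR x hx y hy K N hN hK h₁ h₂ α β hb₁ hb₂ hdet hsq
  have hN0 : 0 < N := by linarith
  have hK0 : 0 < K := by linarith
  have hKN : (K * N) * (N / K) = N ^ 2 := by
    field_simp
  have hE0 : 0 ≤ N / K := by positivity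
  have hEK : N / K * K = N := div_mul_cancel₀ _ hK0.ne'
  have hE1 : N / K ≤ 1 / 2 := by
    rw [div_le_iff₀ hK0]
    linarith
  have hD0 : 0 < K * N := by positivity
  have hD1 : 2 ≤ K * N := by nlinarith
  -- determinants
  have q1 : h₁.det = α ^ 2 := by
    have := hsq 1 0
    rw [one_smul, zero_smul, add_zero, mul_one, mul_zero, add_zero] at this
    exact this
  have q2 : h₂.det = β ^ 2 := by
    have := hsq 0 1
    rw [one_smul, zero_smul, zero_add, mul_one, mul_zero, zero_add] at this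
    exact this
  set r : Mat := β • h₁ - α • h₂ with hr
  have hr' : r = β • h₁ + (-α) • h₂ := by rw [hr, neg_smul, sub_eq_add_neg]
  have q3 : r.det = 0 := by
    rw [hr', hsq]
    ring
  have q4 : ((1 : ℤ) • h₁ + (1 : ℤ) • r).det = α ^ 2 := by
    have h3 : (1 : ℤ) • h₁ + (1 : ℤ) • r = (1 + β) • h₁ + (-α) • h₂ := by
      rw [hr', one_smul, one_smul, add_smul, one_smul, add_assoc]
    rw [h3, hsq]
    ring
  have w1 : cj y x h₁ 0 0 * cj y x h₁ 1 1 - cj y x h₁ 0 1 * cj y x h₁ 1 0 = (α : ℝ) ^ 2 := by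
    have h3 := cj_det y x h₁
    rw [Matrix.det_fin_two, q1] at h3
    push_cast at h3
    exact h3
  have w2 : cj y x h₂ 0 0 * cj y x h₂ 1 1 - cj y x h₂ 0 1 * cj y x h₂ 1 0 = (β : ℝ) ^ 2 := by
    have h3 := cj_det y x h₂
    rw [Matrix.det_fin_two, q2] at h3
    push_cast at h3
    exact h3
  have w3 : cj y x r 0 0 * cj y x r 1 1 - cj y x r 0 1 * cj y x r 1 0 = 0 := by
    have h3 := cj_det y x r
    rw [Matrix.det_fin_two, q3] at h3
    push_cast at h3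
    exact h3
  have w4 : cj y x h₁ 0 0 * cj y x r 1 1 + cj y x h₁ 1 1 * cj y x r 0 0 =
      cj y x h₁ 0 1 * cj y x r 1 0 + cj y x h₁ 1 0 * cj y x r 0 1 := by
    have h3 := cj_det y x ((1 : ℤ) • h₁ + (1 : ℤ) • r)
    rw [Matrix.det_fin_two, q4, cj_lin, cj_lin, cj_lin, cj_lin] at h3
    push_cast at h3
    linear_combination h3 - w1 - w3
  have wr : ∀ i j, cj y x r i j = (β : ℝ) * cj y x h₁ i j + (-α : ℝ) * cj y x h₂ i j := by
    intro i j
    rw [hr', cj_lin]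
    push_cast
    ring
  obtain ⟨a1, a2, a3, a4⟩ := hb₁
  obtain ⟨b1, b2, b3, b4⟩ := hb₂
  -- bounds for `α`, `β`
  have hE2 : (N / K) * (N / K) ≤ 1 / 4 * 1 := by nlinarith
  have bd : ∀ {u v s t γ : ℝ}, |u| ≤ K * N → |v| ≤ K * N → |s| ≤ N / K → |t| ≤ N / K →
      u * v - s * t = γ ^ 2 → |γ| ≤ 3 / 2 * (K * N) := by
    intro u v s t γ hu hv hs ht h
    have k1 : |u * v| ≤ (K * N) * (K * N) := by
      rw [abs_mul]
      exact mul_le_mul hu hv (abs_nonneg _) hD0.le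
    have k2 : |s * t| ≤ (N / K) * (N / K) := by
      rw [abs_mul]
      exact mul_le_mul hs ht (abs_nonneg _) hE0
    have k3 : γ ^ 2 ≤ (3 / 2 * (K * N)) ^ 2 := by
      have k4 := (abs_le.1 k1).2
      have k5 := (abs_le.1 k2).1
      nlinarith
    exact abs_le_of_sq_le_sq k3 (by positivity)
  have hα : |(α : ℝ)| ≤ 3 / 2 * (K * N) := bd a1 a2 a3 a4 w1
  have hβ : |(β : ℝ)| ≤ 3 / 2 * (K * N) := bd b1 b2 b3 b4 w2
  -- off-diagonal entries of `W(r)`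
  have off : ∀ i j, |cj y x h₁ i j| ≤ N / K → |cj y x h₂ i j| ≤ N / K →
      |cj y x r i j| ≤ 3 * N ^ 2 := by
    intro i j k1 k2
    rw [wr]
    have k3 : |(β : ℝ) * cj y x h₁ i j| ≤ 3 / 2 * (K * N) * (N / K) := by
      rw [abs_mul]
      exact mul_le_mul hβ k1 (abs_nonneg _) (by positivity)
    have k4 : |(-α : ℝ) * cj y x h₂ i j| ≤ 3 / 2 * (K * N) * (N / K) := by
      rw [abs_mul, abs_neg]
      exact mul_le_mul hα k2 (abs_nonneg _) (by positivity)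
    have k5 := abs_add_le ((β : ℝ) * cj y x h₁ i j) ((-α : ℝ) * cj y x h₂ i j)
    have k6 : 3 / 2 * (K * N) * (N / K) = 3 / 2 * N ^ 2 := by
      rw [mul_assoc, hKN]
    rw [k6] at k3 k4
    linarith
  have o1 : |cj y x r 0 1| ≤ 3 * N ^ 2 := off 0 1 a3 b3
  have o2 : |cj y x r 1 0| ≤ 3 * N ^ 2 := off 1 0 a4 b4
  -- diagonal entries
  have x1 : |cj y x r 0 0 * cj y x r 1 1| ≤ 9 * N ^ 4 := by
    have k1 : cj y x r 0 0 * cj y x r 1 1 = cj y x r 0 1 * cj y x r 1 0 := by linarith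
    rw [k1, abs_mul]
    calc _ ≤ (3 * N ^ 2) * (3 * N ^ 2) := mul_le_mul o1 o2 (abs_nonneg _) (by positivity)
      _ = 9 * N ^ 4 := by ring
  have x2 : |cj y x h₁ 0 0 * cj y x r 1 1 + cj y x h₁ 1 1 * cj y x r 0 0| * K ≤ 6 * N ^ 3 := by
    rw [w4]
    have k1 : |cj y x h₁ 0 1 * cj y x r 1 0| ≤ N / K * (3 * N ^ 2) := by
      rw [abs_mul]
      exact mul_le_mul a3 o2 (abs_nonneg _) hE0
    have k2 : |cj y x h₁ 1 0 * cj y x r 0 1| ≤ N / K * (3 * N ^ 2) := by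
      rw [abs_mul]
      exact mul_le_mul a4 o1 (abs_nonneg _) hE0
    have k3 := abs_add_le (cj y x h₁ 0 1 * cj y x r 1 0) (cj y x h₁ 1 0 * cj y x r 0 1)
    have k4 : |cj y x h₁ 0 1 * cj y x r 1 0 + cj y x h₁ 1 0 * cj y x r 0 1| * K ≤
        (2 * (N / K * (3 * N ^ 2))) * K := mul_le_mul_of_nonneg_right (by linarith) hK0.le
    have k5 : (2 * (N / K * (3 * N ^ 2))) * K = 6 * N ^ 3 := by
      calc _ = 6 * N ^ 2 * (N / K * K) := by ring
        _ = _ := by rw [hEK]; ring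
    linarith
  -- lower bound for the diagonal entries of `W(h₁)`
  have y1 : (K / N) ^ 2 / 2 ≤ cj y x h₁ 0 0 * cj y x h₁ 1 1 := by
    have k1 : |cj y x h₁ 0 1 * cj y x h₁ 1 0| ≤ (N / K) * (N / K) := by
      rw [abs_mul]
      exact mul_le_mul a3 a4 (abs_nonneg _) hE0
    have k2 := (abs_le.1 k1).1
    have k3 : (K / N) ^ 2 ≤ (α : ℝ) ^ 2 := by
      have k4 := hdet
      rw [q1] at k4
      push_cast at k4
      exact k4
    have k5 : 2 ≤ K / N := by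
      rw [le_div_iff₀ hN0]
      exact hK
    nlinarith
  have lb : ∀ {u v : ℝ}, |u| ≤ K * N → (K / N) ^ 2 / 2 ≤ u * v → K ≤ |v| * (2 * N ^ 3) := by
    intro u v hu h
    have k1 : u * v ≤ (K * N) * |v| := by
      calc u * v ≤ |u * v| := le_abs_self _
        _ = |u| * |v| := abs_mul _ _
        _ ≤ _ := mul_le_mul_of_nonneg_right hu (abs_nonneg _)
    have k2 : (K / N) ^ 2 / 2 ≤ (K * N) * |v| := h.trans k1
    have k3 : (K / N) ^ 2 / 2 * (2 * N ^ 2) = K ^ 2 := by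
      field_simp
    have k4 : (K / N) ^ 2 / 2 * (2 * N ^ 2) ≤ (K * N) * |v| * (2 * N ^ 2) :=
      mul_le_mul_of_nonneg_right k2 (by positivity)
    rw [k3] at k4
    have k5 : K * K ≤ (|v| * (2 * N ^ 3)) * K := by
      calc K * K = K ^ 2 := by ring
        _ ≤ _ := k4
        _ = _ := by ring
    exact le_of_mul_le_mul_right k5 hK0
  have z1 : |cj y x r 0 0| ≤ 17 * N ^ 6 := diag hN hK x1 x2 a1 (lb a1 y1)
  have z2 : |cj y x r 1 1| ≤ 17 * N ^ 6 := by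
    refine diag (Y := cj y x r 0 0) (d₁ := cj y x h₁ 1 1) (d₂ := cj y x h₁ 0 0) hN hK ?_ ?_ a2 ?_
    · rw [mul_comm]
      exact x1
    · rw [add_comm]
      exact x2
    · exact lb a2 (by rw [mul_comm]; exact y1)
  have z3 : 3 * N ^ 2 ≤ 17 * N ^ 6 := by
    have : N ^ 2 ≤ N ^ 6 := pow_le_pow_right₀ hN (by norm_num)
    have h0 : 0 < N ^ 2 := by positivity
    linarith
  have z : ∀ i j, |cj y x r i j| ≤ 17 * N ^ 6 := by
    intro i j
    fin_cases i <;> fin_cases j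
    · exact z1
    · exact o1.trans z3
    · exact o2.trans z3
    · exact z2
  intro i j
  have h3 := ent (by linarith : (0 : ℝ) ≤ R) hx hy r z i j
  calc |((r i j : ℤ) : ℝ)| ≤ 4 * R ^ 2 * (17 * N ^ 6) := h3
    _ = 68 * R ^ 2 * N ^ 6 := by ring

end

end Pool.Agent.A54.HSF
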