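import Pool.Agent.Lib.HS.F.Spec

/-!
# Project H*, part (F), module NC: N-type conics (helper92)
-/

set_option autoImplicit false

namespace Pool.Agent.A54.HSF

open MeasureTheory Filter Topology Set
open scoped UpperHalfPlane MatrixGroups ENNReal
open Pool.Agent.A54.Dyn (G fl base ze io mk4 dom)
open Pool.Agent.A54.Av (Mat)
open Pool.Agent.A54.Hp (nu nm Mn Om Nb bt xi uu pr nz Tb ms FF HE Pm GdC GdK StmtNuL StmtUnf StmtNm)

noncomputable section

namespace NCM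

lemma isClosed_Om (R : ℝ) : IsClosed (Om R) := by
  have h : Om R = ⋂ i, ⋂ j, {g : G | |g i j| ≤ R} := by
    ext g
    simp only [Om, mem_iInter]
    exact Iff.rfl
  rw [h]
  exact isClosed_iInter fun i => isClosed_iInter fun j =>
    isClosed_le (Dyn.continuous_entry i j).abs continuous_const

lemma continuous_xi (i : Fin 3) : Continuous fun g : G => xi g i := by
  have h := fun i j => Dyn.continuous_entry i j
  fin_cases i
  · exact ((h 0 0).mul (h 1 1)).add ((h 0 1).mul (h 1 0))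
  · exact ((h 0 0).mul (h 0 1)).neg
  · exact (h 1 0).mul (h 1 1)

lemma isClosed_Tb (R : ℝ) (ζ : Fin 3 → ℝ) (w : ℝ) : IsClosed (Tb R ζ w) := by
  have h : Tb R ζ w = Om R ∩ ⋂ i, {g : G | |xi g i - ζ i| ≤ w} := by
    ext g
    simp only [Tb, mem_ofPred_eq, mem_inter_iff, mem_iInter]
  rw [h]
  exact (isClosed_Om R).inter (isClosed_iInter fun i =>
    isClosed_le ((continuous_xi i).sub continuous_const).abs continuous_const)

lemma isClosed_Cn (R : ℝ) (u : Fin 2 → ℤ) (c₀ e : ℝ) : IsClosed (Cn R u c₀ e) := by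
  have h : Cn R u c₀ e = Om R ∩ {g : G | |qx g (u 0) (u 1) - c₀| ≤ e} := by
    ext g
    simp only [Cn, mem_ofPred_eq, mem_inter_iff]
  rw [h]
  have h1 := fun i j => Dyn.continuous_entry i j
  refine (isClosed_Om R).inter (isClosed_le ?_ continuous_const)
  refine (Continuous.sub ?_ continuous_const).abs
  unfold qx
  exact (((continuous_const.mul (h1 0 0)).add (continuous_const.mul (h1 1 0))).mul
    ((continuous_const.mul (h1 0 1)).add (continuous_const.mul (h1 1 1))))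

/-- from a product to a quotient -/
lemma quo {k : ℕ} (hk : 0 < k) {m : ℝ≥0∞} {c : ℝ} (h : (k : ℝ≥0∞) * m ≤ ENNReal.ofReal c) :
    m ≤ ENNReal.ofReal (c / k) := by
  have hk' : (0 : ℝ) < k := by exact_mod_cast hk
  rw [ENNReal.ofReal_div_of_pos hk', ENNReal.ofReal_natCast]
  rw [ENNReal.le_div_iff_mul_le (Or.inl (by exact_mod_cast hk.ne')) (Or.inl (ENNReal.natCast_ne_top k)),
    mul_comm]
  exact h

end NCM

open NCM

theorem stmtNC (h1 : StmtCov) (h2 : StmtCol) (h3 : StmtTS) : StmtNC := by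
  intro R hR
  obtain ⟨C₁, hC₁, H1⟩ := h1 R hR
  obtain ⟨C₂, hC₂, H3⟩ := h3 R hR
  have hC₃ : 0 ≤ 8 * (4 * R ^ 2 + 1) ^ 4 := by positivity
  obtain ⟨C₃, hC₃'⟩ : ∃ C₃ : ℝ, C₃ = 8 * (4 * R ^ 2 + 1) ^ 4 := ⟨_, rfl⟩
  rw [← hC₃'] at hC₃
  have h12 : 1 ≤ C₁ * C₂ := by nlinarith
  refine ⟨C₁ * C₂ + C₃, by linarith, ?_⟩
  intro l Φ hE M M' H c₀ e u hM hM' hH he hu huH hs hc P P' hP hP' hPn hPn' hPM hPM'
  have hMH : 1 ≤ M * H := by nlinarith
  have hM4 : 1 ≤ M' ^ 4 := one_le_pow₀ hM'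
  have hb : 0 < (M * H) ^ 12 * e := by positivity
  have hb2 : 0 < (M * H) ^ 4 * e := by positivity
  obtain ⟨η, hη⟩ : ∃ η : ℝ, η = C₁ * ((M * H) ^ 12 * e) := ⟨_, rfl⟩
  have hη0 : 0 ≤ η := by rw [hη]; positivity
  have hC1C : C₁ ≤ C₁ * C₂ + C₃ := by nlinarith
  have hs1 : C₂ * (M' ^ 4 * η) ≤ 1 := by
    refine le_trans ?_ hs
    have e1 : C₂ * (M' ^ 4 * η) = (C₁ * C₂) * (M' ^ 4 * (M * H) ^ 12 * e) := by
      rw [hη]
      ring
    rw [e1]
    refine mul_le_mul_of_nonneg_right (by linarith) (by positivity)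
  have hs2 : C₁ * ((M * H) ^ 12 * e) ≤ 1 := by
    refine le_trans ?_ hs
    have e1 : (C₁ * C₂ + C₃) * (M' ^ 4 * (M * H) ^ 12 * e) =
        ((C₁ * C₂ + C₃) * M' ^ 4) * ((M * H) ^ 12 * e) := by ring
    rw [e1]
    refine mul_le_mul_of_nonneg_right ?_ hb.le
    nlinarith
  have hs3 : C₁ * ((M * H) ^ 4 * e) < |c₀| :=
    lt_of_le_of_lt (mul_le_mul_of_nonneg_right hC1C hb2.le) hc
  obtain ⟨J, ζ, n, hJ, hn, hCol⟩ := H1 M H c₀ e u hM hH he hu huH hs2 hs3 P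
    (fun p hp => ⟨(hP p hp).1, hPM p hp⟩)
  rw [← hη] at hCol
  have hVm : MeasurableSet (Cn R u c₀ e \ ⋃ i, Tb R (ζ i) η) :=
    (isClosed_Cn R u c₀ e).measurableSet.diff
      (MeasurableSet.iUnion fun i => (isClosed_Tb R (ζ i) η).measurableSet)
  have hV := h2 l Φ hE R hR _ hVm (fun x hx => hx.1.1) P hP n hn hCol
  rw [← hC₃'] at hV
  have hPc : 0 < P.card := hPn.card_pos
  have hPc' : 0 < P'.card := hPn'.card_pos
  have hPr : (0 : ℝ) < P.card := by exact_mod_cast hPc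
  have hPr' : (0 : ℝ) < P'.card := by exact_mod_cast hPc'
  have hV' := quo hPc hV
  have hT : ∀ i, ms Φ (Tb R (ζ i) η) ≤ ENNReal.ofReal (C₂ / P'.card) := fun i =>
    quo hPc' (H3 l Φ hE M' η (ζ i) hM' hη0 hs1 P' hP' hPM')
  have hsub : Cn R u c₀ e ⊆ (Cn R u c₀ e \ ⋃ i, Tb R (ζ i) η) ∪ ⋃ i, Tb R (ζ i) η := by
    intro x hx
    by_cases h : x ∈ ⋃ i, Tb R (ζ i) η
    · exact Or.inr h
    · exact Or.inl ⟨hx, h⟩
  calc ms Φ (Cn R u c₀ e) ≤ ms Φ ((Cn R u c₀ e \ ⋃ i, Tb R (ζ i) η) ∪ ⋃ i, Tb R (ζ i) η) :=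
        lintegral_mono_set hsub
    _ ≤ ms Φ (Cn R u c₀ e \ ⋃ i, Tb R (ζ i) η) + ms Φ (⋃ i, Tb R (ζ i) η) :=
        lintegral_union_le _ _ _
    _ ≤ ENNReal.ofReal (C₃ / P.card) + ∑ i, ENNReal.ofReal (C₂ / P'.card) := by
        refine add_le_add hV' ?_
        refine (lintegral_iUnion_le _ _).trans ?_
        rw [tsum_fintype]
        exact Finset.sum_le_sum fun i _ => hT i
    _ = ENNReal.ofReal (C₃ / P.card + J * (C₂ / P'.card)) := by
        rw [Finset.sum_const, Finset.card_univ, Fintype.card_fin, nsmul_eq_mul,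
          ← ENNReal.ofReal_natCast J, ← ENNReal.ofReal_mul (Nat.cast_nonneg J),
          ← ENNReal.ofReal_add (by positivity) (by positivity)]
    _ ≤ ENNReal.ofReal ((C₁ * C₂ + C₃) * (1 / P.card + (M * H) ^ 8 / P'.card)) := by
        refine ENNReal.ofReal_le_ofReal ?_
        have e1 : (C₁ * C₂ + C₃) * (1 / (P.card : ℝ) + (M * H) ^ 8 / P'.card) =
            (C₃ / P.card + (C₁ * (M * H) ^ 8) * (C₂ / P'.card)) +
              ((C₁ * C₂) * (1 / P.card) + C₃ * ((M * H) ^ 8 / P'.card)) := by ring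
        rw [e1]
        have h4 : (J : ℝ) * (C₂ / P'.card) ≤ (C₁ * (M * H) ^ 8) * (C₂ / P'.card) :=
          mul_le_mul_of_nonneg_right hJ (by positivity)
        have h5 : 0 ≤ (C₁ * C₂) * (1 / (P.card : ℝ)) + C₃ * ((M * H) ^ 8 / P'.card) := by positivity
        linarith

end

end Pool.Agent.A54.HSF
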