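import Pool.Agent.Lib.HS.F.Spec
import Pool.Agent.Lib.MP_a54f13_nt.Hp.LBase

/-!
# Project H*, part (F), module Nt: near-stabilisers of a conic (MP_a54f13_nt)
-/

set_option autoImplicit false

namespace Pool.Agent.A54.HSF

open MeasureTheory Filter Topology Set
open scoped UpperHalfPlane MatrixGroups ENNReal
open Pool.Agent.A54.Dyn (G fl base ze io mk4 dom)
open Pool.Agent.A54.Av (Mat)
open Pool.Agent.A54.Hp (nu nm Mn Om Nb bt xi uu pr nz Tb ms FF HE Pm GdC GdK StmtNuL StmtUnf StmtNm)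

noncomputable section

namespace NtM

/-- the quadratic form of `nm m * x` at `u` and of `x` at `v = u m` -/
lemma qx_mul {m : Mat} (hm : 0 < m.det) (x : G) (u : Fin 2 → ℤ) :
    ((m.det : ℤ) : ℝ) * qx (nm m * x) (u 0) (u 1) =
      qx x ((u 0 * m 0 0 + u 1 * m 1 0 : ℤ) : ℝ) ((u 0 * m 0 1 + u 1 * m 1 1 : ℤ) : ℝ) := by
  have hm' : (0 : ℝ) ≤ ((m.det : ℤ) : ℝ) := by exact_mod_cast hm.le
  have hD : √((m.det : ℤ) : ℝ) * √((m.det : ℤ) : ℝ) = ((m.det : ℤ) : ℝ) := Real.mul_self_sqrt hm'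
  have h0 := (Hp.sqrt_det_pos hm).ne'
  have e : ∀ i j, √((m.det : ℤ) : ℝ) * (nm m * x) i j =
      ((m i 0 : ℤ) : ℝ) * x 0 j + ((m i 1 : ℤ) : ℝ) * x 1 j := by
    intro i j
    have e1 : (nm m * x) i j = nm m i 0 * x 0 j + nm m i 1 * x 1 j := by
      rw [Matrix.SpecialLinearGroup.coe_mul, Matrix.mul_apply, Fin.sum_univ_two]
    rw [e1, Hp.entry_eq hm i 0, Hp.entry_eq hm i 1]
    ring
  unfold qx
  calc ((m.det : ℤ) : ℝ) * (((u 0 : ℤ) * (nm m * x) 0 0 + (u 1 : ℤ) * (nm m * x) 1 0) *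
        ((u 0 : ℤ) * (nm m * x) 0 1 + (u 1 : ℤ) * (nm m * x) 1 1))
      = ((u 0 : ℤ) * (√((m.det : ℤ) : ℝ) * (nm m * x) 0 0) +
          (u 1 : ℤ) * (√((m.det : ℤ) : ℝ) * (nm m * x) 1 0)) *
        ((u 0 : ℤ) * (√((m.det : ℤ) : ℝ) * (nm m * x) 0 1) +
          (u 1 : ℤ) * (√((m.det : ℤ) : ℝ) * (nm m * x) 1 1)) := by
        linear_combination (-(((u 0 : ℤ) * (nm m * x) 0 0 + (u 1 : ℤ) * (nm m * x) 1 0) *
          ((u 0 : ℤ) * (nm m * x) 0 1 + (u 1 : ℤ) * (nm m * x) 1 1))) * hD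
    _ = _ := by
        rw [e 0 0, e 1 0, e 0 1, e 1 1]
        push_cast
        ring

/-- integers: a matrix with left eigenvector `(a, b)`, eigenvalue `ρ` and determinant `ρ²` -/
lemma alg {a b p q r s ρ : ℤ} (hab : IsCoprime a b) (hρ : ρ ≠ 0) (h1 : a * p + b * r = ρ * a)
    (h2 : a * q + b * s = ρ * b) (hd : p * s - q * r = ρ ^ 2) :
    ∃ j : ℤ, p - s = j * (-2 * a * b) ∧ q = j * (-b ^ 2) ∧ r = j * a ^ 2 := by
  obtain ⟨k, l, hkl⟩ := hab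
  have hab2 : IsCoprime a (b ^ 2) := IsCoprime.pow_right ⟨k, l, hkl⟩
  obtain ⟨k2, l2, hkl2⟩ := hab2
  -- det (m - ρ) = 0
  have d1 : a * ((p - ρ) * (s - ρ) - q * r) = 0 := by linear_combination (s - ρ) * h1 - r * h2
  have d2 : b * ((p - ρ) * (s - ρ) - q * r) = 0 := by linear_combination (p - ρ) * h2 - q * h1
  have d3 : (p - ρ) * (s - ρ) - q * r = 0 := by
    linear_combination k * d1 + l * d2 - ((p - ρ) * (s - ρ) - q * r) * hkl
  have d4 : ρ * (2 * ρ - (p + s)) = 0 := by linear_combination d3 - hd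
  have d5 : 2 * ρ - (p + s) = 0 := (mul_eq_zero.1 d4).resolve_left hρ
  -- j'
  obtain ⟨j', hj'⟩ : ∃ j', j' = k * r - l * (p - ρ) := ⟨_, rfl⟩
  have e1 : r = a * j' := by rw [hj']; linear_combination (-r) * hkl + l * h1
  have e2 : p - ρ = -b * j' := by rw [hj']; linear_combination (-(p - ρ)) * hkl + k * h1
  have e3 : a * q = -b ^ 2 * j' := by linear_combination h2 + b * d5 + b * e2
  refine ⟨k2 * j' - l2 * q, ?_, ?_, ?_⟩
  · have e4 : j' = a * (k2 * j' - l2 * q) := by linear_combination (-j') * hkl2 + l2 * e3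
    linear_combination d5 + 2 * e2 - 2 * b * e4
  · linear_combination (-q) * hkl2 + k2 * e3
  · have e4 : j' = a * (k2 * j' - l2 * q) := by linear_combination (-j') * hkl2 + l2 * e3
    linear_combination e1 + a * e4

end NtM

theorem stmtNt (h1 : StmtNm) : StmtNt := by
  intro R H c₀ e u hR hH he hu huH m hm hc x hx hx'
  obtain ⟨-, -, -, -, hNm⟩ := h1
  set D : ℝ := ((m.det : ℤ) : ℝ) with hDdef
  have hD : 0 < D := by rw [hDdef]; exact_mod_cast hm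
  have hbd : ∀ i j, |((m i j : ℤ) : ℝ)| ≤ 2 * R * R * √D := hNm R R x m hm hx.1 hx'.1
  have hq := NtM.qx_mul hm x u
  set v0 : ℤ := u 0 * m 0 0 + u 1 * m 1 0 with hv0
  set v1 : ℤ := u 0 * m 0 1 + u 1 * m 1 1 with hv1
  have hsD : 0 ≤ √D := Real.sqrt_nonneg D
  have hvb : ∀ i, |((u 0 * m 0 i + u 1 * m 1 i : ℤ) : ℝ)| ≤ 4 * R ^ 2 * H * √D := by
    intro i
    push_cast
    have hB0 : 0 ≤ 2 * R * R * √D := by positivity
    calc |((u 0 : ℤ) : ℝ) * ((m 0 i : ℤ) : ℝ) + ((u 1 : ℤ) : ℝ) * ((m 1 i : ℤ) : ℝ)|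
        ≤ |((u 0 : ℤ) : ℝ) * ((m 0 i : ℤ) : ℝ)| + |((u 1 : ℤ) : ℝ) * ((m 1 i : ℤ) : ℝ)| := abs_add_le _ _
      _ = |((u 0 : ℤ) : ℝ)| * |((m 0 i : ℤ) : ℝ)| + |((u 1 : ℤ) : ℝ)| * |((m 1 i : ℤ) : ℝ)| := by
          rw [abs_mul, abs_mul]
      _ ≤ H * (2 * R * R * √D) + H * (2 * R * R * √D) :=
          add_le_add (mul_le_mul (huH 0) (hbd 0 i) (abs_nonneg _) (by linarith))
            (mul_le_mul (huH 1) (hbd 1 i) (abs_nonneg _) (by linarith))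
      _ = 4 * R ^ 2 * H * √D := by ring
  have hqv : |qx x ((v0 : ℤ) : ℝ) ((v1 : ℤ) : ℝ) - D * c₀| ≤ D * e := by
    rw [← hq]
    have h3 : D * qx (nm m * x) (u 0) (u 1) - D * c₀ = D * (qx (nm m * x) (u 0) (u 1) - c₀) := by ring
    rw [h3, abs_mul, abs_of_pos hD]
    exact mul_le_mul_of_nonneg_left hx'.2 hD.le
  by_cases hδ : u 0 * v1 - u 1 * v0 = 0
  · left
    obtain ⟨k, l, hkl⟩ := id hu
    obtain ⟨ρ, hρ⟩ : ∃ ρ, ρ = k * v0 + l * v1 := ⟨_, rfl⟩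
    have r0 : v0 = ρ * u 0 := by rw [hρ]; linear_combination (-v0) * hkl - l * hδ
    have r1 : v1 = ρ * u 1 := by rw [hρ]; linear_combination (-v1) * hkl + k * hδ
    -- `|ρ| ≤ 4 R² H √D`
    have hρb : |(ρ : ℝ)| ≤ 4 * R ^ 2 * H * √D := by
      have hne : u 0 ≠ 0 ∨ u 1 ≠ 0 := by
        by_contra hcon
        push Not at hcon
        rw [hcon.1, hcon.2] at hkl
        simp at hkl
      have key : ∀ w v : ℤ, w ≠ 0 → v = ρ * w → |(v : ℝ)| ≤ 4 * R ^ 2 * H * √D →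
          |(ρ : ℝ)| ≤ 4 * R ^ 2 * H * √D := by
        intro w v hw hv hvb'
        have h4 : (1 : ℝ) ≤ |(w : ℝ)| := by
          have : (1 : ℤ) ≤ |w| := Int.one_le_abs hw
          exact_mod_cast this
        calc |(ρ : ℝ)| = |(ρ : ℝ)| * 1 := (mul_one _).symm
          _ ≤ |(ρ : ℝ)| * |(w : ℝ)| := mul_le_mul_of_nonneg_left h4 (abs_nonneg _)
          _ = |(v : ℝ)| := by rw [hv, Int.cast_mul, abs_mul]
          _ ≤ _ := hvb'
      rcases hne with h | h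
      · exact key (u 0) v0 h r0 (hvb 0)
      · exact key (u 1) v1 h r1 (hvb 1)
    have hρ2 : (ρ : ℝ) ^ 2 ≤ 16 * R ^ 4 * H ^ 2 * D := by
      calc (ρ : ℝ) ^ 2 = |(ρ : ℝ)| ^ 2 := (sq_abs _).symm
        _ ≤ (4 * R ^ 2 * H * √D) ^ 2 := pow_le_pow_left₀ (abs_nonneg _) hρb 2
        _ = 16 * R ^ 4 * H ^ 2 * (√D) ^ 2 := by ring
        _ = _ := by rw [Real.sq_sqrt hD.le]
    have hqu : qx x ((v0 : ℤ) : ℝ) ((v1 : ℤ) : ℝ) = (ρ : ℝ) ^ 2 * qx x (u 0) (u 1) := by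
      rw [r0, r1]
      unfold qx
      push_cast
      ring
    have hmain : |((ρ : ℝ) ^ 2 - D) * c₀| < |c₀| := by
      have h5 : ((ρ : ℝ) ^ 2 - D) * c₀ = (qx x ((v0 : ℤ) : ℝ) ((v1 : ℤ) : ℝ) - D * c₀) -
          (ρ : ℝ) ^ 2 * (qx x (u 0) (u 1) - c₀) := by
        rw [hqu]; ring
      rw [h5]
      calc |(qx x ((v0 : ℤ) : ℝ) ((v1 : ℤ) : ℝ) - D * c₀) - (ρ : ℝ) ^ 2 * (qx x (u 0) (u 1) - c₀)|
          ≤ |qx x ((v0 : ℤ) : ℝ) ((v1 : ℤ) : ℝ) - D * c₀| +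
              |(ρ : ℝ) ^ 2 * (qx x (u 0) (u 1) - c₀)| := abs_sub _ _
        _ = |qx x ((v0 : ℤ) : ℝ) ((v1 : ℤ) : ℝ) - D * c₀| +
              (ρ : ℝ) ^ 2 * |qx x (u 0) (u 1) - c₀| := by
            rw [abs_mul, abs_of_nonneg (sq_nonneg (ρ : ℝ))]
        _ ≤ D * e + (16 * R ^ 4 * H ^ 2 * D) * e :=
            add_le_add hqv (mul_le_mul hρ2 hx.2 (abs_nonneg _) (by positivity))
        _ = (16 * R ^ 4 * H ^ 2 + 1) * D * e := by ring
        _ < |c₀| := hc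
    have hlt : |(ρ : ℝ) ^ 2 - D| < 1 := by
      rw [abs_mul] at hmain
      by_contra hcon
      push Not at hcon
      have h6 : 1 * |c₀| ≤ |(ρ : ℝ) ^ 2 - D| * |c₀| := mul_le_mul_of_nonneg_right hcon (abs_nonneg _)
      linarith
    have hρD : ρ ^ 2 = m.det := by
      have h7 : |ρ ^ 2 - m.det| < 1 := by
        have h8 : ((|ρ ^ 2 - m.det| : ℤ) : ℝ) < ((1 : ℤ) : ℝ) := by
          rw [Int.cast_abs, Int.cast_sub, Int.cast_pow, Int.cast_one]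
          exact hlt
        exact Int.cast_lt.1 h8
      have h9 := Int.abs_lt_one_iff.1 h7
      linarith
    have hρ0 : ρ ≠ 0 := by
      intro h0
      rw [h0] at hρD
      simp at hρD
      rw [← hρD] at hm
      exact lt_irrefl _ hm
    have hdet : m 0 0 * m 1 1 - m 0 1 * m 1 0 = ρ ^ 2 := by rw [hρD, Hp.det_fin]
    obtain ⟨j, j0, j1, j2⟩ := NtM.alg hu hρ0 (hv0 ▸ r0) (hv1 ▸ r1) hdet
    refine ⟨j, ?_⟩
    intro i
    fin_cases i
    · exact j0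
    · exact j1
    · exact j2
  · right
    refine ⟨![v0, v1], by simpa using hδ, ?_, by simpa using hqv⟩
    intro i
    fin_cases i
    · exact hvb 0
    · exact hvb 1

end

end Pool.Agent.A54.HSF
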