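import Pool.Agent.Lib.HS.F.Spec

/-!
# Project H*, part (F), module Par: near-stabilisers are parallel
-/

set_option autoImplicit false

namespace Pool.Agent.A54.HSF

open MeasureTheory Filter Topology Set
open scoped UpperHalfPlane MatrixGroups ENNReal
open Pool.Agent.A54.Dyn (G fl base ze io mk4 dom)
open Pool.Agent.A54.Av (Mat)
open Pool.Agent.A54.Hp (nu nm Mn Om Nb bt xi uu pr nz Tb ms FF HE Pm GdC GdK StmtNuL StmtUnf StmtNm)

namespace ParM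

/-- Bezout in rank three -/
private lemma bez (u : Fin 3 → ℤ) (hu : u ≠ 0) : ∃ (g : ℤ) (n a : Fin 3 → ℤ), g ≠ 0 ∧
    (∀ i, u i = g * n i) ∧ a 0 * n 0 + a 1 * n 1 + a 2 * n 2 = 1 := by
  obtain ⟨g1, hg1⟩ : ∃ g1 : ℤ, g1 = (Int.gcd (u 0) (u 1) : ℤ) := ⟨_, rfl⟩
  have h1 : g1 = u 0 * Int.gcdA (u 0) (u 1) + u 1 * Int.gcdB (u 0) (u 1) := by
    rw [hg1]; exact Int.gcd_eq_gcd_ab _ _
  obtain ⟨g, hg⟩ : ∃ g : ℤ, g = (Int.gcd g1 (u 2) : ℤ) := ⟨_, rfl⟩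
  have h2 : g = g1 * Int.gcdA g1 (u 2) + u 2 * Int.gcdB g1 (u 2) := by
    rw [hg]; exact Int.gcd_eq_gcd_ab _ _
  have e0 : g1 ∣ u 0 := by rw [hg1]; exact Int.gcd_dvd_left _ _
  have e1 : g1 ∣ u 1 := by rw [hg1]; exact Int.gcd_dvd_right _ _
  have e2 : g ∣ g1 := by rw [hg]; exact Int.gcd_dvd_left _ _
  have e3 : g ∣ u 2 := by rw [hg]; exact Int.gcd_dvd_right _ _
  obtain ⟨n0, hn0⟩ := e2.trans e0
  obtain ⟨n1, hn1⟩ := e2.trans e1
  obtain ⟨n2, hn2⟩ := e3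
  have hall : ∀ i, u i = g * (![n0, n1, n2] : Fin 3 → ℤ) i := by
    intro i
    fin_cases i
    · simpa using hn0
    · simpa using hn1
    · simpa using hn2
  have hg0 : g ≠ 0 := by
    intro h
    apply hu
    funext i
    rw [hall i, h, zero_mul]
    rfl
  refine ⟨g, ![n0, n1, n2], ![Int.gcdA (u 0) (u 1) * Int.gcdA g1 (u 2),
    Int.gcdB (u 0) (u 1) * Int.gcdA g1 (u 2), Int.gcdB g1 (u 2)], hg0, hall, ?_⟩
  simp only [Matrix.cons_val_zero, Matrix.cons_val_one, Matrix.cons_val]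
  apply mul_left_cancel₀ hg0
  generalize Int.gcdA (u 0) (u 1) = A at h1 ⊢
  generalize Int.gcdB (u 0) (u 1) = B at h1 ⊢
  generalize Int.gcdA g1 (u 2) = A' at h2 ⊢
  generalize Int.gcdB g1 (u 2) = B' at h2 ⊢
  rw [hn2] at h2
  rw [hn0, hn1] at h1
  calc g * (A * A' * n0 + B * A' * n1 + B' * n2)
      = (g * n0 * A + g * n1 * B) * A' + g * n2 * B' := by ring
    _ = g * 1 := by rw [← h1, ← h2, mul_one]

/-- a set of pairwise parallel integral vectors lies on one primitive line -/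
private lemma par (S : Set (Fin 3 → ℤ)) (hS : ∀ u ∈ S, ∀ v ∈ S, ∀ i j, u i * v j = u j * v i) :
    ∃ n : Fin 3 → ℤ, Prim n ∧ ∀ u ∈ S, ∃ j : ℤ, ∀ i, u i = j * n i := by
  by_cases h : ∃ u ∈ S, u ≠ 0
  · obtain ⟨u, hu, hu0⟩ := h
    obtain ⟨g, n, a, hg, hn, ha⟩ := bez u hu0
    refine ⟨n, ⟨a, ha⟩, fun v hv => ⟨a 0 * v 0 + a 1 * v 1 + a 2 * v 2, fun i => ?_⟩⟩
    have key : ∀ i j, v i * n j = v j * n i := by
      intro i j
      apply mul_left_cancel₀ hg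
      have := hS v hv u hu i j
      rw [hn i, hn j] at this
      linear_combination this
    have k0 := key i 0
    have k1 := key i 1
    have k2 := key i 2
    linear_combination (-v i) * ha + a 0 * k0 + a 1 * k1 + a 2 * k2
  · push Not at h
    refine ⟨![1, 0, 0], ⟨![1, 0, 0], by simp⟩, fun u hu => ⟨0, fun i => ?_⟩⟩
    rw [h u hu]
    simp

/-- the quadratic form of `xi` -/
private lemma quad (x : G) : xi x 0 ^ 2 + 4 * xi x 1 * xi x 2 = 1 := by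
  have hd : x 0 0 * x 1 1 - x 0 1 * x 1 0 = 1 := by
    have := x.2
    rw [Matrix.det_fin_two] at this
    exact this
  have h0 : xi x 0 = x 0 0 * x 1 1 + x 0 1 * x 1 0 := rfl
  have h1 : xi x 1 = -(x 0 0 * x 0 1) := rfl
  have h2 : xi x 2 = x 1 0 * x 1 1 := rfl
  rw [h0, h1, h2]
  linear_combination (x 0 0 * x 1 1 - x 0 1 * x 1 0 + 1) * hd

/-- some coordinate of `xi` is at least `2/5` -/
private lemma big (x : G) : ∃ r, 2 / 5 ≤ |xi x r| := by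
  by_contra h
  push Not at h
  have q := quad x
  have a0 := abs_lt.mp (h 0)
  have a1 := h 1
  have a2 := h 2
  have s0 : xi x 0 ^ 2 < (2 / 5) ^ 2 := by nlinarith [a0.1, a0.2]
  have s1 : |xi x 1 * xi x 2| ≤ (2 / 5) * (2 / 5) := by
    rw [abs_mul]
    exact mul_le_mul a1.le a2.le (abs_nonneg _) (by norm_num)
  have s2 := (abs_le.mp s1).2
  nlinarith

/-- the coordinates of `xi` are at most `2R²` -/
private lemma bdd (R : ℝ) (hR : 1 ≤ R) (x : G) (hx : x ∈ Om R) (i : Fin 3) : |xi x i| ≤ 2 * R ^ 2 := by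
  have hm : ∀ i j k l, |x i j * x k l| ≤ R * R := fun i j k l => by
    rw [abs_mul]
    exact mul_le_mul (hx i j) (hx k l) (abs_nonneg _) (by linarith)
  fin_cases i
  · change |x 0 0 * x 1 1 + x 0 1 * x 1 0| ≤ _
    have := abs_add_le (x 0 0 * x 1 1) (x 0 1 * x 1 0)
    have := hm 0 0 1 1
    have := hm 0 1 1 0
    nlinarith
  · change |-(x 0 0 * x 0 1)| ≤ _
    rw [abs_neg]
    have := hm 0 0 0 1
    nlinarith
  · change |x 1 0 * x 1 1| ≤ _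
    have := hm 1 0 1 1
    nlinarith

/-- the arithmetic step -/
private lemma core (ζ : Fin 3 → ℝ) (r : Fin 3) (U B ε : ℝ) (u v : Fin 3 → ℤ) (hr : 1 / 4 ≤ |ζ r|)
    (hB : ∀ i, |ζ i| ≤ B) (hu : ∀ i, |(u i : ℝ)| ≤ U) (hv : ∀ i, |(v i : ℝ)| ≤ U)
    (cu : ∀ i j, |(u i : ℝ) * ζ j - (u j : ℝ) * ζ i| ≤ ε)
    (cv : ∀ i j, |(v i : ℝ) * ζ j - (v j : ℝ) * ζ i| ≤ ε) (hs : 16 * (4 * (U * B * ε) + 2 * ε ^ 2) < 1)
    (i j : Fin 3) : u i * v j = u j * v i := by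
  have hU : 0 ≤ U := (abs_nonneg _).trans (hu 0)
  have hB0 : 0 ≤ B := (abs_nonneg _).trans (hB 0)
  have hε : 0 ≤ ε := (abs_nonneg _).trans (cu 0 0)
  have t1 : ∀ (w z : Fin 3 → ℤ), (∀ i, |(w i : ℝ)| ≤ U) →
      (∀ i j, |(z i : ℝ) * ζ j - (z j : ℝ) * ζ i| ≤ ε) → ∀ i j,
      |(w r : ℝ) * ζ i * ((z j : ℝ) * ζ r - (z r : ℝ) * ζ j)| ≤ U * B * ε := by
    intro w z hw hz i j
    rw [abs_mul, abs_mul]
    exact mul_le_mul (mul_le_mul (hw r) (hB i) (abs_nonneg _) hU) (hz j r) (abs_nonneg _)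
      (mul_nonneg hU hB0)
  have t2 : ∀ i j, |((u i : ℝ) * ζ r - (u r : ℝ) * ζ i) * ((v j : ℝ) * ζ r - (v r : ℝ) * ζ j)| ≤
      ε ^ 2 := by
    intro i j
    rw [abs_mul, sq]
    exact mul_le_mul (cu i r) (cv j r) (abs_nonneg _) hε
  have h1 : ζ r ^ 2 * ((u i * v j - u j * v i : ℤ) : ℝ) =
      (u r : ℝ) * ζ i * ((v j : ℝ) * ζ r - (v r : ℝ) * ζ j) +
      (v r : ℝ) * ζ j * ((u i : ℝ) * ζ r - (u r : ℝ) * ζ i) -
      (u r : ℝ) * ζ j * ((v i : ℝ) * ζ r - (v r : ℝ) * ζ i) -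
      (v r : ℝ) * ζ i * ((u j : ℝ) * ζ r - (u r : ℝ) * ζ j) +
      ((u i : ℝ) * ζ r - (u r : ℝ) * ζ i) * ((v j : ℝ) * ζ r - (v r : ℝ) * ζ j) -
      ((u j : ℝ) * ζ r - (u r : ℝ) * ζ j) * ((v i : ℝ) * ζ r - (v r : ℝ) * ζ i) := by
    push_cast
    ring
  have a1 := abs_le.mp (t1 u v hu cv i j)
  have a2 := abs_le.mp (t1 v u hv cu j i)
  have a3 := abs_le.mp (t1 u v hu cv j i)
  have a4 := abs_le.mp (t1 v u hv cu i j)
  have a5 := abs_le.mp (t2 i j)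
  have a6 := abs_le.mp (t2 j i)
  have h2 : |ζ r ^ 2 * ((u i * v j - u j * v i : ℤ) : ℝ)| ≤ 4 * (U * B * ε) + 2 * ε ^ 2 := by
    rw [h1, abs_le]
    constructor <;> linarith [a1.1, a1.2, a2.1, a2.2, a3.1, a3.2, a4.1, a4.2, a5.1, a5.2, a6.1, a6.2]
  have h3 : (1 / 16 : ℝ) ≤ ζ r ^ 2 := by
    rw [← sq_abs]
    nlinarith
  have h4 : |((u i * v j - u j * v i : ℤ) : ℝ)| < 1 := by
    rw [abs_mul, abs_of_nonneg (sq_nonneg (ζ r))] at h2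
    have h5 := mul_le_mul_of_nonneg_right h3 (abs_nonneg ((u i * v j - u j * v i : ℤ) : ℝ))
    linarith
  have h5 : |u i * v j - u j * v i| < 1 := by
    rw [← Int.cast_abs] at h4
    exact_mod_cast h4
  have h6 := Int.abs_lt_one_iff.mp h5
  omega

end ParM

/-- **Par** -/
theorem stmtPar (h1 : StmtCr) (h2 : StmtNm) : StmtPar := by
  obtain ⟨-, -, -, -, hn5⟩ := h2
  intro R hR
  have hR6 : 1 ≤ R ^ 6 := one_le_pow₀ hR
  have hR2 : 1 ≤ R ^ 2 := one_le_pow₀ hR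
  refine ⟨10 ^ 4 * R ^ 6, by linarith, ?_⟩
  intro M η ζ hM hη hC P hP
  have hM2 : 1 ≤ M ^ 2 := one_le_pow₀ hM
  have hM4 : 1 ≤ M ^ 4 := one_le_pow₀ hM
  set S : Set (Fin 3 → ℤ) := {u | ∃ m : Mat, u = uu m ∧ 0 < m.det ∧ ((m.det : ℤ) : ℝ) ≤ M ^ 4 ∧
    ∃ x ∈ Tb R ζ η, nm m * x ∈ Tb R ζ η} with hSdef
  have ha : R ^ 6 * M ^ 4 * η ≤ 1 / 10 ^ 4 := by
    rw [le_div_iff₀ (by norm_num)]
    calc R ^ 6 * M ^ 4 * η * 10 ^ 4 = 10 ^ 4 * R ^ 6 * (M ^ 4 * η) := by ring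
      _ ≤ 1 := hC
  have hη1 : η ≤ 1 / 100 := by
    have : 1 * η ≤ R ^ 6 * M ^ 4 * η :=
      mul_le_mul_of_nonneg_right (one_le_mul_of_one_le_of_one_le hR6 hM4) hη
    norm_num at ha ⊢
    linarith
  -- bounds for elements of `S`
  have hUu : ∀ u ∈ S, (∀ i, |(u i : ℝ)| ≤ 4 * R ^ 2 * M ^ 2) ∧
      ∀ i j, |(u i : ℝ) * ζ j - (u j : ℝ) * ζ i| ≤ 8 * R ^ 2 * M ^ 2 * η := by
    rintro u ⟨m, rfl, hd, hdM, x, hx, hx'⟩
    have hs : √((m.det : ℤ) : ℝ) ≤ M ^ 2 := by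
      rw [show M ^ 2 = √(M ^ 4) by rw [show M ^ 4 = (M ^ 2) ^ 2 by ring, Real.sqrt_sq (by positivity)]]
      exact Real.sqrt_le_sqrt hdM
    constructor
    · have hb : ∀ i j, |((m i j : ℤ) : ℝ)| ≤ 2 * R ^ 2 * M ^ 2 := fun i j => by
        refine (hn5 R R x m hd hx.1 hx'.1 i j).trans ?_
        calc 2 * R * R * √((m.det : ℤ) : ℝ) = 2 * R ^ 2 * √((m.det : ℤ) : ℝ) := by ring
          _ ≤ 2 * R ^ 2 * M ^ 2 := mul_le_mul_of_nonneg_left hs (by positivity)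
      intro i
      fin_cases i
      · change |((m 0 0 - m 1 1 : ℤ) : ℝ)| ≤ _
        push_cast
        have := abs_sub (m 0 0 : ℝ) (m 1 1 : ℝ)
        linarith [hb 0 0, hb 1 1]
      · change |((m 0 1 : ℤ) : ℝ)| ≤ _
        have : 0 ≤ R ^ 2 * M ^ 2 := by positivity
        linarith [hb 0 1]
      · change |((m 1 0 : ℤ) : ℝ)| ≤ _
        have : 0 ≤ R ^ 2 * M ^ 2 := by positivity
        linarith [hb 1 0]
    · intro i j
      refine (h1 R η ζ hR hη m hd x hx hx' i j).trans ?_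
      exact mul_le_mul_of_nonneg_right (mul_le_mul_of_nonneg_left hs (by positivity)) hη
  have hpar : ∀ u ∈ S, ∀ v ∈ S, ∀ i j, u i * v j = u j * v i := by
    intro u hu v hv i j
    obtain ⟨bu, cu⟩ := hUu u hu
    obtain ⟨bv, cv⟩ := hUu v hv
    obtain ⟨m, -, -, -, x, hx, -⟩ := hu
    obtain ⟨r, hr⟩ := ParM.big x
    have hr' : 1 / 4 ≤ |ζ r| := by
      have h3 := hx.2 r
      have h4 : |xi x r| - |ζ r| ≤ |xi x r - ζ r| := abs_sub_abs_le_abs_sub _ _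
      linarith
    have hB : ∀ i, |ζ i| ≤ 3 * R ^ 2 := by
      intro i
      have h3 := hx.2 i
      have h4 : |ζ i| - |xi x i| ≤ |ζ i - xi x i| := abs_sub_abs_le_abs_sub _ _
      rw [abs_sub_comm] at h4
      have h5 := ParM.bdd R hR x hx.1 i
      linarith
    refine ParM.core ζ r (4 * R ^ 2 * M ^ 2) (3 * R ^ 2) (8 * R ^ 2 * M ^ 2 * η) u v hr' hB bu bv
      cu cv ?_ i j
    have e1 : 16 * (4 * (4 * R ^ 2 * M ^ 2 * (3 * R ^ 2) * (8 * R ^ 2 * M ^ 2 * η)) +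
        2 * (8 * R ^ 2 * M ^ 2 * η) ^ 2) =
        6144 * (R ^ 6 * M ^ 4 * η) + 2048 * (R ^ 4 * M ^ 4 * η) * η := by ring
    rw [e1]
    have h0 : 0 ≤ R ^ 6 * M ^ 4 * η := by positivity
    have e2 : R ^ 4 * M ^ 4 * η ≤ R ^ 6 * M ^ 4 * η := by
      apply mul_le_mul_of_nonneg_right _ hη
      apply mul_le_mul_of_nonneg_right _ (by positivity)
      exact pow_le_pow_right₀ hR (by norm_num)
    have e3 : R ^ 4 * M ^ 4 * η * η ≤ R ^ 6 * M ^ 4 * η * (1 / 100) :=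
      mul_le_mul e2 hη1 hη h0
    have ha' : R ^ 6 * M ^ 4 * η ≤ 1 / 10000 := by norm_num at ha ⊢; exact ha
    nlinarith
  obtain ⟨n, hn, hnS⟩ := ParM.par S hpar
  refine ⟨n, hn, ?_⟩
  intro k hk1 hk2 p hp p' hp' m hm x hx hx'
  apply hnS
  have p0 := (hP p hp).1.pos
  have p0' := (hP p' hp').1.pos
  have hpos : 0 < (p * p') ^ k := pow_pos (Nat.mul_pos p0 p0') k
  refine ⟨m, rfl, ?_, ?_, x, hx, hx'⟩
  · rw [hm]
    exact_mod_cast hpos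
  · rw [hm]
    push_cast
    have g1 : (p : ℝ) * (p' : ℝ) ≤ M * M :=
      mul_le_mul (hP p hp).2 (hP p' hp').2 (Nat.cast_nonneg _) (by linarith)
    have g2 : ((p : ℝ) * (p' : ℝ)) ^ k ≤ (M * M) ^ k := pow_le_pow_left₀ (by positivity) g1 k
    have g3 : (M * M) ^ k ≤ (M * M) ^ 2 := pow_le_pow_right₀ (by nlinarith) hk2
    calc ((p : ℝ) * (p' : ℝ)) ^ k ≤ (M * M) ^ 2 := g2.trans g3
      _ = M ^ 4 := by ring

end Pool.Agent.A54.HSF
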