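import Pool.Agent.Lib.HS.F.SpecI

/-!
# Project H*, part (F), module Pt: planes of returns with square determinant give N-type pairs.
-/

set_option autoImplicit false

namespace Pool.Agent.A54.HSF

open Pool.Agent.A54.Dyn (G)
open Pool.Agent.A54.Av (Mat)
open Pool.Agent.A54.Hp (nm Om cj Bxx)

namespace PtM

lemma y_cj (y x : G) (s : Mat) : y.1 * cj y x s = s.map (fun a : ℤ => (a : ℝ)) * x.1 := by
  unfold cj
  have h : y.1 * (y⁻¹ : G).1 = 1 := by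
    have h2 : (y * y⁻¹ : G).1 = (1 : G).1 := by rw [mul_inv_cancel]
    exact h2
  rw [mul_assoc ((y⁻¹ : G).1), ← mul_assoc (y.1), h, one_mul]

lemma y_cj_apply (y x : G) (s : Mat) (i j : Fin 2) :
    y i 0 * cj y x s 0 j + y i 1 * cj y x s 1 j = (s i 0 : ℝ) * x 0 j + (s i 1 : ℝ) * x 1 j := by
  have h := congrFun (congrFun (y_cj y x s) i) j
  rw [Matrix.mul_apply, Matrix.mul_apply, Fin.sum_univ_two, Fin.sum_univ_two] at h
  exact h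

lemma det_cj (y x : G) (s : Mat) :
    cj y x s 0 0 * cj y x s 1 1 - cj y x s 0 1 * cj y x s 1 0 = ((s.det : ℤ) : ℝ) := by
  have h : (cj y x s).det = ((s.det : ℤ) : ℝ) := by
    unfold cj
    rw [Matrix.det_mul, Matrix.det_mul, (y⁻¹ : G).2, x.2, one_mul, mul_one, Matrix.det_fin_two, Matrix.det_fin_two]
    simp only [Matrix.map_apply]
    push_cast
    ring
  rw [Matrix.det_fin_two] at h
  exact h

lemma lin_le {R B a b p q : ℝ} (_hR : 0 ≤ R) (ha : |a| ≤ B) (hb : |b| ≤ B) (hp : |p| ≤ R) (hq : |q| ≤ R) :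
    |a * p + b * q| ≤ 2 * R * B := by
  have hB : 0 ≤ B := (abs_nonneg _).trans ha
  refine (abs_add_le _ _).trans ?_
  rw [abs_mul, abs_mul]
  have h1 := mul_le_mul ha hp (abs_nonneg _) hB
  have h2 := mul_le_mul hb hq (abs_nonneg _) hB
  linarith

/-- the error term -/
lemma err_le {U0 U1 w00 w01 w10 w11 K N P : ℝ} (hN : 1 ≤ N) (hK : 2 * N ≤ K) (hP : 0 ≤ P) (h0 : |U0| ≤ P) (h1 : |U1| ≤ P)
    (a00 : |w00| ≤ K * N) (a11 : |w11| ≤ K * N) (a01 : |w01| ≤ N / K) (a10 : |w10| ≤ N / K) :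
    |2 * (w01 * w10) * (U0 * U1) + (w00 * w01) * (U0 * U0) + (w10 * w11) * (U1 * U1)| ≤ 4 * N ^ 2 * P ^ 2 := by
  have hK0 : 0 < K := by linarith
  have hmm : ∀ {a b : ℝ}, |a| ≤ P → |b| ≤ P → |a * b| ≤ P ^ 2 := by
    intro a b ha hb
    rw [abs_mul, sq]
    exact mul_le_mul ha hb (abs_nonneg _) hP
  have hNK : N / K ≤ 1 := by
    rw [div_le_one hK0]; linarith
  have hNK0 : 0 ≤ N / K := by positivity
  have k1 : |w01 * w10| ≤ N ^ 2 := by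
    rw [abs_mul]
    have : |w01| * |w10| ≤ 1 * 1 := mul_le_mul (a01.trans hNK) (a10.trans hNK) (abs_nonneg _) (by norm_num)
    nlinarith
  have k2 : |w00 * w01| ≤ N ^ 2 := by
    rw [abs_mul]
    have h2 : |w00| * |w01| ≤ K * N * (N / K) := mul_le_mul a00 a01 (abs_nonneg _) (by positivity)
    have h3 : K * N * (N / K) = N ^ 2 := by field_simp
    linarith
  have k3 : |w10 * w11| ≤ N ^ 2 := by
    rw [abs_mul]
    have h2 : |w10| * |w11| ≤ N / K * (K * N) := mul_le_mul a10 a11 (abs_nonneg _) hNK0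
    have h3 : N / K * (K * N) = N ^ 2 := by field_simp
    linarith
  have e1 : |2 * (w01 * w10) * (U0 * U1)| ≤ 2 * N ^ 2 * P ^ 2 := by
    rw [abs_mul, abs_mul, abs_two]
    have := mul_le_mul k1 (hmm h0 h1) (abs_nonneg _) (by positivity)
    nlinarith
  have e2 : |(w00 * w01) * (U0 * U0)| ≤ N ^ 2 * P ^ 2 := by
    rw [abs_mul]
    exact mul_le_mul k2 (hmm h0 h0) (abs_nonneg _) (by positivity)
  have e3 : |(w10 * w11) * (U1 * U1)| ≤ N ^ 2 * P ^ 2 := by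
    rw [abs_mul]
    exact mul_le_mul k3 (hmm h1 h1) (abs_nonneg _) (by positivity)
  refine (abs_add_three _ _ _).trans ?_
  linarith

/-- the identity and the final bound, real numbers only -/
lemma final {U0 U1 V0 V1 w00 w01 w10 w11 K N R B κ k g α : ℝ} (hR : 1 ≤ R) (hN : 1 ≤ N) (hK : 2 * N ≤ K) (hB : 1 ≤ B)
    (h0 : |U0| ≤ 2 * R * B) (h1 : |U1| ≤ 2 * R * B)
    (a00 : |w00| ≤ K * N) (a11 : |w11| ≤ K * N) (a01 : |w01| ≤ N / K) (a10 : |w10| ≤ N / K)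
    (hV0 : κ * V0 = U0 * w00 + U1 * w10) (hV1 : κ * V1 = U0 * w01 + U1 * w11)
    (hd : w00 * w11 - w01 * w10 = α ^ 2) (hα : (K / N) ^ 2 ≤ α ^ 2) (hκ : κ * g = k * α) (hg0 : 0 ≤ g) (hg : g ≤ B) :
    |g ^ 2 * (U0 * U1) - k ^ 2 * (V0 * V1)| ≤ 16 * R ^ 2 * B ^ 4 * N ^ 4 / K ^ 2 := by
  have hK0 : 0 < K := by linarith
  have hN0 : 0 < N := by linarith
  have hP : 0 ≤ 2 * R * B := by positivity
  have hE := err_le hN hK hP h0 h1 a00 a11 a01 a10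
  set E : ℝ := 2 * (w01 * w10) * (U0 * U1) + (w00 * w01) * (U0 * U0) + (w10 * w11) * (U1 * U1) with hEd
  have e1 : κ ^ 2 * (V0 * V1) = α ^ 2 * (U0 * U1) + E := by
    have : κ ^ 2 * (V0 * V1) = (κ * V0) * (κ * V1) := by ring
    rw [this, hV0, hV1, hEd, ← hd]
    ring
  have e2 : α ^ 2 * (g ^ 2 * (U0 * U1) - k ^ 2 * (V0 * V1)) = -(g ^ 2 * E) := by
    have h3 : (k * α) ^ 2 * (V0 * V1) = g ^ 2 * (κ ^ 2 * (V0 * V1)) := by
      rw [← hκ]; ring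
    have h4 : α ^ 2 * (g ^ 2 * (U0 * U1) - k ^ 2 * (V0 * V1)) =
        g ^ 2 * (α ^ 2 * (U0 * U1)) - (k * α) ^ 2 * (V0 * V1) := by ring
    rw [h4, h3, e1]
    ring
  have hq : 0 < (K / N) ^ 2 := by positivity
  have hα0 : 0 < α ^ 2 := lt_of_lt_of_le hq hα
  have h5 : α ^ 2 * |g ^ 2 * (U0 * U1) - k ^ 2 * (V0 * V1)| = g ^ 2 * |E| := by
    have := congrArg (fun t => |t|) e2
    simp only [abs_mul, abs_neg, abs_of_pos hα0, abs_of_nonneg (sq_nonneg g)] at this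
    rw [this]
  have h6 : g ^ 2 * |E| ≤ B ^ 2 * (4 * N ^ 2 * (2 * R * B) ^ 2) :=
    mul_le_mul (pow_le_pow_left₀ hg0 hg 2) hE (abs_nonneg _) (by positivity)
  have h7 : (K / N) ^ 2 * |g ^ 2 * (U0 * U1) - k ^ 2 * (V0 * V1)| ≤ B ^ 2 * (4 * N ^ 2 * (2 * R * B) ^ 2) :=
    (mul_le_mul_of_nonneg_right hα (abs_nonneg _)).trans (h5.le.trans h6)
  have h8 : |g ^ 2 * (U0 * U1) - k ^ 2 * (V0 * V1)| ≤ B ^ 2 * (4 * N ^ 2 * (2 * R * B) ^ 2) / (K / N) ^ 2 := by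
    rw [le_div_iff₀ hq]
    linarith
  refine h8.trans (le_of_eq ?_)
  field_simp
  ring

end PtM

open PtM in
theorem stmtPt (h1 : StmtKr) (h2 : StmtRo) : StmtPt := by
  intro R hR
  refine ⟨16 * 68 ^ 4 * R ^ 10, ?_, ?_⟩
  · have := one_le_pow₀ hR (n := 10)
    linarith
  intro x hx y hy K N hN hKN h₁ h₂ α β b1 b2 hd hsq hr
  have hB := h1 R hR x hx y hy K N hN hKN h₁ h₂ α β b1 b2 hd hsq
  have hK : 0 < K := by linarith
  have hN0 : 0 < N := by linarith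
  have hR0 : 0 ≤ R := by linarith
  have hdet : h₁.det = α ^ 2 := by
    have h := hsq 1 0
    simpa using h
  rw [hdet] at hd
  have hα0 : α ≠ 0 := by
    rintro rfl
    have h3 : 0 < (K / N) ^ 2 := by positivity
    simp only [Int.cast_zero, ne_eq, OfNat.ofNat_ne_zero, not_false_eq_true, zero_pow] at hd
    linarith
  obtain ⟨u, v, κ, k, g, cu, cv, hu, hv, hg1, hgB, hk0, hkB, hκ, huh⟩ := h2 h₁ h₂ α β hsq hα0 hr _ hB
  have hB1 : 1 ≤ 68 * R ^ 2 * N ^ 6 := by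
    have h3 : 1 ≤ R ^ 2 := one_le_pow₀ hR
    have h4 : 1 ≤ N ^ 6 := one_le_pow₀ hN
    nlinarith
  set B : ℝ := 68 * R ^ 2 * N ^ 6 with hBd
  have hB0 : 0 ≤ B := by linarith
  have hBB : B ≤ B ^ 2 := by nlinarith
  have hL : B ^ 2 ≤ 16 * 68 ^ 4 * R ^ 10 * N ^ 12 := by
    have e : B ^ 2 = 68 ^ 2 * R ^ 4 * N ^ 12 := by rw [hBd]; ring
    rw [e]
    have h3 : R ^ 4 ≤ R ^ 10 := pow_le_pow_right₀ hR (by norm_num)
    have h4 : (68 : ℝ) ^ 2 * R ^ 4 ≤ 16 * 68 ^ 4 * R ^ 10 := by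
      have : 0 ≤ R ^ 10 := by positivity
      nlinarith
    exact mul_le_mul_of_nonneg_right h4 (by positivity)
  have hgL : (g : ℝ) ≤ 16 * 68 ^ 4 * R ^ 10 * N ^ 12 := hgB.trans (hBB.trans hL)
  have hka : ((k.natAbs : ℕ) : ℝ) = |(k : ℝ)| := by
    rw [Nat.cast_natAbs, Int.cast_abs]
  refine ⟨hy, u, v, g, k.natAbs, cu, cv, fun i => (hu i).trans (hBB.trans hL), fun i => (hv i).trans (hBB.trans hL),
    hg1, Nat.one_le_iff_ne_zero.mpr (Int.natAbs_ne_zero.mpr hk0), hgL, ?_, ?_⟩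
  · rw [hka]
    exact hkB.trans hL
  rw [hka, sq_abs]
  have huh' : ∀ j, (u 0 : ℝ) * h₁ 0 j + (u 1 : ℝ) * h₁ 1 j = κ * v j := fun j => by exact_mod_cast huh j
  have key : ∀ j, (κ : ℝ) * ((v 0 : ℝ) * x 0 j + (v 1 : ℝ) * x 1 j) =
      ((u 0 : ℝ) * y 0 0 + (u 1 : ℝ) * y 1 0) * cj y x h₁ 0 j + ((u 0 : ℝ) * y 0 1 + (u 1 : ℝ) * y 1 1) * cj y x h₁ 1 j := by
    intro j
    have e0 := y_cj_apply y x h₁ 0 j
    have e1 := y_cj_apply y x h₁ 1 j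
    calc (κ : ℝ) * ((v 0 : ℝ) * x 0 j + (v 1 : ℝ) * x 1 j)
        = (κ * v 0) * x 0 j + (κ * v 1) * x 1 j := by ring
      _ = ((u 0 : ℝ) * h₁ 0 0 + (u 1 : ℝ) * h₁ 1 0) * x 0 j + ((u 0 : ℝ) * h₁ 0 1 + (u 1 : ℝ) * h₁ 1 1) * x 1 j := by
          rw [huh' 0, huh' 1]
      _ = (u 0 : ℝ) * ((h₁ 0 0 : ℝ) * x 0 j + (h₁ 0 1 : ℝ) * x 1 j) +
            (u 1 : ℝ) * ((h₁ 1 0 : ℝ) * x 0 j + (h₁ 1 1 : ℝ) * x 1 j) := by ring
      _ = _ := by rw [← e0, ← e1]; ring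
  obtain ⟨a00, a11, a01, a10⟩ := b1
  have hdc := det_cj y x h₁
  rw [hdet] at hdc
  push_cast at hdc hd
  have hκ' : (κ : ℝ) * g = k * α := by exact_mod_cast hκ
  have hfin := final (κ := (κ : ℝ)) (k := (k : ℝ)) (g := (g : ℝ)) (α := (α : ℝ)) (R := R) hR hN hKN hB1
    (lin_le hR0 (hu 0) (hu 1) (hy 0 0) (hy 1 0)) (lin_le hR0 (hu 0) (hu 1) (hy 0 1) (hy 1 1)) a00 a11 a01 a10
    (key 0) (key 1) hdc hd hκ' (by positivity) hgB
  refine hfin.trans (le_of_eq ?_)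
  rw [hBd]
  ring

end Pool.Agent.A54.HSF
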