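import Pool.Agent.Lib.HS.F.SpecI

/-!
# Project H*, part (F), module Ro: planes with square determinant form (helper58)
-/

set_option autoImplicit false

namespace Pool.Agent.A54.HSF

open MeasureTheory Filter Topology Set
open scoped UpperHalfPlane MatrixGroups ENNReal
open Pool.Agent.A54.Av (Mat)

namespace RoM

theorem pair {x y : ℤ} (h : x ≠ 0 ∨ y ≠ 0) :
    ∃ (g : ℕ) (x' y' : ℤ), 0 < g ∧ IsCoprime x' y' ∧ x = g * x' ∧ y = g * y' := by
  have hg : 0 < Int.gcd x y := by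
    rw [Int.gcd_pos_iff]
    exact h
  obtain ⟨x', y', h1, h2, h3⟩ := Int.exists_gcd_one hg
  exact ⟨Int.gcd x y, x', y', hg, Int.isCoprime_iff_gcd_eq_one.2 h1, by rw [mul_comm]; exact h2,
    by rw [mul_comm]; exact h3⟩

theorem prop {x0 x1 v0 v1 : ℤ} (hv : IsCoprime v0 v1) (h : x0 * v1 = x1 * v0) :
    ∃ κ : ℤ, x0 = κ * v0 ∧ x1 = κ * v1 := by
  obtain ⟨a, b, hab⟩ := hv
  refine ⟨a * x0 + b * x1, ?_, ?_⟩
  · linear_combination (-x0) * hab + b * h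
  · linear_combination (-x1) * hab - a * h

theorem rankOne {r00 r01 r10 r11 : ℤ} (hdet : r00 * r11 = r01 * r10)
    (hne : (r00 ≠ 0 ∨ r01 ≠ 0) ∨ (r10 ≠ 0 ∨ r11 ≠ 0)) :
    ∃ c p0 p1 v0 v1 : ℤ, c ≠ 0 ∧ IsCoprime p0 p1 ∧ IsCoprime v0 v1 ∧ r00 = c * p0 * v0 ∧
      r01 = c * p0 * v1 ∧ r10 = c * p1 * v0 ∧ r11 = c * p1 * v1 := by
  have key : ∃ q0 q1 v0 v1 : ℤ, (q0 ≠ 0 ∨ q1 ≠ 0) ∧ IsCoprime v0 v1 ∧ r00 = q0 * v0 ∧
      r01 = q0 * v1 ∧ r10 = q1 * v0 ∧ r11 = q1 * v1 := by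
    by_cases h0 : r00 ≠ 0 ∨ r01 ≠ 0
    · obtain ⟨g, v0, v1, hg, hv, e0, e1⟩ := pair h0
      have hg' : (g : ℤ) ≠ 0 := by exact_mod_cast hg.ne'
      have h1 : r10 * v1 = r11 * v0 := by
        apply mul_left_cancel₀ hg'
        rw [e0, e1] at hdet
        linear_combination -hdet
      obtain ⟨q1, f0, f1⟩ := prop hv h1
      exact ⟨g, q1, v0, v1, Or.inl hg', hv, e0, e1, f0, f1⟩
    · have h1 := hne.resolve_left h0
      push Not at h0
      obtain ⟨g, v0, v1, hg, hv, e0, e1⟩ := pair h1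
      have hg' : (g : ℤ) ≠ 0 := by exact_mod_cast hg.ne'
      exact ⟨0, g, v0, v1, Or.inr hg', hv, by rw [h0.1]; ring, by rw [h0.2]; ring, e0, e1⟩
  obtain ⟨q0, q1, v0, v1, hq, hv, e00, e01, e10, e11⟩ := key
  obtain ⟨c, p0, p1, hc, hp, f0, f1⟩ := pair hq
  refine ⟨c, p0, p1, v0, v1, by exact_mod_cast hc.ne', hp, hv, ?_, ?_, ?_, ?_⟩
  · rw [e00, f0]
  · rw [e01, f0]
  · rw [e10, f1]
  · rw [e11, f1]

theorem half {κ1 κ2 κ1' κ2' α β : ℤ} (hα : α ≠ 0) (h1 : κ1 * κ1' = α ^ 2)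
    (h2 : κ2 * κ2' = β ^ 2) (h3 : κ1 * κ2' + κ2 * κ1' = 2 * α * β) : κ1 * β = κ2 * α := by
  have h4 : (κ1 * β - κ2 * α) * (κ1' * β - κ2' * α) = 0 := by
    linear_combination β ^ 2 * h1 + α ^ 2 * h2 - α * β * h3
  rcases mul_eq_zero.1 h4 with h5 | h5
  · linear_combination h5
  have h6 : κ2 * κ1' = α * β := by
    by_cases hβ : β = 0
    · subst hβ
      have h7 : κ2' = 0 := by
        have : κ2' * α = 0 := by linear_combination -h5
        exact (mul_eq_zero.1 this).resolve_right hα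
      rw [h7] at h3
      linear_combination h3
    · apply mul_right_cancel₀ hβ
      linear_combination κ2 * h5 + α * h2
  have h7 : κ1' ≠ 0 := by
    rintro rfl
    rw [mul_zero] at h1
    exact hα (pow_eq_zero_iff two_ne_zero |>.1 h1.symm)
  apply mul_left_cancel₀ h7
  linear_combination β * h1 - α * h6

theorem abs_le_mul {x y z : ℤ} (h : x = y * z) (hz : z ≠ 0) : |y| ≤ |x| := by
  rw [h, abs_mul]
  exact le_mul_of_one_le_right (abs_nonneg _) (Int.one_le_abs hz)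

/-- all in integers -/
theorem core {a1 b1 c1 d1 a2 b2 c2 d2 α β : ℤ} (hα : α ≠ 0) (hd1 : a1 * d1 - b1 * c1 = α ^ 2)
    (hd2 : a2 * d2 - b2 * c2 = β ^ 2)
    (hd3 : a1 * d2 + a2 * d1 - b1 * c2 - b2 * c1 = 2 * α * β)
    (hne : ((β * a1 - α * a2 ≠ 0) ∨ (β * b1 - α * b2 ≠ 0)) ∨
      ((β * c1 - α * c2 ≠ 0) ∨ (β * d1 - α * d2 ≠ 0))) (M : ℤ)
    (hM1 : |β * a1 - α * a2| ≤ M) (hM2 : |β * b1 - α * b2| ≤ M) (hM3 : |β * c1 - α * c2| ≤ M)
    (hM4 : |β * d1 - α * d2| ≤ M) :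
    ∃ (u0 u1 v0 v1 κ k : ℤ) (g : ℕ), IsCoprime u0 u1 ∧ IsCoprime v0 v1 ∧ |u0| ≤ M ∧ |u1| ≤ M ∧
      |v0| ≤ M ∧ |v1| ≤ M ∧ 1 ≤ g ∧ (g : ℤ) ≤ M ∧ k ≠ 0 ∧ |k| ≤ M ^ 2 ∧ κ * g = k * α ∧
      u0 * a1 + u1 * c1 = κ * v0 ∧ u0 * b1 + u1 * d1 = κ * v1 := by
  have hdet : (β * a1 - α * a2) * (β * d1 - α * d2) = (β * b1 - α * b2) * (β * c1 - α * c2) := by
    linear_combination β ^ 2 * hd1 + α ^ 2 * hd2 - α * β * hd3
  obtain ⟨c, p0, p1, v0, v1, hc, hp, hv, e00, e01, e10, e11⟩ := rankOne hdet hne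
  -- orthogonality
  have o1 : a1 * p1 * v1 + d1 * p0 * v0 - b1 * p1 * v0 - c1 * p0 * v1 = 0 := by
    apply mul_left_cancel₀ hc
    linear_combination (-a1) * e11 - d1 * e00 + b1 * e10 + c1 * e01 + 2 * β * hd1 - α * hd3
  have o2 : a2 * p1 * v1 + d2 * p0 * v0 - b2 * p1 * v0 - c2 * p0 * v1 = 0 := by
    apply mul_left_cancel₀ hc
    linear_combination (-a2) * e11 - d2 * e00 + b2 * e10 + c2 * e01 + β * hd3 - 2 * α * hd2
  have hu : IsCoprime (-p1) p0 := hp.symm.neg_left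
  obtain ⟨κ1, k10, k11⟩ := prop (x0 := -p1 * a1 + p0 * c1) (x1 := -p1 * b1 + p0 * d1) hv (by
    linear_combination -o1)
  obtain ⟨κ2, k20, k21⟩ := prop (x0 := -p1 * a2 + p0 * c2) (x1 := -p1 * b2 + p0 * d2) hv (by
    linear_combination -o2)
  obtain ⟨κ1', k10', k11'⟩ := prop (x0 := v0 * d1 - v1 * c1) (x1 := -v0 * b1 + v1 * a1) hu (by
    linear_combination o1)
  obtain ⟨κ2', k20', k21'⟩ := prop (x0 := v0 * d2 - v1 * c2) (x1 := -v0 * b2 + v1 * a2) hu (by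
    linear_combination o2)
  obtain ⟨A, B, hAB⟩ := hu
  have hK : ∀ (a b c d κ κ' : ℤ), -p1 * a + p0 * c = κ * v0 → -p1 * b + p0 * d = κ * v1 →
      v0 * d - v1 * c = κ' * -p1 → -v0 * b + v1 * a = κ' * p0 → κ * κ' = a * d - b * c := by
    intro a b c d κ κ' f1 f2 f3 f4
    have g1 : (a * d - b * c) * -p1 = κ * κ' * -p1 := by
      linear_combination d * f1 - c * f2 + κ * f3
    have g2 : (a * d - b * c) * p0 = κ * κ' * p0 := by
      linear_combination (-b) * f1 + a * f2 + κ * f4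
    linear_combination (-A) * g1 - B * g2 + (a * d - b * c - κ * κ') * hAB
  have p1' := hK a1 b1 c1 d1 κ1 κ1' k10 k11 k10' k11'
  have p2' := hK a2 b2 c2 d2 κ2 κ2' k20 k21 k20' k21'
  have p3' := hK (a1 + a2) (b1 + b2) (c1 + c2) (d1 + d2) (κ1 + κ2) (κ1' + κ2')
    (by linear_combination k10 + k20) (by linear_combination k11 + k21)
    (by linear_combination k10' + k20') (by linear_combination k11' + k21')
  rw [hd1] at p1'
  rw [hd2] at p2'
  have p4' : κ1 * κ2' + κ2 * κ1' = 2 * α * β := by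
    linear_combination p3' - p1' - p2' + hd1 + hd2 + hd3
  have q1 := half hα p1' p2' p4'
  have q2 := half (κ1 := κ1') (κ2 := κ2') (κ1' := κ1) (κ2' := κ2) hα
    (by rw [mul_comm]; exact p1') (by rw [mul_comm]; exact p2') (by linear_combination p4')
  obtain ⟨g, α0, β0, hg, hab, ea, eb⟩ := pair (x := α) (y := β) (Or.inl hα)
  have hg' : (g : ℤ) ≠ 0 := by exact_mod_cast hg.ne'
  have hα0 : α0 ≠ 0 := by
    rintro rfl
    exact hα (by rw [ea, mul_zero])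
  obtain ⟨k, s1, -⟩ := prop (x0 := κ1) (x1 := κ2) hab (by
    apply mul_left_cancel₀ hg'
    rw [ea, eb] at q1
    linear_combination q1)
  obtain ⟨k', s2, -⟩ := prop (x0 := κ1') (x1 := κ2') hab (by
    apply mul_left_cancel₀ hg'
    rw [ea, eb] at q2
    linear_combination q2)
  have hkk : k * k' = (g : ℤ) ^ 2 := by
    have h0 : α0 ^ 2 ≠ 0 := pow_ne_zero 2 hα0
    apply mul_right_cancel₀ h0
    rw [s1, s2, ea] at p1'
    linear_combination p1'
  have hk0 : k ≠ 0 := by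
    rintro rfl
    rw [zero_mul] at hkk
    exact pow_ne_zero 2 hg' hkk.symm
  have hk0' : k' ≠ 0 := by
    rintro rfl
    rw [mul_zero] at hkk
    exact pow_ne_zero 2 hg' hkk.symm
  -- bounds
  have hgM : (g : ℤ) ≤ M := by
    have aux : ∀ x y : ℤ, β * x - α * y ≠ 0 → |β * x - α * y| ≤ M → (g : ℤ) ≤ M := by
      intro x y h1 h2
      have e : β * x - α * y = (g : ℤ) * (β0 * x - α0 * y) := by
        rw [ea, eb]
        ring
      have h3 : β0 * x - α0 * y ≠ 0 := by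
        intro h
        apply h1
        rw [e, h, mul_zero]
      have h4 := abs_le_mul e h3
      rw [Nat.abs_cast] at h4
      linarith
    rcases hne with (h | h) | (h | h)
    · exact aux _ _ h hM1
    · exact aux _ _ h hM2
    · exact aux _ _ h hM3
    · exact aux _ _ h hM4
  have hv' : v0 ≠ 0 ∨ v1 ≠ 0 := by
    by_contra h
    push Not at h
    rw [h.1, h.2] at hv
    exact not_isCoprime_zero_zero hv
  have hp' : p0 ≠ 0 ∨ p1 ≠ 0 := by
    by_contra h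
    push Not at h
    rw [h.1, h.2] at hp
    exact not_isCoprime_zero_zero hp
  have bp0 : |p0| ≤ M := by
    rcases hv' with h | h
    · exact (abs_le_mul (y := p0) (z := c * v0) (by rw [e00]; ring) (mul_ne_zero hc h)).trans hM1
    · exact (abs_le_mul (y := p0) (z := c * v1) (by rw [e01]; ring) (mul_ne_zero hc h)).trans hM2
  have bp1 : |p1| ≤ M := by
    rcases hv' with h | h
    · exact (abs_le_mul (y := p1) (z := c * v0) (by rw [e10]; ring) (mul_ne_zero hc h)).trans hM3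
    · exact (abs_le_mul (y := p1) (z := c * v1) (by rw [e11]; ring) (mul_ne_zero hc h)).trans hM4
  have bv0 : |v0| ≤ M := by
    rcases hp' with h | h
    · exact (abs_le_mul (y := v0) (z := c * p0) (by rw [e00]; ring) (mul_ne_zero hc h)).trans hM1
    · exact (abs_le_mul (y := v0) (z := c * p1) (by rw [e10]; ring) (mul_ne_zero hc h)).trans hM3
  have bv1 : |v1| ≤ M := by
    rcases hp' with h | h
    · exact (abs_le_mul (y := v1) (z := c * p0) (by rw [e01]; ring) (mul_ne_zero hc h)).trans hM2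
    · exact (abs_le_mul (y := v1) (z := c * p1) (by rw [e11]; ring) (mul_ne_zero hc h)).trans hM4
  have hkM : |k| ≤ M ^ 2 := by
    have h1 := abs_le_mul (x := (g : ℤ) ^ 2) (y := k) (z := k') hkk.symm hk0'
    have h2 : (g : ℤ) ^ 2 ≤ M ^ 2 := pow_le_pow_left₀ (Nat.cast_nonneg _) hgM 2
    rw [abs_of_nonneg (show (0 : ℤ) ≤ (g : ℤ) ^ 2 by positivity)] at h1
    exact h1.trans h2
  refine ⟨-p1, p0, v0, v1, κ1, k, g, ⟨A, B, hAB⟩, hv, by rw [abs_neg]; exact bp1, bp0, bv0, bv1,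
    hg, hgM, hk0, hkM, ?_, by linear_combination k10, by linear_combination k11⟩
  rw [s1, ea]
  ring

end RoM

open RoM

theorem stmtRo : StmtRo := by
  intro h₁ h₂ α β hS hα hne B hB
  have d1 := hS 1 0
  have d2 := hS 0 1
  have d3 := hS 1 1
  simp only [one_smul, zero_smul, add_zero, zero_add, Matrix.det_fin_two, Matrix.add_apply,
    mul_one, mul_zero] at d1 d2 d3
  have entry : ∀ i j, (β • h₁ - α • h₂) i j = β * h₁ i j - α * h₂ i j := fun i j => by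
    rw [Matrix.sub_apply, Matrix.smul_apply, Matrix.smul_apply, smul_eq_mul, smul_eq_mul]
  have hne' : ((β * h₁ 0 0 - α * h₂ 0 0 ≠ 0) ∨ (β * h₁ 0 1 - α * h₂ 0 1 ≠ 0)) ∨
      ((β * h₁ 1 0 - α * h₂ 1 0 ≠ 0) ∨ (β * h₁ 1 1 - α * h₂ 1 1 ≠ 0)) := by
    by_contra h
    push Not at h
    apply hne
    ext i j
    rw [entry]
    fin_cases i <;> fin_cases j
    · exact h.1.1
    · exact h.1.2
    · exact h.2.1
    · exact h.2.2
  have hBM : ∀ i j, |β * h₁ i j - α * h₂ i j| ≤ ⌊B⌋ := by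
    intro i j
    rw [Int.le_floor, Int.cast_abs, ← entry]
    exact hB i j
  have hB0 : (⌊B⌋ : ℝ) ≤ B := Int.floor_le B
  obtain ⟨u0, u1, v0, v1, κ, k, g, r1, r2, r3, r4, r5, r6, r7, r8, r9, r10, r11, r12, r13⟩ :=
    core (a1 := h₁ 0 0) (b1 := h₁ 0 1) (c1 := h₁ 1 0) (d1 := h₁ 1 1) (a2 := h₂ 0 0)
      (b2 := h₂ 0 1) (c2 := h₂ 1 0) (d2 := h₂ 1 1) hα d1 d2 (by linear_combination d3 - d1 - d2)
      hne' ⌊B⌋ (hBM 0 0) (hBM 0 1) (hBM 1 0) (hBM 1 1)
  have cast : ∀ z : ℤ, |z| ≤ ⌊B⌋ → |(z : ℝ)| ≤ B := fun z hz => by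
    have : ((|z| : ℤ) : ℝ) ≤ ⌊B⌋ := by exact_mod_cast hz
    rw [Int.cast_abs] at this
    linarith
  have hg1 : (1 : ℝ) ≤ g := by exact_mod_cast r7
  have hgB : (g : ℝ) ≤ B := by
    have : ((g : ℤ) : ℝ) ≤ ⌊B⌋ := by exact_mod_cast r8
    rw [Int.cast_natCast] at this
    linarith
  refine ⟨![u0, u1], ![v0, v1], κ, k, g, r1, r2, ?_, ?_, r7, hgB, r9, ?_, r11, ?_⟩
  · intro i
    fin_cases i
    · exact cast _ r3
    · exact cast _ r4
  · intro i
    fin_cases i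
    · exact cast _ r5
    · exact cast _ r6
  · have h1 : ((|k| : ℤ) : ℝ) ≤ ((⌊B⌋ ^ 2 : ℤ) : ℝ) := by exact_mod_cast r10
    rw [Int.cast_abs, Int.cast_pow] at h1
    have h0 : (0 : ℝ) ≤ ⌊B⌋ := by
      have : ((g : ℤ) : ℝ) ≤ ⌊B⌋ := by exact_mod_cast r8
      rw [Int.cast_natCast] at this
      linarith
    exact h1.trans (pow_le_pow_left₀ h0 hB0 2)
  · intro j
    fin_cases j
    · exact r12
    · exact r13

end Pool.Agent.A54.HSF
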