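import Pool.Agent.Lib.MP_a54f13_nt.Hp.SpecL

/-!
# Project H*, part (F): tubes and N-type conics, Hecke eigenfunctions with small eigenvalues

(helper83; notes 4657 (helper30), 4659 and mail of 14:56, MP_a54f13_nt.) `G = SL(2, ℝ)`, `Φ` a Hecke eigenfunction (`Hp.HE l Φ`), `P` a finite set of
primes `≥ 5` with `|l(p)| ≤ 1`. LEMMA U (`StmtCol`): let `V ⊆ Om R` and let `n ∈ ℤ³` be primitive such that every integral `m` of determinant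
`(p p')^k`, `k ∈ {1, 2}`, `p, p' ∈ P`, with `x, nm(m) x ∈ V` for some `x` has `uu m ∈ ℤ n`. Then `|P| ms(V) ≤ 8 (4R²+1)⁴`. COROLLARY 1
(`StmtTS`): tubes. COROLLARY 2 (`StmtNC`): N-type conics `{x : |q_x(a,b) - c₀| ≤ e}`.

Conventions: file `Pool/Agent/Lib/HS/F/<Name>.lean` importing `Pool.Agent.Lib.HS.F.Spec`, private names in `namespace Pool.Agent.A54.HSF.<Name>M`,
final theorem `stmt<Name> : Stmt<Name>` in the namespace `Pool.Agent.A54.HSF`; the used statements are hypotheses. At most 300 lines per module.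
Useful: `Hp/Nm.lean` (`NmM.nm_of`, `NmM.mul_ij`, `stmtNm`), `Dyn/Base.lean` (`inv_00`, .., `det_eq`), `Hp/LBase.lean` (`xi_mul_0`, .., `Om_mul`, `Om_inv`), `Hp/HI.lean`,
`Hp/Tot.lean` (counting the `γ`), `Hp/Hk2.lean`.
-/

set_option autoImplicit false

namespace Pool.Agent.A54.HSF

open MeasureTheory Filter Topology Set
open scoped UpperHalfPlane MatrixGroups ENNReal
open Pool.Agent.A54.Dyn (G fl base ze io mk4 dom)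
open Pool.Agent.A54.Av (Mat)
open Pool.Agent.A54.Hp (nu nm Mn Om Nb bt xi uu pr nz Tb ms FF HE Pm GdC GdK StmtNuL StmtUnf StmtNm)

noncomputable section

/-- representatives of determinant `n` -/
def UT (n c : ℕ) : Mat := !![1, (c : ℤ); 0, (n : ℤ)]

/-- their adjugates -/
def AT (n c : ℕ) : Mat := !![(n : ℤ), -(c : ℤ); 0, 1]

/-- the binary quadratic form `n₂ s² - n₀ s t - n₁ t²` at `(-c, 1)`: `det(v, X v)` for `v = (-c, 1)`, `X = (n₀, n₁; n₂, 0)` -/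
def Fq (n : Fin 3 → ℤ) (c : ℕ) : ℤ := n 2 * (c : ℤ) ^ 2 + n 0 * (c : ℤ) - n 1

/-- the good residues mod `p ^ k` -/
def Gr (n : Fin 3 → ℤ) (p k : ℕ) : Finset ℕ := (Finset.range (p ^ k)).filter (fun c => ¬ (p : ℤ) ∣ Fq n c)

/-- primitive vectors -/
def Prim (n : Fin 3 → ℤ) : Prop := ∃ a : Fin 3 → ℤ, a 0 * n 0 + a 1 * n 1 + a 2 * n 2 = 1

/-- primes `≥ 5` with small eigenvalue -/
def Sml (l : ℕ → ℝ) (P : Finset ℕ) : Prop := ∀ p ∈ P, p.Prime ∧ 5 ≤ p ∧ |l p| ≤ 1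

/-- the returns `(p, c, γ)` of `z` to `V` at level `k` -/
def Rt (P : Finset ℕ) (n : Fin 3 → ℤ) (k : ℕ) (V : Set G) (z : G) : Set (ℕ × ℕ × SL(2, ℤ)) :=
  {y | y.1 ∈ P ∧ y.2.1 ∈ Gr n y.1 k ∧ nm (AT (y.1 ^ k) y.2.1 * (y.2.2 : Mat)) * z ∈ V}

/-- all integral matrices of determinant `(p p')^k` mapping a point of `V` into `V` have traceless part in `ℤ n` -/
def Colp (n : Fin 3 → ℤ) (P : Finset ℕ) (V : Set G) : Prop :=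
  ∀ k : ℕ, 1 ≤ k → k ≤ 2 → ∀ p ∈ P, ∀ p' ∈ P, ∀ m : Mat, m.det = (((p * p') ^ k : ℕ) : ℤ) → ∀ x ∈ V,
    nm m * x ∈ V → ∃ j : ℤ, ∀ i, uu m i = j * n i

/-- the quadratic form of the geodesic of `x` at the row vector `(a, b)` -/
def qx (x : G) (a b : ℝ) : ℝ := (a * x 0 0 + b * x 1 0) * (a * x 0 1 + b * x 1 1)

/-- the conic neighbourhood -/
def Cn (R : ℝ) (u : Fin 2 → ℤ) (c₀ e : ℝ) : Set G := {x | x ∈ Om R ∧ |qx x (u 0) (u 1) - c₀| ≤ e}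

/-! ### Lemma U -/

/-- **Gd** the number of good residues. Proof. `Gr n p 1` are the `c < p` with `n₂ c² + n₀ c - n₁ ≠ 0` in the field `ZMod p`; not all of `n₀, n₁, n₂` vanish mod `p`
(`Prim`), so at most two `c < p` are roots (`c, c', c''` pairwise distinct roots: subtract: `n₂ (c + c') + n₀ = 0 = n₂ (c + c'') + n₀`, so `n₂ = 0`, `n₀ = 0`, `n₁ = 0`; or
`Polynomial.card_roots'`). `p ≤ 2 (p - 2)` for `p ≥ 5`. Second part: `Fq n (b + p b') ≡ Fq n b mod p`, and `(b, b') ↦ b + p b'` is a bijection from `range p × range p` to `range (p²)`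
(e.g. by `Finset.sum_nbij'` with `c ↦ (c % p, c / p)`). -/
def StmtGd : Prop := ∀ (n : Fin 3 → ℤ) (p : ℕ), Prim n → p.Prime → 5 ≤ p →
  p ≤ 2 * (Gr n p 1).card ∧
  ∀ f : ℕ → ℝ≥0∞, ∑ c ∈ Gr n p 2, f c = ∑ b ∈ Gr n p 1, ∑ b' ∈ Finset.range p, f (b + p * b')

/-- **Id** the identity of helper30 (uses `Nm`, `Gd`). Proof. For `b < p` apply `HE.hecke` at `y = nm (UT p b) * x`: `nm (p,0;0,1) * y = nm ((p,0;0,1) (1,b;0,p)) * x = nm (p • (1,b;0,1)) * x = io (1,b;0,1) * x` (`Nm` (4), (2)), so this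
term is `Φ x`; `(1,b';0,p) (1,b;0,p) = (1, b + p b'; 0, p²)`. So `Φ x = √p l(p) Φ(nm (UT p b) x) - ∑_{b' < p} Φ(nm (UT (p²) (b + p b')) x)`, and by Cauchy–Schwarz, `|l(p)| ≤ 1`:
`|Φ x|² ≤ 2 p |Φ(nm (UT p b) x)|² + 2 p ∑_{b'} |Φ(nm (UT (p²) (b + p b')) x)|²`. Sum over `b ∈ Gr n p 1`; `#(Gr n p 1) ≥ p/2` (`Gd`); the double sum is the sum over `Gr n p 2` (`Gd`). -/
def StmtId : Prop := ∀ (l : ℕ → ℝ) (Φ : G → ℂ), HE l Φ → ∀ p : ℕ, p.Prime → 5 ≤ p → |l p| ≤ 1 →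
  ∀ n : Fin 3 → ℤ, Prim n → ∀ x : G,
    ‖Φ x‖ₑ ^ 2 ≤ 4 * (∑ c ∈ Gr n p 1, ‖Φ (nm (UT (p ^ 1) c) * x)‖ₑ ^ 2 + ∑ c ∈ Gr n p 2, ‖Φ (nm (UT (p ^ 2) c) * x)‖ₑ ^ 2)

/-- **Uf** unfolding (uses `NuL`, `Unf`, `Nm`, `Id`). Proof. Integrate `Id` over `V` and sum over `P`. For each `s = UT (p^k) c` (`det = p^k > 0`) by left invariance `∫⁻_V ‖Φ(nm s x)‖² dν(x) = ∫⁻ F(z) dν(z)`,
`F(z) = 1_V((nm s)⁻¹ z) ‖Φ z‖²`, and by `Unf` `2 ∫⁻ F = ∑_γ ∫⁻_{FF} F(γ z) = ∫⁻_{FF} ‖Φ z‖² ∑_γ 1_V(nm (AT (p^k) c γ) z)` (`(nm s)⁻¹ = nm (adj s) = nm (AT ..)`, `Nm`; `Φ(γ z) = Φ(z)`; `lintegral_tsum`). The sum over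
`p ∈ P`, `c ∈ Gr n p k`, `γ` of `1_V(nm (AT (p^k) c γ) z)` is `(Rt P n k V z).encard ≤ N` (`ENNReal.tsum_set_one`, `tsum` over `ℕ × ℕ × SL(2, ℤ)` of an indicator function, `ENNReal.tsum_prod`; only `≤` is needed).
So `|P| ms(V) ≤ 4 · 2 · (1/2) N ∫⁻_{FF} ‖Φ‖² ≤ 8 N` (`HE.norm`). -/
def StmtUf : Prop := ∀ (l : ℕ → ℝ) (Φ : G → ℂ), HE l Φ → ∀ V : Set G, MeasurableSet V → ∀ P : Finset ℕ, Sml l P →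
  ∀ n : Fin 3 → ℤ, Prim n → ∀ N : ℕ, (∀ k : ℕ, 1 ≤ k → k ≤ 2 → ∀ z : G, (Rt P n k V z).encard ≤ N) →
    (P.card : ℝ≥0∞) * ms Φ V ≤ 8 * N

/-- **Al** the algebra. Proof. `h = AT (p^k) c γ`, `h' = AT (p'^k) c' γ'`, `m = h' adj(h)`, `det m = (p p')^k`, `uu m = j n`: `m = α + j X`, `α = m₁₁`, `X = (n₀, n₁; n₂, 0)`. (1) `m h = p^k h'`, so `m AT (p^k) c = p^k h' γ⁻¹`, and its
second column gives `p^k ∣ -c m₀₀ + m₀₁` and `p^k ∣ -c m₁₀ + m₁₁`. The second one: `α ≡ c j n₂`; the first one: `-c α - c j n₀ + j n₁ ≡ 0`, so `j Fq n c ≡ 0 mod p^k`. `Fq n c` is prime to `p` (`Gr`), so `p^k ∣ j`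
(`IsCoprime`, `Int.isCoprime_iff_gcd_eq_one`), `p^k ∣ α`, so `p^k` divides all entries of `m`. (2) `adj m = h adj(h')`, `uu (adj m) = - j n`: in the same way `p'^k` divides all entries of `adj m`, so of `m`. (3) If `p ≠ p'` then `(p p')^k`
divides all entries of `m`, so `(p p')^(2k) ∣ det m = (p p')^k`: impossible. (4) `p = p'`: `m = p^k δ`, `det δ = 1`, and `p^k h' = m h = p^k δ h`. -/
def StmtAl : Prop := ∀ n : Fin 3 → ℤ, Prim n → ∀ k : ℕ, 1 ≤ k → ∀ p p' : ℕ, p.Prime → p'.Prime → ∀ c c' : ℕ,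
  c ∈ Gr n p k → c' ∈ Gr n p' k → ∀ γ γ' : SL(2, ℤ),
    (∃ j : ℤ, ∀ i, uu ((AT (p' ^ k) c' * (γ' : Mat)) * (AT (p ^ k) c * (γ : Mat)).adjugate) i = j * n i) →
      p = p' ∧ ∃ δ : SL(2, ℤ), AT (p' ^ k) c' * (γ' : Mat) = (δ : Mat) * (AT (p ^ k) c * (γ : Mat))

/-- **Ct** the number of returns (uses `Nm`, `Al`). Proof. Fix `y = (p, c, γ) ∈ Rt P n k V z` (if it is empty the claim is trivial), `h = AT (p^k) c γ`. Let `y' = (p', c', γ') ∈ Rt`, `h' = AT (p'^k) c' γ'`, `m = h' adj(h)`, `det m = (p p')^k`;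
`x = nm h z ∈ V`, `nm m x = nm (m h) z = nm (p^k • h') z = nm h' z ∈ V`. By `Colp` and `Al`: `p' = p` and `h' = δ h`. `io δ = (nm h' z) (nm h z)⁻¹`, both in `Om R`, so `|δ_ij| ≤ 2R²`. The map `y' ↦ δ` is injective: `δ` determines `h'`, and
`AT q c' γ' = AT q c'' γ''` with `c', c'' < q`: `UT q c'' AT q c' = q (1, (c'' - c')..)`: `q γ'' γ'⁻¹ = UT q c'' AT q c' = (q, c'' - c'; 0, q)`, so `q ∣ c'' - c'`, `c' = c''`, `γ' = γ''`. The number of `δ : Mat` with `|δ_ij| ≤ 2R²` is at most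
`(2 ⌊2R²⌋ + 1)⁴ ≤ (4R² + 1)⁴`. -/
def StmtCt : Prop := ∀ R : ℝ, 1 ≤ R → ∀ V : Set G, V ⊆ Om R → ∀ P : Finset ℕ, (∀ p ∈ P, p.Prime) →
  ∀ n : Fin 3 → ℤ, Prim n → Colp n P V → ∀ k : ℕ, 1 ≤ k → k ≤ 2 → ∀ z : G,
    (Rt P n k V z).encard ≤ (((2 * ⌊2 * R ^ 2⌋₊ + 1) ^ 4 : ℕ) : ℕ∞)

/-- **Col** LEMMA U (uses `Uf`, `Ct`). -/
def StmtCol : Prop := ∀ (l : ℕ → ℝ) (Φ : G → ℂ), HE l Φ → ∀ R : ℝ, 1 ≤ R → ∀ V : Set G, MeasurableSet V → V ⊆ Om R →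
  ∀ P : Finset ℕ, Sml l P → ∀ n : Fin 3 → ℤ, Prim n → Colp n P V →
    (P.card : ℝ≥0∞) * ms Φ V ≤ ENNReal.ofReal (8 * (4 * R ^ 2 + 1) ^ 4)

/-! ### Tubes -/

/-- **Cr** near-stabilisers of a tube are parallel to it (uses `Nm`). Proof. `x, x' = nm m x ∈ Tb R ζ η`. With `X(ξ) = (ξ₀, 2ξ₁; 2ξ₂, -ξ₀)`, `X(xi g) = g diag(1,-1) g⁻¹`: `X(xi x') = nm m X(xi x) (nm m)⁻¹`, so `m X(xi x) = X(xi x') m` and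
`m X(ζ) - X(ζ) m = m (X(ζ) - X(xi x)) - (X(ζ) - X(xi x')) m` has entries at most `8 B η` if `|m_ij| ≤ B`; `B = 2 R² √(det m)` (`Nm` (5)). With `u = uu m` the entries of `m X(ζ) - X(ζ) m` are
`2 (u₁ ζ₂ - u₂ ζ₁)`, `2 (u₀ ζ₁ - u₁ ζ₀)`, `2 (u₂ ζ₀ - u₀ ζ₂)`. (All entries can also be checked with `xi_mul_0` etc. of `Hp/LBase.lean`: `xi (nm m * x)` in terms of `xi x`.) -/
def StmtCr : Prop := ∀ (R η : ℝ) (ζ : Fin 3 → ℝ), 1 ≤ R → 0 ≤ η → ∀ m : Mat, 0 < m.det → ∀ x ∈ Tb R ζ η, nm m * x ∈ Tb R ζ η →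
  ∀ i j : Fin 3, |(uu m i : ℝ) * ζ j - (uu m j : ℝ) * ζ i| ≤ 8 * R ^ 2 * √((m.det : ℤ) : ℝ) * η

/-- **Par** (uses `Cr`, `Nm`). Proof. `det m ≤ M⁴`, so `|uu m| ≤ U = 4 R² M²` (`Nm` (5)) and the cross products of `uu m` with `ζ` are at most `ε = 8 R² M² η` (`Cr`). `ζ` is within `η ≤ 1/100` of `xi x`, `(xi x)₀² + 4 (xi x)₁ (xi x)₂ = 1`, so some `|ζ_r| ≥ 1/4`,
and `|ζ_i| ≤ 2R² + 1`. For `u = uu m`, `u' = uu m'`: `ζ_r² (u_i u'_j - u_j u'_i) = (u_i ζ_r)(u'_j ζ_r) - (u_j ζ_r)(u'_i ζ_r)` and `u_i ζ_r = u_r ζ_i + O(ε)`: absolute value at most `4 U (2R²+1) ε + 2 ε²`; times `16` it is `< 1` if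
`10⁴ R⁶ M⁴ η < 1`. The integer is `0`. (2) A set `S ⊆ ℤ³` whose elements are pairwise parallel (`u_i u'_j = u_j u'_i`) lies in `ℤ n` for a primitive `n`: if `S ⊆ {0}` take `n = (1,0,0)`; otherwise `u ∈ S`, `u ≠ 0`,
`n = u/gcd(u)` with Bezout coefficients `a`; every `u'` parallel to `n` is `(∑ a_i u'_i) n`. -/
def StmtPar : Prop := ∀ R : ℝ, 1 ≤ R → ∃ C : ℝ, 1 ≤ C ∧ ∀ (M η : ℝ) (ζ : Fin 3 → ℝ), 1 ≤ M → 0 ≤ η →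
  C * (M ^ 4 * η) ≤ 1 → ∀ P : Finset ℕ, (∀ p ∈ P, p.Prime ∧ (p : ℝ) ≤ M) → ∃ n : Fin 3 → ℤ, Prim n ∧ Colp n P (Tb R ζ η)

/-- **TS** tubes (uses `Par`, `Col`). Proof. `Tb R ζ η` is closed. -/
def StmtTS : Prop := ∀ R : ℝ, 1 ≤ R → ∃ C : ℝ, 1 ≤ C ∧ ∀ (l : ℕ → ℝ) (Φ : G → ℂ), HE l Φ → ∀ (M η : ℝ) (ζ : Fin 3 → ℝ),
  1 ≤ M → 0 ≤ η → C * (M ^ 4 * η) ≤ 1 → ∀ P : Finset ℕ, Sml l P → (∀ p ∈ P, (p : ℝ) ≤ M) →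
    (P.card : ℝ≥0∞) * ms Φ (Tb R ζ η) ≤ ENNReal.ofReal C

/-! ### Conics -/

/-- **Dq** the quadratic form is determined by two values (pure algebra). `ξ = xi x`, `qx x s t = -ξ₁ s² + ξ₀ s t + ξ₂ t²`, `ξ₀² + 4 ξ₁ ξ₂ = 1`. For `u, v ∈ ℤ²` with `δ = u₀ v₁ - u₁ v₀ ≠ 0`, `A = qx x u`, `A' = qx x v` and
`B = qx x (u + v) - A - A'`: `B² = δ² + 4 A A'` (`δ² · disc`), and `qx x (α u + β v) = A α² + B α β + A' β²`, `(s, t) = α u + β v` with `α = (s v₁ - t v₀)/δ`, `β = (t u₀ - s u₁)/δ`, so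
`ξ₁ = -(A v₁² - B u₁ v₁ + A' u₁²)/δ²`, `ξ₂ = (A v₀² - B u₀ v₀ + A' u₀²)/δ²`, `ξ₀ = (- 2 A v₀ v₁ + B (u₀ v₁ + u₁ v₀) - 2 A' u₀ u₁)/δ²` (check: `field_simp`, `ring` with `x₀₀ x₁₁ - x₀₁ x₁₀ = 1`). So if `|A - a| ≤ ε`, `|A' - a'| ≤ ε` with
`a a' ≥ 0`, `|a|, |a'| ≤ T`, `0 < ε ≤ 1 ≤ T`, `|u_i|, |v_i| ≤ L`: `B₀ = √(δ² + 4 a a') ≥ 1`, `||B| - B₀| ≤ |B² - B₀²|/B₀ ≤ 4 |A A' - a a'| ≤ 12 T ε`, and `xi x` is within `52 T L² ε` of the point `ζ_{±}` given by the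
formulas with `(a, ± B₀, a')`. -/
def StmtDq : Prop := ∀ (u v : Fin 2 → ℤ) (a a' T L ε : ℝ), u 0 * v 1 - u 1 * v 0 ≠ 0 → 0 ≤ a * a' → |a| ≤ T → |a'| ≤ T →
  0 ≤ ε → ε ≤ 1 → 1 ≤ T → (∀ i, |(u i : ℝ)| ≤ L) → (∀ i, |(v i : ℝ)| ≤ L) →
    ∃ ζ : Bool → Fin 3 → ℝ, ∀ x : G, |qx x (u 0) (u 1) - a| ≤ ε → |qx x (v 0) (v 1) - a'| ≤ ε →
      ∃ s : Bool, ∀ i, |xi x i - ζ s i| ≤ 52 * T * L ^ 2 * ε

/-- **Nt** N-type (uses `Nm`). `u = (a, b)` primitive, `m` integral, `det m = D > 0`, `x, x' = nm m x ∈ Cn R u c₀ e`, `v = u m` (row vector). Proof. `(u x')_k = ((u m) x)_k/√D`, so `D qx x' u = qx x v`: `|qx x v - D c₀| ≤ D e`, `|v_i| ≤ 4 R² √D H` (`Nm` (5)). If `u₀ v₁ - u₁ v₀ = 0`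
then `v = ρ u` with `ρ ∈ ℤ` (`u` primitive), `ρ² qx x u = qx x v`, so `|ρ² - D| |c₀| ≤ (ρ² + D) e`, `|ρ| ≤ 4 R² √D H·2` (Bezout is not needed: `|ρ| |u_i| = |v_i|` and some `|u_i| ≥ 1`), so if `|c₀| > (16 R⁴ H² + 1) D e` then `ρ² = D`. Then
`u (m - ρ) = 0` and `det m = ρ²`: `m - ρ` has rank `≤ 1` and trace `tr m - 2ρ`; `det (m - ρ) = 0` gives `D - ρ tr m + ρ² = 0`, so `tr m = 2ρ`. With `uu m = (m₀₀ - m₁₁, m₀₁, m₁₀)` and `a (m₀₀ - ρ) + b m₁₀ = 0`, `a m₀₁ + b (m₁₁ - ρ) = 0`,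
`m₁₁ - ρ = -(m₀₀ - ρ)`: `m₀₀ - ρ = -b j'`, `m₁₀ = a j'` for `j' ∈ ℤ` (`a, b` coprime), `a m₀₁ = b (m₀₀ - ρ) = -b² j'`, so `a ∣ j'` (coprime to `b²`), `j' = a j`: `uu m = j (-2ab, -b², a²)`. -/
def StmtNt : Prop := ∀ (R H c₀ e : ℝ) (u : Fin 2 → ℤ), 1 ≤ R → 1 ≤ H → 0 ≤ e → IsCoprime (u 0) (u 1) → (∀ i, |(u i : ℝ)| ≤ H) →
  ∀ m : Mat, 0 < m.det → (16 * R ^ 4 * H ^ 2 + 1) * ((m.det : ℤ) : ℝ) * e < |c₀| → ∀ x ∈ Cn R u c₀ e, nm m * x ∈ Cn R u c₀ e →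
    (∃ j : ℤ, ∀ i, uu m i = j * (![-2 * u 0 * u 1, -(u 1) ^ 2, (u 0) ^ 2] : Fin 3 → ℤ) i) ∨
    ∃ v : Fin 2 → ℤ, u 0 * v 1 - u 1 * v 0 ≠ 0 ∧ (∀ i, |(v i : ℝ)| ≤ 4 * R ^ 2 * H * √((m.det : ℤ) : ℝ)) ∧
      |qx x (v 0) (v 1) - ((m.det : ℤ) : ℝ) * c₀| ≤ ((m.det : ℤ) : ℝ) * e

/-- **Cov** the exceptional tubes (uses `Nt`, `Dq`). Proof. `C = C(R)` large. `P` primes `≤ M`, so `D = (p p')^k ≤ M⁴`. Finite set of indices `(v, D, s)`: `|v_i| ≤ 4 R² H M²`, `1 ≤ D ≤ M⁴`, `s : Bool`, at most `2 (8 R² H M² + 1)² M⁴ ≤ C (M H)^8` of them; tubes `ζ_{v,D,s}`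
of `Dq` for `(u, v)`, `a = c₀`, `a' = D c₀`, `ε = M⁴ e ≤ 1`, `T = M⁴ (4 R² H² + 1)` (if `Cn R u c₀ e` is not empty then `|c₀| ≤ 4 R² H² + e`), `L = 4 R² H M²`: radius `52 T L² ε ≤ C (M H)^12 e`. `V = Cn R u c₀ e` minus these
tubes: by `Nt` (with `D e (16 R⁴ H² + 1) < |c₀|`) and `Dq` it satisfies `Colp n P V` with `n = (-2ab, -b², a²)`, which is primitive (`(a, b)` coprime implies `(a², b²)` coprime). `J : ℕ` and `ζ : Fin J → ..` (`Finset.equivFin`). -/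
def StmtCov : Prop := ∀ R : ℝ, 1 ≤ R → ∃ C : ℝ, 1 ≤ C ∧ ∀ (M H c₀ e : ℝ) (u : Fin 2 → ℤ), 1 ≤ M → 1 ≤ H → 0 < e →
  IsCoprime (u 0) (u 1) → (∀ i, |(u i : ℝ)| ≤ H) → C * ((M * H) ^ 12 * e) ≤ 1 → C * ((M * H) ^ 4 * e) < |c₀| →
    ∀ P : Finset ℕ, (∀ p ∈ P, p.Prime ∧ (p : ℝ) ≤ M) → ∃ (J : ℕ) (ζ : Fin J → Fin 3 → ℝ) (n : Fin 3 → ℤ),
      (J : ℝ) ≤ C * (M * H) ^ 8 ∧ Prim n ∧ Colp n P (Cn R u c₀ e \ ⋃ i, Tb R (ζ i) (C * ((M * H) ^ 12 * e)))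

/-- **NC** N-type conics (uses `Cov`, `Col`, `TS`). Proof. `Cn` and `Tb` are closed. `ms (Cn) ≤ ms (Cn \ ⋃ Tb) + ∑ ms (Tb)`; `Col` with `P`, `TS` with `P'` and the radius `C (M H)^12 e`. -/
def StmtNC : Prop := ∀ R : ℝ, 1 ≤ R → ∃ C : ℝ, 1 ≤ C ∧ ∀ (l : ℕ → ℝ) (Φ : G → ℂ), HE l Φ → ∀ (M M' H c₀ e : ℝ) (u : Fin 2 → ℤ),
  1 ≤ M → 1 ≤ M' → 1 ≤ H → 0 < e → IsCoprime (u 0) (u 1) → (∀ i, |(u i : ℝ)| ≤ H) → C * (M' ^ 4 * (M * H) ^ 12 * e) ≤ 1 →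
  C * ((M * H) ^ 4 * e) < |c₀| → ∀ P P' : Finset ℕ, Sml l P → Sml l P' → P.Nonempty → P'.Nonempty → (∀ p ∈ P, (p : ℝ) ≤ M) → (∀ p ∈ P', (p : ℝ) ≤ M') →
    ms Φ (Cn R u c₀ e) ≤ ENNReal.ofReal (C * (1 / P.card + (M * H) ^ 8 / P'.card))

/-! ### The bad case -/

/-- **Bp** small eigenvalues in the bad case. Proof. `z = w^(-a)`, `1/(1000 K) ≤ a ≤ 9/10000`; `M = z` and `M = 2z` are in the window `[w^(-1/(1000 K)), w^(-1/1000)]` for small `w` (depending on `K`: `2 z ≤ w^(-1/1000)`), so both are bad: fewer than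
`(2z)^(1 - 1/10000)` primes of `(z, 2z]` and of `(2z, 4z]` have `|l p| ≥ M^(-1/10000)`, in particular `|l p| > 1`. `Th.stmtChP` (`Th/ChP.lean`): at least `z^(1-ε)` primes in `(z, 4z]`, `ε = 1/20000`. `P` = the others, `#P ≥ z^(1-1/20000) - 2 (2z)^(1-1/10000) ≥ z^(9/10)`. -/
def StmtBp : Prop := ∀ K : ℝ, 1 ≤ K → ∃ w₁ : ℝ, 0 < w₁ ∧ w₁ ≤ 1 ∧ ∀ (l : ℕ → ℝ) (w : ℝ), 0 < w → w ≤ w₁ → ¬ GdK K l w →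
  ∀ a : ℝ, 1 / (1000 * K) ≤ a → a ≤ 9 / 10000 → ∃ P : Finset ℕ, Sml l P ∧ P.Nonempty ∧ (∀ p ∈ P, (p : ℝ) ≤ 4 * w ^ (-a)) ∧
    w ^ (-(9 / 10 * a)) ≤ (P.card : ℝ)

/-- **FT** tubes in the bad case (uses `TS`, `Bp`). Proof. `a = 9/10000`, `M = 4 w^(-a)`: `C M⁴ w^(9/10) ≤ 1` for small `w`, `ms ≤ C w^(0.9 a) = C w^(0.00081) ≤ w^(1/1300)`. -/
def StmtFT : Prop := ∀ K R : ℝ, 2 ≤ K → 1 ≤ R → ∃ w₁ : ℝ, 0 < w₁ ∧ w₁ ≤ 1 ∧ ∀ (l : ℕ → ℝ) (Φ : G → ℂ), HE l Φ → ∀ w : ℝ, 0 < w → w ≤ w₁ →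
  ¬ GdK K l w → ∀ ζ : Fin 3 → ℝ, ms Φ (Tb R ζ (w ^ (9 / 10 : ℝ))) ≤ ENNReal.ofReal (w ^ (1 / 1300 : ℝ))

/-- **FC** N-type conics in the bad case (uses `NC`, `Bp`). Proof. `K ≥ 30`, `M = 4 w^(-a)` with `a = 1/30000`, `M' = 4 w^(-a')` with `a' = 9/10000`, `H = w^(-1/30000)`: `C M'^4 (M H)^12 e ≤ C' w^(-36/10000 - 24/30000 + 9/10) ≤ 1`, `C (M H)^4 e < w^(1/4) ≤ |c₀|`;
`ms ≤ C (w^(0.9/30000) + w^(-16/30000) w^(0.00081)) ≤ w^(1/40000)` (`0.00081 > 16/30000 + 1/40000`). -/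
def StmtFC : Prop := ∀ K R : ℝ, 30 ≤ K → 1 ≤ R → ∃ w₁ : ℝ, 0 < w₁ ∧ w₁ ≤ 1 ∧ ∀ (l : ℕ → ℝ) (Φ : G → ℂ), HE l Φ → ∀ w : ℝ, 0 < w → w ≤ w₁ →
  ¬ GdK K l w → ∀ u : Fin 2 → ℤ, IsCoprime (u 0) (u 1) → (∀ i, |(u i : ℝ)| ≤ w ^ (-(1 / 30000) : ℝ)) → ∀ c₀ e : ℝ, w ^ (1 / 4 : ℝ) ≤ |c₀| →
    0 < e → e ≤ w ^ (9 / 10 : ℝ) → ms Φ (Cn R u c₀ e) ≤ ENNReal.ofReal (w ^ (1 / 40000 : ℝ))

end

end Pool.Agent.A54.HSF
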