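import Pool.Agent.Lib.HS.F.Spec
import Pool.Agent.Lib.MP_a54f13_nt.Hp.SpecU

/-!
# Project H*, part (F): interface between rank two lattices with square determinant form and N-type conics

(helper83; last part of note 4659, MP_a54f13_nt; helper26's RANK LEMMA 4682.) If a plane `⟨h₁, h₂⟩` of returns from `x` to `y` has
`det (m h₁ + n h₂) = (α m + β n)²` then `y` is an N-type partner of `x` (`StmtPt`), and in the bad case the N-type partners of EVERY `x` have small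
mass (`StmtFN`). Conventions as in `HS/F/Spec.lean`.
-/

set_option autoImplicit false

namespace Pool.Agent.A54.HSF

open MeasureTheory Filter Topology Set
open scoped UpperHalfPlane MatrixGroups ENNReal
open Pool.Agent.A54.Dyn (G fl base ze io mk4 dom)
open Pool.Agent.A54.Av (Mat)
open Pool.Agent.A54.Hp (nu nm Mn Om Nb bt xi uu pr nz Tb ms FF HE Pm GdC GdK StmtNuL StmtUnf StmtNm cj Bxx Zc Csp StmtIsU)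

noncomputable section

/-- the N-type partners of `x` of height `L` and precision `e` -/
def NTs (R L e : ℝ) (x : G) : Set G :=
  {y | y ∈ Om R ∧ ∃ (u v : Fin 2 → ℤ) (a b : ℕ), IsCoprime (u 0) (u 1) ∧ IsCoprime (v 0) (v 1) ∧
    (∀ i, |(u i : ℝ)| ≤ L) ∧ (∀ i, |(v i : ℝ)| ≤ L) ∧ 1 ≤ a ∧ 1 ≤ b ∧ (a : ℝ) ≤ L ∧ (b : ℝ) ≤ L ∧
    |(a : ℝ) ^ 2 * qx y (u 0) (u 1) - (b : ℝ) ^ 2 * qx x (v 0) (v 1)| ≤ e}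

/-- the determinant is the square of a linear form on `⟨h₁, h₂⟩` -/
def SqD (h₁ h₂ : Mat) (α β : ℤ) : Prop := ∀ m n : ℤ, (m • h₁ + n • h₂).det = (α * m + β * n) ^ 2

/-- **Kr** height of the kernel vector `r = β h₁ - α h₂`. Proof. `b(s,t) = s₀₀ t₁₁ + s₁₁ t₀₀ - s₀₁ t₁₀ - s₁₀ t₀₁` is the polar form of `det`. `SqD` for `(1,0), (0,1), (1,1)`: `det h₁ = α²`, `det h₂ = β²`, `b(h₁,h₂) = 2αβ`, so `det r = 0`, `b(h₁, r) = 0`.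
`W(s) = cj y x s = y⁻¹ s x` has `det W(s) = det s` and `W` is linear, so the same identities hold for `W(h₁), W(r)`. `α² = det h₁ ≤ (KN)² + (N/K)² ≤ 2 (KN)²`, `β² ≤ 2 (KN)²`: `|W(r)₀₁|, |W(r)₁₀| ≤ 2 √2 KN · N/K ≤ 3N²`. `X = W(r)₀₀`, `Y = W(r)₁₁`,
`d₁ = W(h₁)₀₀`, `d₂ = W(h₁)₁₁`: `X Y = W(r)₀₁ W(r)₁₀`, so `|XY| ≤ 9 N⁴`; `d₁ Y + d₂ X = W(h₁)₀₁ W(r)₁₀ + W(h₁)₁₀ W(r)₀₁`, so `|d₁ Y + d₂ X| ≤ 6 N³/K`; `d₁ d₂ = det h₁ + W(h₁)₀₁ W(h₁)₁₀ ≥ (K/N)² - (N/K)² ≥ (K/N)²/2` (`K ≥ 2N`), `|d_i| ≤ KN`, so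
`|d_i| ≥ K/(2N³)`. `d₂ X² = X (d₁ Y + d₂ X) - d₁ X Y`: `X² ≤ |X| 12 N⁶/K² + 2N⁴ · 9N⁴`, so `|X| ≤ 12 N⁶ + 5 N⁴ ≤ 17 N⁶`; the same for `Y`. `r = y W(r) x⁻¹`: entries at most `4 R² · 17 N⁶`. -/
def StmtKr : Prop := ∀ R : ℝ, 1 ≤ R → ∀ x ∈ Om R, ∀ y ∈ Om R, ∀ K N : ℝ, 1 ≤ N → 2 * N ≤ K → ∀ (h₁ h₂ : Mat) (α β : ℤ),
  Bxx (K * N) (N / K) (cj y x h₁) → Bxx (K * N) (N / K) (cj y x h₂) → (K / N) ^ 2 ≤ ((h₁.det : ℤ) : ℝ) → SqD h₁ h₂ α β →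
    ∀ i j, |(((β • h₁ - α • h₂) i j : ℤ) : ℝ)| ≤ 68 * R ^ 2 * N ^ 6

/-- **Ro** algebra. Proof. `r = β h₁ - α h₂ ≠ 0` has `det r = 0`, `b(h₁, r) = b(h₂, r) = 0` (as in `Kr`). `r = c p ⊗ v` (`r_ij = c p_i v_j`) with `c ≠ 0`, `(p₀, p₁)`, `(v₀, v₁)` coprime: for integral matrices of rank one (`v` = a non-zero row divided by its gcd; every row is a
multiple of `v`: `r₀₀ r₁₁ = r₀₁ r₁₀`). `u = (-p₁, p₀)`. `b(s, p ⊗ v) = 0` says `(u s)₀ v₁ - (u s)₁ v₀ = 0` (check with `ring`), so `u s = κ(s) v` with `κ(s) ∈ ℤ` (`v` coprime: `κ = a (u s)₀ + b (u s)₁` if `a v₀ + b v₁ = 1`) for `s = h₁, h₂`. In the same way `v adj(s) = κ'(s) u`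
(`v adj(s)` is orthogonal to `p`), and `det(s) u = u s adj(s) = κ v adj(s) = κ κ' u`: `κ κ' = det`; `κ, κ'` are linear forms in `(m, n)`, `s = m h₁ + n h₂`. `κ₁ κ'₁ = α²`, `κ₂ κ'₂ = β²`, `κ₁ κ'₂ + κ₂ κ'₁ = 2αβ` (`κ₁ = κ(h₁)` ..), so
`κ₁ κ'₁ (β κ₁ - α κ₂)² = (β κ₁)² α² - 2 αβ κ₁κ₂ α² + ...`: more simply `(κ₁ β - κ₂ α)(κ'₁ β - κ'₂ α) = (κ κ')(β, -α) = (αβ - βα)² = 0`, so `κ₁ β = κ₂ α` or `κ'₁ β = κ'₂ α`; in the second case `κ₁ κ'₁ = α² ≠ 0` and `κ'₁ (κ₁ β - κ₂ α)` `= α² β - κ₂ κ'₁ α`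
`= α (αβ - κ₂ κ'₁)` and `κ₂ κ'₁ · β = κ₂ κ'₂ α = β² α` gives `κ₂ κ'₁ = αβ` if `β ≠ 0` (if `β = 0` then `κ'₂ = 0`, `κ₂ κ'₁ = 2αβ - κ₁ κ'₂ = 0`). So `κ₁ β = κ₂ α` and `κ'₁ β = κ'₂ α` always. `g = gcd(α, β) > 0`, `α = g α₀`, `β = g β₀`:
`κ₁ β₀ = κ₂ α₀`, so `α₀ ∣ κ₁`, `κ₁ = k α₀` (`k = κ₁ a' + κ₂ b'` if `a' α₀ + b' β₀ = 1`), `κ'₁ = k' α₀`, `k k' α₀² = α²`: `k k' = g²`, `k ≠ 0`, `|k| ≤ g²`. `r = g (β₀ h₁ - α₀ h₂)` with an integral matrix `≠ 0`, so `g ≤ B`; `|c p_i v_j| ≤ B`, so `|p_i|, |v_j| ≤ B`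
(some `|v_j| ≥ 1`, some `|p_i| ≥ 1`). -/
def StmtRo : Prop := ∀ (h₁ h₂ : Mat) (α β : ℤ), SqD h₁ h₂ α β → α ≠ 0 → β • h₁ - α • h₂ ≠ 0 → ∀ B : ℝ,
  (∀ i j, |(((β • h₁ - α • h₂) i j : ℤ) : ℝ)| ≤ B) → ∃ (u v : Fin 2 → ℤ) (κ k : ℤ) (g : ℕ), IsCoprime (u 0) (u 1) ∧ IsCoprime (v 0) (v 1) ∧
    (∀ i, |(u i : ℝ)| ≤ B) ∧ (∀ i, |(v i : ℝ)| ≤ B) ∧ 1 ≤ g ∧ (g : ℝ) ≤ B ∧ k ≠ 0 ∧ |(k : ℝ)| ≤ B ^ 2 ∧ κ * g = k * α ∧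
    (∀ j, u 0 * h₁ 0 j + u 1 * h₁ 1 j = κ * v j)

/-- **Pt** N-type pairs (uses `Kr`, `Ro`). Proof. `α² = det h₁ ≥ (K/N)² > 0`. `B = 68 R² N⁶`. `h₁ x = y W`, `W = cj y x h₁`, so with `U = u y` (row), `V = v x`: `κ V = u h₁ x = U W`: `κ V₀ = U₀ W₀₀ + U₁ W₁₀`, `κ V₁ = U₀ W₀₁ + U₁ W₁₁`, and
`κ² V₀ V₁ = det(W) U₀ U₁ + 2 W₀₁ W₁₀ U₀ U₁ + W₀₀ W₀₁ U₀² + W₁₀ W₁₁ U₁²`, `U₀ U₁ = qx y u`, `V₀ V₁ = qx x v`, `|U_i| ≤ 2 R B`; the last three terms are at most `4 N² (2RB)²` (`K ≥ 1`). Multiply by `g²/α²` (`κ g = k α`, `det W = α²`, `α² ≥ (K/N)²`):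
`|k² qx x v - g² qx y u| ≤ B² · 4 N² (2RB)² N²/K²`. `a = g`, `b = |k|`, `L = C N^12`. -/
def StmtPt : Prop := ∀ R : ℝ, 1 ≤ R → ∃ C : ℝ, 1 ≤ C ∧ ∀ x ∈ Om R, ∀ y ∈ Om R, ∀ K N : ℝ, 1 ≤ N → 2 * N ≤ K → ∀ (h₁ h₂ : Mat) (α β : ℤ),
  Bxx (K * N) (N / K) (cj y x h₁) → Bxx (K * N) (N / K) (cj y x h₂) → (K / N) ^ 2 ≤ ((h₁.det : ℤ) : ℝ) → SqD h₁ h₂ α β →
    β • h₁ - α • h₂ ≠ 0 → y ∈ NTs R (C * N ^ 12) (C * N ^ 28 / K ^ 2) x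

/-- **Zq** small values of `q` are in the cusp set. Proof. `(u y)₀ (u y)₁` is at most `δ` in absolute value, so one factor is at most `√δ`, the other at most `2RL`. With `ũ = (u₁, -u₀)`: `y₁₁ ũ₀ - y₀₁ ũ₁ = (u y)₁`, `-y₁₀ ũ₀ + y₀₀ ũ₁ = -(u y)₀`. -/
def StmtZq : Prop := ∀ (R L δ : ℝ) (u : Fin 2 → ℤ), 0 ≤ δ → IsCoprime (u 0) (u 1) → (∀ i, |(u i : ℝ)| ≤ L) → ∀ y ∈ Om R,
  |qx y (u 0) (u 1)| ≤ δ → y ∈ Zc R (√δ) (2 * R * L)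

/-- **FN** the N-type partners in the bad case (uses `FC`, `Zq`, `IsU`). Proof. For `y ∈ NTs` with `(u, v, a, b)`: `c₀ = (b/a)² qx x v`, `|qx y u - c₀| ≤ w^(19/20)`. If `|c₀| ≥ w^(1/4)`: `y ∈ Cn R u c₀ (w^(19/20))`, of mass `≤ w^(1/40000)` (`FC`, `w^(19/20) ≤ w^(9/10)`). Otherwise
`|qx y u| ≤ 2 w^(1/4)`, `y ∈ Zc R (√(2 w^(1/4))) (2 R w^(-1/10^6))`, of mass at most `C (√2 w^(1/8) 2 R w^(-1/10^6))^(1/4) ≤ w^(1/40000)` (`IsU`; `Zc` is monotone in `K`, so `η ≤ K` is no problem). Number of `(u, v, a, b)`: at most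
`(2 w^(-1/10^6) + 1)⁴ w^(-2/10^6) ≤ 81 w^(-6/10^6)`; `1/40000 - 6/10^6 = 0.000019 > 1/60000`. Countable (finite) union: `lintegral` over a union is at most the sum, also for non-measurable sets. -/
def StmtFN : Prop := ∀ K R : ℝ, 30 ≤ K → 1 ≤ R → ∃ w₁ : ℝ, 0 < w₁ ∧ w₁ ≤ 1 ∧ ∀ (l : ℕ → ℝ) (Φ : G → ℂ), HE l Φ → Csp Φ →
  ∀ w : ℝ, 0 < w → w ≤ w₁ → ¬ GdK K l w → ∀ x : G,
    ms Φ (NTs R (w ^ (-(1 / 1000000) : ℝ)) (w ^ (19 / 20 : ℝ)) x) ≤ ENNReal.ofReal (w ^ (1 / 60000 : ℝ))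

end

end Pool.Agent.A54.HSF
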