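import Pool.Agent.Lib.HS.F.Spec

/-!
# Project H*, part (F), module `TS`: tubes
-/

set_option autoImplicit false

namespace Pool.Agent.A54.HSF

open MeasureTheory Filter Topology Set
open scoped UpperHalfPlane MatrixGroups ENNReal
open Pool.Agent.A54.Dyn (G fl base ze io mk4 dom)
open Pool.Agent.A54.Av (Mat)
open Pool.Agent.A54.Hp (nu nm Mn Om Nb bt xi uu pr nz Tb ms FF HE Pm GdC GdK StmtNuL StmtUnf StmtNm)

noncomputable section

namespace TSM

lemma isClosed_Om (R : ℝ) : IsClosed (Om R) := by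
  have e : Om R = ⋂ i : Fin 2, ⋂ j : Fin 2, {g : G | |g i j| ≤ R} := by
    ext g; simp [Om]
  rw [e]
  exact isClosed_iInter fun i => isClosed_iInter fun j =>
    isClosed_le (Dyn.continuous_entry i j).abs continuous_const

lemma continuous_xi (i : Fin 3) : Continuous fun g : G => xi g i := by
  have h := Dyn.continuous_entry
  fin_cases i
  · exact ((h 0 0).mul (h 1 1)).add ((h 0 1).mul (h 1 0))
  · exact ((h 0 0).mul (h 0 1)).neg
  · exact (h 1 0).mul (h 1 1)

lemma isClosed_Tb (R : ℝ) (ζ : Fin 3 → ℝ) (w : ℝ) : IsClosed (Tb R ζ w) := by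
  have e : Tb R ζ w = Om R ∩ ⋂ i : Fin 3, {g : G | |xi g i - ζ i| ≤ w} := by
    ext p; simp [Tb]
  rw [e]
  exact (isClosed_Om R).inter (isClosed_iInter fun i =>
    isClosed_le ((continuous_xi i).sub continuous_const).abs continuous_const)

end TSM

theorem stmtTS (h1 : StmtPar) (h2 : StmtCol) : StmtTS := by
  intro R hR
  obtain ⟨C, hC, hP⟩ := h1 R hR
  refine ⟨max C (8 * (4 * R ^ 2 + 1) ^ 4), le_max_of_le_left hC, ?_⟩
  intro l Φ hΦ M η ζ hM hη hMη P hS hPM
  have hx : 0 ≤ M ^ 4 * η := by positivity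
  have h3 : C * (M ^ 4 * η) ≤ 1 := (mul_le_mul_of_nonneg_right (le_max_left _ _) hx).trans hMη
  obtain ⟨n, hn, hcol⟩ := hP M η ζ hM hη h3 P fun p hp => ⟨(hS p hp).1, hPM p hp⟩
  refine (h2 l Φ hΦ R hR (Tb R ζ η) (TSM.isClosed_Tb R ζ η).measurableSet (fun g hg => hg.1) P hS n hn hcol).trans ?_
  exact ENNReal.ofReal_le_ofReal (le_max_right _ _)

end

end Pool.Agent.A54.HSF
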