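import Pool.Agent.Lib.HS.F.Gd
import Pool.Agent.Lib.HS.F.Id
import Pool.Agent.Lib.HS.F.Uf
import Pool.Agent.Lib.HS.F.Al
import Pool.Agent.Lib.HS.F.Ct
import Pool.Agent.Lib.HS.F.Col
import Pool.Agent.Lib.HS.F.Cr
import Pool.Agent.Lib.HS.F.Par
import Pool.Agent.Lib.HS.F.TS
import Pool.Agent.Lib.HS.F.Dq
import Pool.Agent.Lib.HS.F.Nt
import Pool.Agent.Lib.HS.F.Cov
import Pool.Agent.Lib.HS.F.NC
import Pool.Agent.Lib.HS.F.Bp
import Pool.Agent.Lib.HS.F.FT
import Pool.Agent.Lib.HS.F.FC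
import Pool.Agent.Lib.MP_a54f13_nt.Hp.NuLeft
import Pool.Agent.Lib.MP_a54f13_nt.Hp.Unf
import Pool.Agent.Lib.MP_a54f13_nt.Hp.Nm
import Pool.Agent.Lib.MP_a54f13_nt.Th.ChP

/-!
# Project H*, part (F): the results without hypotheses
-/

set_option autoImplicit false

namespace Pool.Agent.A54.HSF

/-- unfolding -/
theorem unf : Hp.StmtUnf := Hp.stmtUnf Hp.stmtNuL

/-- LEMMA U -/
theorem col : StmtCol :=
  stmtCol (stmtUf Hp.stmtNuL unf Hp.stmtNm (stmtId Hp.stmtNm stmtGd)) (stmtCt Hp.stmtNm stmtAl)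

/-- tubes -/
theorem ts : StmtTS := stmtTS (stmtPar (stmtCr Hp.stmtNm) Hp.stmtNm) col

/-- N-type conics -/
theorem nc : StmtNC := stmtNC (stmtCov (stmtNt Hp.stmtNm) stmtDq) col ts

/-- primes with small eigenvalue in the bad case -/
theorem bp : StmtBp := stmtBp Th.stmtChP

/-- tubes in the bad case -/
theorem ft : StmtFT := stmtFT ts bp

/-- N-type conics in the bad case -/
theorem fc : StmtFC := stmtFC nc bp

end Pool.Agent.A54.HSF
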