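import Pool.Agent.Lib.HS.F.SpecI

/-!
# Project H*, part (F), module Zq: small values of `q` and the cusp set (helper69)
-/

set_option autoImplicit false

namespace Pool.Agent.A54.HSF

open MeasureTheory Filter Topology Set
open Pool.Agent.A54.Dyn (G)
open Pool.Agent.A54.Hp (Om Zc)

noncomputable section

theorem stmtZq : StmtZq := by
  intro R L δ u hδ hu hL y hy hq
  have hR : ∀ i j, |y i j| ≤ R := hy
  have hb : ∀ k, |(u 0 : ℝ) * y 0 k + (u 1 : ℝ) * y 1 k| ≤ 2 * R * L := by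
    intro k
    refine (abs_add_le _ _).trans ?_
    rw [abs_mul, abs_mul]
    have h1 := mul_le_mul (hL 0) (hR 0 k) (abs_nonneg _) ((abs_nonneg _).trans (hL 0))
    have h2 := mul_le_mul (hL 1) (hR 1 k) (abs_nonneg _) ((abs_nonneg _).trans (hL 1))
    linarith
  have hne : (![u 1, - u 0] : Fin 2 → ℤ) ≠ 0 := by
    intro h
    have h1 : u 1 = 0 := congrFun h 0
    have h0 : - u 0 = 0 := congrFun h 1
    rw [h1, neg_eq_zero.1 h0] at hu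
    obtain ⟨a, b, hab⟩ := hu
    simp at hab
  have e1 : y 1 1 * ((![u 1, - u 0] : Fin 2 → ℤ) 0 : ℝ) -
      y 0 1 * ((![u 1, - u 0] : Fin 2 → ℤ) 1 : ℝ) = (u 0 : ℝ) * y 0 1 + (u 1 : ℝ) * y 1 1 := by
    show y 1 1 * ((u 1 : ℤ) : ℝ) - y 0 1 * ((- u 0 : ℤ) : ℝ) = _
    push_cast
    ring
  have e2 : -(y 1 0) * ((![u 1, - u 0] : Fin 2 → ℤ) 0 : ℝ) +
      y 0 0 * ((![u 1, - u 0] : Fin 2 → ℤ) 1 : ℝ) =
      -((u 0 : ℝ) * y 0 0 + (u 1 : ℝ) * y 1 0) := by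
    show -(y 1 0) * ((u 1 : ℤ) : ℝ) + y 0 0 * ((- u 0 : ℤ) : ℝ) = _
    push_cast
    ring
  refine ⟨hy, ![u 1, - u 0], hne, ?_⟩
  rw [e1, e2, abs_neg]
  by_cases h : |(u 0 : ℝ) * y 0 1 + (u 1 : ℝ) * y 1 1| ≤ √δ
  · exact Or.inl ⟨h, hb 0⟩
  · refine Or.inr ⟨?_, hb 1⟩
    by_contra h'
    push Not at h h'
    have h1 := mul_lt_mul'' h' h (Real.sqrt_nonneg _) (Real.sqrt_nonneg _)
    rw [Real.mul_self_sqrt hδ, ← abs_mul] at h1
    exact absurd hq (not_le.2 h1)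

end

end Pool.Agent.A54.HSF
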